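import Mathlib
import Pool.Agent.H432.RC.Core2
import Pool.Graph.R_seed8.W180.OP.Global
import Pool.Graph.R_pool_sql_team_seeded_63374d34.N750.Germ

/-!
# Project AC (helper432): Vojta's inequality on all curves of bounded degree. Statements.

`K` is an algebraically closed field of characteristic `0`, `F` a function field of one variable over
`K` (finite over `K(t)`, `t` transcendental). A place of `F` is a `K`-algebra homomorphism
`ι : F → K((s))` with an element `π` for which `ι π` has order `1`.
-/

set_option autoImplicit false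
set_option linter.unusedVariables false

namespace Pool.Agent.H432.AC

open MvPolynomial Filter Pool.Agent.N750 Pool.Agent.H432.RC NumberField
open Pool.Agent.W180.OP (Pl av wt nrm)

/-! ## Definitions -/

/-- `f` is integral (in degree one) over the system `g`: `f ^ m + ∑ a_i(g) f ^ i = 0` where `a_i` is a
homogeneous polynomial of degree `m - i` over `K` in the `g_j`. -/
def Dom (K : Type) {F ι : Type} [Field K] [Field F] [Algebra K F] (g : ι → F) (f : F) : Prop :=
  ∃ (m : ℕ) (a : Fin m → MvPolynomial ι K), (∀ i, (a i).IsHomogeneous (m - i)) ∧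
    f ^ m + ∑ i : Fin m, aeval g (a i) * f ^ (i : ℕ) = 0

/-- the same relation for polynomials in two variables modulo `P` -/
def Rel {R ι : Type} [CommRing R] (P : MvPolynomial (Fin 2) R) (g : ι → MvPolynomial (Fin 2) R)
    (f : MvPolynomial (Fin 2) R) : Prop :=
  ∃ (m : ℕ) (a : Fin m → MvPolynomial ι R), (∀ i, (a i).IsHomogeneous (m - i)) ∧
    P ∣ f ^ m + ∑ i : Fin m, aeval g (a i) * f ^ (i : ℕ)

/-- The certificate for the curve `P = 0` with the map `φ` to the variety with the equations `G i` and
the divisors with the equations `F i j` (of degree `δ i`). `t` is the coordinate `X c`. -/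
def Cert {k R : Type} [Field k] [CommRing R] [Algebra k R] {M g q w : ℕ} (n' : ℕ)
    (G : Fin g → MvPolynomial (Fin M) k) (F : Fin q → Fin w → MvPolynomial (Fin M) k)
    (δ : Fin q → ℕ) (P : MvPolynomial (Fin 2) R) (φ : Fin M → MvPolynomial (Fin 2) R) : Prop :=
  ∃ (c : Fin 2) (ν e : ℕ) (b : Fin ν → R) (Q : MvPolynomial (Fin 2) R)
    (Γ : (Fin (n' + 2) → Fin M) → MvPolynomial (Fin 2) R),
    3 ≤ ν ∧ 2 ≤ e ∧ Function.Injective b ∧ 0 < degreeOf (c + 1) P ∧ ¬ P ∣ Q ∧ (∃ J, ¬ P ∣ Γ J) ∧
    (∀ J (i j : Fin (n' + 2)), i ≠ j → P ∣ Γ (J ∘ Equiv.swap i j) + Γ J) ∧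
    (∀ i J, P ∣ ∑ l, aeval φ (pderiv l (G i)) * Γ (Function.update J 0 l)) ∧
    (∀ J l, Rel P (fun x : Fin M × (Fin q → Fin w) × Fin 2 =>
        Q * φ x.1 ^ (n' + 2) * (∏ i, aeval φ (F i (x.2.1 i))) * X c ^ ((x.2.2 : ℕ) * (ν - 1)))
      (Γ J * (∏ a, (X c - C (b a))) * φ l ^ (∑ i, δ i))) ∧
    (∀ J, Rel P (fun x : Fin M × Fin 2 =>
        Q ^ e * φ x.1 ^ (e * (n' + 2)) * X c ^ ((x.2 : ℕ) * ((e - 1) * (ν + 1) - 2 * e)))
      (Γ J ^ e * (∏ a, (X c - C (b a))) ^ (e - 1)))

/-! ## Valuations of function fields -/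

/-- **VAL**. Proof. If `f = 0` take `m = 1`, `a = 0`. Let `f ≠ 0`, `A` the subring of `F` generated by
`K` and all `g_j / f`, `I` the ideal of `A` generated by the `g_j / f`. If `I ≠ A` then
`Ideal.image_subset_nonunits_valuationSubring` gives a valuation subring `V ⊇ A` for which all
`g_j / f` are nonunits; by hypothesis `f = a g_j` with `a ∈ V`, so `1 = a (g_j / f)`, a contradiction.
Hence `1 ∈ I`, i.e. `1 = p(g / f)` for a polynomial `p` over `K` in the `g_j / f` with constant term
`0` (elements of `I` are such values). With `m` = total degree of `p` and `p_i` = homogeneous component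
of degree `i` (`1 ≤ i ≤ m`) multiply by `f ^ m`: `f ^ m = ∑_i p_i(g) f ^ (m - i)`. -/
def S_VAL : Prop := ∀ (K F : Type) [Field K] [Field F] [Algebra K F] (ι : Type) (g : ι → F) (f : F),
  (∀ V : ValuationSubring F, (∀ c : K, algebraMap K F c ∈ V) → ∃ j, ∃ a ∈ V, f = a * g j) →
    Dom K g f

/-- **EMB1**. A nontrivial valuation ring of `F / K` is a discrete valuation ring with residue field
`K`. Proof. Replacing `t` by `1 / t` we may assume `t ∈ V` (`K(1/t) = K(t)`). Let `B` be the integral
closure of `K[t]` in `F` (a Dedekind domain with fraction field `F`, Mathlib: `integralClosure`,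
`IsIntegralClosure.isDedekindDomain`, finite separable extension of `K(t)`; `B ⊆ V` since `V` is
integrally closed). `𝔭 = 𝔪_V ∩ B` is not `0` (otherwise `V ⊇ Frac B = F`). `B_𝔭` is a discrete valuation
ring contained in `V ≠ F`, so `V = B_𝔭` (an overring of a valuation ring `A` of rank one is `A` or the
field: if `x ∈ V`, `x ∉ A`, then `x = u π ^ (-n)` with `n ≥ 1`, so `π⁻¹ ∈ V` and `V = F`). The residue
field is `B / 𝔭`, a finite extension of `K[t] / (𝔭 ∩ K[t])`, which is finite over `K`, so it is `K`
(`K` is algebraically closed). `π` = a uniformizer. Alternatively (without Dedekind domains): the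
fundamental inequality `[κ(V) : K] ≤ [F : K(t)]`, and the index of value groups is at most
`[F : K(t)]`. -/
def S_EMB1 : Prop := ∀ (K F : Type) [Field K] [Field F] [Algebra K F] [IsAlgClosed K] [CharZero K]
  (t : F), Transcendental K t → FiniteDimensional (IntermediateField.adjoin K {t}) F →
  ∀ V : ValuationSubring F, (∀ c : K, algebraMap K F c ∈ V) → V ≠ ⊤ →
  ∃ π : F, π ≠ 0 ∧ π ∈ V ∧ π⁻¹ ∉ V ∧
    (∀ f ∈ V, ∃ c : K, ∃ g ∈ V, f = algebraMap K F c + π * g) ∧
    (∀ f : F, f ≠ 0 → ∃ n : ℤ, f * π ^ n ∈ V ∧ (f * π ^ n)⁻¹ ∈ V)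

/-- **EMB2**. The Laurent expansion. Proof. For `f ∈ V` the constant `c` with `f - c ∈ π V` is unique
(`K ∩ π V = 0` since `π⁻¹ ∉ V`); iterate to get a power series `p` with
`f - ∑_{i < n} p_i π ^ i ∈ π ^ n V` for all `n`; `p` is uniquely determined by this property
(if two series have it, their difference satisfies `∑_{i<n} d_i π^i ∈ π^n V`, look at the first
nonzero `d_i`). Hence `f ↦ p` is an injective `K`-algebra homomorphism `V → K⟦s⟧` (for products:
`(∑_{i<n} p_i π^i)(∑_{i<n} q_i π^i)` is congruent to the truncation of the product modulo `π^n V`;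
injective: a nonzero `f` is `u π^(-n)` with a unit `u`), `π ↦ s`, and units go to units. Extend it to
the fraction field `F` of `V` (`IsLocalization.lift` or define `ι (u π ^ n) = ι(u) s ^ n`). -/
def S_EMB2 : Prop := ∀ (K F : Type) [Field K] [Field F] [Algebra K F] (V : ValuationSubring F)
  (π : F), (∀ c : K, algebraMap K F c ∈ V) → π ≠ 0 → π ∈ V → π⁻¹ ∉ V →
  (∀ f ∈ V, ∃ c : K, ∃ g ∈ V, f = algebraMap K F c + π * g) →
  (∀ f : F, f ≠ 0 → ∃ n : ℤ, f * π ^ n ∈ V ∧ (f * π ^ n)⁻¹ ∈ V) →
  ∃ ι : F →ₐ[K] LaurentSeries K, (ι π).orderTop = 1 ∧ ∀ f, f ∈ V ↔ 0 ≤ (ι f).orderTop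

/-- **RAM**. The ramification indices are bounded by `[F : K(t)]`. Proof. Let `u = t - c`, so
`K(u) = K(t)`, and let `ι u` have order `n`; we may assume `n ≠ 0`. `K(t)` is the fraction field of
`K[u]`, and `ι` of a nonzero element of `K(t)` has an order divisible by `n` (a nonzero polynomial
`∑ c_i u^i` has terms of distinct orders `i n`, so its order is `i n` for the smallest or largest `i`
with `c_i ≠ 0`). The elements `1, π, …, π ^ (|n| - 1)` of `F` are linearly independent over `K(t)`: in
a relation `∑ a_i π^i = 0` the orders of the nonzero terms are `≡ i` modulo `n`, hence distinct. So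
`|n| ≤ [F : K(t)]`. -/
def S_RAM : Prop := ∀ (K F : Type) [Field K] [Field F] [Algebra K F] [CharZero K]
  (t : F), Transcendental K t → FiniteDimensional (IntermediateField.adjoin K {t}) F →
  ∃ E0 : ℕ, ∀ ι : F →ₐ[K] LaurentSeries K, (∃ π, (ι π).orderTop = 1) → ∀ (c : K) (n : ℤ),
    (ι (t - algebraMap K F c)).orderTop = (n : WithTop ℤ) → |n| ≤ E0

/-- **FINE**. Only finitely many `c` have a ramified place above them. Proof. Let `θ ∈ F` be a
primitive element of `F / K(t)` which is integral over `K[t]`, with minimal polynomial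
`p = Y^N + … ∈ K[t][Y]`, and let `d = Res(p, p') = ± N(p'(θ)) ∈ K[t]`, `d ≠ 0`. Let `B` = the roots of
`d`. Let `c ∉ B` and `ι` a place with `ι (t - c)` of order `n > 0`. Put `τ = ι t ∈ K⟦s⟧`, `y = ι θ`,
which is integral over `K⟦s⟧`, so `y ∈ K⟦s⟧`. `d(τ)` is a unit of `K⟦s⟧` and is a multiple of
`p'(y)` in `K⟦s⟧` (`d = u p + v p'` with `u, v ∈ K[t][Y]`), so `p_Y(τ, y)` is a unit. We want `n = 1`.
Suppose `n ≥ 2`. Claim: for every `r` the image under `ι` of any `f ∈ F` with `ι f ∈ K⟦s⟧` lies in
`K⟦τ - c⟧`, in particular has no term of degree `1`. One way: by Hensel (or by Newton iteration) there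
is a power series `Y_0(T) ∈ K⟦T⟧` with `p(c + T, Y_0(T)) = 0` and `Y_0(0) = y(0)`; then
`Y_0(τ - c)` and `y` are both roots of `p(τ, Y)` in `K⟦s⟧` with the same constant term, which is a
simple root, so `y = Y_0(τ - c)`. Hence `ι F = ι K(t, θ) ⊆ K((τ - c))`, whose nonzero elements have
orders divisible by `n`, and the element `π` with order `1` gives `n = 1`.
Another way: let `D` be the `K`-derivation of `F` with `D t = 1`, so that `τ' ι(D f) = (ι f)'` for all
`f` (uniqueness of derivations); `D` maps `K[t, θ]` to `K[t, θ, 1 / p'(θ)]`; the ring `K[t,θ,1/d]` is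
integrally closed (its elements `x` integral over `K[t, 1/d]` satisfy `d^? x ∈ K[t, θ]` by Cramer's rule
with the trace form), so the ring of `f ∈ F` integral over `K[t]_{(t-c)}` is `K[t]_{(t-c)}[θ]`, it is
preserved by `D`, and `{f : ι f ∈ K⟦s⟧}` is a localisation of it, so it is also preserved by `D`;
`f = π`: `(ι π)' / τ' ∈ K⟦s⟧`, so `τ'` has order `0`, `n = 1`. -/
def S_FINE : Prop := ∀ (K F : Type) [Field K] [Field F] [Algebra K F] [IsAlgClosed K] [CharZero K]
  (t : F), Transcendental K t → FiniteDimensional (IntermediateField.adjoin K {t}) F →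
  ∃ B : Finset K, ∀ ι : F →ₐ[K] LaurentSeries K, (∃ π, (ι π).orderTop = 1) → ∀ c : K, c ∉ B →
    ∀ n : ℤ, (ι (t - algebraMap K F c)).orderTop = (n : WithTop ℤ) → 0 < n → n = 1

/-- **FINORD**. A nonzero element has order `0` at almost all places. Proof. `f` satisfies
`∑_{i ≤ r} c_i(t) f^i = 0` with `c_i ∈ K[t]`, `c_0 ≠ 0`, `c_r ≠ 0` (take the minimal polynomial over
`K(t)` and clear denominators). Let `B` = the roots of `c_0 c_r`. If `ι (t - c)` has positive order and
`c ∉ B`, then `ι c_0(t)`, `ι c_r(t)` have order `0`, all `ι c_i(t)` have order `≥ 0`, so `ι f` and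
`ι f⁻¹` have order `≥ 0`. -/
def S_FINORD : Prop := ∀ (K F : Type) [Field K] [Field F] [Algebra K F]
  (t : F), Transcendental K t → FiniteDimensional (IntermediateField.adjoin K {t}) F →
  ∀ f : F, f ≠ 0 → ∃ B : Finset K, ∀ ι : F →ₐ[K] LaurentSeries K, ∀ c : K, c ∉ B →
    0 < (ι (t - algebraMap K F c)).orderTop → (ι f).orderTop = 0

/-- **DERX**. Extension of derivations. Proof: `K(t)` is a rational function field, so there is a
derivation of `K[t]` (coefficientwise), extended to `K(t)` by the quotient rule; `F / K(t)` is finite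
separable, `F = K(t)(θ)`, `p(θ) = 0`: put `D θ = - p^D(θ) / p'(θ)`. (Mathlib has
`Differential`-extensions for algebraic extensions, `Mathlib/FieldTheory/Differential/Basic.lean`,
`Derivation.liftOfSurjective`, Kähler differentials of separable extensions; the library has
`Pool.Agent.N750.exists_derivation` in `Pool.Graph...N750`.) -/
def S_DERX : Prop := ∀ (k K F : Type) [Field k] [Field K] [Field F] [CharZero k] [Algebra k K]
  [Algebra K F] [Algebra k F] [IsScalarTower k K F] (t : F), Transcendental K t →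
  FiniteDimensional (IntermediateField.adjoin K {t}) F →
  (∀ d : Derivation k K K, ∃ D : Derivation k F F,
    (∀ c : K, D (algebraMap K F c) = algebraMap K F (d c)) ∧ D t = 0) ∧
  ∃ D : Derivation K F F, D t = 1

/-- **DERU**. Uniqueness of derivations. Proof: `E_0 = {x | Δ x = 0}` is a subfield of `F`
(`Δ 1 = 0`, `Δ (x⁻¹) = - Δ x / (ι x)^2`) which contains `K` and `t`; an element `x` which is algebraic
over `E_0` lies in `E_0`: `0 = Δ (p(x)) = p'(x) Δ x` with the minimal polynomial `p` over `E_0`,
`p'(x) ≠ 0` in characteristic `0`. -/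
def S_DERU : Prop := ∀ (K F L : Type) [Field K] [Field F] [Field L] [CharZero K] [Algebra K F]
  (t : F), FiniteDimensional (IntermediateField.adjoin K {t}) F →
  ∀ (ι : F →+* L) (Δ : F → L), (∀ x y, Δ (x + y) = Δ x + Δ y) →
    (∀ x y, Δ (x * y) = ι x * Δ y + ι y * Δ x) → (∀ c : K, Δ (algebraMap K F c) = 0) → Δ t = 0 →
    ∀ x, Δ x = 0

/-- **SPAN**. Derivations along a generic point span the tangent space. `φ ∈ F^M` is a point of the
cone over `X` which is generic over `k` (no form over `k` outside of the ideal vanishes at `φ`). Proof.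
Let `F' = Frac F[μ]`, `ξ = μ φ`. As in `Pool.Agent.H432.RC.scaled_gen'` (file RC/Sys, same proof with
`F` instead of `Frac 𝕂[X]`) all `P` with `P(ξ) = 0` are in the ideal. The tangent space `TS G ξ` has
dimension `n' + 2` over `F'` (`hsm`) and for each `v ∈ TS G ξ` there is a derivation
`D : Derivation k F' F'` with `D ξ_l = v_l` (`ideal_TS`, `exists_derivation`, used in the proof of
`Pool.Agent.H432.RC.core`, file RC/Core2). So `v = D(μ) φ + μ D(φ)`. Let `(e_α)` be a basis of the
`K`-vector space `F'` with coordinates `ε_α : F' → K`; `d_α (c) = ε_α (D c)` is a derivation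
`d_α : K → K` over `k`; let `D_α` be its extension to `F` with `D_α t = 0` (DERX). For `x ∈ F` there are
`c_1, …, c_s ∈ K` such that `x` is algebraic over `k(c_1, …, c_s, t)`, and a finite set `A` such that
`d_α (c_i) = 0` for all `i` and `α ∉ A`; then `D x = D(t) Dt(x) + ∑_{α ∈ A} e_α D_α(x)`, as the
difference of both sides is a derivation which vanishes at the `c_i` and `t` (see the proof of DERU).
Hence `TS G ξ` is contained in the `F'`-span of `φ`, `Dt φ` and finitely many `D_α φ`, `D_α` as in the
conclusion. Thus the `F`-span of these vectors of `F^M` has dimension at least `n' + 2`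
(linear independence over `F` and over `F'` are the same for vectors in `F^M`), and `ext_pair` (used in
`core`) selects `n'` of them. -/
def S_SPAN : Prop := ∀ (k K F : Type) [Field k] [Field K] [Field F] [CharZero k] [Algebra k K]
  [Algebra K F] [Algebra k F] [IsScalarTower k K F] (t : F), Transcendental K t →
  FiniteDimensional (IntermediateField.adjoin K {t}) F →
  ∀ (M g n' : ℕ) (G : Fin g → MvPolynomial (Fin M) k) (e : Fin g → ℕ),
  (∀ i, (G i).IsHomogeneous (e i)) → Sm (n' + 1) G → ∀ φ : Fin M → F, (∀ i, aeval φ (G i) = 0) →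
  (∀ (P : MvPolynomial (Fin M) k) (m : ℕ), P.IsHomogeneous m → P ∉ Ideal.span (Set.range G) →
    aeval φ P ≠ 0) →
  ∀ Dt : Derivation K F F, Dt t = 1 → LinearIndependent F ![φ, fun l => Dt (φ l)] →
  ∃ (d : Fin n' → Derivation k K K) (D : Fin n' → Derivation k F F),
    (∀ i (c : K), D i (algebraMap K F c) = algebraMap K F (d i c)) ∧ (∀ i, D i t = 0) ∧
    LinearIndependent F (Fin.cons φ (Fin.cons (fun l => Dt (φ l)) (fun i l => D i (φ l))) :
      Fin (n' + 2) → Fin M → F)

/-- **DL**. The two derivations of the field of Laurent series. -/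
def S_DL : Prop := ∀ (k K : Type) [Field k] [Field K] [Algebra k K],
  (∃ D : Derivation K (LaurentSeries K) (LaurentSeries K),
    ∀ f n, (D f).coeff n = (n + 1) * f.coeff (n + 1)) ∧
  ∀ d : Derivation k K K, ∃ D : Derivation k (LaurentSeries K) (LaurentSeries K),
    ∀ f n, (D f).coeff n = d (f.coeff n)

/-- **LOC**. The order of the minors. Proof. Write `ψ_l = s^a χ_l` with `χ_l ∈ K⟦s⟧`, not all `χ_l(0)`
zero. `dS` and the `D i` preserve `K⟦s⟧`, `D i s = 0`, `dS s = 1`. Column operations:
`det (ψ, dS ψ, D_i ψ) = s^((n'+2) a) det (χ, dS χ, D_i χ)` (since `dS ψ = a s^(a-1) χ + s^a dS χ`).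
`F_ij(ψ) = s^(a δ_i) F_ij(χ)`, so `s^(m_i)` divides `F_ij(χ)` in `K⟦s⟧`. To show: `s^(∑ m_i - 1)`
divides `det (χ, dS χ, D_i χ)`. This is the argument of the part `hdvd` of the proof of
`Pool.Agent.H432.RC.core` (file RC/Core2.lean) with `K⟦s⟧` instead of `E[X]`, `T = s` instead of
`X - β a`, the derivations `𝔇 i = D i` (they satisfy `D i s = 0`): the matrix with the columns
`χ, s dS χ, D_i χ` has all contractions with the gradients of `G i` equal to `0` and the contractions
with the gradient of `F i (Jn i)` divisible by `s^(m_i)` (Euler's formula `euler_ring`, `der_aeval`,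
`der_pow_dvd`), the gradients are independent on the tangent space at `χ(0)` by `rank_nc`; hence by
`dvn` (file RC/Dvd.lean, to be proved for power series in place of polynomials: replace evaluation at
`y0` by the constant coefficient, `X - C y0` by `PowerSeries.X`; same proof) its minors are divisible
by `s^(∑ m_i)`, and its minors are `s` times the minors of `(χ, dS χ, D_i χ)`. -/
def S_LOC : Prop := ∀ (k K : Type) [Field k] [Field K] [CharZero k] [Algebra k K]
  (M g q w n' : ℕ) (G : Fin g → MvPolynomial (Fin M) k) (e : Fin g → ℕ)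
  (_ : ∀ i, (G i).IsHomogeneous (e i)) (_ : Sm (n' + 1) G)
  (F : Fin q → Fin w → MvPolynomial (Fin M) k) (δ : Fin q → ℕ)
  (_ : ∀ i j, (F i j).IsHomogeneous (δ i)) (_ : NCD G F)
  (ψ : Fin M → LaurentSeries K) (_ : ∀ i, aeval ψ (G i) = 0) (a : ℤ)
  (_ : ∀ l, (a : WithTop ℤ) ≤ (ψ l).orderTop) (_ : ∃ l, (ψ l).orderTop = (a : WithTop ℤ))
  (m : Fin q → ℕ)
  (_ : ∀ i j, ((a * δ i + m i : ℤ) : WithTop ℤ) ≤ (aeval ψ (F i j)).orderTop)
  (dS : Derivation K (LaurentSeries K) (LaurentSeries K))
  (_ : ∀ f n, (dS f).coeff n = (n + 1) * f.coeff (n + 1))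
  (d : Fin n' → Derivation k K K) (D : Fin n' → Derivation k (LaurentSeries K) (LaurentSeries K))
  (_ : ∀ i f n, (D i f).coeff n = d i (f.coeff n)) (J : Fin (n' + 2) → Fin M),
  ((((n' + 2 : ℕ) : ℤ) * a + ((∑ i, m i - 1 : ℕ) : ℤ) : ℤ) : WithTop ℤ) ≤
    (Matrix.of fun x c => (Fin.cons (ψ (J x)) (Fin.cons (dS (ψ (J x)))
      (fun i => D i (ψ (J x)))) : Fin (n' + 2) → LaurentSeries K) c).det.orderTop

/-- **TRD**. The function field of the plane curve `P = 0`. `x = π (X c)` is transcendental: otherwise
`P` divides a nonzero polynomial `r(X c)`; comparing degrees in the variable `X (c + 1)` gives a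
contradiction. `y = π (X (c + 1))` is algebraic over `K(x)`, since `P(x, y) = 0` and `P` as a
polynomial in the variable `X (c + 1)` over `K[X c]` has a nonzero leading coefficient, which does not
vanish at `x`. `F = K(x, y)`. -/
def S_TRD : Prop := ∀ (K F : Type) [Field K] [Field F] [Algebra K F]
  (P : MvPolynomial (Fin 2) K) (_ : Irreducible P) (c : Fin 2) (_ : 0 < degreeOf (c + 1) P)
  (π : MvPolynomial (Fin 2) K →ₐ[K] F) (_ : ∀ x, π x = 0 ↔ P ∣ x)
  (_ : ∀ f : F, ∃ x y, π y ≠ 0 ∧ f = π x / π y),
  Transcendental K (π (X c)) ∧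
    FiniteDimensional (IntermediateField.adjoin K {π (X c)}) F

/-! ## Ultraproducts -/

/-- **ACL**. An ultrapower of an algebraically closed field is algebraically closed (a monic
polynomial `p` over the ultrapower is the class of monic polynomials of the same degree, which have
roots). The library files `Pool/Graph/R_pool_sql_team_seeded_63374d34/N750/Germ.lean`, `Gmk.lean`
contain the API (`Gm`, `mk`, `mk_eq`, `mk_surj`, `poly_transfer`, `exists_val`). -/
def S_ACL : Prop := ∀ (α : Type) (𝓕 : Ultrafilter α) (K : Type) [Field K] [IsAlgClosed K],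
  IsAlgClosed (Gm 𝓕 K)

/-- **DVD**. Łoś's theorem for divisibility (`P`, `Q` have coefficients in the ring of functions
`α → K`). Forward: the quotient over the ultrapower has a representative with coefficients in
`α → K`, and an identity of polynomials over the ultrapower holds for almost all coordinates. Backward:
if `P_t ∣ Q_t` for almost all `t`, the quotients `R_t` (take `R_t = 0` if `P_t = 0`) have
`totalDegree ≤ totalDegree Q_t ≤` a constant, so they come from one polynomial over `α → K`. -/
def S_DVD : Prop := ∀ (α : Type) (𝓕 : Ultrafilter α) (K : Type) [Field K]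
  (P Q : MvPolynomial (Fin 2) (α → K)),
  (MvPolynomial.map (mk 𝓕) P ∣ MvPolynomial.map (mk 𝓕) Q ↔ ∀ᶠ t in (𝓕 : Filter α),
    MvPolynomial.map (Pi.evalRingHom (fun _ : α => K) t) P ∣
      MvPolynomial.map (Pi.evalRingHom (fun _ : α => K) t) Q)

/-- **IRR**. Łoś's theorem for irreducible polynomials. Proof: if the class of `P` is `A B` then
`P_t = A_t B_t` for almost all `t` with representatives `A_t`, `B_t` of `A`, `B` (with the same
supports); by the ultrafilter property `A_t` is a unit for almost all `t` or `B_t` is a unit for almost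
all `t`; a unit is a nonzero constant, and then the class is a nonzero constant. -/
def S_IRR : Prop := ∀ (α : Type) (𝓕 : Ultrafilter α) (K : Type) [Field K]
  (P : MvPolynomial (Fin 2) (α → K)),
  (∀ᶠ t in (𝓕 : Filter α),
    Irreducible (MvPolynomial.map (Pi.evalRingHom (fun _ : α => K) t) P)) →
    Irreducible (MvPolynomial.map (mk 𝓕) P)

/-! ## Arithmetic -/

/-- **DESC**. The certificate is defined over a finite extension. Proof: all the polynomials in the
certificate (the `b a`, `Q`, `Γ J`, the cofactors of the divisibilities, the polynomials `a i` in the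
relations `Rel`) have finitely many coefficients in `Ω`; let `E` be the subfield of `Ω` generated by
`L` and these coefficients (finite over `L` as `Ω / L` is algebraic). The identities hold over `E`,
since `E[x] → Ω[x]` is injective; `P ∣ Q` over `E` would imply the same over `Ω`; `degreeOf` does not
change. -/
def S_DESC : Prop := ∀ (k L Ω : Type) [Field k] [Field L] [NumberField L] [Algebra k L] [Field Ω]
  [Algebra L Ω] [Algebra.IsAlgebraic L Ω] [Algebra k Ω] [IsScalarTower k L Ω]
  (M g q w n' : ℕ) (G : Fin g → MvPolynomial (Fin M) k)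
  (F : Fin q → Fin w → MvPolynomial (Fin M) k) (δ : Fin q → ℕ) (P : MvPolynomial (Fin 2) L)
  (φ : Fin M → MvPolynomial (Fin 2) L),
  Cert n' G F δ (MvPolynomial.map (algebraMap L Ω) P)
    (fun l => MvPolynomial.map (algebraMap L Ω) (φ l)) →
  ∃ (E : Type) (_ : Field E) (_ : NumberField E) (_ : Algebra L E) (_ : Algebra E Ω)
    (_ : IsScalarTower L E Ω) (_ : Algebra k E) (_ : IsScalarTower k L E),
    Cert n' G F δ (MvPolynomial.map (algebraMap L E) P)
      (fun l => MvPolynomial.map (algebraMap L E) (φ l))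

/-- **FINZ**. Finitely many common zeros. Proof: `P`, `Q` without common factor; the resultant with
respect to each variable gives nonzero polynomials in one variable in the ideal `(P, Q)` (or: Bezout
over `E(X_c)[X_{c+1}]`, clear denominators). -/
def S_FINZ : Prop := ∀ (E : Type) [Field E] (P Q : MvPolynomial (Fin 2) E), Irreducible P →
  ¬ P ∣ Q → {z : Fin 2 → E | eval z P = 0 ∧ eval z Q = 0}.Finite

/-- **HT**. The height of the coordinate `z c` is bounded by the height of `φ(z)`, up to finitely many
points. Proof. Let `A = E[X_0, X_1] / (P)`, a domain, and `F` its fraction field. `u = φ_l / φ_l'` is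
transcendental over `E`: otherwise `u` is a root in `F` of an irreducible polynomial over `E`; passing
to `Ω[X_0, X_1] / (P)`, which is a domain, this polynomial splits and `φ_l - c0 φ_l' = 0` there for
some `c0 ∈ Ω`, which was excluded. `F` has transcendence degree `1` over `E`, so `x = X_c` is algebraic
over `E(u)`: there is a relation `∑_{i ≤ r} a_i(u) x^i = 0` in `F` with polynomials `a_i` over `E`, not
all `0`, and we may assume `r ≥ 1`, `a_r ≠ 0` (if the only nonzero `a_i` were `a_0` then `u` would be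
algebraic). With `D` = the maximal degree of the `a_i` and the forms
`ã_i(Y, Z) = Z^D a_i(Y / Z)`: `P ∣ ∑_i ã_i(φ_l, φ_l') X_c^i`, `P ∤ ã_r(φ_l, φ_l')`. By FINZ only
finitely many `z` with `P(z) = 0` have `ã_r(φ_l(z), φ_l'(z)) = 0`. For the other `z` the number
`z c` is a root of the polynomial with the coefficients `ã_i(φ_l(z), φ_l'(z))`, so
`av p (z c) ≤ C_p max_i |ã_i| / |ã_r|` at all places `p`, hence
`h(1, z c) ≤ h(ã_0 : … : ã_r) + C ≤ D h(φ_l(z) : φ_l'(z)) + C' ≤ D h(φ(z)) + C'`
(tools in the tar: `ht_bd`, `ev_up`, `Bd` in Pool/Agent/H432/TC/Bd.lean, `av_poly` and `ht_part` in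
N750/Triv.lean, `logHeight_linearMap_apply_le` in Mathlib). -/
def S_HT : Prop := ∀ (E Ω : Type) [Field E] [NumberField E] [Field Ω] [Algebra E Ω] [IsAlgClosed Ω]
  (M : ℕ) (P : MvPolynomial (Fin 2) E) (φ : Fin M → MvPolynomial (Fin 2) E) (c : Fin 2)
  (l l' : Fin M), Irreducible (MvPolynomial.map (algebraMap E Ω) P) → ¬ P ∣ φ l' →
  (∀ c0 : Ω, ¬ MvPolynomial.map (algebraMap E Ω) P ∣
    MvPolynomial.map (algebraMap E Ω) (φ l) - C c0 * MvPolynomial.map (algebraMap E Ω) (φ l')) →
  ∃ (C1 : ℝ) (T : Set (Fin 2 → E)), 0 ≤ C1 ∧ T.Finite ∧ ∀ z : Fin 2 → E, eval z P = 0 → z ∉ T →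
    (fun i => eval z (φ i)) ≠ 0 →
    Height.logHeight ![1, z c] ≤ C1 * (Height.logHeight (fun i => eval z (φ i)) + 1)

/-- **LOCB**. The local bound which follows from an integral relation. Proof. `|a_i(g)| ≤ B_i |g|^(m-i)`
with `|g| = max_j |g_j|` and `B_i` = (number of terms, at the infinite places) times (maximum of `1` and
the absolute values of the coefficients). If `|f| > C |g|` with `C = cst(m + 1) ∏ B_i` then
`|a_i(g) f^i| < |f|^m / (m + 1)` (at finite places `< |f|^m`) for all `i`, a contradiction. The set of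
places where `C_p ≠ 1` is contained in the infinite places and the finite places at which some
coefficient has absolute value `> 1`. -/
def S_LOCB : Prop := ∀ (E ι : Type) [Field E] [NumberField E] [Fintype ι] [Nonempty ι] (m : ℕ)
  (a : Fin m → MvPolynomial ι E), (∀ i, (a i).IsHomogeneous (m - i)) →
  ∃ Cb : Pl E → ℝ, ((∀ p, 1 ≤ Cb p) ∧ {p | Cb p ≠ 1}.Finite) ∧ ∀ (g : ι → E) (f : E),
    f ^ m + ∑ i : Fin m, aeval g (a i) * f ^ (i : ℕ) = 0 →
    ∀ p : Pl E, ∃ j, av p f ≤ Cb p * av p (g j)

end Pool.Agent.H432.AC
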