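import Mathlib
import Pool.Agent.H432.AC.Stm
import Pool.Agent.H432.TC.Bd

/-!
Project AC, task LOCB: local bounds from an integral relation.
-/

set_option autoImplicit false

namespace Pool.Agent.H432.AC

open MvPolynomial Filter Pool.Agent.N750 Pool.Agent.H432.RC NumberField
open Pool.Agent.W180.OP (Pl av wt nrm le_nrm nrm_nonneg)

namespace PLOCB

open Pool.Agent.H432.TC (Bd Bd_cst Bd_nrm le_prod_bd)

variable {E ι : Type} [Field E] [NumberField E] [Fintype ι]

/-- the size of the values of a form -/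
theorem form_bd (P : MvPolynomial ι E) {d : ℕ} (hP : P.IsHomogeneous d) :
    ∃ B : Pl E → ℝ, Bd B ∧ ∀ (g : ι → E) (p : Pl E) (M : ℝ), 0 ≤ M → (∀ j, av p (g j) ≤ M) →
      av p (aeval g P) ≤ B p * M ^ d := by
  classical
  let e := P.support.equivFin
  obtain ⟨c, hc⟩ : ∃ c : Fin (P.support.card + 1) → E,
      c = Fin.cons 1 (fun i => P.coeff (e.symm i).1) := ⟨_, rfl⟩
  have hc0 : c 0 = 1 := by rw [hc, Fin.cons_zero]
  refine ⟨fun p => cst (max 1 (P.support.card : ℝ)) p * nrm (av p) c,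
    (Bd_cst (le_max_left _ _)).mul (Bd_nrm c 0 hc0), fun g p M hM hg => ?_⟩
  have hcoef : ∀ m ∈ P.support, av p (P.coeff m) ≤ nrm (av p) c := by
    intro m hm
    have h1 := le_nrm (av p) c (e ⟨m, hm⟩).succ
    rw [hc] at h1 ⊢
    simp only [Fin.cons_succ, Equiv.symm_apply_apply] at h1
    exact h1
  rw [MvPolynomial.aeval_def, MvPolynomial.eval₂_eq, mul_assoc]
  refine av_sum p P.support _ (nrm (av p) c * M ^ d)
    (mul_nonneg (nrm_nonneg _ _) (pow_nonneg hM _)) (fun m hm => ?_)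
    (max 1 (P.support.card : ℝ)) (le_max_right _ _)
  rw [map_mul, map_prod]
  have hdeg : ∑ i ∈ m.support, m i = d := by
    have h2 := hP (MvPolynomial.mem_support_iff.1 hm)
    rw [Finsupp.weight_apply, Finsupp.sum] at h2
    simpa using h2
  refine mul_le_mul ?_ ?_ (Finset.prod_nonneg fun i _ => (av p).nonneg _) (nrm_nonneg _ _)
  · exact hcoef m hm
  · rw [← hdeg, ← Finset.prod_pow_eq_pow_sum]
    refine Finset.prod_le_prod (fun i _ => (av p).nonneg _) fun i _ => ?_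
    rw [map_pow]
    exact pow_le_pow_left₀ ((av p).nonneg _) (hg i) _

end PLOCB

open PLOCB in
theorem locb : S_LOCB := by
  intro E ι _ _ _ _ m a ha
  classical
  choose B hB hBb using fun i => form_bd (a i) (ha i)
  obtain ⟨Cb, hCb⟩ : ∃ Cb : Pl E → ℝ, Cb = fun p => cst ((m : ℝ) + 1) p * ∏ i, B i p := ⟨_, rfl⟩
  have hbd : Pool.Agent.H432.TC.Bd Cb := by
    rw [hCb]
    exact (Pool.Agent.H432.TC.Bd_cst (by
      have : (0 : ℝ) ≤ m := Nat.cast_nonneg m
      linarith)).mul (Pool.Agent.H432.TC.Bd.prod _ _ fun i _ => hB i)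
  refine ⟨Cb, hbd, fun g f hrel p => ?_⟩
  obtain ⟨j, hj⟩ := Finite.exists_max fun j => av p (g j)
  refine ⟨j, ?_⟩
  by_contra hlt
  push Not at hlt
  obtain ⟨M, hM⟩ : ∃ M : ℝ, M = av p (g j) := ⟨_, rfl⟩
  obtain ⟨x, hx⟩ : ∃ x : ℝ, x = av p f := ⟨_, rfl⟩
  rw [← hM, ← hx] at hlt
  have hM0 : 0 ≤ M := by rw [hM]; exact (av p).nonneg _
  obtain ⟨C, hC⟩ : ∃ C : ℝ, C = ∏ i, B i p := ⟨_, rfl⟩
  have hC1 : 1 ≤ C := by
    rw [hC]
    exact (Pool.Agent.H432.TC.Bd.prod Finset.univ B fun i _ => hB i).1 p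
  obtain ⟨c', hc'⟩ : ∃ c' : ℝ, c' = cst ((m : ℝ) + 1) p := ⟨_, rfl⟩
  have hc1 : 1 ≤ c' := by
    rw [hc']
    refine one_le_cst ?_ p
    have : (0 : ℝ) ≤ m := Nat.cast_nonneg m
    linarith
  have hlt' : c' * C * M < x := by
    have : Cb p = c' * C := by rw [hCb, hc', hC]
    rwa [this] at hlt
  have hMx : M ≤ x := by
    have h1 : 1 ≤ c' * C := one_le_mul_of_one_le_of_one_le hc1 hC1
    nlinarith
  have hx0 : 0 < x := by
    have : 0 ≤ c' * C * M := by positivity
    linarith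
  obtain ⟨k, rfl⟩ : ∃ k, m = k + 1 := by
    rcases m with _ | k
    · exfalso
      simp at hrel
    · exact ⟨k, rfl⟩
  have hterm : ∀ i ∈ (Finset.univ : Finset (Fin (k + 1))),
      av p (aeval g (a i) * f ^ (i : ℕ)) ≤ C * M * x ^ k := by
    intro i _
    have h1 := hBb i g p M hM0 (fun j' => by rw [hM]; exact hj j')
    have h2 : B i p ≤ C := by
      rw [hC]
      exact Pool.Agent.H432.TC.le_prod_bd Finset.univ (fun i => B i p) (fun i _ => (hB i).1 p)
        (Finset.mem_univ i)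
    obtain ⟨t, ht⟩ : ∃ t, k + 1 - (i : ℕ) = t + 1 := ⟨k - i, by omega⟩
    have ht' : k = t + i := by omega
    rw [ht] at h1
    rw [map_mul, map_pow, ← hx]
    have h3 : M ^ (t + 1) ≤ M * x ^ t := by
      rw [pow_succ, mul_comm]
      exact mul_le_mul_of_nonneg_left (pow_le_pow_left₀ hM0 hMx t) hM0
    have hB0 : 0 ≤ B i p := zero_le_one.trans ((hB i).1 p)
    calc av p (aeval g (a i)) * x ^ (i : ℕ) ≤ (B i p * M ^ (t + 1)) * x ^ (i : ℕ) :=
          mul_le_mul_of_nonneg_right h1 (by positivity)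
      _ ≤ (C * (M * x ^ t)) * x ^ (i : ℕ) := by
          refine mul_le_mul_of_nonneg_right ?_ (by positivity)
          exact mul_le_mul h2 h3 (by positivity) (by linarith)
      _ = C * M * x ^ k := by
          have h5 : x ^ k = x ^ t * x ^ (i : ℕ) := by rw [← pow_add, ← ht']
          rw [h5]; ring
  have hsum := av_sum p Finset.univ (fun i : Fin (k + 1) => aeval g (a i) * f ^ (i : ℕ))
    (C * M * x ^ k) (by positivity) hterm (((k + 1 : ℕ) : ℝ) + 1) (by
      rw [Finset.card_univ, Fintype.card_fin]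
      linarith)
  have heq : f ^ (k + 1) = -∑ i : Fin (k + 1), aeval g (a i) * f ^ (i : ℕ) :=
    eq_neg_of_add_eq_zero_left hrel
  have hav : x ^ (k + 1) = av p (∑ i : Fin (k + 1), aeval g (a i) * f ^ (i : ℕ)) := by
    rw [hx, ← map_pow, heq, AbsoluteValue.map_neg]
  rw [← hav, ← hc'] at hsum
  have h4 : c' * (C * M * x ^ k) = (c' * C * M) * x ^ k := by ring
  rw [h4, pow_succ, mul_comm (x ^ k) x] at hsum
  exact absurd hsum (not_le.2 (mul_lt_mul_of_pos_right hlt' (by positivity)))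

end Pool.Agent.H432.AC
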