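import Mathlib
import Pool.Agent.H432.AC.P_LOCB
import Pool.Agent.H432.AC.Stm
import Pool.Agent.H432.TC.Main

/-!
Functions on the set of places and heights.
-/

set_option autoImplicit false
set_option linter.unusedVariables false
set_option linter.unusedSectionVars false

namespace Pool.Agent.H432.AC

open NumberField IsDedekindDomain Height Module MvPolynomial Pool.Agent.N750 Pool.Agent.H432.RC
open Pool.Agent.H432.TC (Bd Bd_cst Bd_nrm bdc le_prod_bd)
open Pool.Agent.W180.OP (Pl av nrm le_nrm nrm_pos exists_nrm nrm_nonneg)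
open Pool.Agent.Q290.NF (ell ell_pos)

section HF

variable {K : Type} [Field K] [NumberField K]

/-- the function `L` on the places has the global sum `H` -/
def HF (L : Pl K → ℝ) (H : ℝ) : Prop :=
  {v : HeightOneSpectrum (𝓞 K) | L (Sum.inr v) ≠ 0}.Finite ∧
    H = ∑ w : InfinitePlace K, (w.mult : ℝ) * L (Sum.inl w) +
      ∑ᶠ v : HeightOneSpectrum (𝓞 K), L (Sum.inr v)

theorem HF.add {L L' : Pl K → ℝ} {H H' : ℝ} (h : HF L H) (h' : HF L' H') :
    HF (fun p => L p + L' p) (H + H') := by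
  refine ⟨(h.1.union h'.1).subset fun v hv => ?_, ?_⟩
  · by_contra hcon
    simp only [Set.mem_union, Set.mem_ofPred_eq, not_or, not_not] at hcon hv
    exact hv (by rw [hcon.1, hcon.2, add_zero])
  · rw [h.2, h'.2, finsum_add_distrib h.1 h'.1]
    simp only [mul_add, Finset.sum_add_distrib]
    ring

theorem HF.smul {L : Pl K → ℝ} {H : ℝ} (h : HF L H) (c : ℝ) :
    HF (fun p => c * L p) (c * H) := by
  refine ⟨h.1.subset fun v hv => ?_, ?_⟩
  · intro h0
    simp only [Set.mem_ofPred_eq] at hv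
    exact hv (by rw [h0, mul_zero])
  · rw [h.2, mul_add, Finset.mul_sum, mul_finsum]
    congr 1
    exact Finset.sum_congr rfl fun w _ => by ring

theorem HF_zero : HF (fun _ : Pl K => (0 : ℝ)) 0 := by
  refine ⟨?_, ?_⟩
  · convert Set.finite_empty
    ext v
    simp
  · simp

theorem HF.sum {ι : Type} (s : Finset ι) {L : ι → Pl K → ℝ} {H : ι → ℝ}
    (h : ∀ i ∈ s, HF (L i) (H i)) : HF (fun p => ∑ i ∈ s, L i p) (∑ i ∈ s, H i) := by
  classical
  induction s using Finset.induction_on with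
  | empty =>
    simp only [Finset.sum_empty]
    exact HF_zero
  | insert i s hi ih =>
    simp only [Finset.sum_insert hi]
    exact (h i (Finset.mem_insert_self _ _)).add
      (ih fun j hj => h j (Finset.mem_insert_of_mem hj))

theorem HF.mono {L L' : Pl K → ℝ} {H H' : ℝ} (h : HF L H) (h' : HF L' H')
    (hle : ∀ p, L p ≤ L' p) : H ≤ H' := by
  rw [h.2, h'.2]
  refine add_le_add (Finset.sum_le_sum fun w _ =>
    mul_le_mul_of_nonneg_left (hle _) (Nat.cast_nonneg _)) ?_
  exact finsum_le_finsum' h.1 h'.1 fun v => hle _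

/-- heights -/
theorem HF_nrm {n : ℕ} (y : Fin n → K) (hy : y ≠ 0) :
    HF (fun p => Real.log (nrm (av p) y)) (logHeight y) := by
  classical
  have hfin : {v : HeightOneSpectrum (𝓞 K) |
      nrm (Pool.Agent.W180.OP.fv v) y ≠ 1}.Finite := Pool.Agent.R405.nrm_finite y hy
  have hsub : {v : HeightOneSpectrum (𝓞 K) | Real.log (nrm (av (Sum.inr v : Pl K)) y) ≠ 0} ⊆
      {v : HeightOneSpectrum (𝓞 K) | nrm (Pool.Agent.W180.OP.fv v) y ≠ 1} := by
    intro v hv h0
    apply hv
    show Real.log (nrm (Pool.Agent.W180.OP.fv v) y) = 0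
    rw [h0, Real.log_one]
  refine ⟨hfin.subset hsub, ?_⟩
  rw [Pool.Agent.R405.logHeight_sum y hy hfin.toFinset fun v hv => by
    by_contra hne
    exact hv (hfin.mem_toFinset.2 hne)]
  congr 1
  symm
  refine finsum_eq_sum_of_support_subset _ fun v hv => ?_
  rw [Finset.mem_coe, hfin.mem_toFinset]
  exact hsub hv

/-- the product formula -/
theorem HF_av (a : K) (ha : a ≠ 0) : HF (fun p => Real.log (av p a)) 0 := by
  have h1 := HF_nrm (fun _ : Fin 1 => a) (fun h => ha (congrFun h 0))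
  have h2 : logHeight (fun _ : Fin 1 => a) = 0 := logHeight_one _
  rw [h2] at h1
  have h3 : (fun p : Pl K => Real.log (nrm (av p) (fun _ : Fin 1 => a))) =
      fun p => Real.log (av p a) := by
    funext p
    obtain ⟨i, hi⟩ := exists_nrm (av p) (n := 1) (by norm_num) (fun _ : Fin 1 => a)
    rw [← hi]
  rw [h3] at h1
  exact h1

theorem HF_bd {g : Pl K → ℝ} (hg : Bd g) : HF (fun p => Real.log (g p)) (bdc g) := by
  refine ⟨(hg.2.preimage Sum.inr_injective.injOn).subset fun v hv h0 => ?_, rfl⟩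
  apply hv
  show Real.log (g (Sum.inr v)) = 0
  rw [h0, Real.log_one]

open Classical in
/-- the indicator of a finite set of primes -/
noncomputable def indW (W : Finset (HeightOneSpectrum (𝓞 K))) : Pl K → ℝ
  | Sum.inl _ => 0
  | Sum.inr v => if v ∈ W then ell v else 0

theorem HF_W (W : Finset (HeightOneSpectrum (𝓞 K))) : HF (indW W) (∑ v ∈ W, ell v) := by
  classical
  have hsub : {v : HeightOneSpectrum (𝓞 K) | indW W (Sum.inr v) ≠ 0} ⊆ (W : Set _) := by
    intro v hv
    by_contra hne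
    apply hv
    exact if_neg fun h => hne (Finset.mem_coe.2 h)
  refine ⟨W.finite_toSet.subset hsub, ?_⟩
  rw [finsum_eq_sum_of_support_subset (s := W) _ hsub]
  have h1 : ∑ w : InfinitePlace K, (w.mult : ℝ) * indW W (Sum.inl w) = 0 :=
    Finset.sum_eq_zero fun w _ => mul_zero _
  rw [h1, zero_add]
  refine Finset.sum_congr rfl fun v hv => ?_
  show ell v = if v ∈ W then ell v else 0
  rw [if_pos hv]

/-- integrality of the logarithms of the absolute values -/
theorem ell_le {v : HeightOneSpectrum (𝓞 K)} {x y : K} (hx : x ≠ 0)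
    (h : av (Sum.inr v : Pl K) x < av (Sum.inr v : Pl K) y) :
    ell v + Real.log (av (Sum.inr v : Pl K) x) ≤ Real.log (av (Sum.inr v : Pl K) y) := by
  have hx0 : 0 < av (Sum.inr v : Pl K) x := (av _).pos_iff.2 hx
  have h1 : v.valuation K x < v.valuation K y := Pool.Agent.H432.TC.mk_lt_iff.1 h
  have h2 : 1 < v.valuation K (y / x) := by
    rw [map_div₀]
    have h3 : v.valuation K x ≠ 0 := (Valuation.ne_zero_iff _).2 hx
    rwa [one_lt_div₀ (zero_lt_iff.2 h3)]
  have h3 := Pool.Agent.Q290.NF.norm_le_mk h2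
  have h4 : (0 : ℝ) < Ideal.absNorm v.asIdeal := by
    have h15 : (1 : ℝ) < Ideal.absNorm v.asIdeal := by
      exact_mod_cast HeightOneSpectrum.one_lt_absNorm v
    linarith
  have h5 := Real.log_le_log h4 h3
  have h6 : (FinitePlace.mk v) (y / x) = av (Sum.inr v : Pl K) y / av (Sum.inr v : Pl K) x :=
    map_div₀ (av (Sum.inr v : Pl K)) y x
  rw [h6, Real.log_div (hx0.trans h).ne' hx0.ne'] at h5
  have h7 : ell v = Real.log (Ideal.absNorm v.asIdeal) := rfl
  rw [h7]
  linarith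

end HF

/-- the strict inequality -/
theorem strict_aux {Gm Tb X Qv R : ℝ} (hG : 0 < Gm) (hT : 0 < Tb) (hX : 0 < X) (hQ : 0 < Qv)
    (hR : 1 ≤ R) {ν e p : ℕ} (hν : 3 ≤ ν) (he : 2 ≤ e)
    (hB : Gm ^ e * Tb ^ (e - 1) ≤ Qv ^ e * X ^ (e * p) * R ^ ((e - 1) * (ν + 1) - 2 * e))
    (hTb : Tb < R ^ (ν + 1)) : Gm * Tb < Qv * X ^ p * R ^ (ν - 1) := by
  have h1 : (Gm * Tb) ^ e < (Qv * X ^ p * R ^ (ν - 1)) ^ e := by
    have e1 : (Gm * Tb) ^ e = Gm ^ e * Tb ^ (e - 1) * Tb := by
      rw [mul_pow, mul_assoc, ← pow_succ]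
      congr 2
      omega
    have e2 : (Qv * X ^ p * R ^ (ν - 1)) ^ e =
        Qv ^ e * X ^ (e * p) * R ^ ((e - 1) * (ν + 1) - 2 * e) * R ^ (ν + 1) := by
      rw [mul_pow, mul_pow, ← pow_mul, ← pow_mul, mul_comm p e, mul_assoc (Qv ^ e * X ^ (e * p)),
        ← pow_add]
      congr 2
      obtain ⟨e', rfl⟩ : ∃ e', e = e' + 2 := ⟨e - 2, by omega⟩
      obtain ⟨ν', rfl⟩ : ∃ ν', ν = ν' + 3 := ⟨ν - 3, by omega⟩
      have h3 : e' + 2 - 1 = e' + 1 := by omega
      have h4 : ν' + 3 - 1 = ν' + 2 := by omega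
      rw [h3, h4]
      have h5 : (e' + 1) * (ν' + 3 + 1) - 2 * (e' + 2) = e' * ν' + 2 * e' + ν' := by
        have : (e' + 1) * (ν' + 3 + 1) = e' * ν' + 2 * e' + ν' + 2 * (e' + 2) := by ring
        omega
      rw [h5]
      ring
    rw [e1, e2]
    have hR0 : 0 < R := by linarith
    calc Gm ^ e * Tb ^ (e - 1) * Tb ≤
          Qv ^ e * X ^ (e * p) * R ^ ((e - 1) * (ν + 1) - 2 * e) * Tb :=
          mul_le_mul_of_nonneg_right hB hT.le
      _ < _ := mul_lt_mul_of_pos_left hTb (by positivity)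
  exact lt_of_pow_lt_pow_left₀ e (by positivity) h1

section rel

variable {E : Type} [Field E] [NumberField E]

/-- the bounds which follow from an integral relation -/
theorem rel_bd (locb : S_LOCB) {ι : Type} [Fintype ι] [Nonempty ι] {P : MvPolynomial (Fin 2) E}
    {g : ι → MvPolynomial (Fin 2) E} {f : MvPolynomial (Fin 2) E} (h : Rel P g f) :
    ∃ Cb : Pl E → ℝ, Bd Cb ∧ ∀ z : Fin 2 → E, eval z P = 0 → ∀ p : Pl E,
      ∃ j, av p (eval z f) ≤ Cb p * av p (eval z (g j)) := by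
  obtain ⟨m, a, ha, hd⟩ := h
  obtain ⟨Cb, hCb, hbd⟩ := locb E ι m a ha
  refine ⟨Cb, hCb, fun z hz p => hbd (fun j => eval z (g j)) (eval z f) ?_ p⟩
  obtain ⟨R, hR⟩ := hd
  have h1 := congrArg (eval z) hR
  rw [map_mul, hz, zero_mul, map_add, map_pow, map_sum] at h1
  rw [← h1]
  congr 1
  refine Finset.sum_congr rfl fun i _ => ?_
  rw [map_mul, map_pow]
  congr 1
  have h2 := MvPolynomial.comp_aeval_apply g (MvPolynomial.aeval z : MvPolynomial (Fin 2) E →ₐ[E] E)
    (a i)
  exact h2.symm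

theorem tb_pow (p : Pl E) (t0 : E) (r : Fin 2) (n : ℕ) :
    av p (t0 ^ ((r : ℕ) * n)) ≤ nrm (av p) ![1, t0] ^ n := by
  have h1 := nrm2_pos p t0
  have h2 := nrm2_ge p t0
  fin_cases r
  · show av p (t0 ^ (0 * n)) ≤ _
    rw [zero_mul, pow_zero, map_one]
    exact one_le_pow₀ h1
  · show av p (t0 ^ (1 * n)) ≤ _
    rw [one_mul, map_pow]
    exact pow_le_pow_left₀ ((av p).nonneg _) h2 n

/-- values of forms on the curve -/
theorem eval_aev {k : Type} [Field k] [Algebra k E] {M : ℕ} (φ : Fin M → MvPolynomial (Fin 2) E)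
    (z : Fin 2 → E) (A : MvPolynomial (Fin M) k) :
    eval z (aeval φ A) = aeval (fun l => eval z (φ l)) A := by
  have h2 := MvPolynomial.comp_aeval_apply φ
    ((MvPolynomial.aeval z : MvPolynomial (Fin 2) E →ₐ[E] E).restrictScalars k) A
  exact h2

end rel

end Pool.Agent.H432.AC
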