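import Mathlib
import Pool.Agent.H432.AC.Ht

/-!
The inequality with the counting function along a fixed curve.
-/

set_option autoImplicit false
set_option linter.unusedVariables false
set_option linter.unusedSectionVars false

namespace Pool.Agent.H432.AC

open NumberField IsDedekindDomain Height Module MvPolynomial Pool.Agent.N750 Pool.Agent.H432.RC
open Pool.Agent.H432.TC (Bd Bd_cst Bd_nrm bdc le_prod_bd DM)
open Pool.Agent.W180.OP (Pl av nrm le_nrm nrm_pos exists_nrm nrm_nonneg)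
open Pool.Agent.Q290.NF (ell ell_pos)

/-- the point on the curve -/
noncomputable def pt {R : Type} [CommRing R] {M : ℕ} (φ : Fin M → MvPolynomial (Fin 2) R)
    (z : Fin 2 → R) : Fin M → R := fun l => eval z (φ l)

/-- the bound (A) -/
theorem keyA (locb : S_LOCB) {k E : Type} [Field k] [Field E] [NumberField E] [Algebra k E]
    {M g q w n' : ℕ} {F : Fin q → Fin w → MvPolynomial (Fin M) k} {D : ℕ}
    {P : MvPolynomial (Fin 2) E} {φ : Fin M → MvPolynomial (Fin 2) E}
    {c : Fin 2} {ν : ℕ} {b : Fin ν → E} {Q : MvPolynomial (Fin 2) E}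
    {Γ : (Fin (n' + 2) → Fin M) → MvPolynomial (Fin 2) E}
    (hne : Nonempty (Fin M × (Fin q → Fin w) × Fin 2))
    (h9 : ∀ J l, Rel P (fun x : Fin M × (Fin q → Fin w) × Fin 2 =>
        Q * φ x.1 ^ (n' + 2) * (∏ i, aeval φ (F i (x.2.1 i))) * X c ^ ((x.2.2 : ℕ) * (ν - 1)))
      (Γ J * (∏ a, (X c - C (b a))) * φ l ^ D)) :
    ∃ gA : Pl E → ℝ, Bd gA ∧ ∀ z : Fin 2 → E, eval z P = 0 → ∀ (p : Pl E) J l,
      av p (eval z (Γ J)) * av p (∏ a, (z c - b a)) * av p (pt φ z l) ^ D ≤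
      gA p * (av p (eval z Q) * nrm (av p) (pt φ z) ^ (n' + 2) *
        (∏ i, nrm (av p) (fun j => aeval (pt φ z) (F i j))) *
        nrm (av p) ![1, z c] ^ (ν - 1)) := by
  classical
  choose CA hCA hA using fun x : (Fin (n' + 2) → Fin M) × Fin M => rel_bd locb (h9 x.1 x.2)
  refine ⟨fun p => ∏ x, CA x p, Bd.prod _ _ fun x _ => hCA x, fun z hz p J l => ?_⟩
  obtain ⟨j, hj⟩ := hA (J, l) z hz p
  have e0 : eval z (Γ J * (∏ a, (X c - C (b a))) * φ l ^ D) =
      eval z (Γ J) * (∏ a, (z c - b a)) * pt φ z l ^ D := by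
    simp only [map_mul, map_pow, map_prod, map_sub, eval_X, eval_C]
    rfl
  have e1 : eval z (Q * φ j.1 ^ (n' + 2) * (∏ i, aeval φ (F i (j.2.1 i))) *
      X c ^ ((j.2.2 : ℕ) * (ν - 1))) = eval z Q * pt φ z j.1 ^ (n' + 2) *
        (∏ i, aeval (pt φ z) (F i (j.2.1 i))) * z c ^ ((j.2.2 : ℕ) * (ν - 1)) := by
    rw [map_mul, map_mul, map_mul, map_pow, map_pow, map_prod, eval_X]
    congr 2
    exact Finset.prod_congr rfl fun i _ => eval_aev φ z _
  have e2 : av p (eval z (Γ J) * (∏ a, (z c - b a)) * pt φ z l ^ D) =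
      av p (eval z (Γ J)) * av p (∏ a, (z c - b a)) * av p (pt φ z l) ^ D := by
    rw [map_mul, map_mul, map_pow]
  have e3 : av p (eval z Q * pt φ z j.1 ^ (n' + 2) * (∏ i, aeval (pt φ z) (F i (j.2.1 i))) *
      z c ^ ((j.2.2 : ℕ) * (ν - 1))) = av p (eval z Q) * av p (pt φ z j.1) ^ (n' + 2) *
      (∏ i, av p (aeval (pt φ z) (F i (j.2.1 i)))) * av p (z c ^ ((j.2.2 : ℕ) * (ν - 1))) := by
    rw [map_mul, map_mul, map_mul, map_pow, map_prod]
  simp only at hj
  rw [e0, e1, e2, e3] at hj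
  refine hj.trans ?_
  have f0 : CA (J, l) p ≤ ∏ x, CA x p :=
    le_prod_bd Finset.univ (fun x => CA x p) (fun x _ => (hCA x).1 p) (Finset.mem_univ _)
  have f00 := (hCA (J, l)).1 p
  have f1 : av p (pt φ z j.1) ^ (n' + 2) ≤ nrm (av p) (pt φ z) ^ (n' + 2) :=
    pow_le_pow_left₀ ((av p).nonneg _) (le_nrm (av p) (pt φ z) j.1) _
  have f2 : ∏ i, av p (aeval (pt φ z) (F i (j.2.1 i))) ≤
      ∏ i, nrm (av p) (fun j => aeval (pt φ z) (F i j)) :=
    Finset.prod_le_prod (fun i _ => (av p).nonneg _) fun i _ =>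
      le_nrm (av p) (fun j => aeval (pt φ z) (F i j)) (j.2.1 i)
  have f3 := tb_pow p (z c) j.2.2 (ν - 1)
  have f4 : 0 ≤ ∏ i, av p (aeval (pt φ z) (F i (j.2.1 i))) :=
    Finset.prod_nonneg fun i _ => (av p).nonneg _
  have f5 : 0 ≤ ∏ i, nrm (av p) (fun j => aeval (pt φ z) (F i j)) :=
    Finset.prod_nonneg fun i _ => nrm_nonneg _ _
  have f6 : 0 ≤ nrm (av p) (pt φ z) ^ (n' + 2) := pow_nonneg (nrm_nonneg (av p) _) _
  have f7 := (av p).nonneg (eval z Q)
  have f8 : 0 ≤ av p (pt φ z j.1) ^ (n' + 2) := pow_nonneg ((av p).nonneg _) _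
  have f9 := (av p).nonneg (z c ^ ((j.2.2 : ℕ) * (ν - 1)))
  exact mul_le_mul f0 (mul_le_mul (mul_le_mul (mul_le_mul_of_nonneg_left f1 f7) f2 f4
    (mul_nonneg f7 f6)) f3 f9 (mul_nonneg (mul_nonneg f7 f6) f5))
    (mul_nonneg (mul_nonneg (mul_nonneg f7 f8) f4) f9) (by linarith)

/-- the bound (B) -/
theorem keyB (locb : S_LOCB) {k E : Type} [Field k] [Field E] [NumberField E] [Algebra k E]
    {M n' e : ℕ}
    {P : MvPolynomial (Fin 2) E} {φ : Fin M → MvPolynomial (Fin 2) E}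
    {c : Fin 2} {ν : ℕ} {b : Fin ν → E} {Q : MvPolynomial (Fin 2) E}
    {Γ : (Fin (n' + 2) → Fin M) → MvPolynomial (Fin 2) E}
    (hne : Nonempty (Fin M × Fin 2))
    (h10 : ∀ J, Rel P (fun x : Fin M × Fin 2 =>
        Q ^ e * φ x.1 ^ (e * (n' + 2)) * X c ^ ((x.2 : ℕ) * ((e - 1) * (ν + 1) - 2 * e)))
      (Γ J ^ e * (∏ a, (X c - C (b a))) ^ (e - 1))) :
    ∃ gB : Pl E → ℝ, Bd gB ∧ ∀ z : Fin 2 → E, eval z P = 0 → ∀ (p : Pl E) J,
      av p (eval z (Γ J)) ^ e * av p (∏ a, (z c - b a)) ^ (e - 1) ≤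
      gB p * (av p (eval z Q) ^ e * nrm (av p) (pt φ z) ^ (e * (n' + 2)) *
        nrm (av p) ![1, z c] ^ ((e - 1) * (ν + 1) - 2 * e)) := by
  classical
  choose CB hCB hB using fun J : Fin (n' + 2) → Fin M => rel_bd locb (h10 J)
  refine ⟨fun p => ∏ x, CB x p, Bd.prod _ _ fun x _ => hCB x, fun z hz p J => ?_⟩
  obtain ⟨j, hj⟩ := hB J z hz p
  have e0 : eval z (Γ J ^ e * (∏ a, (X c - C (b a))) ^ (e - 1)) =
      eval z (Γ J) ^ e * (∏ a, (z c - b a)) ^ (e - 1) := by
    simp only [map_mul, map_pow, map_prod, map_sub, eval_X, eval_C]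
  have e1 : eval z (Q ^ e * φ j.1 ^ (e * (n' + 2)) *
      X c ^ ((j.2 : ℕ) * ((e - 1) * (ν + 1) - 2 * e))) = eval z Q ^ e *
        pt φ z j.1 ^ (e * (n' + 2)) * z c ^ ((j.2 : ℕ) * ((e - 1) * (ν + 1) - 2 * e)) := by
    rw [map_mul, map_mul, map_pow, map_pow, map_pow, eval_X]
    rfl
  have e2 : av p (eval z (Γ J) ^ e * (∏ a, (z c - b a)) ^ (e - 1)) =
      av p (eval z (Γ J)) ^ e * av p (∏ a, (z c - b a)) ^ (e - 1) := by
    rw [map_mul, map_pow, map_pow]
  have e3 : av p (eval z Q ^ e * pt φ z j.1 ^ (e * (n' + 2)) *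
      z c ^ ((j.2 : ℕ) * ((e - 1) * (ν + 1) - 2 * e))) = av p (eval z Q) ^ e *
      av p (pt φ z j.1) ^ (e * (n' + 2)) *
      av p (z c ^ ((j.2 : ℕ) * ((e - 1) * (ν + 1) - 2 * e))) := by
    rw [map_mul, map_mul, map_pow, map_pow]
  rw [e0, e1, e2, e3] at hj
  refine hj.trans ?_
  have f0 : CB J p ≤ ∏ x, CB x p :=
    le_prod_bd Finset.univ (fun x => CB x p) (fun x _ => (hCB x).1 p) (Finset.mem_univ _)
  have f00 := (hCB J).1 p
  have f1 : av p (pt φ z j.1) ^ (e * (n' + 2)) ≤ nrm (av p) (pt φ z) ^ (e * (n' + 2)) :=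
    pow_le_pow_left₀ ((av p).nonneg _) (le_nrm (av p) (pt φ z) j.1) _
  have f3 := tb_pow p (z c) j.2 ((e - 1) * (ν + 1) - 2 * e)
  have f6 : 0 ≤ nrm (av p) (pt φ z) ^ (e * (n' + 2)) := pow_nonneg (nrm_nonneg (av p) _) _
  have f7 : 0 ≤ av p (eval z Q) ^ e := pow_nonneg ((av p).nonneg _) _
  have f8 : 0 ≤ av p (pt φ z j.1) ^ (e * (n' + 2)) := pow_nonneg ((av p).nonneg _) _
  have f9 := (av p).nonneg (z c ^ ((j.2 : ℕ) * ((e - 1) * (ν + 1) - 2 * e)))
  exact mul_le_mul f0 (mul_le_mul (mul_le_mul_of_nonneg_left f1 f7) f3 f9 (mul_nonneg f7 f6))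
    (mul_nonneg (mul_nonneg f7 f8) f9) (by linarith)

/-- **the inequality over the field of the certificate** -/
theorem ari1 (locb : S_LOCB) {k E : Type} [Field k] [Field E] [NumberField E] [Algebra k E]
    {M g q w n' : ℕ} {G : Fin g → MvPolynomial (Fin M) k} (hsm : Sm (n' + 1) G)
    {F : Fin q → Fin w → MvPolynomial (Fin M) k} {δ : Fin q → ℕ}
    {P : MvPolynomial (Fin 2) E} {φ : Fin M → MvPolynomial (Fin 2) E}
    (hX : ∀ i, P ∣ aeval φ (G i))
    {c : Fin 2} {ν e : ℕ} {b : Fin ν → E} {Q : MvPolynomial (Fin 2) E}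
    {Γ : (Fin (n' + 2) → Fin M) → MvPolynomial (Fin 2) E} (hν : 3 ≤ ν) (he : 2 ≤ e)
    (h7 : ∀ J (i j : Fin (n' + 2)), i ≠ j → P ∣ Γ (J ∘ Equiv.swap i j) + Γ J)
    (h8 : ∀ i J, P ∣ ∑ l, aeval φ (pderiv l (G i)) * Γ (Function.update J 0 l))
    (h9 : ∀ J l, Rel P (fun x : Fin M × (Fin q → Fin w) × Fin 2 =>
        Q * φ x.1 ^ (n' + 2) * (∏ i, aeval φ (F i (x.2.1 i))) * X c ^ ((x.2.2 : ℕ) * (ν - 1)))
      (Γ J * (∏ a, (X c - C (b a))) * φ l ^ (∑ i, δ i)))
    (h10 : ∀ J, Rel P (fun x : Fin M × Fin 2 =>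
        Q ^ e * φ x.1 ^ (e * (n' + 2)) * X c ^ ((x.2 : ℕ) * ((e - 1) * (ν + 1) - 2 * e)))
      (Γ J ^ e * (∏ a, (X c - C (b a))) ^ (e - 1))) :
    ∃ (Bad : Set (HeightOneSpectrum (𝓞 E))) (C0 : ℝ), Bad.Finite ∧
      ∀ z : Fin 2 → E, eval z P = 0 → pt φ z ≠ 0 →
      (∀ i, ∃ j, aeval (pt φ z) (F i j) ≠ 0) → eval z Q ≠ 0 → (∃ J, eval z (Γ J) ≠ 0) →
      (∀ a, z c ≠ b a) → ∀ A, IsTB (p := n' + 2) G (pt φ z) A →
      ∀ W : Finset (HeightOneSpectrum (𝓞 E)), (∀ v ∈ W, v ∉ Bad ∧ ¬ DM F δ (pt φ z) v ∧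
        av (Sum.inr v : Pl E) (∏ a, (z c - b a)) <
          nrm (av (Sum.inr v : Pl E)) ![1, z c] ^ (ν + 1)) →
      logHeight (mv A) - (n' + 2) * logHeight (pt φ z) +
        ∑ i, ((δ i : ℝ) * logHeight (pt φ z) - logHeight (fun j => aeval (pt φ z) (F i j))) +
        ∑ v ∈ W, ell v ≤ ((ν : ℝ) - 1) * logHeight ![1, z c] + C0 := by
  classical
  by_cases hne : Nonempty (Fin M × (Fin q → Fin w) × Fin 2)
  swap
  · refine ⟨∅, 0, Set.finite_empty, fun z hz hx hxF => ?_⟩
    exfalso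
    obtain ⟨l, -⟩ := Function.ne_iff.1 hx
    choose j hj using hxF
    exact hne ⟨(l, j, 0)⟩
  have hneM : Nonempty (Fin M) := ⟨hne.some.1⟩
  have hneB : Nonempty (Fin M × Fin 2) := ⟨(hne.some.1, 0)⟩
  obtain ⟨gA, bA, hA⟩ := keyA (g := g) locb hne h9
  obtain ⟨gB, bB, hB⟩ := keyB (k := k) locb hneB h10
  refine ⟨{v | gB (Sum.inr v) ≠ 1}, bdc gA, bB.2.preimage Sum.inr_injective.injOn, ?_⟩
  intro z hz hx0 hxF hQ0 hΓ0 ht A hTB W hW
  set x := pt φ z with hx
  set t0 := z c with ht0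
  set T : E := ∏ a, (t0 - b a) with hT
  have hT0 : T ≠ 0 := Finset.prod_ne_zero_iff.2 fun a _ => sub_ne_zero.2 (ht a)
  let eJ := Fintype.equivFin (Fin (n' + 2) → Fin M)
  set Γv : Fin (Fintype.card (Fin (n' + 2) → Fin M)) → E := fun i => eval z (Γ (eJ.symm i))
    with hΓv
  have hΓv0 : Γv ≠ 0 := by
    obtain ⟨J, hJ⟩ := hΓ0
    intro h
    apply hJ
    have h1 := congrFun h (eJ J)
    simp only [hΓv, Equiv.symm_apply_apply] at h1
    exact h1
  have hNJ : 0 < Fintype.card (Fin (n' + 2) → Fin M) := Fintype.card_pos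
  have hM : 0 < M := Fin.pos_iff_nonempty.2 hneM
  set D : ℕ := ∑ i, δ i with hD
  have hFv0 : ∀ i, (fun j => aeval x (F i j)) ≠ 0 := by
    intro i h
    obtain ⟨j, hj⟩ := hxF i
    exact hj (congrFun h j)
  have hw : ∀ i : Fin q, 0 < w := fun i => by
    obtain ⟨j, -⟩ := hxF i
    exact j.pos
  have haev : ∀ B : MvPolynomial (Fin M) k, eval z (aeval φ B) = aeval x B := fun B =>
    eval_aev φ z B
  -- the height of the vector of minors
  have hΓh : logHeight Γv = logHeight (mv A) := by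
    have hxX : ∀ i, aeval x (G i) = 0 := by
      intro i
      obtain ⟨R, hR⟩ := hX i
      rw [← haev, hR, map_mul, hz, zero_mul]
    have hdim : finrank E (TS G x) = n' + 2 := hsm E x hx0 hxX
    obtain ⟨c0, hc0⟩ := alt_unique (L := E) A hTB.1
      (fun i l => aeval x (pderiv l (G i)))
      (fun v hv => span_TB hTB hdim v hv)
      (fun J => eval z (Γ J)) (fun J i j hij => by
        obtain ⟨R, hR⟩ := h7 J i j hij
        have h1 := congrArg (eval z) hR
        rw [map_mul, hz, zero_mul, map_add] at h1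
        exact eq_neg_of_add_eq_zero_left h1) (fun i J => by
        obtain ⟨R, hR⟩ := h8 i J
        have h1 := congrArg (eval z) hR
        rw [map_mul, hz, zero_mul, map_sum] at h1
        rw [← h1]
        refine Finset.sum_congr rfl fun l _ => ?_
        rw [map_mul, haev])
    have hc00 : c0 ≠ 0 := by
      rintro rfl
      obtain ⟨J, hJ⟩ := hΓ0
      apply hJ
      have := hc0 J
      rw [zero_mul] at this
      exact this
    have e1 : Γv = c0 • (fun i => mv A (eJ.symm i)) := by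
      funext i
      exact hc0 (eJ.symm i)
    rw [e1, logHeight_smul_eq_logHeight _ hc00]
    exact logHeight_comp_equiv eJ.symm (mv A)
  -- the bound (A)
  have keyA : ∀ p : Pl E, nrm (av p) Γv * av p T * nrm (av p) x ^ D ≤
      gA p * (av p (eval z Q) * nrm (av p) x ^ (n' + 2) *
        (∏ i, nrm (av p) (fun j => aeval x (F i j))) * nrm (av p) ![1, t0] ^ (ν - 1)) := by
    intro p
    obtain ⟨i, hi⟩ := exists_nrm (av p) hNJ Γv
    obtain ⟨l, hl⟩ := exists_nrm (av p) hM x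
    have h1 : av p (Γv i) * av p T * av p (x l) ^ D ≤
      gA p * (av p (eval z Q) * nrm (av p) x ^ (n' + 2) *
        (∏ i, nrm (av p) (fun j => aeval x (F i j))) * nrm (av p) ![1, t0] ^ (ν - 1)) :=
      hA z hz p (eJ.symm i) l
    rw [hi, hl] at h1
    exact h1
  -- the bound (B)
  have keyB : ∀ p : Pl E, nrm (av p) Γv ^ e * av p T ^ (e - 1) ≤
      gB p * (av p (eval z Q) ^ e * nrm (av p) x ^ (e * (n' + 2)) *
        nrm (av p) ![1, t0] ^ ((e - 1) * (ν + 1) - 2 * e)) := by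
    intro p
    obtain ⟨i, hi⟩ := exists_nrm (av p) hNJ Γv
    have h1 : av p (Γv i) ^ e * av p T ^ (e - 1) ≤
      gB p * (av p (eval z Q) ^ e * nrm (av p) x ^ (e * (n' + 2)) *
        nrm (av p) ![1, t0] ^ ((e - 1) * (ν + 1) - 2 * e)) :=
      hB z hz p (eJ.symm i)
    rw [hi] at h1
    exact h1
  -- positivity
  have pX : ∀ p : Pl E, 0 < nrm (av p) x := fun p => nrm_pos (av p) hx0
  have pG : ∀ p : Pl E, 0 < nrm (av p) Γv := fun p => nrm_pos (av p) hΓv0
  have pT : ∀ p : Pl E, 0 < av p T := fun p => (av p).pos_iff.2 hT0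
  have pQ : ∀ p : Pl E, 0 < av p (eval z Q) := fun p => (av p).pos_iff.2 hQ0
  have pF : ∀ (p : Pl E) i, 0 < nrm (av p) (fun j => aeval x (F i j)) := fun p i =>
    nrm_pos (av p) (hFv0 i)
  have pR : ∀ p : Pl E, 1 ≤ nrm (av p) ![1, t0] := fun p => nrm2_pos p t0
  have pFp : ∀ p : Pl E, 0 < ∏ i, nrm (av p) (fun j => aeval x (F i j)) := fun p =>
    Finset.prod_pos fun i _ => pF p i
  -- the logarithms
  have hν1 : ((ν - 1 : ℕ) : ℝ) = (ν : ℝ) - 1 := by
    rw [Nat.cast_sub (by omega), Nat.cast_one]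
  have hlog1 : ∀ p : Pl E, Real.log (nrm (av p) Γv * av p T * nrm (av p) x ^ D) =
      Real.log (nrm (av p) Γv) + Real.log (av p T) + D * Real.log (nrm (av p) x) := by
    intro p
    have := pG p
    have := pT p
    have := pX p
    rw [Real.log_mul (by positivity) (by positivity), Real.log_mul (by positivity)
      (by positivity), Real.log_pow]
  have hlog2 : ∀ p : Pl E, Real.log (av p (eval z Q) * nrm (av p) x ^ (n' + 2) *
        (∏ i, nrm (av p) (fun j => aeval x (F i j))) * nrm (av p) ![1, t0] ^ (ν - 1)) =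
      Real.log (av p (eval z Q)) + (n' + 2) * Real.log (nrm (av p) x) +
        ∑ i, Real.log (nrm (av p) (fun j => aeval x (F i j))) +
        ((ν : ℝ) - 1) * Real.log (nrm (av p) ![1, t0]) := by
    intro p
    have h1 := pQ p
    have h2 := pX p
    have h3 := pFp p
    have h4 := pR p
    have h5 : 0 < nrm (av p) ![1, t0] := by linarith
    rw [Real.log_mul (by positivity) (by positivity), Real.log_mul (by positivity)
      (by positivity), Real.log_mul (by positivity) (by positivity), Real.log_pow, Real.log_pow,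
      Real.log_prod (fun i _ => (pF p i).ne'), hν1]
    push_cast
    ring
  have hpt : ∀ p : Pl E, indW W p + Real.log (nrm (av p) Γv) + Real.log (av p T) +
      D * Real.log (nrm (av p) x) ≤ Real.log (gA p) + Real.log (av p (eval z Q)) +
        (n' + 2) * Real.log (nrm (av p) x) +
        ∑ i, Real.log (nrm (av p) (fun j => aeval x (F i j))) +
        ((ν : ℝ) - 1) * Real.log (nrm (av p) ![1, t0]) := by
    intro p
    have hbase : Real.log (nrm (av p) Γv) + Real.log (av p T) +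
        D * Real.log (nrm (av p) x) ≤ Real.log (gA p) + (Real.log (av p (eval z Q)) +
        (n' + 2) * Real.log (nrm (av p) x) +
        ∑ i, Real.log (nrm (av p) (fun j => aeval x (F i j))) +
        ((ν : ℝ) - 1) * Real.log (nrm (av p) ![1, t0])) := by
      rw [← hlog1, ← hlog2]
      have h1 := pQ p
      have h2 := pX p
      have h3 := pFp p
      have h4 := pR p
      have h5 : 0 < nrm (av p) ![1, t0] := by linarith
      have h6 := pG p
      have h7 := pT p
      have h8 := bA.1 p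
      rw [← Real.log_mul (by linarith) (by positivity)]
      exact Real.log_le_log (by positivity) (keyA p)
    rcases p with w0 | v
    · have h1 : indW W (Sum.inl w0 : Pl E) = 0 := rfl
      rw [h1]
      linarith
    · by_cases hv : v ∈ W
      swap
      · have h1 : indW W (Sum.inr v : Pl E) = 0 := if_neg hv
        rw [h1]
        linarith
      · obtain ⟨hv1, hv2, hv3⟩ := hW v hv
        have h1 : indW W (Sum.inr v : Pl E) = ell v := if_pos hv
        rw [h1]
        set p : Pl E := Sum.inr v with hp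
        have hgB1 : gB p = 1 := by
          by_contra hcon
          exact hv1 hcon
        have hB1 := keyB p
        rw [hgB1, one_mul] at hB1
        have hstrict := strict_aux (pG p) (pT p) (pX p) (pQ p) (pR p) hν he hB1 hv3
        have hXD : nrm (av p) x ^ D ≤ ∏ i, nrm (av p) (fun j => aeval x (F i j)) := by
          rw [hD, ← Finset.prod_pow_eq_pow_sum]
          refine Finset.prod_le_prod (fun i _ => pow_nonneg (pX p).le _) fun i _ => ?_
          by_contra hcon
          apply hv2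
          refine ⟨i, fun j => ?_⟩
          exact lt_of_le_of_lt (le_nrm (av p) (fun j => aeval x (F i j)) j) (not_le.1 hcon)
        obtain ⟨i, hi⟩ := exists_nrm (av p) hNJ Γv
        obtain ⟨l, hl⟩ := exists_nrm (av p) hM x
        obtain ⟨r, hr⟩ := exists_nrm (av p) (n := 2) (by norm_num) ![1, t0]
        choose jj hjj using fun i => exists_nrm (av p) (hw i) (fun j => aeval x (F i j))
        set f0 : E := Γv i * T * x l ^ D with hf0
        set g0 : E := eval z Q * x l ^ (n' + 2) * (∏ i, aeval x (F i (jj i))) *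
          (![1, t0] r) ^ (ν - 1) with hg0
        have ef : av p f0 = nrm (av p) Γv * av p T * nrm (av p) x ^ D := by
          rw [hf0, map_mul, map_mul, map_pow, hi, hl]
        have eg : av p g0 = av p (eval z Q) * nrm (av p) x ^ (n' + 2) *
            (∏ i, nrm (av p) (fun j => aeval x (F i j))) * nrm (av p) ![1, t0] ^ (ν - 1) := by
          rw [hg0, map_mul, map_mul, map_mul, map_pow, map_pow, map_prod, hr, hl]
          congr 2
          exact Finset.prod_congr rfl fun i _ => hjj i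
        have q1 := pQ p
        have q2 := pX p
        have q3 := pFp p
        have q4 := pR p
        have q5 : 0 < nrm (av p) ![1, t0] := by linarith
        have q6 := pG p
        have q7 := pT p
        have hlt : av p f0 < av p g0 := by
          rw [ef, eg]
          calc nrm (av p) Γv * av p T * nrm (av p) x ^ D <
                (av p (eval z Q) * nrm (av p) x ^ (n' + 2) * nrm (av p) ![1, t0] ^ (ν - 1)) *
                  nrm (av p) x ^ D := mul_lt_mul_of_pos_right hstrict (by positivity)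
            _ ≤ (av p (eval z Q) * nrm (av p) x ^ (n' + 2) * nrm (av p) ![1, t0] ^ (ν - 1)) *
                  ∏ i, nrm (av p) (fun j => aeval x (F i j)) :=
                mul_le_mul_of_nonneg_left hXD (by positivity)
            _ = _ := by ring
        have hf00 : f0 ≠ 0 := by
          intro h
          rw [h, map_zero] at ef
          have : 0 < nrm (av p) Γv * av p T * nrm (av p) x ^ D := by positivity
          linarith
        have h9 : ell v + Real.log (av p f0) ≤ Real.log (av p g0) := ell_le hf00 hlt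
        rw [ef, eg, hlog1, hlog2] at h9
        have h10 : 0 ≤ Real.log (gA p) := Real.log_nonneg (bA.1 p)
        linarith
  -- the sum
  have s1 := (((HF_W W).add (HF_nrm Γv hΓv0)).add (HF_av T hT0)).add
    ((HF_nrm x hx0).smul (D : ℝ))
  have s2 := ((((HF_bd bA).add (HF_av (eval z Q) hQ0)).add
    ((HF_nrm x hx0).smul ((n' : ℝ) + 2))).add
    (HF.sum Finset.univ fun i _ => HF_nrm (fun j => aeval x (F i j)) (hFv0 i))).add
    ((HF_nrm ![1, t0] (Pool.Agent.H432.TC.vec2_ne t0)).smul ((ν : ℝ) - 1))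
  have s3 := s1.mono s2 hpt
  rw [hΓh] at s3
  have e1 : ∑ i, ((δ i : ℝ) * logHeight x - logHeight (fun j => aeval x (F i j))) =
      (D : ℝ) * logHeight x - ∑ i, logHeight (fun j => aeval x (F i j)) := by
    rw [Finset.sum_sub_distrib, ← Finset.sum_mul, hD]
    push_cast
    rfl
  rw [e1]
  linarith

end Pool.Agent.H432.AC
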