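import Mathlib
import Pool.Agent.H432.AC.Ari1

/-!
The abc conjecture along a fixed curve.
-/

set_option autoImplicit false
set_option linter.unusedVariables false
set_option linter.unusedSectionVars false

namespace Pool.Agent.H432.AC

open NumberField IsDedekindDomain Height Module MvPolynomial Pool.Agent.N750 Pool.Agent.H432.RC
open Pool.Agent.H432.TC (Bd Bd_cst Bd_nrm bdc le_prod_bd DM DM_fin Mt Mt_of_meet fin_sub_le
  sum_wt_le swap_ht cnt_ext DM_over)
open Pool.Agent.W180.OP (Pl av nrm le_nrm nrm_pos exists_nrm nrm_nonneg)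
open Pool.Agent.Q290.NF (ell ell_pos ind ind_pos ind_neg wt wt_mono wt_or_le)
open Pool.Agent.Results.MP_4d5ce1_nt.ThinSetsSuffice (AllPoints Inequality counting Meet meet_fin
  counting_eq)

/-- `t0` meets one of the points `b a` or infinity -/
def MeetT {E : Type} [Field E] [NumberField E] {ν : ℕ} (b : Fin ν → E) (t0 : E)
    (v : HeightOneSpectrum (𝓞 E)) : Prop :=
  av (Sum.inr v : Pl E) (∏ a, (t0 - b a)) < nrm (av (Sum.inr v : Pl E)) ![1, t0] ^ (ν + 1)

theorem MeetT_fin {E : Type} [Field E] [NumberField E] {ν : ℕ} (b : Fin ν → E) (t0 : E)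
    (ht : ∀ a, t0 ≠ b a) : {v | MeetT b t0 v}.Finite := by
  have hT0 : ∏ a, (t0 - b a) ≠ 0 := Finset.prod_ne_zero_iff.2 fun a _ => sub_ne_zero.2 (ht a)
  refine ((Pool.Agent.W180.OP.fv_support_finite hT0).union
    (Pool.Agent.R405.nrm_finite ![1, t0] (Pool.Agent.H432.TC.vec2_ne t0))).subset fun v hv => ?_
  by_contra hcon
  simp only [Set.mem_union, Set.mem_ofPred_eq, not_or, not_not] at hcon
  have h1 : av (Sum.inr v : Pl E) (∏ a, (t0 - b a)) = 1 := hcon.1
  have h2 : nrm (av (Sum.inr v : Pl E)) ![1, t0] = 1 := hcon.2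
  have h3 : av (Sum.inr v : Pl E) (∏ a, (t0 - b a)) <
    nrm (av (Sum.inr v : Pl E)) ![1, t0] ^ (ν + 1) := hv
  rw [h1, h2, one_pow] at h3
  exact lt_irrefl _ h3

/-- the sum over a finite set -/
theorem wt_sum {E : Type} [Field E] [NumberField E] {W : HeightOneSpectrum (𝓞 E) → Prop}
    (hW : {v | W v}.Finite) : ∑ v ∈ hW.toFinset, ell v = wt W := by
  symm
  unfold Pool.Agent.Q290.NF.wt
  rw [finsum_eq_sum_of_support_subset (s := hW.toFinset) _ (by
    intro Q hQ
    rw [Finset.mem_coe, hW.mem_toFinset]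
    exact Pool.Agent.Q290.NF.supp_sub W hQ)]
  refine Finset.sum_congr rfl fun Q hQ => ?_
  exact ind_pos (hW.mem_toFinset.1 hQ)

/-- **the abc conjecture for the points `b a` and infinity** -/
theorem abcE {E : Type} [Field E] [NumberField E] (hall : AllPoints E) {ν : ℕ} (b : Fin ν → E)
    (hb : Function.Injective b) (S' : Finset (HeightOneSpectrum (𝓞 E)))
    (Bad : Set (HeightOneSpectrum (𝓞 E))) (hBad : Bad.Finite) (ε : ℝ) (hε : 0 < ε) :
    ∃ C0 : ℝ, ∀ t0 : E, (∀ a, t0 ≠ b a) → ((ν : ℝ) - 1 - ε) * logHeight ![1, t0] ≤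
      wt (fun v => v ∉ S' ∧ v ∉ Bad ∧ MeetT b t0 v) + C0 := by
  classical
  set B1 : Set (HeightOneSpectrum (𝓞 E)) := ⋃ a, {v | nrm (av (Sum.inr v : Pl E)) ![1, b a] ≠ 1}
    with hB1
  have hB1f : B1.Finite := Set.finite_iUnion fun a =>
    (Bd_nrm (![1, b a] : Fin 2 → E) 0 rfl).2.preimage Sum.inr_injective.injOn
  set B2 : Set (HeightOneSpectrum (𝓞 E)) := ⋃ (a : Fin ν) (a' : Fin ν),
    {v | a ≠ a' ∧ Pool.Agent.W180.OP.fv v (b a - b a') ≠ 1} with hB2
  have hB2f : B2.Finite := by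
    refine Set.finite_iUnion fun a => Set.finite_iUnion fun a' => ?_
    by_cases haa : a = a'
    · refine Set.finite_empty.subset ?_
      rintro v ⟨hv, -⟩
      exact hv haa
    · exact (Pool.Agent.W180.OP.fv_support_finite (sub_ne_zero.2 (hb.ne haa))).subset
        fun v hv => hv.2
  set Bad2 : Set (HeightOneSpectrum (𝓞 E)) := Bad ∪ (B1 ∪ B2) with hBad2
  have hBad2f : Bad2.Finite := hBad.union (hB1f.union hB2f)
  set α : Fin (ν + 1) → Fin 2 → E := Fin.cons ![1, 0] (fun a => ![b a, 1]) with hα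
  obtain ⟨C3, hC3⟩ := hall S' (ν + 1) α (by
    intro l
    refine Fin.cases ?_ (fun a => ?_) l
    · exact fun h => one_ne_zero (congrFun h 0)
    · exact fun h => one_ne_zero (congrFun h 1)) (by
    intro i j
    refine Fin.cases ?_ (fun i => ?_) i
    · refine Fin.cases ?_ (fun j => ?_) j
      · intro h
        exact absurd rfl h
      · intro _
        show (1 : E) * 1 - 0 * b j ≠ 0
        simp
    · refine Fin.cases ?_ (fun j => ?_) j
      · intro _
        show b i * 0 - (1 : E) * 1 ≠ 0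
        simp
      · intro h
        show b i * 1 - 1 * b j ≠ 0
        rw [mul_one, one_mul]
        exact sub_ne_zero.2 (hb.ne fun h2 => h (by rw [h2]))) ε hε
  have hfE : (0 : ℝ) < finrank ℚ E := by exact_mod_cast finrank_pos
  refine ⟨(ν + 1 : ℕ) * wt (fun v => v ∈ Bad2) + C3 * finrank ℚ E, fun t0 ht => ?_⟩
  have hcr : ∀ l, (![t0, 1] : Fin 2 → E) 0 * α l 1 - (![t0, 1] : Fin 2 → E) 1 * α l 0 ≠ 0 := by
    intro l
    refine Fin.cases ?_ (fun a => ?_) l
    · show t0 * 0 - (1 : E) * 1 ≠ 0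
      simp
    · show t0 * 1 - 1 * b a ≠ 0
      rw [mul_one, one_mul]
      exact sub_ne_zero.2 (ht a)
  have h3 := hC3 ![t0, 1] (Set.mem_univ _) (fun h => one_ne_zero (congrFun h 1)) hcr
  rw [counting_eq S' hcr] at h3
  unfold Pool.Agent.Results.MP_4d5ce1_nt.ThinSetsSuffice.height at h3
  rw [swap_ht] at h3
  -- the good primes
  have hgood1 : ∀ v, v ∉ Bad2 → ∀ a, nrm (av (Sum.inr v : Pl E)) ![1, b a] = 1 := by
    intro v hv a
    by_contra hcon
    apply hv
    rw [hBad2, hB1]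
    exact Or.inr (Or.inl (Set.mem_iUnion.2 ⟨a, hcon⟩))
  have hgood2 : ∀ v, v ∉ Bad2 → ∀ a a', a ≠ a' → av (Sum.inr v : Pl E) (b a - b a') = 1 := by
    intro v hv a a' haa
    by_contra hcon
    apply hv
    rw [hBad2, hB2]
    exact Or.inr (Or.inr (Set.mem_iUnion.2 ⟨a, Set.mem_iUnion.2 ⟨a', haa, hcon⟩⟩))
  have hinf : ∀ v, Meet (α 0) ![t0, 1] v → 1 < nrm (av (Sum.inr v : Pl E)) ![1, t0] := by
    intro v hv
    unfold Meet at hv
    have e1 : (![t0, 1] : Fin 2 → E) 0 * α 0 1 - (![t0, 1] : Fin 2 → E) 1 * α 0 0 = -1 := by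
      show t0 * 0 - (1 : E) * 1 = -1
      ring
    rw [e1] at hv
    have e2 : α 0 0 = 1 := rfl
    have e3 : α 0 1 = 0 := rfl
    have e4 : (![t0, 1] : Fin 2 → E) 0 = t0 := rfl
    have e5 : (![t0, 1] : Fin 2 → E) 1 = 1 := rfl
    rw [e2, e3, e4, e5, Valuation.map_neg, map_one, map_zero, max_eq_left zero_le, mul_one] at hv
    have h1 : (v.valuation E) (1 : E) < v.valuation E t0 := by
      rw [map_one]
      rcases lt_max_iff.1 hv with h | h
      · exact h
      · exact absurd h (lt_irrefl _)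
    have h2 := Pool.Agent.H432.TC.mk_lt_iff.2 h1
    have h3 : av (Sum.inr v : Pl E) 1 < av (Sum.inr v : Pl E) t0 := h2
    rw [map_one] at h3
    exact h3.trans_le (nrm2_ge _ t0)
  have hfinm : ∀ v, v ∉ Bad2 → ∀ a : Fin ν, Meet (α a.succ) ![t0, 1] v →
      nrm (av (Sum.inr v : Pl E)) ![1, t0] = 1 ∧ av (Sum.inr v : Pl E) (t0 - b a) < 1 := by
    intro v hv a ha
    have h1 : Meet ![b a, 1] ![t0, 1] v := ha
    exact (Mt_of_meet h1).lt_one (hgood1 v hv a)
  have hle : ∀ v, v ∉ Bad2 → ∀ a, av (Sum.inr v : Pl E) (t0 - b a) ≤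
      nrm (av (Sum.inr v : Pl E)) ![1, t0] := by
    intro v hv a
    refine (fin_sub_le v t0 (b a)).trans (max_le (nrm2_ge _ t0) ?_)
    have h1 := nrm2_ge (Sum.inr v : Pl E) (b a)
    rw [hgood1 v hv a] at h1
    exact h1.trans (nrm2_pos _ t0)
  have hmeet : ∀ v, v ∉ Bad2 → ∀ l, Meet (α l) ![t0, 1] v → MeetT b t0 v := by
    intro v hv l
    have hR1 := nrm2_pos (Sum.inr v : Pl E) t0
    refine Fin.cases ?_ (fun a => ?_) l
    · intro h
      have h1 := hinf v h
      unfold MeetT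
      rw [map_prod]
      calc ∏ a, av (Sum.inr v : Pl E) (t0 - b a) ≤
            ∏ _a : Fin ν, nrm (av (Sum.inr v : Pl E)) ![1, t0] :=
            Finset.prod_le_prod (fun a _ => (av _).nonneg _) fun a _ => hle v hv a
        _ = nrm (av (Sum.inr v : Pl E)) ![1, t0] ^ ν := by
            rw [Finset.prod_const, Finset.card_univ, Fintype.card_fin]
        _ < _ := pow_lt_pow_right₀ h1 (Nat.lt_succ_self ν)
    · intro h
      obtain ⟨h1, h2⟩ := hfinm v hv a h
      unfold MeetT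
      rw [map_prod, h1, one_pow]
      rw [← Finset.mul_prod_erase _ _ (Finset.mem_univ a)]
      have h7 : ∏ a' ∈ Finset.univ.erase a, av (Sum.inr v : Pl E) (t0 - b a') ≤ 1 :=
        Finset.prod_le_one (fun _ _ => (av _).nonneg _) fun a' _ => by
          have := hle v hv a'
          rwa [h1] at this
      have h8 : 0 ≤ ∏ a' ∈ Finset.univ.erase a, av (Sum.inr v : Pl E) (t0 - b a') :=
        Finset.prod_nonneg fun _ _ => (av _).nonneg _
      have h9 := (av (Sum.inr v : Pl E)).nonneg (t0 - b a)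
      nlinarith
  have huniq : ∀ v, v ∉ Bad2 → ∀ l l' : Fin (ν + 1), (v ∉ S' ∧ Meet (α l) ![t0, 1] v) →
      (v ∉ S' ∧ Meet (α l') ![t0, 1] v) → l = l' := by
    intro v hv l l'
    refine Fin.cases ?_ (fun a => ?_) l
    · refine Fin.cases ?_ (fun a' => ?_) l'
      · intro _ _
        rfl
      · rintro ⟨-, h1⟩ ⟨-, h2⟩
        have := hinf v h1
        have := (hfinm v hv a' h2).1
        linarith
    · refine Fin.cases ?_ (fun a' => ?_) l'
      · rintro ⟨-, h2⟩ ⟨-, h1⟩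
        have := hinf v h1
        have := (hfinm v hv a h2).1
        linarith
      · rintro ⟨-, h1⟩ ⟨-, h2⟩
        by_contra haa
        have haa' : a ≠ a' := fun h => haa (by rw [h])
        have h3 := (hfinm v hv a h1).2
        have h4 := (hfinm v hv a' h2).2
        have h5 := hgood2 v hv a a' haa'
        have h6 : av (Sum.inr v : Pl E) (b a - b a') ≤
            max (av (Sum.inr v : Pl E) (t0 - b a')) (av (Sum.inr v : Pl E) (t0 - b a)) := by
          have h7 : b a - b a' = (t0 - b a') - (t0 - b a) := by ring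
          rw [h7]
          exact fin_sub_le v _ _
        rcases le_max_iff.1 h6 with h7 | h7
        · linarith
        · linarith
  have hmf : ∀ l, {v | v ∉ S' ∧ Meet (α l) ![t0, 1] v}.Finite := fun l =>
    (meet_fin (hcr l)).subset fun v hv => hv.2
  have h4 := sum_wt_le (fun l v => v ∉ S' ∧ Meet (α l) ![t0, 1] v) hmf Bad2 hBad2f huniq
  have h5 : wt (fun v => v ∉ Bad2 ∧ ∃ l, v ∉ S' ∧ Meet (α l) ![t0, 1] v) ≤
      wt (fun v => v ∉ S' ∧ v ∉ Bad ∧ MeetT b t0 v) := by
    refine wt_mono ((MeetT_fin b t0 ht).subset fun v hv => hv.2.2) ?_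
    rintro v ⟨hv, l, hvS, hm⟩
    exact ⟨hvS, fun h => hv (Or.inl h), hmeet v hv l hm⟩
  have h6 := mul_le_mul_of_nonneg_right h3 hfE.le
  rw [add_mul, div_mul_cancel₀ _ hfE.ne'] at h6
  have h7 : (((ν + 1 : ℕ) : ℝ) - 2 - ε) * (logHeight ![1, t0] / finrank ℚ E) * finrank ℚ E =
      ((ν : ℝ) - 1 - ε) * logHeight ![1, t0] := by
    field_simp
    push_cast
    ring
  rw [h7] at h6
  linarith

end Pool.Agent.H432.AC
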