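import Mathlib
import Pool.Agent.H432.AC.Stm

set_option autoImplicit false

namespace Pool.Agent.H432.AC

open MvPolynomial

namespace PDESC

section rt

variable {E Ω : Type} [Field E] [Field Ω] [Algebra E Ω] {σ ι : Type}

/-- coefficientwise application of an `E`-linear map -/
noncomputable def rt (r : Ω →ₗ[E] E) (p : MvPolynomial σ Ω) : MvPolynomial σ E :=
  ∑ d ∈ p.support, monomial d (r (coeff d p))

lemma coeff_rt (r : Ω →ₗ[E] E) (p : MvPolynomial σ Ω) (d : σ →₀ ℕ) :
    coeff d (rt r p) = r (coeff d p) := by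
  classical
  unfold rt
  rw [coeff_sum]
  simp only [coeff_monomial]
  rw [Finset.sum_ite_eq' p.support d (fun x => r (coeff x p))]
  split_ifs with h
  · rfl
  · rw [notMem_support_iff] at h
    rw [h, map_zero]

lemma rt_add (r : Ω →ₗ[E] E) (p q : MvPolynomial σ Ω) : rt r (p + q) = rt r p + rt r q := by
  ext d
  rw [coeff_rt, coeff_add, coeff_add, coeff_rt, coeff_rt, map_add]

lemma rt_map_mul (r : Ω →ₗ[E] E) (U : MvPolynomial σ E) (V : MvPolynomial σ Ω) :
    rt r (MvPolynomial.map (algebraMap E Ω) U * V) = U * rt r V := by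
  classical
  ext d
  rw [coeff_rt, coeff_mul, coeff_mul, map_sum]
  refine Finset.sum_congr rfl fun x _ => ?_
  rw [coeff_map, coeff_rt, ← Algebra.smul_def, map_smul, smul_eq_mul]

lemma rt_one (r : Ω →ₗ[E] E) (hr : r 1 = 1) : rt r (1 : MvPolynomial σ Ω) = 1 := by
  classical
  ext d
  rw [coeff_rt, coeff_one, coeff_one]
  split_ifs
  · exact hr
  · exact map_zero r

lemma rt_map (r : Ω →ₗ[E] E) (hr : r 1 = 1) (U : MvPolynomial σ E) :
    rt r (MvPolynomial.map (algebraMap E Ω) U) = U := by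
  have := rt_map_mul r U 1
  rwa [mul_one, rt_one r hr, mul_one] at this

lemma rt_C (r : Ω →ₗ[E] E) (c : Ω) : rt r (C c : MvPolynomial σ Ω) = C (r c) := by
  classical
  ext d
  rw [coeff_rt, coeff_C, coeff_C]
  split_ifs
  · rfl
  · exact map_zero r

lemma rt_monomial (r : Ω →ₗ[E] E) (s : σ →₀ ℕ) (c : Ω) :
    rt r (monomial s c) = monomial s (r c) := by
  classical
  ext d
  rw [coeff_rt, coeff_monomial, coeff_monomial]
  split_ifs
  · rfl
  · exact map_zero r

lemma rt_aeval (r : Ω →ₗ[E] E) (g : ι → MvPolynomial σ E) (a : MvPolynomial ι Ω) :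
    rt r (aeval (fun i => MvPolynomial.map (algebraMap E Ω) (g i)) a) = aeval g (rt r a) := by
  induction a using MvPolynomial.induction_on' with
  | add p q hp hq => rw [map_add, rt_add, rt_add, map_add, hp, hq]
  | monomial s c =>
    rw [rt_monomial, aeval_monomial, aeval_monomial]
    have e : (s.prod fun i k => (MvPolynomial.map (algebraMap E Ω) (g i)) ^ k) =
        MvPolynomial.map (algebraMap E Ω) (s.prod fun i k => g i ^ k) := by
      rw [Finsupp.prod, Finsupp.prod, map_prod]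
      simp only [map_pow]
    rw [e, mul_comm, rt_map_mul, mul_comm]
    congr 1
    exact rt_C r c

lemma rt_homog (r : Ω →ₗ[E] E) {a : MvPolynomial ι Ω} {n : ℕ} (h : a.IsHomogeneous n) :
    (rt r a).IsHomogeneous n := by
  intro d hd
  apply h
  intro h0
  apply hd
  rw [coeff_rt, h0, map_zero]

lemma dvd_desc (r : Ω →ₗ[E] E) (hr : r 1 = 1) {P Q : MvPolynomial σ E}
    (h : MvPolynomial.map (algebraMap E Ω) P ∣ MvPolynomial.map (algebraMap E Ω) Q) : P ∣ Q := by
  obtain ⟨V, hV⟩ := h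
  refine ⟨rt r V, ?_⟩
  rw [← rt_map_mul, ← hV, rt_map r hr]

lemma rel_desc (r : Ω →ₗ[E] E) (hr : r 1 = 1) {P : MvPolynomial (Fin 2) E}
    {g : ι → MvPolynomial (Fin 2) E} {f : MvPolynomial (Fin 2) E}
    (h : Rel (MvPolynomial.map (algebraMap E Ω) P)
      (fun i => MvPolynomial.map (algebraMap E Ω) (g i)) (MvPolynomial.map (algebraMap E Ω) f)) :
    Rel P g f := by
  obtain ⟨m, a, ha, V, hV⟩ := h
  refine ⟨m, fun i => rt r (a i), fun i => rt_homog r (ha i), rt r V, ?_⟩
  rw [← rt_map_mul, ← hV, rt_add, ← map_pow, rt_map r hr]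
  congr 1
  have key : ∀ s : Finset (Fin m), ∑ i ∈ s, aeval g (rt r (a i)) * f ^ (i : ℕ) =
      rt r (∑ i ∈ s, aeval (fun i => MvPolynomial.map (algebraMap E Ω) (g i)) (a i) *
        MvPolynomial.map (algebraMap E Ω) f ^ (i : ℕ)) := by
    intro s
    induction s using Finset.cons_induction with
    | empty =>
      rw [Finset.sum_empty, Finset.sum_empty, ← map_zero (MvPolynomial.map (algebraMap E Ω)),
        rt_map r hr]
    | cons i s hi ih =>
      rw [Finset.sum_cons, Finset.sum_cons, rt_add, ih, ← map_pow, mul_comm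
        (aeval (fun i => MvPolynomial.map (algebraMap E Ω) (g i)) (a i)), rt_map_mul, rt_aeval,
        mul_comm]
  exact key _

end rt

lemma exists_rt (E Ω : Type) [Field E] [Field Ω] [Algebra E Ω] : ∃ r : Ω →ₗ[E] E, r 1 = 1 := by
  obtain ⟨r, hr⟩ := (Algebra.linearMap E Ω).exists_leftInverse_of_injective
    (LinearMap.ker_eq_bot.mpr (algebraMap E Ω).injective)
  refine ⟨r, ?_⟩
  have := LinearMap.congr_fun hr 1
  simpa using this

lemma map_aeval' {k E Ω σ ι : Type} [Field k] [Field E] [Field Ω] [Algebra k E] [Algebra E Ω]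
    [Algebra k Ω] [IsScalarTower k E Ω] (φ : ι → MvPolynomial σ E) (q : MvPolynomial ι k) :
    aeval (fun i => MvPolynomial.map (algebraMap E Ω) (φ i)) q =
      MvPolynomial.map (algebraMap E Ω) (aeval φ q) := by
  induction q using MvPolynomial.induction_on with
  | C c =>
    rw [aeval_C, aeval_C, MvPolynomial.algebraMap_apply, MvPolynomial.algebraMap_apply, map_C,
      ← IsScalarTower.algebraMap_apply]
  | add p q hp hq => rw [map_add, map_add, map_add, hp, hq]
  | mul_X p i hp => rw [map_mul, map_mul, map_mul, hp, aeval_X, aeval_X]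

lemma cert_desc {k L E Ω : Type} [Field k] [Field L] [Field E] [Field Ω] [Algebra k L]
    [Algebra L E] [Algebra E Ω] [Algebra L Ω] [IsScalarTower L E Ω] [Algebra k E]
    [IsScalarTower k L E] [Algebra k Ω] [IsScalarTower k E Ω]
    {M g q w n' : ℕ} {G : Fin g → MvPolynomial (Fin M) k}
    {F : Fin q → Fin w → MvPolynomial (Fin M) k} {δ : Fin q → ℕ} {P : MvPolynomial (Fin 2) L}
    {φ : Fin M → MvPolynomial (Fin 2) L}
    {c : Fin 2} {ν e : ℕ} {b : Fin ν → Ω} {Q : MvPolynomial (Fin 2) Ω}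
    {Γ : (Fin (n' + 2) → Fin M) → MvPolynomial (Fin 2) Ω}
    (h1 : 3 ≤ ν) (h2 : 2 ≤ e) (h3 : Function.Injective b)
    (h4 : 0 < degreeOf (c + 1) (MvPolynomial.map (algebraMap L Ω) P))
    (h5 : ¬ MvPolynomial.map (algebraMap L Ω) P ∣ Q)
    (h6 : ∃ J, ¬ MvPolynomial.map (algebraMap L Ω) P ∣ Γ J)
    (h7 : ∀ J (i j : Fin (n' + 2)), i ≠ j →
      MvPolynomial.map (algebraMap L Ω) P ∣ Γ (J ∘ Equiv.swap i j) + Γ J)
    (h8 : ∀ i J, MvPolynomial.map (algebraMap L Ω) P ∣
      ∑ l, aeval (fun l => MvPolynomial.map (algebraMap L Ω) (φ l)) (pderiv l (G i)) *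
        Γ (Function.update J 0 l))
    (h9 : ∀ J l, Rel (MvPolynomial.map (algebraMap L Ω) P)
      (fun x : Fin M × (Fin q → Fin w) × Fin 2 =>
        Q * (fun l => MvPolynomial.map (algebraMap L Ω) (φ l)) x.1 ^ (n' + 2) *
          (∏ i, aeval (fun l => MvPolynomial.map (algebraMap L Ω) (φ l)) (F i (x.2.1 i))) *
          X c ^ ((x.2.2 : ℕ) * (ν - 1)))
      (Γ J * (∏ a, (X c - C (b a))) *
        (fun l => MvPolynomial.map (algebraMap L Ω) (φ l)) l ^ (∑ i, δ i)))
    (h10 : ∀ J, Rel (MvPolynomial.map (algebraMap L Ω) P) (fun x : Fin M × Fin 2 =>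
        Q ^ e * (fun l => MvPolynomial.map (algebraMap L Ω) (φ l)) x.1 ^ (e * (n' + 2)) *
          X c ^ ((x.2 : ℕ) * ((e - 1) * (ν + 1) - 2 * e)))
      (Γ J ^ e * (∏ a, (X c - C (b a))) ^ (e - 1)))
    {b' : Fin ν → E} (hb' : ∀ a, algebraMap E Ω (b' a) = b a)
    {Q' : MvPolynomial (Fin 2) E} (hQ' : MvPolynomial.map (algebraMap E Ω) Q' = Q)
    {Γ' : (Fin (n' + 2) → Fin M) → MvPolynomial (Fin 2) E}
    (hΓ' : ∀ J, MvPolynomial.map (algebraMap E Ω) (Γ' J) = Γ J) :
    Cert n' G F δ (MvPolynomial.map (algebraMap L E) P)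
      (fun l => MvPolynomial.map (algebraMap L E) (φ l)) := by
  obtain ⟨r, hr⟩ := exists_rt E Ω
  have eP : MvPolynomial.map (algebraMap L Ω) P =
      MvPolynomial.map (algebraMap E Ω) (MvPolynomial.map (algebraMap L E) P) := by
    rw [MvPolynomial.map_map, ← IsScalarTower.algebraMap_eq]
  have eφ : (fun l => MvPolynomial.map (algebraMap L Ω) (φ l)) = fun l =>
      MvPolynomial.map (algebraMap E Ω) (MvPolynomial.map (algebraMap L E) (φ l)) := by
    funext l
    rw [MvPolynomial.map_map, ← IsScalarTower.algebraMap_eq]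
  rw [eP] at h4 h5 h6 h7 h8 h9 h10
  obtain ⟨J0, h6⟩ := h6
  refine ⟨c, ν, e, b', Q', Γ', h1, h2, ?_, ?_, ?_, ⟨J0, ?_⟩, ?_, ?_, ?_, ?_⟩
  · intro x y hxy
    apply h3
    rw [← hb', ← hb', hxy]
  · have : degreeOf (c + 1) (MvPolynomial.map (algebraMap E Ω)
        (MvPolynomial.map (algebraMap L E) P)) =
        degreeOf (c + 1) (MvPolynomial.map (algebraMap L E) P) := by
      unfold degreeOf
      rw [degrees_map_of_injective _ (algebraMap E Ω).injective]
    rwa [this] at h4
  · intro hd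
    apply h5
    rw [← hQ']
    exact map_dvd _ hd
  · intro hd
    apply h6
    rw [← hΓ']
    exact map_dvd _ hd
  · intro J i j hij
    have := h7 J i j hij
    rw [← hΓ', ← hΓ', ← map_add] at this
    exact dvd_desc r hr this
  · intro i J
    have h8' := h8 i J
    apply dvd_desc r hr
    have e1 : (∑ l, aeval (fun l => MvPolynomial.map (algebraMap L Ω) (φ l)) (pderiv l (G i)) *
        Γ (Function.update J 0 l)) = MvPolynomial.map (algebraMap E Ω)
        (∑ l, aeval (fun l => MvPolynomial.map (algebraMap L E) (φ l)) (pderiv l (G i)) *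
        Γ' (Function.update J 0 l)) := by
      rw [map_sum, eφ]
      simp only [map_aeval', map_mul, hΓ']
    rw [← e1]
    exact h8'
  · intro J l
    have h9' := h9 J l
    have e1 : (fun x : Fin M × (Fin q → Fin w) × Fin 2 =>
        Q * (fun l => MvPolynomial.map (algebraMap L Ω) (φ l)) x.1 ^ (n' + 2) *
          (∏ i, aeval (fun l => MvPolynomial.map (algebraMap L Ω) (φ l)) (F i (x.2.1 i))) *
          X c ^ ((x.2.2 : ℕ) * (ν - 1))) = fun x => MvPolynomial.map (algebraMap E Ω)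
        (Q' * (fun l => MvPolynomial.map (algebraMap L E) (φ l)) x.1 ^ (n' + 2) *
          (∏ i, aeval (fun l => MvPolynomial.map (algebraMap L E) (φ l)) (F i (x.2.1 i))) *
          X c ^ ((x.2.2 : ℕ) * (ν - 1))) := by
      funext x
      rw [map_mul, map_mul, map_mul, map_pow, map_pow, map_prod, map_X, hQ', eφ]
      simp only [map_aeval']
    have e2 : Γ J * (∏ a, (X c - C (b a))) *
        (fun l => MvPolynomial.map (algebraMap L Ω) (φ l)) l ^ (∑ i, δ i) =
        MvPolynomial.map (algebraMap E Ω) (Γ' J * (∏ a, (X c - C (b' a))) *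
        (fun l => MvPolynomial.map (algebraMap L E) (φ l)) l ^ (∑ i, δ i)) := by
      rw [map_mul, map_mul, map_pow, map_prod, hΓ', eφ]
      simp only [map_sub, map_X, map_C, hb']
    apply rel_desc r hr
    rw [← e1, ← e2]
    exact h9'
  · intro J
    have h10' := h10 J
    have e1 : (fun x : Fin M × Fin 2 =>
        Q ^ e * (fun l => MvPolynomial.map (algebraMap L Ω) (φ l)) x.1 ^ (e * (n' + 2)) *
          X c ^ ((x.2 : ℕ) * ((e - 1) * (ν + 1) - 2 * e))) = fun x =>
        MvPolynomial.map (algebraMap E Ω)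
        (Q' ^ e * (fun l => MvPolynomial.map (algebraMap L E) (φ l)) x.1 ^ (e * (n' + 2)) *
          X c ^ ((x.2 : ℕ) * ((e - 1) * (ν + 1) - 2 * e))) := by
      funext x
      rw [map_mul, map_mul, map_pow, map_pow, map_pow, map_X, hQ', eφ]
    have e2 : Γ J ^ e * (∏ a, (X c - C (b a))) ^ (e - 1) =
        MvPolynomial.map (algebraMap E Ω) (Γ' J ^ e * (∏ a, (X c - C (b' a))) ^ (e - 1)) := by
      rw [map_mul, map_pow, map_pow, map_prod, hΓ']
      simp only [map_sub, map_X, map_C, hb']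
    apply rel_desc r hr
    rw [← e1, ← e2]
    exact h10'

end PDESC

open PDESC

theorem desc : S_DESC := by
  classical
  intro k L Ω _ _ _ _ _ _ _ _ _ M g q w n' G F δ P φ h
  obtain ⟨c, ν, e, b, Q, Γ, h1, h2, h3, h4, h5, h6, h7, h8, h9, h10⟩ := h
  -- the finite set of coefficients
  obtain ⟨S, hS_def⟩ : ∃ S : Set Ω,
    S = Set.range b ∪ (Q.coeffs : Set Ω) ∪ ⋃ J, ((Γ J).coeffs : Set Ω) := ⟨_, rfl⟩
  have hS : S.Finite := by
    rw [hS_def]
    exact ((Set.finite_range b).union Q.coeffs.finite_toSet).union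
      (Set.finite_iUnion fun J => (Γ J).coeffs.finite_toSet)
  have : Finite S := hS
  obtain ⟨E, hE⟩ : ∃ E : IntermediateField L Ω, E = IntermediateField.adjoin L S := ⟨_, rfl⟩
  have hfin : FiniteDimensional L E := by
    rw [hE]
    exact IntermediateField.finiteDimensional_adjoin fun x _ => Algebra.IsIntegral.isIntegral x
  have hc0 : CharZero E := charZero_of_injective_algebraMap (algebraMap L E).injective
  have hq : FiniteDimensional ℚ E := FiniteDimensional.trans ℚ L E
  have hNF : NumberField E := ⟨⟩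
  let iK : Algebra k E := ((algebraMap L E).comp (algebraMap k L)).toAlgebra
  have hT : IsScalarTower k L E := IsScalarTower.of_algebraMap_eq' rfl
  have hTE : IsScalarTower k E Ω := IsScalarTower.of_algebraMap_eq' (by
    rw [IsScalarTower.algebraMap_eq k L Ω, IsScalarTower.algebraMap_eq k L E,
      IsScalarTower.algebraMap_eq L E Ω]
    rfl)
  have hmem : ∀ x ∈ S, x ∈ E := fun x hx => by
    rw [hE]; exact IntermediateField.subset_adjoin L S hx
  -- descend the data
  have hb : ∀ a, ∃ y : E, algebraMap E Ω y = b a :=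
    fun a => ⟨⟨b a, hmem _ (by rw [hS_def]; exact Or.inl (Or.inl ⟨a, rfl⟩))⟩, rfl⟩
  choose b' hb' using hb
  have hlift : ∀ p : MvPolynomial (Fin 2) Ω, (∀ x ∈ p.coeffs, x ∈ S) →
      ∃ p' : MvPolynomial (Fin 2) E, MvPolynomial.map (algebraMap E Ω) p' = p := by
    intro p hp
    have := (MvPolynomial.mem_range_map_iff_coeffs_subset (f := algebraMap E Ω) (x := p)).mpr
      (fun x hx => ⟨⟨x, hmem x (hp x hx)⟩, rfl⟩)
    exact this
  obtain ⟨Q', hQ'⟩ := hlift Q fun x hx => by rw [hS_def]; exact Or.inl (Or.inr hx)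
  have hΓ := fun J => hlift (Γ J) fun x hx => by
    rw [hS_def]; exact Or.inr (Set.mem_iUnion.mpr ⟨J, hx⟩)
  choose Γ' hΓ' using hΓ
  exact ⟨E, inferInstance, hNF, inferInstance, inferInstance, inferInstance, iK, hT,
    cert_desc h1 h2 h3 h4 h5 h6 h7 h8 h9 h10 hb' hQ' hΓ'⟩

end Pool.Agent.H432.AC
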