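import Mathlib
import Pool.Agent.H432.AC.Stm

/-!
Task FINZ of project AC (helper549): finitely many common zeros of coprime polynomials in two
variables.
-/

set_option autoImplicit false

namespace Pool.Agent.H432.AC.PFINZ

theorem elim {R : Type*} [CommRing R] [IsDomain R] [UniqueFactorizationMonoid R]
    {p q : Polynomial R} (hp : Irreducible p) (hd : p.natDegree ≠ 0) (hpq : ¬ p ∣ q) :
    ∃ (a b : Polynomial R) (r : R), r ≠ 0 ∧ p * a + q * b = Polynomial.C r := by
  obtain ⟨a, b, -, -, h⟩ := Polynomial.exists_mul_add_mul_eq_C_resultant p q le_rfl le_rfl (Or.inl hd)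
  refine ⟨a, b, _, ?_, h⟩
  intro h0
  have hprim := hp.isPrimitive hd
  have hinj : Function.Injective (algebraMap R (FractionRing R)) := IsFractionRing.injective _ _
  have hirr : Irreducible (p.map (algebraMap R (FractionRing R))) :=
    hprim.irreducible_iff_irreducible_map_fraction_map.1 hp
  have hnd : ¬ p.map (algebraMap R (FractionRing R)) ∣ q.map (algebraMap R (FractionRing R)) :=
    fun h => hpq (hprim.dvd_of_fraction_map_dvd_fraction_map h)
  have hcop : IsCoprime (p.map (algebraMap R (FractionRing R))) (q.map (algebraMap R (FractionRing R))) :=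
    (hirr.isCoprime_or_dvd _).resolve_right hnd
  have h1 := Polynomial.resultant_ne_zero _ _ hcop
  apply h1
  rw [Polynomial.natDegree_map_eq_of_injective hinj, Polynomial.natDegree_map_eq_of_injective hinj,
    Polynomial.resultant_map_map, h0, map_zero]

theorem elim_eval {E : Type*} [Field E] {P Q : MvPolynomial (Fin 2) E} (hP : Irreducible P)
    (hPQ : ¬ P ∣ Q) : ∃ r : MvPolynomial (Fin 1) E, r ≠ 0 ∧ ∀ z : Fin 2 → E,
      MvPolynomial.eval z P = 0 → MvPolynomial.eval z Q = 0 → MvPolynomial.eval (Fin.tail z) r = 0 := by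
  have hev : ∀ (F : MvPolynomial (Fin 2) E) (z : Fin 2 → E), MvPolynomial.eval z F =
      Polynomial.eval (z 0) (Polynomial.map (MvPolynomial.eval (Fin.tail z))
        (MvPolynomial.finSuccEquiv E 1 F)) := by
    intro F z
    have h := MvPolynomial.eval_eq_eval_mv_eval' (Fin.tail z) (z 0) F
    rwa [Fin.cons_self_tail] at h
  have hp : Irreducible (MvPolynomial.finSuccEquiv E 1 P) :=
    (MulEquiv.irreducible_iff (MvPolynomial.finSuccEquiv E 1)).2 hP
  have hpq : ¬ MvPolynomial.finSuccEquiv E 1 P ∣ MvPolynomial.finSuccEquiv E 1 Q := by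
    rwa [map_dvd_iff]
  by_cases hd : (MvPolynomial.finSuccEquiv E 1 P).natDegree = 0
  · have hC := Polynomial.eq_C_of_natDegree_eq_zero hd
    refine ⟨(MvPolynomial.finSuccEquiv E 1 P).coeff 0, ?_, ?_⟩
    · intro h0
      rw [h0, Polynomial.C_0] at hC
      exact hp.ne_zero hC
    · intro z h1 _
      rw [hev, hC, Polynomial.map_C, Polynomial.eval_C] at h1
      exact h1
  · obtain ⟨a, b, r, hr, h⟩ := elim hp hd hpq
    refine ⟨r, hr, fun z h1 h2 => ?_⟩
    rw [hev] at h1 h2
    have h3 := congrArg (fun F => Polynomial.eval (z 0) (Polynomial.map (MvPolynomial.eval (Fin.tail z)) F)) h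
    simp only [Polynomial.map_add, Polynomial.map_mul, Polynomial.eval_add, Polynomial.eval_mul,
      h1, h2, zero_mul, add_zero, Polynomial.map_C, Polynomial.eval_C] at h3
    exact h3.symm

theorem fin_one {E : Type*} [Field E] {r : MvPolynomial (Fin 1) E} (hr : r ≠ 0) :
    {s : Fin 1 → E | MvPolynomial.eval s r = 0}.Finite := by
  have hinj : Function.Injective (MvPolynomial.eval (Fin.elim0 : Fin 0 → E)) := by
    intro x y hxy
    obtain ⟨a, rfl⟩ := MvPolynomial.C_surjective (Fin 0) x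
    obtain ⟨b, rfl⟩ := MvPolynomial.C_surjective (Fin 0) y
    rw [MvPolynomial.eval_C, MvPolynomial.eval_C] at hxy
    rw [hxy]
  have h0 : Polynomial.map (MvPolynomial.eval (Fin.elim0 : Fin 0 → E))
      (MvPolynomial.finSuccEquiv E 0 r) ≠ 0 := by
    rw [Ne, Polynomial.map_eq_zero_iff hinj]
    intro h
    apply hr
    exact (MvPolynomial.finSuccEquiv E 0).injective (by rw [h, map_zero])
  have hfin := Polynomial.finite_setOfPred_isRoot h0
  refine Set.Finite.of_injOn (f := fun s : Fin 1 → E => s 0) (t := _) ?_ ?_ hfin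
  · intro s hs
    have h := MvPolynomial.eval_eq_eval_mv_eval' (Fin.elim0 : Fin 0 → E) (s 0) r
    have e : (Fin.cons (s 0) (Fin.elim0 : Fin 0 → E) : Fin 1 → E) = s := by
      funext i
      rw [Fin.fin_one_eq_zero i]
      rfl
    rw [e] at h
    show Polynomial.IsRoot _ _
    rw [Polynomial.IsRoot.def, ← h]
    exact hs
  · intro s _ t _ h
    funext i
    rw [Subsingleton.elim i 0]
    exact h

theorem coord {E : Type*} [Field E] {P Q : MvPolynomial (Fin 2) E} (hP : Irreducible P)
    (hPQ : ¬ P ∣ Q) :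
    ((fun z : Fin 2 → E => z 1) '' {z | MvPolynomial.eval z P = 0 ∧ MvPolynomial.eval z Q = 0}).Finite := by
  obtain ⟨r, hr, h⟩ := elim_eval hP hPQ
  refine ((fin_one hr).image fun s => s 0).subset ?_
  rintro _ ⟨z, ⟨h1, h2⟩, rfl⟩
  exact ⟨Fin.tail z, h z h1 h2, rfl⟩

theorem finz' {E : Type*} [Field E] {P Q : MvPolynomial (Fin 2) E} (hP : Irreducible P)
    (hPQ : ¬ P ∣ Q) : {z : Fin 2 → E | MvPolynomial.eval z P = 0 ∧ MvPolynomial.eval z Q = 0}.Finite := by
  have h1 := coord hP hPQ
  let e := MvPolynomial.renameEquiv E (Equiv.swap (0 : Fin 2) 1)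
  have hP' : Irreducible (e P) := (MulEquiv.irreducible_iff e).2 hP
  have hPQ' : ¬ e P ∣ e Q := by rwa [map_dvd_iff]
  have h2 := coord hP' hPQ'
  refine Set.Finite.of_injOn (f := fun z : Fin 2 → E => (z 1, z 0)) ?_ ?_ (h1.prod h2)
  · rintro z ⟨hz1, hz2⟩
    refine ⟨⟨z, ⟨hz1, hz2⟩, rfl⟩, ⟨z ∘ Equiv.swap (0 : Fin 2) 1, ⟨?_, ?_⟩, ?_⟩⟩
    · show MvPolynomial.eval _ (MvPolynomial.rename _ P) = 0
      rw [MvPolynomial.eval_rename]
      have : (z ∘ Equiv.swap (0 : Fin 2) 1) ∘ Equiv.swap (0 : Fin 2) 1 = z := by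
        funext i; simp
      rw [this]
      exact hz1
    · show MvPolynomial.eval _ (MvPolynomial.rename _ Q) = 0
      rw [MvPolynomial.eval_rename]
      have : (z ∘ Equiv.swap (0 : Fin 2) 1) ∘ Equiv.swap (0 : Fin 2) 1 = z := by
        funext i; simp
      rw [this]
      exact hz2
    · simp
  · intro z _ w _ h
    have h1 : z 1 = w 1 := congrArg Prod.fst h
    have h2 : z 0 = w 0 := congrArg Prod.snd h
    funext i
    fin_cases i
    · exact h2
    · exact h1

end Pool.Agent.H432.AC.PFINZ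

namespace Pool.Agent.H432.AC

theorem finz : S_FINZ := fun _ _ _ _ hP hPQ => PFINZ.finz' hP hPQ

end Pool.Agent.H432.AC
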