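import Mathlib
import Pool.Agent.H432.AC.Stm
import Pool.Agent.H432.TC.Bd

set_option autoImplicit false
set_option linter.unusedVariables false

namespace Pool.Agent.H432.AC.PHT

open MvPolynomial Height Pool.Agent.N750 Pool.Agent.H432.RC Pool.Agent.H432.TC
open Pool.Agent.W180.OP (Pl av wt nrm le_nrm nrm_pos wt_nonneg exists_nrm nrm_nonneg)

/-! ### the algebraic part -/

/-- the homogenisation -/
noncomputable def hm {E R : Type} [CommRing E] [CommRing R] [Algebra E R] (D : ℕ)
    (a : Polynomial E) (f g : R) : R :=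
  ∑ j ∈ Finset.range (D + 1), algebraMap E R (a.coeff j) * f ^ j * g ^ (D - j)

theorem hm_map {E R S : Type} [CommRing E] [CommRing R] [Algebra E R] [CommRing S] [Algebra E S]
    (φ : R →ₐ[E] S) (D : ℕ) (a : Polynomial E) (f g : R) :
    φ (hm D a f g) = hm D a (φ f) (φ g) := by
  unfold hm
  rw [map_sum]
  refine Finset.sum_congr rfl fun j _ => ?_
  rw [map_mul, map_mul, map_pow, map_pow, AlgHom.commutes]

theorem hm_field {E R : Type} [CommRing E] [Field R] [Algebra E R] (D : ℕ) (a : Polynomial E)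
    (hD : a.natDegree ≤ D) (f g : R) (hg : g ≠ 0) :
    hm D a f g = g ^ D * Polynomial.aeval (f / g) a := by
  unfold hm
  rw [Polynomial.aeval_eq_sum_range' (Nat.lt_succ_of_le hD), Finset.mul_sum]
  refine Finset.sum_congr rfl fun j hj => ?_
  have hj' : j ≤ D := Nat.lt_succ_iff.1 (Finset.mem_range.1 hj)
  have h : g ^ D = g ^ j * g ^ (D - j) := by
    rw [← pow_add]
    congr 1
    omega
  have hgj : g ^ j ≠ 0 := pow_ne_zero _ hg
  rw [Algebra.smul_def, div_pow, h]
  field_simp

theorem exists_field (K : Type) [Field K] (P : MvPolynomial (Fin 2) K) (hP : Irreducible P) :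
    ∃ (F : Type) (_ : Field F) (_ : Algebra K F) (ψ : MvPolynomial (Fin 2) K →ₐ[K] F),
      (∀ Q, ψ Q = 0 ↔ P ∣ Q) ∧
      Algebra.IsAlgebraic (Algebra.adjoin K (Set.range fun i => ψ (X i))) F := by
  have hpr : Prime P := hP.prime
  have hI : (Ideal.span {P}).IsPrime := (Ideal.span_singleton_prime hpr.ne_zero).2 hpr
  have hdom : IsDomain (MvPolynomial (Fin 2) K ⧸ Ideal.span {P}) := Ideal.Quotient.isDomain _
  let A := MvPolynomial (Fin 2) K ⧸ Ideal.span {P}
  let ψ : MvPolynomial (Fin 2) K →ₐ[K] FractionRing A :=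
    (IsScalarTower.toAlgHom K A (FractionRing A)).comp (Ideal.Quotient.mkₐ K (Ideal.span {P}))
  have hψ : ∀ Q, ψ Q = algebraMap A (FractionRing A) (Ideal.Quotient.mk (Ideal.span {P}) Q) :=
    fun Q => rfl
  refine ⟨FractionRing A, inferInstance, inferInstance, ψ, fun Q => ?_, ⟨fun y => ?_⟩⟩
  · rw [hψ]
    rw [map_eq_zero_iff _ (IsFractionRing.injective A (FractionRing A)),
      Ideal.Quotient.eq_zero_iff_mem, Ideal.mem_span_singleton]
  · have hmem : ∀ Q, ψ Q ∈ Algebra.adjoin K (Set.range fun i => ψ (X i)) := by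
      intro Q
      have h1 : ψ = aeval (fun i => ψ (X i)) := by
        refine MvPolynomial.algHom_ext fun i => ?_
        rw [aeval_X]
      rw [h1, Algebra.adjoin_range_eq_range_aeval]
      refine ⟨Q, ?_⟩
      have h2 : ∀ i, (aeval (fun i => ψ (X i)) : MvPolynomial (Fin 2) K →ₐ[K] _) (X i) =
        ψ (X i) := fun i => aeval_X _ _
      simp only [h2]
      rfl
    have halg : ∀ Q, IsAlgebraic (Algebra.adjoin K (Set.range fun i => ψ (X i))) (ψ Q) :=
      fun Q => isAlgebraic_algebraMap (⟨ψ Q, hmem Q⟩ : Algebra.adjoin K _)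
    obtain ⟨a, b, hb, rfl⟩ := IsFractionRing.div_surjective (A := A) y
    obtain ⟨a, rfl⟩ := Ideal.Quotient.mk_surjective a
    obtain ⟨b, rfl⟩ := Ideal.Quotient.mk_surjective b
    rw [← hψ, ← hψ, div_eq_mul_inv]
    exact (halg a).mul (halg b).inv

theorem not_ai {K F : Type} [Field K] [Field F] [Algebra K F] (P : MvPolynomial (Fin 2) K)
    (hP0 : P ≠ 0) (ψ : MvPolynomial (Fin 2) K →ₐ[K] F) (hP : ψ P = 0)
    (halg : Algebra.IsAlgebraic (Algebra.adjoin K (Set.range fun i => ψ (X i))) F)
    (y : Option Unit → F) : ¬ AlgebraicIndependent K y := by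
  intro hy
  have h1 := hy.cardinalMk_le_trdeg
  have h2 : Cardinal.mk (Fin 2) ≤ Algebra.trdeg K F := by
    refine le_trans (le_of_eq ?_) h1
    simp
  have h3 := (Algebra.IsAlgebraic.isTranscendenceBasis_of_le_trdeg_of_finite K
    (fun i => ψ (X i)) h2).1
  apply hP0
  apply h3
  have h4 : ψ = aeval (fun i => ψ (X i)) := by
    refine MvPolynomial.algHom_ext fun i => ?_
    rw [aeval_X]
  rw [map_zero, ← h4]
  exact hP

theorem irr_of_map {E Ω : Type} [Field E] [Field Ω] (f : E →+* Ω) (P : MvPolynomial (Fin 2) E)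
    (h : Irreducible (MvPolynomial.map f P)) : Irreducible P := by
  have hloc : IsLocalHom (MvPolynomial.map f : MvPolynomial (Fin 2) E →+* _) := by
    refine ⟨fun a ha => ?_⟩
    rw [MvPolynomial.isUnit_iff_totalDegree_of_isReduced] at ha ⊢
    refine ⟨?_, ?_⟩
    · have := ha.1
      rw [coeff_map] at this
      rw [isUnit_iff_ne_zero] at this ⊢
      intro h0
      exact this (by rw [h0, map_zero])
    · rw [← ha.2]
      unfold MvPolynomial.totalDegree
      rw [MvPolynomial.support_map_of_injective _ f.injective]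
  exact Irreducible.of_map h

/-- the relation -/
theorem rel {E Ω : Type} [Field E] [Field Ω] [Algebra E Ω] [IsAlgClosed Ω]
    (P f g : MvPolynomial (Fin 2) E) (c : Fin 2)
    (hP : Irreducible (MvPolynomial.map (algebraMap E Ω) P)) (hg : ¬ P ∣ g)
    (hfg : ∀ c0 : Ω, ¬ MvPolynomial.map (algebraMap E Ω) P ∣
      MvPolynomial.map (algebraMap E Ω) f - C c0 * MvPolynomial.map (algebraMap E Ω) g) :
    ∃ (r D : ℕ) (a : ℕ → Polynomial E), 1 ≤ r ∧
      P ∣ ∑ i ∈ Finset.range (r + 1), hm D (a i) f g * X c ^ i ∧ ¬ P ∣ hm D (a r) f g := by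
  have hPE := irr_of_map (algebraMap E Ω) P hP
  obtain ⟨F, hF, hEF, ψ, hψ, halg⟩ := exists_field E P hPE
  have hg0 : ψ g ≠ 0 := fun h => hg ((hψ g).1 h)
  -- `u` is transcendental
  have hu : Transcendental E (ψ f / ψ g) := by
    rintro ⟨q, hq0, hq⟩
    have h1 : ψ (hm q.natDegree q f g) = 0 := by
      rw [hm_map, hm_field _ _ le_rfl _ _ hg0, hq, mul_zero]
    rw [hψ] at h1
    obtain ⟨F', hF', hEF', ψ', hψ', halg'⟩ := exists_field Ω _ hP
    have h2 : MvPolynomial.map (algebraMap E Ω) (hm q.natDegree q f g) =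
        hm q.natDegree (q.map (algebraMap E Ω)) (MvPolynomial.map (algebraMap E Ω) f)
          (MvPolynomial.map (algebraMap E Ω) g) := by
      unfold hm
      rw [map_sum]
      refine Finset.sum_congr rfl fun j _ => ?_
      rw [map_mul, map_mul, map_pow, map_pow, Polynomial.coeff_map,
        MvPolynomial.algebraMap_eq, MvPolynomial.algebraMap_eq, MvPolynomial.map_C]
    have h3 : MvPolynomial.map (algebraMap E Ω) P ∣
        MvPolynomial.map (algebraMap E Ω) (hm q.natDegree q f g) := by
      obtain ⟨w, hw⟩ := h1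
      exact ⟨MvPolynomial.map (algebraMap E Ω) w, by rw [hw, map_mul]⟩
    rw [h2, ← hψ', hm_map] at h3
    have hq' : q.map (algebraMap E Ω) ≠ 0 :=
      (Polynomial.map_ne_zero_iff (algebraMap E Ω).injective).2 hq0
    set q' := q.map (algebraMap E Ω) with hq'def
    have hdeg : q'.natDegree = q.natDegree := Polynomial.natDegree_map _
    set f' := ψ' (MvPolynomial.map (algebraMap E Ω) f) with hf'
    set g' := ψ' (MvPolynomial.map (algebraMap E Ω) g) with hg'
    by_cases hg'0 : g' = 0
    · have h4 : hm q.natDegree q' f' g' = algebraMap Ω F' q'.leadingCoeff * f' ^ q.natDegree := by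
        unfold hm
        rw [Finset.sum_range_succ, Finset.sum_eq_zero, zero_add, Nat.sub_self, pow_zero, mul_one,
          ← hdeg]
        · rfl
        · intro j hj
          have hj' : j < q.natDegree := Finset.mem_range.1 hj
          rw [hg'0, zero_pow (by omega), mul_zero]
      rw [h4] at h3
      rcases mul_eq_zero.1 h3 with h5 | h5
      · rw [map_eq_zero] at h5
        exact hq' (Polynomial.leadingCoeff_eq_zero.1 h5)
      · have h6 : f' = 0 := by
          by_contra hne
          exact pow_ne_zero _ hne h5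
        refine hfg 0 ?_
        rw [C_0, zero_mul, sub_zero]
        exact (hψ' _).1 h6
    · rw [hm_field _ _ hdeg.le _ _ hg'0] at h3
      have h4 : Polynomial.aeval (f' / g') q' = 0 := by
        rcases mul_eq_zero.1 h3 with h5 | h5
        · exact absurd h5 (pow_ne_zero _ hg'0)
        · exact h5
      have hint : IsIntegral Ω (f' / g') := IsAlgebraic.isIntegral ⟨q', hq', h4⟩
      obtain ⟨c0, hc0⟩ := minpoly.mem_range_of_degree_eq_one Ω (f' / g')
        (IsAlgClosed.degree_eq_one_of_irreducible Ω (minpoly.irreducible hint))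
      refine hfg c0 ?_
      rw [← hψ', map_sub, map_mul, ← hf', ← hg', ← MvPolynomial.algebraMap_eq, AlgHom.commutes]
      rw [hc0]
      field_simp
      ring
  -- `x` is algebraic over `E[u]`
  set u := ψ f / ψ g with hudef
  have hai : AlgebraicIndependent E (fun _ : Unit => u) :=
    algebraicIndependent_unique_type_iff.2 hu
  have hx : IsAlgebraic (Algebra.adjoin E (Set.range fun _ : Unit => u)) (ψ (X c)) := by
    by_contra hcon
    refine not_ai P hPE.ne_zero ψ ((hψ P).2 dvd_rfl) halg _
      ((hai.option_iff_transcendental (ψ (X c))).2 hcon)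
  obtain ⟨p, hp0, hp⟩ := hx
  have hmem : ∀ y ∈ Algebra.adjoin E (Set.range fun _ : Unit => u),
      ∃ a : Polynomial E, Polynomial.aeval u a = y := by
    intro y hy
    rw [Set.range_const, Algebra.adjoin_singleton_eq_range_aeval] at hy
    exact hy
  have hco : ∀ i, ∃ a : Polynomial E, Polynomial.aeval u a = (p.coeff i : F) :=
    fun i => hmem _ (p.coeff i).2
  choose a ha using hco
  set D := ∑ i ∈ Finset.range (p.natDegree + 1), (a i).natDegree with hD
  have hDi : ∀ i ∈ Finset.range (p.natDegree + 1), (a i).natDegree ≤ D := fun i hi =>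
    Finset.single_le_sum (f := fun i => (a i).natDegree) (fun _ _ => Nat.zero_le _) hi
  refine ⟨p.natDegree, D, a, ?_, ?_, ?_⟩
  · rw [Nat.one_le_iff_ne_zero]
    intro h0
    rw [Polynomial.natDegree_eq_zero] at h0
    obtain ⟨b, hb⟩ := h0
    rw [← hb, Polynomial.aeval_C] at hp
    apply hp0
    rw [← hb]
    have : b = 0 := by
      apply Subtype.ext
      exact hp
    rw [this, map_zero]
  · rw [← hψ, map_sum]
    have h1 : ∀ i ∈ Finset.range (p.natDegree + 1), ψ (hm D (a i) f g * X c ^ i) =
        ψ g ^ D * ((p.coeff i : F) * ψ (X c) ^ i) := by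
      intro i hi
      rw [map_mul, map_pow, hm_map, hm_field _ _ (hDi i hi) _ _ hg0, ← hudef, ha, mul_assoc]
    rw [Finset.sum_congr rfl h1, ← Finset.mul_sum]
    have h2 : ∑ i ∈ Finset.range (p.natDegree + 1), (p.coeff i : F) * ψ (X c) ^ i =
        Polynomial.aeval (ψ (X c)) p := by
      rw [Polynomial.aeval_eq_sum_range]
      refine Finset.sum_congr rfl fun i _ => ?_
      rw [Algebra.smul_def]
      rfl
    rw [h2, hp, mul_zero]
  · rw [← hψ, hm_map, hm_field _ _ (hDi _ (Finset.self_mem_range_succ _)) _ _ hg0, ← hudef, ha]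
    refine mul_ne_zero (pow_ne_zero _ hg0) ?_
    intro h0
    apply hp0
    rw [← Polynomial.leadingCoeff_eq_zero]
    exact Subtype.ext h0

/-! ### the local part -/

variable {K : Type} [Field K] [NumberField K]

theorem loc (r : ℕ) (hr : 1 ≤ r) (b : ℕ → K) (t : K)
    (h : ∑ i ∈ Finset.range (r + 1), b i * t ^ i = 0) (p : Pl K) (M : ℝ)
    (hM : ∀ i ∈ Finset.range (r + 1), av p (b i) ≤ M) :
    nrm (av p) ![1, t] * av p (b r) ≤ cst (r : ℝ) p * M := by
  have hr' : (1 : ℝ) ≤ r := by exact_mod_cast hr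
  have hc := one_le_cst hr' p
  have hbr := hM r (Finset.self_mem_range_succ r)
  have hM0 : 0 ≤ M := ((av p).nonneg _).trans hbr
  obtain ⟨i, hi⟩ := exists_nrm (av p) (n := 2) (by norm_num) ![1, t]
  match i, hi with
  | 0, hi =>
    have h1 : nrm (av p) ![1, t] = 1 := by
      rw [← hi]
      exact map_one _
    rw [h1, one_mul]
    nlinarith
  | 1, hi =>
    have h1 : nrm (av p) ![1, t] = av p t := by
      rw [← hi]
      rfl
    have h2 : 1 ≤ av p t := by
      rw [← h1]
      exact nrm2_pos p t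
    rw [h1]
    rw [Finset.sum_range_succ] at h
    have h3 : b r * t ^ r = - ∑ i ∈ Finset.range r, b i * t ^ i := by
      rw [eq_neg_iff_add_eq_zero, add_comm]
      exact h
    have h4 : av p (b r) * av p t ^ r ≤ cst (r : ℝ) p * (M * av p t ^ (r - 1)) := by
      rw [← map_pow, ← map_mul, h3, (av p).map_neg]
      refine av_sum p (Finset.range r) (fun i => b i * t ^ i) _ (by positivity) ?_ _ (by
        rw [Finset.card_range])
      intro i hi
      have hi' := Finset.mem_range.1 hi
      rw [map_mul, map_pow]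
      refine mul_le_mul (hM i (Finset.mem_range.2 (by omega)))
        (pow_le_pow_right₀ h2 (by omega)) (by positivity) hM0
    have h5 : av p t ^ r = av p t * av p t ^ (r - 1) := by
      rw [← pow_succ']
      congr 1
      omega
    rw [h5] at h4
    have h6 : 0 < av p t ^ (r - 1) := by positivity
    refine le_of_mul_le_mul_right ?_ h6
    calc av p t * av p (b r) * av p t ^ (r - 1) = av p (b r) * (av p t * av p t ^ (r - 1)) := by
          ring
      _ ≤ _ := h4
      _ = _ := by ring

theorem up1 (D : ℕ) (a : Polynomial K) : ∃ g : Pl K → ℝ, Bd g ∧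
    ∀ (p : Pl K) (f h : K) (R : ℝ), av p f ≤ R → av p h ≤ R → av p (hm D a f h) ≤ g p * R ^ D := by
  set z : Fin (D + 2) → K := Fin.cons 1 (fun m : Fin (D + 1) => a.coeff m) with hz
  have hz0 : z 0 = 1 := rfl
  refine ⟨fun p => cst ((D : ℝ) + 1) p * nrm (av p) z, (Bd_cst (by
    have : (0 : ℝ) ≤ D := Nat.cast_nonneg _
    linarith)).mul (Bd_nrm z 0 hz0), fun p f h R hf hh => ?_⟩
  have hR : 0 ≤ R := ((av p).nonneg _).trans hf
  have h2 : ∀ m ∈ Finset.range (D + 1), av p (algebraMap K K (a.coeff m) * f ^ m * h ^ (D - m)) ≤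
      nrm (av p) z * R ^ D := by
    intro m hm
    rw [map_mul, map_mul, map_pow, map_pow]
    have e1 := le_nrm (av p) z (Fin.succ ⟨m, Finset.mem_range.1 hm⟩)
    have e1' : av p (algebraMap K K (a.coeff m)) ≤ nrm (av p) z := e1
    have e2 : av p f ^ m ≤ R ^ m := pow_le_pow_left₀ ((av p).nonneg _) hf m
    have e3 : av p h ^ (D - m) ≤ R ^ (D - m) := pow_le_pow_left₀ ((av p).nonneg _) hh _
    have e4 : R ^ D = R ^ m * R ^ (D - m) := by
      rw [← pow_add]
      congr 1
      have := Finset.mem_range.1 hm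
      omega
    rw [e4, mul_assoc]
    exact mul_le_mul e1' (mul_le_mul e2 e3 (by positivity) (by positivity)) (by positivity)
      (nrm_nonneg _ _)
  have h3 := av_sum p (Finset.range (D + 1)) _ _
    (mul_nonneg (nrm_nonneg _ _) (by positivity)) h2 ((D : ℝ) + 1) (by
      rw [Finset.card_range]
      push_cast
      exact le_rfl)
  rw [mul_assoc]
  exact h3

theorem up (r D : ℕ) (a : ℕ → Polynomial K) : ∃ g : Pl K → ℝ, Bd g ∧
    ∀ (p : Pl K) (f h : K) (R : ℝ), av p f ≤ R → av p h ≤ R →
      ∀ i ∈ Finset.range (r + 1), av p (hm D (a i) f h) ≤ g p * R ^ D := by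
  choose g hg h using fun i => up1 D (a i)
  refine ⟨fun p => ∏ i ∈ Finset.range (r + 1), g i p, Bd.prod _ _ fun i _ => hg i,
    fun p f k R hf hk i hi => ?_⟩
  have hR : 0 ≤ R := ((av p).nonneg _).trans hf
  refine (h i p f k R hf hk).trans (mul_le_mul_of_nonneg_right ?_ (pow_nonneg hR _))
  exact le_prod_bd (Finset.range (r + 1)) (fun i => g i p) (fun i _ => (hg i).1 p) hi

theorem nrm1 (p : Pl K) (x : K) : nrm (av p) ![x] = av p x := by
  obtain ⟨i, hi⟩ := exists_nrm (av p) (n := 1) (by norm_num) ![x]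
  rw [← hi]
  congr 1
  match i with
  | 0 => rfl

end Pool.Agent.H432.AC.PHT

namespace Pool.Agent.H432.AC

open MvPolynomial Height Pool.Agent.N750 Pool.Agent.H432.RC Pool.Agent.H432.TC
open Pool.Agent.H432.AC.PHT
open Pool.Agent.W180.OP (Pl av wt nrm le_nrm nrm_pos wt_nonneg exists_nrm nrm_nonneg)

theorem ht (finz : S_FINZ) : S_HT := by
  intro E Ω _ _ _ _ _ M P φ c l l' hP hl' hfg
  have hPE := irr_of_map (algebraMap E Ω) P hP
  obtain ⟨r, D, a, hr, hrel, hlead⟩ := rel P (φ l) (φ l') c hP hl' hfg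
  obtain ⟨g, hg, hgb⟩ := up (K := E) r D a
  have hr' : (1 : ℝ) ≤ r := by exact_mod_cast hr
  have hG : Bd (fun p : Pl E => cst (r : ℝ) p * g p) := (Bd_cst hr').mul hg
  set G : Pl E → ℝ := fun p => cst (r : ℝ) p * g p with hGdef
  refine ⟨D + |bdc G|, {z | eval z P = 0 ∧ eval z (hm D (a r) (φ l) (φ l')) = 0}, by positivity,
    finz E P _ hPE hlead, ?_⟩
  intro z hz hzT hφ
  have hev : ∀ (b : Polynomial E), eval z (hm D b (φ l) (φ l')) =
      hm D b (eval z (φ l)) (eval z (φ l')) := by
    intro b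
    have h1 := hm_map (aeval z : MvPolynomial (Fin 2) E →ₐ[E] E) D b (φ l) (φ l')
    have h2 : ∀ Q : MvPolynomial (Fin 2) E, aeval z Q = eval z Q := fun Q => rfl
    rw [h2, h2, h2] at h1
    exact h1
  set b : ℕ → E := fun i => hm D (a i) (eval z (φ l)) (eval z (φ l')) with hb
  have hbr : b r ≠ 0 := by
    intro h0
    exact hzT ⟨hz, by rw [hev]; exact h0⟩
  have hsum : ∑ i ∈ Finset.range (r + 1), b i * z c ^ i = 0 := by
    obtain ⟨w, hw⟩ := hrel
    have h1 := congrArg (eval z) hw
    rw [map_mul, hz, zero_mul, map_sum] at h1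
    rw [← h1]
    refine Finset.sum_congr rfl fun i _ => ?_
    rw [map_mul, map_pow, eval_X, hev]
  have hbr' : (![b r] : Fin 1 → E) ≠ 0 := fun h => hbr (congrFun h 0)
  have h1 := ht_bd (K := E) (ι := Fin 3) Finset.univ (fun i => ![2, M, 1] i)
    (fun i => match i with
      | 0 => ![1, z c]
      | 1 => fun i => eval z (φ i)
      | 2 => ![b r]) (fun i => match i with
      | 0 => -1
      | 1 => (D : ℝ)
      | 2 => -1) (by
        intro i _
        match i with
        | 0 => exact vec2_ne _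
        | 1 => exact hφ
        | 2 => exact hbr') G hG (by
        intro p
        rw [Fin.sum_univ_three]
        show 0 ≤ -1 * Real.log (nrm (av p) ![1, z c]) +
          (D : ℝ) * Real.log (nrm (av p) (fun i => eval z (φ i))) +
          -1 * Real.log (nrm (av p) ![b r]) + Real.log (G p)
        have e1 := nrm_pos (av p) hφ
        have e2 := nrm2_pos p (z c)
        have e3 := hG.1 p
        have e4 : 0 < av p (b r) := (av p).pos hbr
        have e5 := loc r hr b (z c) hsum p (g p * nrm (av p) (fun i => eval z (φ i)) ^ D)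
          (hgb p _ _ _ (le_nrm (av p) (fun i => eval z (φ i)) l)
            (le_nrm (av p) (fun i => eval z (φ i)) l'))
        rw [← mul_assoc] at e5
        have e6 := Real.log_le_log (by positivity) e5
        rw [Real.log_mul (by positivity) (by positivity), Real.log_mul (by
          show G p ≠ 0
          positivity) (by positivity), Real.log_pow] at e6
        rw [nrm1]
        have e7 : Real.log (cst (r : ℝ) p * g p) = Real.log (G p) := rfl
        linarith)
  rw [Fin.sum_univ_three] at h1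
  have h2 : 0 ≤ -1 * logHeight ![1, z c] + (D : ℝ) * logHeight (fun i => eval z (φ i)) +
    -1 * logHeight ![b r] + bdc G := h1
  have h3 := logHeight_nonneg (![b r] : Fin 1 → E)
  have h4 := logHeight_nonneg (fun i => eval z (φ i))
  have h5 := le_abs_self (bdc G)
  have h6 : 0 ≤ |bdc G| * logHeight (fun i => eval z (φ i)) := by positivity
  have h7 : (0 : ℝ) ≤ D := Nat.cast_nonneg _
  nlinarith

end Pool.Agent.H432.AC
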