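import Mathlib
import Pool.Agent.H432.AC.Ari2
import Pool.Agent.H432.AC.P_HT
import Pool.Agent.H432.AC.P_FINZ
import Pool.Agent.H432.AC.P_DESC

/-!
The truncated inequality along a fixed curve.
-/

set_option autoImplicit false
set_option linter.unusedVariables false
set_option linter.unusedSectionVars false

namespace Pool.Agent.H432.AC

open NumberField IsDedekindDomain Height Module MvPolynomial Pool.Agent.N750 Pool.Agent.H432.RC
open Pool.Agent.H432.TC (Bd Bd_cst Bd_nrm bdc le_prod_bd DM DM_fin Mt Mt_of_meet fin_sub_le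
  sum_wt_le swap_ht cnt_ext DM_over mem_over exists_under)
open Pool.Agent.W180.OP (Pl av nrm le_nrm nrm_pos exists_nrm nrm_nonneg)
open Pool.Agent.Q290.NF (ell ell_pos ind ind_pos ind_neg wt wt_mono wt_or_le)
open Pool.Agent.Results.MP_4d5ce1_nt.ThinSetsSuffice (AllPoints)

/-- the left side of the inequality -/
noncomputable def LHS {k L : Type} [Field k] [Field L] [NumberField L] [Algebra k L]
    {M q w n' : ℕ} (F : Fin q → Fin w → MvPolynomial (Fin M) k) (δ : Fin q → ℕ) (x : Fin M → L)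
    (A : Fin M → Fin (n' + 2) → L) : ℝ :=
  logHeight (mv A) - (n' + 2) * logHeight x +
    ∑ i, ((δ i : ℝ) * logHeight x - logHeight (fun j => aeval x (F i j)))

/-- `P` does not divide `X c - b` -/
theorem not_dvd_line {E : Type} [Field E] {P : MvPolynomial (Fin 2) E} {c : Fin 2}
    (hc : 0 < degreeOf (c + 1) P) (b : E) : ¬ P ∣ X c - C b := by
  rintro ⟨R, hR⟩
  have hne : (X c - C b : MvPolynomial (Fin 2) E) ≠ 0 := by
    intro h0
    have h1 : (eval fun _ => b + 1) (X c - C b : MvPolynomial (Fin 2) E) = 1 := by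
      rw [map_sub, eval_X, eval_C]
      ring
    rw [h0, map_zero] at h1
    exact zero_ne_one h1
  have hP0 : P ≠ 0 := by
    rintro rfl
    rw [zero_mul] at hR
    exact hne hR
  have hR0 : R ≠ 0 := by
    rintro rfl
    rw [mul_zero] at hR
    exact hne hR
  have h1 := degreeOf_mul_eq (n := c + 1) hP0 hR0
  rw [← hR] at h1
  have h2 : degreeOf (c + 1) (X c - C b : MvPolynomial (Fin 2) E) ≤ 0 := by
    refine (degreeOf_sub_le _ _ _).trans ?_
    rw [degreeOf_C, degreeOf_X_of_ne (show c + 1 ≠ c by fin_cases c <;> decide)]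
    exact (max_self 0).le
  omega

/-- **the inequality over the field of the certificate** -/
theorem ari2 (locb : S_LOCB) (finz : S_FINZ) {k E : Type} [Field k] [Field E] [NumberField E]
    [Algebra k E] {M g q w n' : ℕ} {G : Fin g → MvPolynomial (Fin M) k} (hsm : Sm (n' + 1) G)
    {F : Fin q → Fin w → MvPolynomial (Fin M) k} {δ : Fin q → ℕ}
    {P : MvPolynomial (Fin 2) E} (hP : Irreducible P) {φ : Fin M → MvPolynomial (Fin 2) E}
    (hX : ∀ i, P ∣ aeval φ (G i)) (hC : Cert n' G F δ P φ) (hall : AllPoints E) :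
    ∃ (c : Fin 2) (T : Set (Fin 2 → E)), T.Finite ∧
      ∀ (S' : Finset (HeightOneSpectrum (𝓞 E))) (ε : ℝ), 0 < ε → ∃ C0 : ℝ,
      ∀ z : Fin 2 → E, z ∉ T → eval z P = 0 → pt φ z ≠ 0 →
      (∀ i, ∃ j, aeval (pt φ z) (F i j) ≠ 0) → ∀ A, IsTB (p := n' + 2) G (pt φ z) A →
      LHS F δ (pt φ z) A ≤ wt (fun v => v ∉ S' ∧ DM F δ (pt φ z) v) +
        ε * logHeight ![1, z c] + C0 := by
  classical
  obtain ⟨c, ν, e, b, Q, Γ, h1, h2, h3, h4, h5, ⟨J0, h6⟩, h7, h8, h9, h10⟩ := hC
  obtain ⟨Bad, C1, hBad, hmain⟩ := ari1 locb hsm hX h1 h2 h7 h8 h9 h10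
  set T : Set (Fin 2 → E) := ({z | eval z P = 0 ∧ eval z Q = 0} ∪
    {z | eval z P = 0 ∧ eval z (Γ J0) = 0}) ∪
    ⋃ a, {z | eval z P = 0 ∧ eval z (X c - C (b a)) = 0} with hT
  refine ⟨c, T, ?_, ?_⟩
  · refine ((finz E P Q hP h5).union (finz E P (Γ J0) hP h6)).union
      (Set.finite_iUnion fun a => finz E P _ hP (not_dvd_line h4 (b a)))
  intro S' ε hε
  obtain ⟨C2, hC2⟩ := abcE hall b h3 S' Bad hBad ε hε
  refine ⟨C1 + C2, fun z hzT hz hx hxF A hA => ?_⟩
  have hQ : eval z Q ≠ 0 := fun h => hzT (by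
    rw [hT]
    exact Or.inl (Or.inl ⟨hz, h⟩))
  have hΓ : eval z (Γ J0) ≠ 0 := fun h => hzT (by
    rw [hT]
    exact Or.inl (Or.inr ⟨hz, h⟩))
  have hb : ∀ a, z c ≠ b a := fun a h => hzT (by
    rw [hT]
    refine Or.inr (Set.mem_iUnion.2 ⟨a, hz, ?_⟩)
    rw [map_sub, eval_X, eval_C, h, sub_self])
  have hWf : {v | v ∉ S' ∧ v ∉ Bad ∧ MeetT b (z c) v ∧ ¬ DM F δ (pt φ z) v}.Finite :=
    (MeetT_fin b (z c) hb).subset fun v hv => hv.2.2.1
  have e1 := hmain z hz hx hxF hQ ⟨J0, hΓ⟩ hb A hA hWf.toFinset (by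
    intro v hv
    rw [hWf.mem_toFinset] at hv
    exact ⟨hv.2.1, hv.2.2.2, hv.2.2.1⟩)
  rw [wt_sum] at e1
  have e2 := hC2 (z c) hb
  have hDf : {v | v ∉ S' ∧ DM F δ (pt φ z) v}.Finite :=
    (DM_fin hx hxF).subset fun v hv => hv.2
  have e3 : wt (fun v => v ∉ S' ∧ v ∉ Bad ∧ MeetT b (z c) v) ≤
      wt (fun v => v ∉ S' ∧ v ∉ Bad ∧ MeetT b (z c) v ∧ ¬ DM F δ (pt φ z) v) +
      wt (fun v => v ∉ S' ∧ DM F δ (pt φ z) v) := by
    refine (wt_mono (Q := fun v => (v ∉ S' ∧ v ∉ Bad ∧ MeetT b (z c) v ∧ ¬ DM F δ (pt φ z) v) ∨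
      (v ∉ S' ∧ DM F δ (pt φ z) v)) (hWf.union hDf) ?_).trans (wt_or_le hWf hDf)
    rintro v ⟨hv1, hv2, hv3⟩
    by_cases h : DM F δ (pt φ z) v
    · exact Or.inr ⟨hv1, h⟩
    · exact Or.inl ⟨hv1, hv2, hv3, h⟩
  unfold LHS
  linarith

section ext

variable {L E : Type} [Field L] [Field E] [Algebra L E]

theorem eval_mp (z : Fin 2 → L) (P : MvPolynomial (Fin 2) L) :
    eval (fun i => algebraMap L E (z i)) (MvPolynomial.map (algebraMap L E) P) =
      algebraMap L E (eval z P) := by
  induction P using MvPolynomial.induction_on with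
  | C a => rw [map_C, eval_C, eval_C]
  | add p q hp hq => rw [map_add, map_add, map_add, map_add, hp, hq]
  | mul_X p i hp => rw [map_mul, map_mul, map_mul, map_mul, map_X, eval_X, eval_X, hp]

theorem pt_mp {M : ℕ} (φ : Fin M → MvPolynomial (Fin 2) L) (z : Fin 2 → L) :
    pt (fun l => MvPolynomial.map (algebraMap L E) (φ l)) (fun i => algebraMap L E (z i)) =
      fun l => algebraMap L E (pt φ z l) := by
  funext l
  exact eval_mp z (φ l)

end ext

/-- **the inequality outside of a finite set** -/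
theorem ari3 (locb : S_LOCB) (finz : S_FINZ) (ht : S_HT) {k L E Ω : Type} [Field k]
    [NumberField k] [Field L] [NumberField L] [Field E] [NumberField E] [Field Ω] [Algebra k L]
    [Algebra k E] [Algebra L E] [IsScalarTower k L E] [Algebra L Ω] [Algebra E Ω]
    [IsScalarTower L E Ω] [IsAlgClosed Ω] {M g q w n' : ℕ} {G : Fin g → MvPolynomial (Fin M) k}
    (hsm : Sm (n' + 1) G)
    {F : Fin q → Fin w → MvPolynomial (Fin M) k} {δ : Fin q → ℕ}
    {P : MvPolynomial (Fin 2) L} (hP : Irreducible (MvPolynomial.map (algebraMap L Ω) P))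
    {φ : Fin M → MvPolynomial (Fin 2) L} (hX : ∀ i, P ∣ aeval φ (G i)) (l0 l1 : Fin M)
    (hl1 : ¬ P ∣ φ l1)
    (hnon : ∀ c0 : Ω, ¬ MvPolynomial.map (algebraMap L Ω) P ∣
      MvPolynomial.map (algebraMap L Ω) (φ l0) - C c0 * MvPolynomial.map (algebraMap L Ω) (φ l1))
    (hC : Cert n' G F δ (MvPolynomial.map (algebraMap L E) P)
      (fun l => MvPolynomial.map (algebraMap L E) (φ l))) (hall : AllPoints E)
    (S : Finset (HeightOneSpectrum (𝓞 L))) (ε : ℝ) (hε : 0 < ε) :
    ∃ (T : Set (Fin 2 → L)) (C0 : ℝ), T.Finite ∧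
      ∀ z : Fin 2 → L, z ∉ T → eval z P = 0 → pt φ z ≠ 0 →
      (∀ i, ∃ j, aeval (pt φ z) (F i j) ≠ 0) → ∀ A, IsTB (p := n' + 2) G (pt φ z) A →
      LHS F δ (pt φ z) A ≤ wt (fun v => v ∉ S ∧ DM F δ (pt φ z) v) +
        ε * logHeight (pt φ z) + C0 := by
  classical
  have hPΩ : MvPolynomial.map (algebraMap L Ω) P =
      MvPolynomial.map (algebraMap E Ω) (MvPolynomial.map (algebraMap L E) P) := by
    rw [MvPolynomial.map_map, ← IsScalarTower.algebraMap_eq]
  have hPE : Irreducible (MvPolynomial.map (algebraMap L E) P) := by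
    refine PHT.irr_of_map (algebraMap E Ω) _ ?_
    rw [← hPΩ]
    exact hP
  obtain ⟨c, T, hT, hmain⟩ := ari2 locb finz hsm hPE (φ := fun l => MvPolynomial.map (algebraMap L E) (φ l))
    (by
      intro i
      rw [PDESC.map_aeval']
      exact map_dvd _ (hX i)) hC hall
  obtain ⟨C1, T1, hC1, hT1, hht⟩ := ht L Ω M P φ c l0 l1 hP hl1 hnon
  set S' : Finset (HeightOneSpectrum (𝓞 E)) := S.biUnion fun v => (over_fin E v).toFinset with hS'
  obtain ⟨C2, hC2⟩ := hmain S' (ε / (C1 + 1)) (by positivity)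
  have hf : (0 : ℝ) < finrank L E := by exact_mod_cast finrank_pos
  refine ⟨(fun z : Fin 2 → L => (fun i => algebraMap L E (z i))) ⁻¹' T ∪ T1,
    ε + C2 / finrank L E, ?_, ?_⟩
  · refine (hT.preimage (Function.Injective.injOn ?_)).union hT1
    intro z z' h
    funext i
    exact (algebraMap L E).injective (congrFun h i)
  intro z hz hzP hx hxF A hA
  simp only [Set.mem_union, Set.mem_preimage, not_or] at hz
  have e1 := hC2 (fun i => algebraMap L E (z i)) hz.1 (by rw [eval_mp, hzP, map_zero]) (by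
    rw [pt_mp]
    intro h
    apply hx
    funext l
    exact (map_eq_zero _).1 (congrFun h l)) (by
    intro i
    obtain ⟨j, hj⟩ := hxF i
    refine ⟨j, ?_⟩
    rw [pt_mp, aeval_am]
    exact (map_ne_zero _).2 hj) (fun l c => algebraMap L E (A l c)) (by
    rw [pt_mp]
    exact IsTB_map G _ A hA)
  rw [pt_mp] at e1
  set x := pt φ z with hxd
  have e2 : LHS F δ (fun l => algebraMap L E (x l)) (fun l c => algebraMap L E (A l c)) =
      finrank L E * LHS F δ x A := by
    unfold LHS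
    have a1 : logHeight (mv (fun l c => algebraMap L E (A l c))) =
        finrank L E * logHeight (mv A) := by
      have : mv (fun l c => algebraMap L E (A l c)) = fun J => algebraMap L E (mv A J) := by
        funext J
        exact mv_map A J
      rw [this]
      exact Pool.Agent.Helper259.HtExt.logHeight_ext (K := L) (L := E) (mv A)
    have a2 : logHeight (fun l => algebraMap L E (x l)) = finrank L E * logHeight x :=
      Pool.Agent.Helper259.HtExt.logHeight_ext (K := L) (L := E) _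
    have a3 : ∀ i, logHeight (fun j => aeval (fun l => algebraMap L E (x l)) (F i j)) =
        finrank L E * logHeight (fun j => aeval x (F i j)) := by
      intro i
      have : (fun j => aeval (fun l => algebraMap L E (x l)) (F i j)) =
          fun j => algebraMap L E (aeval x (F i j)) := by
        funext j
        exact aeval_am _ _
      rw [this]
      exact Pool.Agent.Helper259.HtExt.logHeight_ext (K := L) (L := E) _
    simp only [a1, a2, a3]
    rw [mul_add, mul_sub, Finset.mul_sum]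
    congr 1
    · ring
    · exact Finset.sum_congr rfl fun i _ => by ring
  have e3 : logHeight (![1, algebraMap L E (z c)] : Fin 2 → E) =
      finrank L E * logHeight (![1, z c] : Fin 2 → L) := by
    have h1 : (![1, algebraMap L E (z c)] : Fin 2 → E) = fun i => algebraMap L E (![1, z c] i) := by
      funext i
      fin_cases i
      · exact (map_one _).symm
      · rfl
    rw [h1]
    exact Pool.Agent.Helper259.HtExt.logHeight_ext (K := L) (L := E) _
  have hDf : {v | v ∉ S ∧ DM F δ x v}.Finite := (DM_fin hx hxF).subset fun v hv => hv.2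
  have e4 := (cnt_ext (L := L) (E := E) (fun v => v ∉ S ∧ DM F δ x v) hDf
    (fun v => v ∉ S' ∧ DM F δ (fun l => algebraMap L E (x l)) v) (by
      rintro Q ⟨hQ, hQD⟩
      obtain ⟨v, hv⟩ := exists_under (L := L) Q
      refine ⟨v, ⟨fun hvS => hQ ?_, DM_over (E := E) hx hv hQD⟩, hv⟩
      rw [hS', Finset.mem_biUnion]
      exact ⟨v, hvS, mem_over.2 hv⟩)).2
  have e5 := hht z hzP hz.2 hx
  have e6 : logHeight (fun i => eval z (φ i)) = logHeight x := rfl
  rw [e6] at e5
  rw [e2, e3] at e1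
  set H := logHeight (![1, z c] : Fin 2 → L) with hH
  set W := wt (fun v => v ∉ S ∧ DM F δ x v) with hW
  have hH0 : 0 ≤ H := logHeight_nonneg _
  have hx0 : 0 ≤ logHeight x := logHeight_nonneg _
  have e7 : finrank L E * LHS F δ x A ≤ finrank L E * (W + ε / (C1 + 1) * H + C2 / finrank L E) := by
    have : finrank L E * (W + ε / (C1 + 1) * H + C2 / finrank L E) =
        finrank L E * W + ε / (C1 + 1) * (finrank L E * H) + C2 := by
      field_simp
    rw [this]
    linarith
  have e8 := le_of_mul_le_mul_left e7 hf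
  have e9 : ε / (C1 + 1) * H ≤ ε * (logHeight x + 1) := by
    have h1 : ε / (C1 + 1) * H ≤ ε / (C1 + 1) * (C1 * (logHeight x + 1)) :=
      mul_le_mul_of_nonneg_left e5 (by positivity)
    refine h1.trans ?_
    have h2 : ε / (C1 + 1) * (C1 * (logHeight x + 1)) =
        ε * (logHeight x + 1) * (C1 / (C1 + 1)) := by
      field_simp
    rw [h2]
    have h3 : C1 / (C1 + 1) ≤ 1 := by
      rw [div_le_one (by linarith)]
      linarith
    exact mul_le_of_le_one_right (by positivity) h3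
  linarith

end Pool.Agent.H432.AC
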