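import Mathlib
import Pool.Agent.H432.AC.Stm

/-!
Orders of Laurent series.
-/

set_option autoImplicit false
set_option linter.unusedVariables false
set_option linter.unusedSectionVars false

namespace Pool.Agent.H432.AC

open MvPolynomial Filter Pool.Agent.N750 Pool.Agent.H432.RC

variable {k K : Type} [Field k] [Field K] [Algebra k K]

theorem amk (c : k) : algebraMap k (LaurentSeries K) c = HahnSeries.C (algebraMap k K c) := by
  have h1 := HahnSeries.algebraMap_apply' ℤ (R := K) (x := c)
  rw [h1, PowerSeries.algebraMap_apply]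
  exact HahnSeries.ofPowerSeries_C _

theorem otop {x : LaurentSeries K} (hx : x ≠ 0) : x.orderTop = ((x.order : ℤ) : WithTop ℤ) :=
  (HahnSeries.order_eq_orderTop_of_ne_zero hx).symm

theorem o_mul {x y : LaurentSeries K} (hx : x ≠ 0) (hy : y ≠ 0) :
    (x * y).order = x.order + y.order := HahnSeries.order_mul hx hy

theorem o_pow (x : LaurentSeries K) (n : ℕ) : (x ^ n).order = n * x.order := by
  rw [HahnSeries.order_pow, nsmul_eq_mul]

theorem o_prod {ι : Type} (s : Finset ι) (f : ι → LaurentSeries K) (h : ∀ i ∈ s, f i ≠ 0) :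
    (∏ i ∈ s, f i).order = ∑ i ∈ s, (f i).order := by
  classical
  induction s using Finset.induction_on with
  | empty => rw [Finset.prod_empty, Finset.sum_empty]; exact HahnSeries.order_one
  | insert a s ha ih =>
    rw [Finset.prod_insert ha, Finset.sum_insert ha,
      o_mul (h a (Finset.mem_insert_self _ _)) (Finset.prod_ne_zero_iff.2 fun i hi =>
        h i (Finset.mem_insert_of_mem hi)), ih fun i hi => h i (Finset.mem_insert_of_mem hi)]

theorem o_div {x y : LaurentSeries K} (hx : x ≠ 0) (hy : y ≠ 0) :
    (x / y).order = x.order - y.order := by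
  have h1 : (x / y * y).order = (x / y).order + y.order := o_mul (div_ne_zero hx hy) hy
  rw [div_mul_cancel₀ x hy] at h1
  omega

/-- the order of the derivative -/
theorem o_der [CharZero K] (dS : Derivation K (LaurentSeries K) (LaurentSeries K))
    (hdS : ∀ f n, (dS f).coeff n = (n + 1) * f.coeff (n + 1)) {f : LaurentSeries K} {c : K} {n : ℤ}
    (hn : n ≠ 0) (h : (f - algebraMap K (LaurentSeries K) c).orderTop = (n : WithTop ℤ)) :
    dS f ≠ 0 ∧ (dS f).order = n - 1 := by
  have h0 : f - algebraMap K (LaurentSeries K) c ≠ 0 := by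
    intro h0
    rw [h0, HahnSeries.orderTop_zero] at h
    exact absurd h WithTop.top_ne_coe
  have h1 : dS f = dS (f - algebraMap K (LaurentSeries K) c) := by
    rw [map_sub, Derivation.map_algebraMap, sub_zero]
  rw [h1]
  set u := f - algebraMap K (LaurentSeries K) c with hu
  have hcn : u.coeff n ≠ 0 := HahnSeries.coeff_orderTop_ne h
  have hc1 : (dS u).coeff (n - 1) ≠ 0 := by
    rw [hdS, sub_add_cancel]
    refine mul_ne_zero ?_ hcn
    push_cast
    rw [sub_add_cancel]
    exact_mod_cast hn
  have hne : dS u ≠ 0 := by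
    intro h2
    rw [h2] at hc1
    exact hc1 rfl
  refine ⟨hne, le_antisymm (HahnSeries.order_le_of_coeff_ne_zero hc1) ?_⟩
  rw [HahnSeries.le_order_iff_forall hne]
  intro m hm
  rw [hdS]
  have h2 : u.coeff (m + 1) = 0 := by
    refine HahnSeries.coeff_eq_zero_of_lt_orderTop ?_
    rw [h]
    exact_mod_cast (by omega : m + 1 < n)
  rw [h2, mul_zero]

/-- elements with derivative zero -/
theorem der_zero [CharZero K] (dS : Derivation K (LaurentSeries K) (LaurentSeries K))
    (hdS : ∀ f n, (dS f).coeff n = (n + 1) * f.coeff (n + 1)) {f : LaurentSeries K}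
    (h : dS f = 0) : f = algebraMap K (LaurentSeries K) (f.coeff 0) := by
  ext n
  have h1 := congrArg (fun x : LaurentSeries K => x.coeff (n - 1)) h
  simp only [hdS, sub_add_cancel, HahnSeries.coeff_zero] at h1
  push_cast at h1
  rw [sub_add_cancel] at h1
  have h2 : algebraMap K (LaurentSeries K) (f.coeff 0) = HahnSeries.C (f.coeff 0) :=
    LaurentSeries.algebraMap_apply _ _
  rw [h2, HahnSeries.C_apply]
  by_cases hn : n = 0
  · rw [hn, HahnSeries.coeff_single_same]
  · rw [HahnSeries.coeff_single_of_ne hn]
    exact (mul_eq_zero.1 h1).resolve_left (by exact_mod_cast hn)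

/-- the values of polynomials at series without poles -/
theorem ot_nonneg {ι : Type} (χ : ι → LaurentSeries K) (h : ∀ l, 0 ≤ (χ l).orderTop)
    (P : MvPolynomial ι k) : 0 ≤ (aeval χ P).orderTop := by
  induction P using MvPolynomial.induction_on with
  | C a =>
    rw [← MvPolynomial.algebraMap_eq, AlgHom.commutes]
    have h1 : algebraMap k (LaurentSeries K) a = HahnSeries.C (algebraMap k K a) := amk a
    rw [h1, HahnSeries.C_apply]
    exact HahnSeries.orderTop_single_le
  | add p q hp hq =>
    rw [map_add]
    exact (le_min hp hq).trans HahnSeries.min_orderTop_le_orderTop_add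
  | mul_X p i hp =>
    rw [map_mul, aeval_X, HahnSeries.orderTop_mul]
    exact add_nonneg hp (h i)

/-- the order of the value of a form -/
theorem ot_form {ι : Type} {n : ℕ} (ψ : Fin n → LaurentSeries K) (a : ℤ)
    (h : ∀ l, (a : WithTop ℤ) ≤ (ψ l).orderTop) {P : MvPolynomial (Fin n) k} {δ : ℕ}
    (hP : P.IsHomogeneous δ) : ((a * δ : ℤ) : WithTop ℤ) ≤ (aeval ψ P).orderTop := by
  set s : LaurentSeries K := HahnSeries.single a 1 with hs
  set s' : LaurentSeries K := HahnSeries.single (-a) 1 with hs'
  have hss : s * s' = 1 := by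
    rw [hs, hs', HahnSeries.single_mul_single, add_neg_cancel, mul_one]
    rfl
  have hso : s.orderTop = (a : WithTop ℤ) := HahnSeries.orderTop_single one_ne_zero
  have hso' : s'.orderTop = ((-a : ℤ) : WithTop ℤ) := HahnSeries.orderTop_single one_ne_zero
  set χ : Fin n → LaurentSeries K := fun l => s' * ψ l with hχ
  have hψ : ψ = fun l => s * χ l := by
    funext l
    rw [hχ]
    simp only
    rw [← mul_assoc, hss, one_mul]
  have hχ0 : ∀ l, 0 ≤ (χ l).orderTop := by
    intro l
    rw [hχ]
    simp only
    rw [HahnSeries.orderTop_mul, hso']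
    calc (0 : WithTop ℤ) = ((-a : ℤ) : WithTop ℤ) + (a : WithTop ℤ) := by
          rw [← WithTop.coe_add, neg_add_cancel]
          rfl
      _ ≤ _ := by gcongr; exact h l
  rw [hψ, aeval_hom hP, HahnSeries.orderTop_mul]
  have h1 : (s ^ δ).orderTop = ((a * δ : ℤ) : WithTop ℤ) := by
    have hs0 : s ≠ 0 := by
      intro h0
      rw [h0, HahnSeries.orderTop_zero] at hso
      exact absurd hso WithTop.top_ne_coe
    rw [otop (pow_ne_zero _ hs0), o_pow]
    have h2 : s.order = a := HahnSeries.order_single one_ne_zero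
    rw [h2, mul_comm]
  rw [h1]
  exact le_add_of_nonneg_right (ot_nonneg χ hχ0 P)

end Pool.Agent.H432.AC
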