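import Mathlib
import Pool.Agent.H432.AC.Ord

/-!
Places and derivations.
-/

set_option autoImplicit false
set_option linter.unusedVariables false
set_option linter.unusedSectionVars false

namespace Pool.Agent.H432.AC

open MvPolynomial Filter Pool.Agent.N750 Pool.Agent.H432.RC

/-- integrality from the places -/
theorem dom_of_places (val : S_VAL) (emb1 : S_EMB1) (emb2 : S_EMB2) {K E : Type} [Field K] [Field E]
    [Algebra K E] [IsAlgClosed K] [CharZero K] (t : E) (ht : Transcendental K t)
    (hfin : FiniteDimensional (IntermediateField.adjoin K {t}) E) {ι : Type} (g : ι → E) (f : E)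
    (hg : ∃ j, g j ≠ 0)
    (h : ∀ ι' : E →ₐ[K] LaurentSeries K, (∃ π, (ι' π).orderTop = 1) →
      ∃ j, g j ≠ 0 ∧ (ι' (g j)).orderTop ≤ (ι' f).orderTop) : Dom K g f := by
  refine val K E ι g f fun V hV => ?_
  by_cases hVt : V = ⊤
  · obtain ⟨j, hj⟩ := hg
    exact ⟨j, f / g j, by rw [hVt]; exact ValuationSubring.mem_top _,
      (div_mul_cancel₀ _ hj).symm⟩
  · obtain ⟨π, h1, h2, h3, h4, h5⟩ := emb1 K E t ht hfin V hV hVt
    obtain ⟨ι', h6, h7⟩ := emb2 K E V π hV h1 h2 h3 h4 h5
    obtain ⟨j, hj, hle⟩ := h ι' ⟨π, h6⟩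
    refine ⟨j, f / g j, (h7 _).2 ?_, (div_mul_cancel₀ _ hj).symm⟩
    by_cases hf0 : f = 0
    · rw [hf0, zero_div, map_zero, HahnSeries.orderTop_zero]
      exact le_top
    · have hj' : ι' (g j) ≠ 0 := (map_ne_zero ι').2 hj
      have hf' : ι' f ≠ 0 := (map_ne_zero ι').2 hf0
      rw [otop hj', otop hf', WithTop.coe_le_coe] at hle
      rw [map_div₀, otop (div_ne_zero hf' hj'), o_div hf' hj']
      exact_mod_cast sub_nonneg.2 hle

section der

variable {k K E : Type} [Field k] [Field K] [Field E] [CharZero K] [Algebra k K] [Algebra K E]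
  [Algebra k E] [IsScalarTower k K E]

/-- the derivation with `D t = 1` at a place -/
theorem compat_t (deru : S_DERU) (t : E)
    (hfin : FiniteDimensional (IntermediateField.adjoin K {t}) E)
    (dS : Derivation K (LaurentSeries K) (LaurentSeries K))
    (Dt : Derivation K E E) (hDt : Dt t = 1) (ι : E →ₐ[K] LaurentSeries K) (x : E) :
    dS (ι t) * ι (Dt x) = dS (ι x) := by
  have h := deru K E (LaurentSeries K) t hfin (ι : E →+* LaurentSeries K)
    (fun x => dS (ι t) * ι (Dt x) - dS (ι x)) (by
      intro x y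
      simp only [map_add]
      ring) (by
      intro x y
      simp only [map_mul, Derivation.leibniz, smul_eq_mul, map_add]
      show _ = ι x * _ + ι y * _
      ring) (by
      intro c
      show dS (ι t) * ι (Dt (algebraMap K E c)) - dS (ι (algebraMap K E c)) = 0
      rw [Derivation.map_algebraMap, map_zero, mul_zero, AlgHom.commutes,
        Derivation.map_algebraMap, sub_zero]) (by
      show dS (ι t) * ι (Dt t) - dS (ι t) = 0
      rw [hDt, map_one, mul_one, sub_self]) x
  exact sub_eq_zero.1 h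

/-- the coefficientwise derivation on constants -/
theorem DL_const {d : Derivation k K K} {DL : Derivation k (LaurentSeries K) (LaurentSeries K)}
    (hDL : ∀ f n, (DL f).coeff n = d (f.coeff n)) (c : K) :
    DL (algebraMap K (LaurentSeries K) c) = algebraMap K (LaurentSeries K) (d c) := by
  have e : ∀ c : K, algebraMap K (LaurentSeries K) c = HahnSeries.C c := fun c =>
    LaurentSeries.algebraMap_apply _ _
  rw [e, e]
  ext n
  rw [hDL, HahnSeries.C_apply, HahnSeries.C_apply]
  by_cases hn : n = 0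
  · rw [hn, HahnSeries.coeff_single_same, HahnSeries.coeff_single_same]
  · rw [HahnSeries.coeff_single_of_ne hn, HahnSeries.coeff_single_of_ne hn, map_zero]

/-- the derivations with `D t = 0` at a place -/
theorem compat_D (deru : S_DERU) (t : E)
    (hfin : FiniteDimensional (IntermediateField.adjoin K {t}) E)
    (dS : Derivation K (LaurentSeries K) (LaurentSeries K))
    (d : Derivation k K K) (D : Derivation k E E)
    (hD : ∀ c : K, D (algebraMap K E c) = algebraMap K E (d c)) (hDt : D t = 0)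
    (DL : Derivation k (LaurentSeries K) (LaurentSeries K))
    (hDL : ∀ f n, (DL f).coeff n = d (f.coeff n)) (ι : E →ₐ[K] LaurentSeries K) (x : E) :
    dS (ι t) * ι (D x) = dS (ι t) * DL (ι x) - DL (ι t) * dS (ι x) := by
  have h := deru K E (LaurentSeries K) t hfin (ι : E →+* LaurentSeries K)
    (fun x => dS (ι t) * ι (D x) - (dS (ι t) * DL (ι x) - DL (ι t) * dS (ι x))) (by
      intro x y
      simp only [map_add]
      ring) (by
      intro x y
      simp only [map_mul, Derivation.leibniz, smul_eq_mul, map_add]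
      show _ = ι x * _ + ι y * _
      ring) (by
      intro c
      show dS (ι t) * ι (D (algebraMap K E c)) - (dS (ι t) * DL (ι (algebraMap K E c)) -
        DL (ι t) * dS (ι (algebraMap K E c))) = 0
      rw [hD, AlgHom.commutes, AlgHom.commutes, DL_const hDL, Derivation.map_algebraMap]
      ring) (by
      show dS (ι t) * ι (D t) - (dS (ι t) * DL (ι t) - DL (ι t) * dS (ι t)) = 0
      rw [hDt, map_zero]
      ring) x
  exact sub_eq_zero.1 h

/-- the kernel of the derivation -/
theorem ker_der (emb1 : S_EMB1) (emb2 : S_EMB2) (deru : S_DERU) (dl : S_DL) [IsAlgClosed K] (t : E)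
    (ht : Transcendental K t) (hfin : FiniteDimensional (IntermediateField.adjoin K {t}) E)
    (Dt : Derivation K E E) (hDt : Dt t = 1) (x : E) (hx : Dt x = 0) :
    ∃ c : K, x = algebraMap K E c := by
  obtain ⟨dS, hdS⟩ := (dl K K).1
  -- a nontrivial valuation ring
  set A : Subring E := (Algebra.adjoin K {t}).toSubring with hA
  have htA : t ∈ A := Algebra.subset_adjoin rfl
  set I : Ideal A := Ideal.span {⟨t, htA⟩} with hI
  have ht0 : t ≠ 0 := by
    intro h0
    rw [h0] at ht
    exact ht isAlgebraic_zero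
  have hItop : I ≠ ⊤ := by
    intro h
    rw [Ideal.eq_top_iff_one, hI, Ideal.mem_span_singleton'] at h
    obtain ⟨⟨a, ha⟩, h1⟩ := h
    have h2 : a * t = 1 := congrArg Subtype.val h1
    rw [hA, Subalgebra.mem_toSubring, Algebra.adjoin_singleton_eq_range_aeval] at ha
    obtain ⟨p, rfl⟩ := ha
    have h3 : Polynomial.aeval t (p * Polynomial.X - 1) = 0 := by
      rw [map_sub, map_mul, Polynomial.aeval_X, map_one]
      exact sub_eq_zero.2 h2
    have h4 : p * Polynomial.X - 1 = 0 := by
      by_contra hne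
      exact ht ⟨_, hne, h3⟩
    have h5 := congrArg (Polynomial.eval 0) h4
    simp at h5
  obtain ⟨V, hAV, hVn⟩ := Ideal.image_subset_nonunits_valuationSubring I hItop
  have hVK : ∀ c : K, algebraMap K E c ∈ V := fun c => hAV (Subalgebra.algebraMap_mem _ c)
  have htn : t ∈ V.nonunits := hVn ⟨⟨t, htA⟩, Ideal.subset_span rfl, rfl⟩
  have hVt : V ≠ ⊤ := by
    rintro rfl
    have h1 : (⟨t, ValuationSubring.mem_top _⟩ : (⊤ : ValuationSubring E)) ∈
        IsLocalRing.maximalIdeal (⊤ : ValuationSubring E) :=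
      ValuationSubring.coe_mem_nonunits_iff.1 htn
    rw [IsLocalRing.mem_maximalIdeal, mem_nonunits_iff] at h1
    apply h1
    exact IsUnit.of_mul_eq_one (⟨t⁻¹, ValuationSubring.mem_top _⟩ : (⊤ : ValuationSubring E))
      (Subtype.ext (mul_inv_cancel₀ ht0))
  obtain ⟨π, h1, h2, h3, h4, h5⟩ := emb1 K E t ht hfin V hVK hVt
  obtain ⟨ι, h6, h7⟩ := emb2 K E V π hVK h1 h2 h3 h4 h5
  have h8 := compat_t deru t hfin dS Dt hDt ι x
  rw [hx, map_zero, mul_zero] at h8
  refine ⟨(ι x).coeff 0, ι.toRingHom.injective ?_⟩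
  have h9 := der_zero dS hdS h8.symm
  show ι x = ι (algebraMap K E _)
  rw [AlgHom.commutes]
  exact h9

/-- the determinants -/
theorem det_place (deru : S_DERU) {M n' : ℕ} (t : E)
    (hfin : FiniteDimensional (IntermediateField.adjoin K {t}) E)
    (dS : Derivation K (LaurentSeries K) (LaurentSeries K))
    (Dt : Derivation K E E) (hDt : Dt t = 1)
    (d : Fin n' → Derivation k K K) (D : Fin n' → Derivation k E E)
    (hD : ∀ i (c : K), D i (algebraMap K E c) = algebraMap K E (d i c)) (hD0 : ∀ i, D i t = 0)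
    (DL : Fin n' → Derivation k (LaurentSeries K) (LaurentSeries K))
    (hDL : ∀ i f n, (DL i f).coeff n = d i (f.coeff n)) (ι : E →ₐ[K] LaurentSeries K)
    (hτ : dS (ι t) ≠ 0) (φ : Fin M → E) (J : Fin (n' + 2) → Fin M) :
    dS (ι t) * ι (Matrix.of fun x c => (Fin.cons (φ (J x)) (Fin.cons (Dt (φ (J x)))
      (fun i => D i (φ (J x)))) : Fin (n' + 2) → E) c).det =
    (Matrix.of fun x c => (Fin.cons (ι (φ (J x))) (Fin.cons (dS (ι (φ (J x))))
      (fun i => DL i (ι (φ (J x))))) : Fin (n' + 2) → LaurentSeries K) c).det := by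
  classical
  set τ' := dS (ι t) with hτ'
  set A : Matrix (Fin (n' + 2)) (Fin (n' + 2)) E := Matrix.of fun x c =>
    (Fin.cons (φ (J x)) (Fin.cons (Dt (φ (J x)))
      (fun i => D i (φ (J x)))) : Fin (n' + 2) → E) c with hA
  set N : Matrix (Fin (n' + 2)) (Fin (n' + 2)) (LaurentSeries K) := Matrix.of fun x c =>
    (Fin.cons (ι (φ (J x))) (Fin.cons (dS (ι (φ (J x))))
      (fun i => DL i (ι (φ (J x))))) : Fin (n' + 2) → LaurentSeries K) c with hN
  -- the scaled matrices
  set s : Fin (n' + 2) → LaurentSeries K := Fin.cons 1 (Fin.cons τ' fun _ => τ') with hs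
  set s' : Fin (n' + 2) → LaurentSeries K := Fin.cons 1 (Fin.cons 1 fun _ => τ') with hs'
  have hps : ∏ c, s c = τ' * τ' ^ n' := by
    rw [Fin.prod_univ_succ, Fin.prod_univ_succ]
    simp [hs]
  have hps' : ∏ c, s' c = τ' ^ n' := by
    rw [Fin.prod_univ_succ, Fin.prod_univ_succ]
    simp [hs']
  have hdet : (Matrix.of fun x c => s c * (A.map ι) x c).det =
      (Matrix.of fun x c => s' c * N x c).det := by
    rw [← Matrix.det_transpose, ← Matrix.det_transpose (Matrix.of fun x c => s' c * N x c)]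
    refine Matrix.det_eq_of_forall_row_eq_smul_add_const
      (Fin.cons 0 (Fin.cons 0 (fun i => -(DL i (ι t))))) 1 rfl ?_
    intro c x
    rw [Matrix.transpose_apply, Matrix.transpose_apply, Matrix.transpose_apply]
    refine Fin.cases ?_ (fun c => ?_) c
    · show 1 * ι (φ (J x)) = 1 * ι (φ (J x)) + 0 * (1 * dS (ι (φ (J x))))
      ring
    · refine Fin.cases ?_ (fun c => ?_) c
      · show τ' * ι (Dt (φ (J x))) = 1 * dS (ι (φ (J x))) + 0 * (1 * dS (ι (φ (J x))))
        rw [compat_t deru t hfin dS Dt hDt ι]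
        ring
      · show τ' * ι (D c (φ (J x))) = τ' * DL c (ι (φ (J x))) +
          -(DL c (ι t)) * (1 * dS (ι (φ (J x))))
        rw [compat_D deru t hfin dS (d c) (D c) (hD c) (hD0 c) (DL c) (hDL c) ι]
        ring
  rw [Matrix.det_mul_row, Matrix.det_mul_row, hps, hps'] at hdet
  have h1 : (A.map ι).det = ι A.det := (AlgHom.map_det ι A).symm
  rw [h1] at hdet
  have h2 : τ' ^ n' * (τ' * ι A.det) = τ' ^ n' * N.det := by
    rw [← hdet]
    ring
  exact mul_left_cancel₀ (pow_ne_zero _ hτ) h2

end der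

end Pool.Agent.H432.AC
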