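import Mathlib
import Pool.Agent.H432.AC.Plc

/-!
The local inequalities at a place.
-/

set_option autoImplicit false
set_option linter.unusedVariables false
set_option linter.unusedSectionVars false

namespace Pool.Agent.H432.AC

open MvPolynomial Filter Pool.Agent.N750 Pool.Agent.H432.RC

section vo

variable {K E : Type} [Field K] [Field E] [Algebra K E]

/-- the order at a place -/
noncomputable def vo (ι : E →ₐ[K] LaurentSeries K) (x : E) : ℤ := (ι x).order

theorem vo_top (ι : E →ₐ[K] LaurentSeries K) {x : E} (hx : x ≠ 0) :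
    (ι x).orderTop = ((vo ι x : ℤ) : WithTop ℤ) := otop ((map_ne_zero ι).2 hx)

theorem vo_mul (ι : E →ₐ[K] LaurentSeries K) {x y : E} (hx : x ≠ 0) (hy : y ≠ 0) :
    vo ι (x * y) = vo ι x + vo ι y := by
  unfold vo
  rw [map_mul]
  exact o_mul ((map_ne_zero ι).2 hx) ((map_ne_zero ι).2 hy)

theorem vo_pow (ι : E →ₐ[K] LaurentSeries K) (x : E) (n : ℕ) : vo ι (x ^ n) = n * vo ι x := by
  unfold vo
  rw [map_pow]
  exact o_pow _ _

theorem vo_prod (ι : E →ₐ[K] LaurentSeries K) {κ : Type} (s : Finset κ) (f : κ → E)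
    (h : ∀ i ∈ s, f i ≠ 0) : vo ι (∏ i ∈ s, f i) = ∑ i ∈ s, vo ι (f i) := by
  unfold vo
  rw [map_prod]
  exact o_prod s _ fun i hi => (map_ne_zero ι).2 (h i hi)

theorem vo_le (ι : E →ₐ[K] LaurentSeries K) {x y : E} (hx : x ≠ 0) (hy : y ≠ 0)
    (h : vo ι x ≤ vo ι y) : (ι x).orderTop ≤ (ι y).orderTop := by
  rw [vo_top ι hx, vo_top ι hy]
  exact_mod_cast h

theorem vo_of (ι : E →ₐ[K] LaurentSeries K) {x : E} {n : ℤ}
    (h : (ι x).orderTop = (n : WithTop ℤ)) : vo ι x = n := by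
  have hx : x ≠ 0 := by
    rintro rfl
    rw [map_zero, HahnSeries.orderTop_zero] at h
    exact absurd h WithTop.top_ne_coe
  rw [vo_top ι hx] at h
  exact_mod_cast h

/-- the order of constants -/
theorem ot_const {c : K} (hc : c ≠ 0) : (algebraMap K (LaurentSeries K) c).orderTop = 0 := by
  have e : algebraMap K (LaurentSeries K) c = HahnSeries.C c := LaurentSeries.algebraMap_apply _ _
  rw [e, HahnSeries.C_apply]
  exact HahnSeries.orderTop_single hc

open Classical in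
/-- the order of `t - c` -/
theorem vo_tc (ι : E →ₐ[K] LaurentSeries K) {t : E} {β : K} {n : ℤ} (hn : n ≠ 0)
    (h : (ι (t - algebraMap K E β)).orderTop = (n : WithTop ℤ)) (c : K) :
    vo ι (t - algebraMap K E c) = if n < 0 then n else if c = β then n else 0 := by
  by_cases hc : c = β
  · subst hc
    rw [vo_of ι h, if_pos rfl, ite_self]
  · refine vo_of ι ?_
    have e1 : ι (t - algebraMap K E c) = ι (t - algebraMap K E β) +
        algebraMap K (LaurentSeries K) (β - c) := by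
      rw [← AlgHom.commutes ι, ← map_add]
      congr 1
      rw [map_sub]
      ring
    have e2 : (algebraMap K (LaurentSeries K) (β - c)).orderTop = 0 :=
      ot_const (sub_ne_zero.2 fun h => hc h.symm)
    rw [e1, if_neg hc]
    by_cases h0 : n < 0
    · rw [if_pos h0, HahnSeries.orderTop_add_eq_left, h]
      rw [e2, h]
      exact_mod_cast h0
    · rw [if_neg h0, HahnSeries.orderTop_add_eq_right, e2]
      · rfl
      · rw [e2, h]
        exact_mod_cast (by omega : (0 : ℤ) < n)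

/-- the center of a place -/
theorem center (ι : E →ₐ[K] LaurentSeries K) {t : E} (ht : ∀ c, t ≠ algebraMap K E c) :
    ∃ (n : ℤ) (β : K), n ≠ 0 ∧ (ι (t - algebraMap K E β)).orderTop = (n : WithTop ℤ) ∧
      (n < 0 → β = 0) := by
  have ht0 : t ≠ 0 := fun h => ht 0 (by rw [h, map_zero])
  by_cases h : vo ι t < 0
  · refine ⟨vo ι t, 0, h.ne, ?_, fun _ => rfl⟩
    rw [map_zero, sub_zero]
    exact vo_top ι ht0
  · set β := (ι t).coeff 0 with hβ
    have hne : t - algebraMap K E β ≠ 0 := sub_ne_zero.2 (ht β)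
    have e1 : ι (t - algebraMap K E β) = ι t - HahnSeries.C β := by
      rw [map_sub, AlgHom.commutes]
      congr 1
      exact LaurentSeries.algebraMap_apply _ _
    have hpos : 0 < vo ι (t - algebraMap K E β) := by
      unfold vo
      have h0 : ι (t - algebraMap K E β) ≠ 0 := (map_ne_zero ι).2 hne
      have h1 : (1 : ℤ) ≤ (ι (t - algebraMap K E β)).order := by
        rw [HahnSeries.le_order_iff_forall h0]
        intro m hm
        rw [e1, HahnSeries.coeff_sub, HahnSeries.C_apply]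
        by_cases hm0 : m = 0
        · rw [hm0, HahnSeries.coeff_single_same, hβ, sub_self]
        · rw [HahnSeries.coeff_single_of_ne hm0, sub_zero]
          refine HahnSeries.coeff_eq_zero_of_lt_order ?_
          have : 0 ≤ (ι t).order := not_lt.1 h
          omega
      omega
    exact ⟨vo ι (t - algebraMap K E β), β, hpos.ne', vo_top ι hne, fun h => by omega⟩

end vo

section

variable {k K E : Type} [Field k] [Field K] [Field E] [CharZero k] [CharZero K] [Algebra k K]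
  [Algebra K E] [Algebra k E] [IsScalarTower k K E]

/-- values of polynomials at a place -/
theorem io_aeval (ι : E →ₐ[K] LaurentSeries K) {M : ℕ} (φ : Fin M → E)
    (P : MvPolynomial (Fin M) k) : ι (aeval φ P) = aeval (fun l => ι (φ l)) P := by
  induction P using MvPolynomial.induction_on with
  | C a =>
    have e1 : ι (aeval φ (C a : MvPolynomial (Fin M) k)) =
        algebraMap K (LaurentSeries K) (algebraMap k K a) := by
      rw [← MvPolynomial.algebraMap_eq, AlgHom.commutes,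
        IsScalarTower.algebraMap_apply k K E, AlgHom.commutes]
    rw [e1, ← MvPolynomial.algebraMap_eq, AlgHom.commutes, amk (K := K) a]
    exact LaurentSeries.algebraMap_apply _ _
  | add p q hp hq => rw [map_add, map_add, map_add, hp, hq]
  | mul_X p i hp => rw [map_mul, map_mul, map_mul, hp, aeval_X, aeval_X]

/-- the minors -/
noncomputable def Gam {M n' : ℕ} (φ : Fin M → E) (Dt : Derivation K E E)
    (D : Fin n' → Derivation k E E) (J : Fin (n' + 2) → Fin M) : E :=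
  (Matrix.of fun x c => (Fin.cons (φ (J x)) (Fin.cons (Dt (φ (J x)))
      (fun i => D i (φ (J x)))) : Fin (n' + 2) → E) c).det

/-- **the local data at a place** -/
theorem place (loc : S_LOC) (deru : S_DERU) {M g q w n' : ℕ}
    (G : Fin g → MvPolynomial (Fin M) k) (e : Fin g → ℕ)
    (hG : ∀ i, (G i).IsHomogeneous (e i)) (hsm : Sm (n' + 1) G)
    (F : Fin q → Fin w → MvPolynomial (Fin M) k) (δ : Fin q → ℕ)
    (hF : ∀ i j, (F i j).IsHomogeneous (δ i)) (hnc : NCD G F) (t : E)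
    (ht : ∀ c, t ≠ algebraMap K E c) (hfin : FiniteDimensional (IntermediateField.adjoin K {t}) E)
    (φ : Fin M → E) (hX : ∀ i, aeval φ (G i) = 0) (hφ : ∃ l, φ l ≠ 0)
    (hFne : ∀ i, ∃ j, aeval φ (F i j) ≠ 0)
    (dS : Derivation K (LaurentSeries K) (LaurentSeries K))
    (hdS : ∀ f n, (dS f).coeff n = (n + 1) * f.coeff (n + 1))
    (Dt : Derivation K E E) (hDt : Dt t = 1)
    (d : Fin n' → Derivation k K K) (D : Fin n' → Derivation k E E)
    (hD : ∀ i (c : K), D i (algebraMap K E c) = algebraMap K E (d i c)) (hD0 : ∀ i, D i t = 0)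
    (DL : Fin n' → Derivation k (LaurentSeries K) (LaurentSeries K))
    (hDL : ∀ i f n, (DL i f).coeff n = d i (f.coeff n)) (ι : E →ₐ[K] LaurentSeries K) :
    ∃ (a : ℤ) (l' : Fin M) (m : Fin q → ℕ) (jj : Fin q → Fin w) (n : ℤ) (β : K),
      φ l' ≠ 0 ∧ vo ι (φ l') = a ∧ (∀ l, φ l ≠ 0 → a ≤ vo ι (φ l)) ∧
      (∀ i, aeval φ (F i (jj i)) ≠ 0 ∧ vo ι (aeval φ (F i (jj i))) = a * δ i + m i) ∧
      (∀ i j, aeval φ (F i j) ≠ 0 → a * δ i + m i ≤ vo ι (aeval φ (F i j))) ∧
      n ≠ 0 ∧ (ι (t - algebraMap K E β)).orderTop = (n : WithTop ℤ) ∧ (n < 0 → β = 0) ∧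
      ∀ J, Gam φ Dt D J ≠ 0 → ((n' + 2 : ℕ) : ℤ) * a + ((∑ i, m i - 1 : ℕ) : ℤ) - (n - 1) ≤
        vo ι (Gam φ Dt D J) := by
  classical
  obtain ⟨n, β, hn, hnβ, hnn⟩ := center ι ht
  obtain ⟨l1, hl1⟩ := hφ
  have : Nonempty (Fin M) := ⟨l1⟩
  obtain ⟨l', hl'⟩ := Finite.exists_min (fun l => (ι (φ l)).orderTop)
  have hφl' : φ l' ≠ 0 := by
    intro h0
    have h1 := hl' l1
    simp only [h0, map_zero, HahnSeries.orderTop_zero, vo_top ι hl1] at h1
    exact absurd (top_le_iff.1 h1) WithTop.coe_ne_top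
  set a : ℤ := vo ι (φ l') with ha
  have hal : ∀ l, (a : WithTop ℤ) ≤ (ι (φ l)).orderTop := by
    intro l
    rw [← vo_top ι hφl']
    exact hl' l
  have hw : ∀ i, ∃ j, aeval φ (F i j) ≠ 0 ∧
      ∀ j', (ι (aeval φ (F i j))).orderTop ≤ (ι (aeval φ (F i j'))).orderTop := by
    intro i
    obtain ⟨j1, hj1⟩ := hFne i
    have : Nonempty (Fin w) := ⟨j1⟩
    obtain ⟨j, hj⟩ := Finite.exists_min (fun j => (ι (aeval φ (F i j))).orderTop)
    refine ⟨j, fun h0 => ?_, hj⟩
    have h1 := hj j1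
    simp only [h0, map_zero, HahnSeries.orderTop_zero, vo_top ι hj1] at h1
    exact absurd (top_le_iff.1 h1) WithTop.coe_ne_top
  choose jj hjj0 hjj using hw
  have hge : ∀ i j, ((a * δ i : ℤ) : WithTop ℤ) ≤ (ι (aeval φ (F i j))).orderTop := by
    intro i j
    rw [io_aeval]
    exact ot_form (ι := Fin M) _ a hal (hF i j)
  set m : Fin q → ℕ := fun i => (vo ι (aeval φ (F i (jj i))) - a * δ i).toNat with hm
  have hmv : ∀ i, vo ι (aeval φ (F i (jj i))) = a * δ i + m i := by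
    intro i
    have h1 := hge i (jj i)
    rw [vo_top ι (hjj0 i)] at h1
    have h2 : a * δ i ≤ vo ι (aeval φ (F i (jj i))) := by exact_mod_cast h1
    simp only [hm]
    omega
  have hmle : ∀ i j, ((a * δ i + m i : ℤ) : WithTop ℤ) ≤ (ι (aeval φ (F i j))).orderTop := by
    intro i j
    rw [← hmv, ← vo_top ι (hjj0 i)]
    exact hjj i j
  refine ⟨a, l', m, jj, n, β, hφl', rfl, ?_, fun i => ⟨hjj0 i, hmv i⟩, ?_, hn, hnβ, hnn, ?_⟩
  · intro l hl
    have h1 := hal l
    rw [vo_top ι hl] at h1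
    exact_mod_cast h1
  · intro i j hij
    have h1 := hmle i j
    rw [vo_top ι hij] at h1
    exact_mod_cast h1
  · intro J hJ
    have hτ : (ι t - algebraMap K (LaurentSeries K) β).orderTop = (n : WithTop ℤ) := by
      rw [← AlgHom.commutes ι, ← map_sub]
      exact hnβ
    obtain ⟨hτ0, hτn⟩ := o_der dS hdS hn hτ
    have h1 := det_place deru t hfin dS Dt hDt d D hD hD0 DL hDL ι hτ0 φ J
    have h2 := loc k K M g q w n' G e hG hsm F δ hF hnc (fun l => ι (φ l)) (by
      intro i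
      rw [← io_aeval, hX, map_zero]) a hal ⟨l', vo_top ι hφl'⟩ m (by
      intro i j
      rw [← io_aeval]
      exact hmle i j) dS hdS d DL hDL J
    rw [← h1, HahnSeries.orderTop_mul, otop hτ0, hτn] at h2
    have h3 : (ι (Gam φ Dt D J)).orderTop = ((vo ι (Gam φ Dt D J) : ℤ) : WithTop ℤ) :=
      vo_top ι hJ
    have h4 : (ι (Matrix.of fun x c => (Fin.cons (φ (J x)) (Fin.cons (Dt (φ (J x)))
      (fun i => D i (φ (J x)))) : Fin (n' + 2) → E) c).det).orderTop =
        ((vo ι (Gam φ Dt D J) : ℤ) : WithTop ℤ) := h3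
    rw [h4, ← WithTop.coe_add, WithTop.coe_le_coe] at h2
    linarith

end

/-- the arithmetic of (A) and (B) -/
theorem arith_A {ν : ℕ} (hν : 3 ≤ ν) (sm n S Z : ℤ) (s1 : ℤ) (hs : sm ≤ s1 + 1) (r : ℕ)
    (hr : r = if n < 0 then 1 else 0)
    (h : (0 < n ∧ S = n) ∨ (n = 1 ∧ S = 0 ∧ sm = 0 ∧ s1 = 0) ∨ (n < 0 ∧ S = ν * n ∧ Z = n)) :
    sm + ((r * (ν - 1) : ℕ) : ℤ) * Z ≤ s1 - (n - 1) + S := by
  rcases h with ⟨h1, h2⟩ | ⟨h1, h2, h3, h4⟩ | ⟨h1, h2, h3⟩
  · rw [if_neg (by omega)] at hr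
    subst hr
    simp only [Nat.zero_mul, Nat.cast_zero, zero_mul]
    omega
  · rw [if_neg (by omega)] at hr
    subst hr
    simp only [Nat.zero_mul, Nat.cast_zero, zero_mul]
    omega
  · rw [if_pos h1] at hr
    subst hr
    rw [h2, h3, one_mul, Nat.cast_sub (by omega)]
    push_cast
    nlinarith

theorem arith_B {ν e : ℕ} (hν : 3 ≤ ν) (he : 2 ≤ e) (n S Z : ℤ) (s1 : ℤ) (hs : 0 ≤ s1) (r : ℕ)
    (hr : r = if n < 0 then 1 else 0) (hn : |n| ≤ e)
    (h : (0 < n ∧ S = n) ∨ (n = 1 ∧ S = 0) ∨ (n < 0 ∧ S = ν * n ∧ Z = n)) :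
    ((r * ((e - 1) * (ν + 1) - 2 * e) : ℕ) : ℤ) * Z ≤
      e * (s1 - (n - 1)) + ((e - 1 : ℕ) : ℤ) * S := by
  have he1 : ((e - 1 : ℕ) : ℤ) = (e : ℤ) - 1 := by
    rw [Nat.cast_sub (by omega)]
    rfl
  have he2 : (2 : ℤ) ≤ e := by exact_mod_cast he
  have hν2 : (3 : ℤ) ≤ ν := by exact_mod_cast hν
  have h0 : 0 ≤ (e : ℤ) * s1 := by positivity
  have hn1 := (abs_le.1 hn).1
  have hn2 := (abs_le.1 hn).2
  rcases h with ⟨h1, h2⟩ | ⟨h1, h2⟩ | ⟨h1, h2, h3⟩
  · rw [if_neg (by omega)] at hr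
    subst hr
    simp only [Nat.zero_mul, Nat.cast_zero, zero_mul]
    rw [h2, he1]
    nlinarith
  · rw [if_neg (by omega)] at hr
    subst hr
    simp only [Nat.zero_mul, Nat.cast_zero, zero_mul]
    rw [h2, h1, he1]
    nlinarith
  · rw [if_pos h1] at hr
    subst hr
    have h5 : 2 * e ≤ (e - 1) * (ν + 1) := by
      obtain ⟨e', rfl⟩ : ∃ e', e = e' + 2 := ⟨e - 2, by omega⟩
      obtain ⟨ν', rfl⟩ : ∃ ν', ν = ν' + 3 := ⟨ν - 3, by omega⟩
      have : e' + 2 - 1 = e' + 1 := by omega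
      rw [this]
      nlinarith [Nat.zero_le (e' * ν')]
    rw [h2, h3, one_mul, Nat.cast_sub h5]
    push_cast
    rw [he1]
    nlinarith

end Pool.Agent.H432.AC
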