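import Mathlib
import Pool.Agent.H432.AC.Loc1

/-!
The certificate over a function field.
-/

set_option autoImplicit false
set_option linter.unusedVariables false
set_option linter.unusedSectionVars false

namespace Pool.Agent.H432.AC

open MvPolynomial Filter Pool.Agent.N750 Pool.Agent.H432.RC

/-- linear independence of `φ` and its derivative -/
theorem lin_ind (emb1 : S_EMB1) (emb2 : S_EMB2) (deru : S_DERU) (dl : S_DL) {K E : Type} [Field K]
    [Field E] [CharZero K] [Algebra K E] [IsAlgClosed K] (t : E) (ht : Transcendental K t)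
    (hfin : FiniteDimensional (IntermediateField.adjoin K {t}) E)
    (Dt : Derivation K E E) (hDt : Dt t = 1) {M : ℕ} (φ : Fin M → E) (l0 l1 : Fin M)
    (hl1 : φ l1 ≠ 0) (hnon : ∀ c : K, φ l0 ≠ algebraMap K E c * φ l1) :
    LinearIndependent E ![φ, fun l => Dt (φ l)] := by
  rw [LinearIndependent.pair_iff]
  intro s r h
  by_cases hr : r = 0
  · refine ⟨?_, hr⟩
    have h1 := congrFun h l1
    rw [hr] at h1
    simp only [Pi.add_apply, Pi.smul_apply, smul_eq_mul, zero_mul, add_zero, Pi.zero_apply] at h1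
    exact (mul_eq_zero.1 h1).resolve_right hl1
  · exfalso
    have hD : ∀ l, Dt (φ l) = -(s / r) * φ l := by
      intro l
      have h1 := congrFun h l
      simp only [Pi.add_apply, Pi.smul_apply, smul_eq_mul, Pi.zero_apply] at h1
      field_simp
      linear_combination h1
    set u := φ l0 / φ l1 with hu
    have hu1 : φ l0 = u * φ l1 := (div_mul_cancel₀ _ hl1).symm
    have h2 : Dt u = 0 := by
      have h3 := congrArg Dt hu1
      rw [Derivation.leibniz, hD, hD, hu1, smul_eq_mul, smul_eq_mul] at h3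
      have h4 : φ l1 * Dt u = 0 := by linear_combination -h3
      exact (mul_eq_zero.1 h4).resolve_left hl1
    obtain ⟨c, hc⟩ := ker_der emb1 emb2 deru dl t ht hfin Dt hDt u h2
    exact hnon c (by rw [← hc]; exact hu1)

section

variable {k K E : Type} [Field k] [Field K] [Field E] [CharZero k] [CharZero K] [IsAlgClosed K]
  [Algebra k K] [Algebra K E] [Algebra k E] [IsScalarTower k K E]

/-- the cases for the center of a place -/
theorem cases_center {M q w ν : ℕ} (t : E) (ht : ∀ c, t ≠ algebraMap K E c) (φ : Fin M → E)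
    (Fφ : Fin q → Fin w → E) (δ : Fin q → ℕ) (b : Fin ν → K) (hb : Function.Injective b)
    (ι : E →ₐ[K] LaurentSeries K)
    (hfine : ∀ c : K, (∀ a, b a ≠ c) → ∀ n : ℤ,
      (ι (t - algebraMap K E c)).orderTop = (n : WithTop ℤ) → 0 < n → n = 1)
    (hord : ∀ c : K, (∀ a, b a ≠ c) → 0 < (ι (t - algebraMap K E c)).orderTop →
      (∀ l, φ l ≠ 0 → (ι (φ l)).orderTop = 0) ∧
      ∀ i j, Fφ i j ≠ 0 → (ι (Fφ i j)).orderTop = 0)
    (a : ℤ) (l' : Fin M) (m : Fin q → ℕ) (jj : Fin q → Fin w) (n : ℤ) (β : K)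
    (h1 : φ l' ≠ 0) (h2 : vo ι (φ l') = a) (h3 : ∀ l, φ l ≠ 0 → a ≤ vo ι (φ l))
    (h4 : ∀ i, Fφ i (jj i) ≠ 0 ∧ vo ι (Fφ i (jj i)) = a * δ i + m i)
    (hn : n ≠ 0) (hnβ : (ι (t - algebraMap K E β)).orderTop = (n : WithTop ℤ))
    (hnn : n < 0 → β = 0) :
    (0 < n ∧ vo ι (∏ x, (t - algebraMap K E (b x))) = n) ∨
      (n = 1 ∧ vo ι (∏ x, (t - algebraMap K E (b x))) = 0 ∧ a = 0 ∧ ∀ i, m i = 0) ∨
      (n < 0 ∧ vo ι (∏ x, (t - algebraMap K E (b x))) = ν * n ∧ vo ι t = n) := by
  classical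
  rw [vo_prod ι _ _ fun x _ => sub_ne_zero.2 (ht _)]
  have e1 : ∀ c, vo ι (t - algebraMap K E c) = if n < 0 then n else if c = β then n else 0 := by
    intro c
    rw [vo_tc ι hn hnβ c]
  rw [Finset.sum_congr rfl fun x _ => e1 (b x)]
  by_cases h0 : n < 0
  · right
    right
    refine ⟨h0, ?_, ?_⟩
    · simp only [if_pos h0, Finset.sum_const, Finset.card_univ, Fintype.card_fin, nsmul_eq_mul]
    · have h5 := e1 0
      rw [map_zero, sub_zero, if_pos h0] at h5
      exact h5
  · have hpos : 0 < n := by omega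
    simp only [if_neg h0]
    by_cases hex : ∃ x, b x = β
    · left
      obtain ⟨x, hx⟩ := hex
      refine ⟨hpos, ?_⟩
      rw [Finset.sum_eq_single x]
      · rw [if_pos hx]
      · intro y _ hyx
        rw [if_neg]
        intro hy
        exact hyx (hb (hy.trans hx.symm))
      · intro h
        exact absurd (Finset.mem_univ _) h
    · right
      left
      have hex' : ∀ x, b x ≠ β := fun x hx => hex ⟨x, hx⟩
      have hpos' : 0 < (ι (t - algebraMap K E β)).orderTop := by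
        rw [hnβ]
        exact_mod_cast hpos
      obtain ⟨h5, h6⟩ := hord β hex' hpos'
      have ha : a = 0 := by
        rw [← h2]
        exact vo_of ι (h5 l' h1)
      refine ⟨hfine β hex' n hnβ hpos, ?_, ha, ?_⟩
      · refine Finset.sum_eq_zero fun x _ => ?_
        rw [if_neg (hex' x)]
      · intro i
        have h7 := (h4 i).2
        rw [vo_of ι (n := 0) (h6 i (jj i) (h4 i).1), ha] at h7
        omega

/-- **the certificate over a function field** -/
theorem geoF (val : S_VAL) (emb1 : S_EMB1) (emb2 : S_EMB2) (ram : S_RAM) (fine : S_FINE)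
    (finord : S_FINORD) (derx : S_DERX) (deru : S_DERU) (span : S_SPAN) (dl : S_DL) (loc : S_LOC)
    {M g q w n' : ℕ} (G : Fin g → MvPolynomial (Fin M) k) (e : Fin g → ℕ)
    (hG : ∀ i, (G i).IsHomogeneous (e i)) (hsm : Sm (n' + 1) G)
    (F : Fin q → Fin w → MvPolynomial (Fin M) k) (δ : Fin q → ℕ)
    (hF : ∀ i j, (F i j).IsHomogeneous (δ i)) (hnc : NCD G F) (t : E)
    (ht : Transcendental K t) (hfin : FiniteDimensional (IntermediateField.adjoin K {t}) E)
    (φ : Fin M → E) (hX : ∀ i, aeval φ (G i) = 0)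
    (hgen : ∀ (P : MvPolynomial (Fin M) k) (m : ℕ), P.IsHomogeneous m →
      P ∉ Ideal.span (Set.range G) → aeval φ P ≠ 0)
    (hFne : ∀ i, ∃ j, aeval φ (F i j) ≠ 0) (l0 l1 : Fin M)
    (hl1 : φ l1 ≠ 0) (hnon : ∀ c : K, φ l0 ≠ algebraMap K E c * φ l1) :
    ∃ (ν e' : ℕ) (b : Fin ν → K) (Γ : (Fin (n' + 2) → Fin M) → E),
      3 ≤ ν ∧ 2 ≤ e' ∧ Function.Injective b ∧ (∃ J, Γ J ≠ 0) ∧
      (∀ J (i j : Fin (n' + 2)), i ≠ j → Γ (J ∘ Equiv.swap i j) + Γ J = 0) ∧
      (∀ i J, ∑ l, aeval φ (pderiv l (G i)) * Γ (Function.update J 0 l) = 0) ∧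
      (∀ J l, Dom K (fun x : Fin M × (Fin q → Fin w) × Fin 2 =>
          φ x.1 ^ (n' + 2) * (∏ i, aeval φ (F i (x.2.1 i))) * t ^ ((x.2.2 : ℕ) * (ν - 1)))
        (Γ J * (∏ a, (t - algebraMap K E (b a))) * φ l ^ (∑ i, δ i))) ∧
      (∀ J, Dom K (fun x : Fin M × Fin 2 =>
          φ x.1 ^ (e' * (n' + 2)) * t ^ ((x.2 : ℕ) * ((e' - 1) * (ν + 1) - 2 * e')))
        (Γ J ^ e' * (∏ a, (t - algebraMap K E (b a))) ^ (e' - 1))) := by
  classical
  have ht' : ∀ c, t ≠ algebraMap K E c := by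
    intro c hc
    apply ht
    rw [hc]
    exact isAlgebraic_algebraMap c
  have ht0 : t ≠ 0 := fun h => ht' 0 (by rw [h, map_zero])
  obtain ⟨hder, Dt, hDt⟩ := derx k K E t ht hfin
  have hlin := lin_ind emb1 emb2 deru dl t ht hfin Dt hDt φ l0 l1 hl1 hnon
  obtain ⟨d, D, hD, hD0, hlin2⟩ := span k K E t ht hfin M g n' G e hG hsm φ hX hgen Dt hDt hlin
  obtain ⟨dS, hdS⟩ := (dl K K).1
  choose DL hDL using fun i => (dl k K).2 (d i)
  obtain ⟨E0, hE0⟩ := ram K E t ht hfin
  obtain ⟨Bf, hBf⟩ := fine K E t ht hfin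
  have hBL : ∀ l, ∃ B : Finset K, φ l ≠ 0 → ∀ ι : E →ₐ[K] LaurentSeries K, ∀ c : K, c ∉ B →
      0 < (ι (t - algebraMap K E c)).orderTop → (ι (φ l)).orderTop = 0 := by
    intro l
    by_cases h : φ l = 0
    · exact ⟨∅, fun h1 => absurd h h1⟩
    · obtain ⟨B, hB⟩ := finord K E t ht hfin (φ l) h
      exact ⟨B, fun _ => hB⟩
  choose BL hBL using hBL
  have hBF : ∀ x : Fin q × Fin w, ∃ B : Finset K, aeval φ (F x.1 x.2) ≠ 0 →
      ∀ ι : E →ₐ[K] LaurentSeries K, ∀ c : K, c ∉ B →
      0 < (ι (t - algebraMap K E c)).orderTop → (ι (aeval φ (F x.1 x.2))).orderTop = 0 := by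
    intro x
    by_cases h : aeval φ (F x.1 x.2) = 0
    · exact ⟨∅, fun h1 => absurd h h1⟩
    · obtain ⟨B, hB⟩ := finord K E t ht hfin _ h
      exact ⟨B, fun _ => hB⟩
  choose BF hBF using hBF
  set B : Finset K := Bf ∪ (Finset.univ.biUnion BL ∪ Finset.univ.biUnion BF) with hB
  have hinf : Infinite K := inferInstance
  obtain ⟨B', hBB, hcard⟩ := Infinite.exists_superset_card_eq B (B.card + 3) (Nat.le_add_right _ _)
  set ν := B.card + 3 with hν
  set eq := Finset.equivFinOfCardEq hcard with heq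
  set b : Fin ν → K := fun a => (eq.symm a).1 with hb
  have hbinj : Function.Injective b := fun a a' h => eq.symm.injective (Subtype.ext h)
  have hbB : ∀ c, (∀ a, b a ≠ c) → c ∉ B := by
    intro c hc hcB
    apply hc (eq ⟨c, hBB hcB⟩)
    rw [hb]
    simp only
    rw [Equiv.symm_apply_apply]
  set e' := max 2 E0 with he'
  have he'2 : 2 ≤ e' := le_max_left _ _
  have hν3 : 3 ≤ ν := Nat.le_add_left _ _
  choose j0 hj0 using hFne
  -- the data at a place
  have hplace : ∀ ι : E →ₐ[K] LaurentSeries K, (∃ π, (ι π).orderTop = 1) →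
      ∃ (a : ℤ) (l' : Fin M) (m : Fin q → ℕ) (jj : Fin q → Fin w) (n : ℤ),
      φ l' ≠ 0 ∧ vo ι (φ l') = a ∧ (∀ l, φ l ≠ 0 → a ≤ vo ι (φ l)) ∧
      (∀ i, aeval φ (F i (jj i)) ≠ 0 ∧ vo ι (aeval φ (F i (jj i))) = a * δ i + m i) ∧
      |n| ≤ e' ∧ (∀ J, Gam φ Dt D J ≠ 0 →
        ((n' + 2 : ℕ) : ℤ) * a + ((∑ i, m i - 1 : ℕ) : ℤ) - (n - 1) ≤ vo ι (Gam φ Dt D J)) ∧
      ((0 < n ∧ vo ι (∏ x, (t - algebraMap K E (b x))) = n) ∨
      (n = 1 ∧ vo ι (∏ x, (t - algebraMap K E (b x))) = 0 ∧ a = 0 ∧ ∀ i, m i = 0) ∨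
      (n < 0 ∧ vo ι (∏ x, (t - algebraMap K E (b x))) = ν * n ∧ vo ι t = n)) := by
    intro ι hπ
    obtain ⟨a, l', m, jj, n, β, h1, h2, h3, h4, h5, h6, h7, h8, h9⟩ :=
      place loc deru G e hG hsm F δ hF hnc t ht' hfin φ hX ⟨l1, hl1⟩ (fun i => ⟨j0 i, hj0 i⟩)
        dS hdS Dt hDt d D hD hD0 DL hDL ι
    refine ⟨a, l', m, jj, n, h1, h2, h3, h4, ?_, h9, ?_⟩
    · have h10 := hE0 ι hπ β n h7
      have h11 : (E0 : ℤ) ≤ e' := by exact_mod_cast le_max_right _ _
      linarith
    · refine cases_center t ht' φ (fun i j => aeval φ (F i j)) δ b hbinj ι ?_ ?_ a l' m jj n β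
        h1 h2 h3 h4 h6 h7 h8
      · intro c hc n1 hn1 hn2
        refine hBf ι hπ c (fun h => hbB c hc ?_) n1 hn1 hn2
        rw [hB]
        exact Finset.mem_union_left _ h
      · intro c hc hpos
        refine ⟨fun l hl => hBL l hl ι c (fun h => hbB c hc ?_) hpos,
          fun i j hij => hBF (i, j) hij ι c (fun h => hbB c hc ?_) hpos⟩
        · rw [hB]
          exact Finset.mem_union_right _ (Finset.mem_union_left _
            (Finset.mem_biUnion.2 ⟨l, Finset.mem_univ _, h⟩))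
        · rw [hB]
          exact Finset.mem_union_right _ (Finset.mem_union_right _
            (Finset.mem_biUnion.2 ⟨(i, j), Finset.mem_univ _, h⟩))
  have hT0 : (∏ x, (t - algebraMap K E (b x))) ≠ 0 :=
    Finset.prod_ne_zero_iff.2 fun x _ => sub_ne_zero.2 (ht' _)
  refine ⟨ν, e', b, Gam φ Dt D, hν3, he'2, hbinj, ?_, ?_, ?_, ?_, ?_⟩
  · -- a nonzero minor
    obtain ⟨J, hJ⟩ := exists_minor (fun l => (Fin.cons (φ l) (Fin.cons (Dt (φ l))
      (fun i => D i (φ l))) : Fin (n' + 2) → E)) (by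
        have h9 : (fun c : Fin (n' + 2) => fun l => (Fin.cons (φ l) (Fin.cons (Dt (φ l))
            (fun i => D i (φ l))) : Fin (n' + 2) → E) c) =
            Fin.cons φ (Fin.cons (fun l => Dt (φ l)) (fun i l => D i (φ l))) := by
          funext c l
          refine Fin.cases ?_ (fun c => ?_) c
          · rfl
          · refine Fin.cases ?_ (fun c => ?_) c
            · rfl
            · rfl
        rw [h9]
        exact hlin2)
    exact ⟨J, hJ⟩
  · intro J i j hij
    have h2 := Matrix.det_permute (Equiv.swap i j) (Matrix.of fun x c =>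
      (Fin.cons (φ (J x)) (Fin.cons (Dt (φ (J x))) (fun i => D i (φ (J x)))) :
        Fin (n' + 2) → E) c)
    rw [Equiv.Perm.sign_swap hij] at h2
    have h3 : Gam φ Dt D (J ∘ Equiv.swap i j) = ((-1 : ℤˣ) : E) * Gam φ Dt D J := h2
    rw [h3]
    simp
  · intro i J
    refine det_row_zero (fun l => (Fin.cons (φ l) (Fin.cons (Dt (φ l))
      (fun i => D i (φ l))) : Fin (n' + 2) → E)) (fun l => aeval φ (pderiv l (G i))) ?_ J
    intro c
    refine Fin.cases ?_ (fun c => ?_) c
    · show ∑ l, aeval φ (pderiv l (G i)) * φ l = 0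
      rw [euler_ring (hG i), hX, mul_zero]
    · refine Fin.cases ?_ (fun c => ?_) c
      · show ∑ l, aeval φ (pderiv l (G i)) * Dt (φ l) = 0
        have h3 := der_aeval (Dt.restrictScalars k) φ (G i)
        rw [hX, map_zero] at h3
        exact h3.symm
      · show ∑ l, aeval φ (pderiv l (G i)) * D c (φ l) = 0
        have h3 := der_aeval (D c) φ (G i)
        rw [hX, map_zero] at h3
        exact h3.symm
  · intro J l
    refine dom_of_places val emb1 emb2 t ht hfin _ _ ⟨(l1, j0, 0), ?_⟩ ?_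
    · simp only
      refine mul_ne_zero (mul_ne_zero (pow_ne_zero _ hl1)
        (Finset.prod_ne_zero_iff.2 fun i _ => hj0 i)) (pow_ne_zero _ ht0)
    · intro ι hπ
      obtain ⟨a, l', m, jj, n, h1, h2, h3, h4, h5, h6, h7⟩ := hplace ι hπ
      have hg0 : φ l' ^ (n' + 2) * (∏ i, aeval φ (F i (jj i))) ≠ 0 :=
        mul_ne_zero (pow_ne_zero _ h1) (Finset.prod_ne_zero_iff.2 fun i _ => (h4 i).1)
      refine ⟨(l', jj, if n < 0 then 1 else 0), mul_ne_zero hg0 (pow_ne_zero _ ht0), ?_⟩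
      by_cases hf : Gam φ Dt D J * (∏ a, (t - algebraMap K E (b a))) * φ l ^ (∑ i, δ i) = 0
      · rw [hf, map_zero, HahnSeries.orderTop_zero]
        exact le_top
      · refine vo_le ι (mul_ne_zero hg0 (pow_ne_zero _ ht0)) hf ?_
        have hf1 := left_ne_zero_of_mul hf
        have hf2 := right_ne_zero_of_mul hf
        have hf3 := left_ne_zero_of_mul hf1
        have e1 : vo ι (∏ i, aeval φ (F i (jj i))) = a * (∑ i, δ i : ℕ) + ((∑ i, m i : ℕ) : ℤ) := by
          rw [vo_prod ι _ _ fun i _ => (h4 i).1, Finset.sum_congr rfl fun i _ => (h4 i).2,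
            Finset.sum_add_distrib, ← Finset.mul_sum]
          push_cast
          rfl
        have e2 : a * (∑ i, δ i : ℕ) ≤ vo ι (φ l ^ (∑ i, δ i)) := by
          rw [vo_pow]
          by_cases hl : φ l = 0
          · have h8 : ∑ i, δ i = 0 := by
              by_contra h9
              rw [hl, zero_pow h9] at hf2
              exact hf2 rfl
            rw [h8]
            simp
          · have := h3 l hl
            have h8 : (0 : ℤ) ≤ ((∑ i, δ i : ℕ) : ℤ) := Int.natCast_nonneg _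
            rw [mul_comm]
            exact mul_le_mul_of_nonneg_left this h8
        rw [vo_mul ι hf1 hf2, vo_mul ι hf3 hT0]
        simp only
        rw [vo_mul ι hg0 (pow_ne_zero _ ht0), vo_mul ι (pow_ne_zero _ h1)
          (Finset.prod_ne_zero_iff.2 fun i _ => (h4 i).1), vo_pow, vo_pow, h2, e1]
        have e3 := h6 J hf3
        have e4 := arith_A hν3 ((∑ i, m i : ℕ) : ℤ) n (vo ι (∏ x, (t - algebraMap K E (b x))))
          (vo ι t) ((∑ i, m i - 1 : ℕ) : ℤ) (by omega) (if n < 0 then 1 else 0) rfl (by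
            rcases h7 with h | h | h
            · exact Or.inl h
            · refine Or.inr (Or.inl ⟨h.1, h.2.1, ?_, ?_⟩)
              · rw [Finset.sum_eq_zero fun i _ => h.2.2.2 i]
                rfl
              · rw [Finset.sum_eq_zero fun i _ => h.2.2.2 i]
                rfl
            · exact Or.inr (Or.inr h))
        have e5 : (((if n < 0 then 1 else 0 : Fin 2) : ℕ) : ℕ) = if n < 0 then 1 else 0 := by
          split_ifs <;> rfl
        rw [e5]
        linarith
  · intro J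
    refine dom_of_places val emb1 emb2 t ht hfin _ _ ⟨(l1, 0), ?_⟩ ?_
    · simp only
      exact mul_ne_zero (pow_ne_zero _ hl1) (pow_ne_zero _ ht0)
    · intro ι hπ
      obtain ⟨a, l', m, jj, n, h1, h2, h3, h4, h5, h6, h7⟩ := hplace ι hπ
      have hg0 : φ l' ^ (e' * (n' + 2)) ≠ 0 := pow_ne_zero _ h1
      refine ⟨(l', if n < 0 then 1 else 0), mul_ne_zero hg0 (pow_ne_zero _ ht0), ?_⟩
      by_cases hf : Gam φ Dt D J ^ e' * (∏ a, (t - algebraMap K E (b a))) ^ (e' - 1) = 0
      · rw [hf, map_zero, HahnSeries.orderTop_zero]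
        exact le_top
      · refine vo_le ι (mul_ne_zero hg0 (pow_ne_zero _ ht0)) hf ?_
        have hf1 := left_ne_zero_of_mul hf
        have hf3 : Gam φ Dt D J ≠ 0 := by
          intro h0
          rw [h0, zero_pow (by omega)] at hf1
          exact hf1 rfl
        rw [vo_mul ι hf1 (pow_ne_zero _ hT0)]
        simp only
        rw [vo_mul ι hg0 (pow_ne_zero _ ht0), vo_pow, vo_pow, vo_pow, vo_pow, h2]
        have e3 := h6 J hf3
        have e4 := arith_B hν3 he'2 n (vo ι (∏ x, (t - algebraMap K E (b x))))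
          (vo ι t) ((∑ i, m i - 1 : ℕ) : ℤ) (Int.natCast_nonneg _) (if n < 0 then 1 else 0) rfl h5
          (by
            rcases h7 with h | h | h
            · exact Or.inl h
            · exact Or.inr (Or.inl ⟨h.1, h.2.1⟩)
            · exact Or.inr (Or.inr h))
        have e5 : (((if n < 0 then 1 else 0 : Fin 2) : ℕ) : ℕ) = if n < 0 then 1 else 0 := by
          split_ifs <;> rfl
        rw [e5]
        have e6 : (0 : ℤ) ≤ (e' : ℤ) := Int.natCast_nonneg _
        have e7 := mul_le_mul_of_nonneg_left e3 e6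
        have e8 : ((e' * (n' + 2) : ℕ) : ℤ) * a = (e' : ℤ) * (((n' + 2 : ℕ) : ℤ) * a) := by
          push_cast
          ring
        rw [e8]
        nlinarith

end

end Pool.Agent.H432.AC
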