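import Mathlib
import Pool.Agent.H432.AC.Geo1

/-!
The certificate for a plane curve over an algebraically closed field.
-/

set_option autoImplicit false
set_option linter.unusedVariables false
set_option linter.unusedSectionVars false

namespace Pool.Agent.H432.AC

open MvPolynomial Filter Pool.Agent.N750 Pool.Agent.H432.RC

/-- values of forms -/
theorem aeval_hom' {R A ι : Type} [CommRing R] [CommRing A] [Algebra R A] {P : MvPolynomial ι R}
    {d : ℕ} (hP : P.IsHomogeneous d) (s : A) (z : ι → A) :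
    aeval (fun i => s * z i) P = s ^ d * aeval z P := by
  rw [aeval_def, aeval_def, eval₂_eq, eval₂_eq, Finset.mul_sum]
  refine Finset.sum_congr rfl fun m hm => ?_
  simp only [mul_pow]
  rw [Finset.prod_mul_distrib, Finset.prod_pow_eq_pow_sum]
  have hdeg : ∑ i ∈ m.support, m i = d := by
    have h2 := hP (MvPolynomial.mem_support_iff.1 hm)
    rw [Finsupp.weight_apply, Finsupp.sum] at h2
    simpa using h2
  rw [hdeg]
  ring

/-- scaling an integral relation -/
theorem Dom.smul {K F ι : Type} [Field K] [Field F] [Algebra K F] {g : ι → F} {f : F}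
    (h : Dom K g f) (s : F) : Dom K (fun x => s * g x) (s * f) := by
  obtain ⟨m, a, ha, h1⟩ := h
  refine ⟨m, a, ha, ?_⟩
  have h2 : (s * f) ^ m + ∑ i : Fin m, aeval (fun x => s * g x) (a i) * (s * f) ^ (i : ℕ) =
      s ^ m * (f ^ m + ∑ i : Fin m, aeval g (a i) * f ^ (i : ℕ)) := by
    rw [mul_add, mul_pow, Finset.mul_sum]
    congr 1
    refine Finset.sum_congr rfl fun i _ => ?_
    rw [aeval_hom' (ha i), mul_pow]
    have h3 : s ^ m = s ^ (m - (i : ℕ)) * s ^ (i : ℕ) := by
      rw [← pow_add]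
      congr 1
      have := i.2
      omega
    rw [h3]
    ring
  rw [h2, h1, mul_zero]

section

variable {K E : Type} [Field K] [Field E] [Algebra K E] {P : MvPolynomial (Fin 2) K}
  {π : MvPolynomial (Fin 2) K →ₐ[K] E}

/-- from the function field to polynomials -/
theorem Rel.of_dom (hπ : ∀ x, π x = 0 ↔ P ∣ x) {ι : Type} {g : ι → MvPolynomial (Fin 2) K}
    {f : MvPolynomial (Fin 2) K} (h : Dom K (fun x => π (g x)) (π f)) : Rel P g f := by
  obtain ⟨m, a, ha, h1⟩ := h
  refine ⟨m, a, ha, ?_⟩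
  rw [← hπ, map_add, map_pow, map_sum, ← h1]
  congr 1
  refine Finset.sum_congr rfl fun i _ => ?_
  rw [map_mul, map_pow]
  congr 1
  exact MvPolynomial.comp_aeval_apply g π (a i)

/-- the function field of a plane curve -/
theorem exists_ff {K : Type} [Field K] {P : MvPolynomial (Fin 2) K} (hP : Irreducible P) :
    ∃ (E : Type) (_ : Field E) (_ : Algebra K E) (π : MvPolynomial (Fin 2) K →ₐ[K] E),
      (∀ x, π x = 0 ↔ P ∣ x) ∧ ∀ f : E, ∃ x y, π y ≠ 0 ∧ f = π x / π y := by
  classical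
  set I : Ideal (MvPolynomial (Fin 2) K) := Ideal.span {P} with hI
  have hprime : I.IsPrime := (Ideal.span_singleton_prime hP.ne_zero).2
    (UniqueFactorizationMonoid.irreducible_iff_prime.1 hP)
  let A := MvPolynomial (Fin 2) K ⧸ I
  let E := FractionRing A
  let π : MvPolynomial (Fin 2) K →ₐ[K] E := (IsScalarTower.toAlgHom K A E).comp (Ideal.Quotient.mkₐ K I)
  have hπ : ∀ x, π x = algebraMap A E (Ideal.Quotient.mk I x) := fun x => rfl
  refine ⟨E, inferInstance, inferInstance, π, ?_, ?_⟩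
  · intro x
    rw [hπ, map_eq_zero_iff _ (IsFractionRing.injective A E), Ideal.Quotient.eq_zero_iff_mem,
      hI, Ideal.mem_span_singleton]
  · intro f
    obtain ⟨a, b, hb, hab⟩ := IsFractionRing.div_surjective (A := A) f
    obtain ⟨x, rfl⟩ := Ideal.Quotient.mk_surjective a
    obtain ⟨y, rfl⟩ := Ideal.Quotient.mk_surjective b
    refine ⟨x, y, ?_, ?_⟩
    · rw [hπ]
      rw [ne_eq, map_eq_zero_iff _ (IsFractionRing.injective A E)]
      exact nonZeroDivisors.ne_zero hb
    · rw [hπ, hπ, hab]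

end

/-- **the certificate over an algebraically closed field** -/
theorem certK (val : S_VAL) (emb1 : S_EMB1) (emb2 : S_EMB2) (ram : S_RAM) (fine : S_FINE)
    (finord : S_FINORD) (derx : S_DERX) (deru : S_DERU) (span : S_SPAN) (dl : S_DL) (loc : S_LOC)
    (trd : S_TRD) {k K : Type} [Field k] [Field K] [CharZero k] [CharZero K] [IsAlgClosed K]
    [Algebra k K] {M g q w n' : ℕ} (G : Fin g → MvPolynomial (Fin M) k) (e : Fin g → ℕ)
    (hG : ∀ i, (G i).IsHomogeneous (e i)) (hsm : Sm (n' + 1) G)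
    (F : Fin q → Fin w → MvPolynomial (Fin M) k) (δ : Fin q → ℕ)
    (hF : ∀ i j, (F i j).IsHomogeneous (δ i)) (hnc : NCD G F)
    (P : MvPolynomial (Fin 2) K) (hP : Irreducible P) (φ : Fin M → MvPolynomial (Fin 2) K)
    (hX : ∀ i, P ∣ aeval φ (G i))
    (hgen : ∀ (Q : MvPolynomial (Fin M) k) (m : ℕ), Q.IsHomogeneous m →
      Q ∉ Ideal.span (Set.range G) → ¬ P ∣ aeval φ Q)
    (hFne : ∀ i, ∃ j, ¬ P ∣ aeval φ (F i j)) (l0 l1 : Fin M)
    (hl1 : ¬ P ∣ φ l1) (hnon : ∀ c : K, ¬ P ∣ φ l0 - C c * φ l1) : Cert n' G F δ P φ := by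
  classical
  obtain ⟨E, _, _, π, hπ, hfrac⟩ := exists_ff hP
  obtain ⟨c, hc⟩ : ∃ c : Fin 2, 0 < degreeOf (c + 1) P := by
    by_contra hcon
    push Not at hcon
    have h0 : ∀ i, degreeOf i P = 0 := by
      intro i
      have h1 := hcon (i + 1)
      have h2 : i + 1 + 1 = i := by
        fin_cases i <;> rfl
      rw [h2] at h1
      omega
    have h1 : P.totalDegree = 0 := by
      have h2 := MvPolynomial.totalDegree_le_degrees_card P
      have h3 : P.degrees = 0 := by
        ext i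
        rw [Multiset.count_zero]
        have := h0 i
        rwa [degreeOf_def] at this
      rw [h3] at h2
      simpa using h2
    rw [MvPolynomial.totalDegree_eq_zero_iff_eq_C] at h1
    have h2 : P.coeff 0 ≠ 0 := by
      intro h3
      rw [h3, C_0] at h1
      exact hP.ne_zero h1
    apply hP.not_isUnit
    rw [h1]
    exact (Ne.isUnit h2).map C
  obtain ⟨ht, hfin⟩ := trd K E P hP c hc π hπ hfrac
  let _ : Algebra k E := ((algebraMap K E).comp (algebraMap k K)).toAlgebra
  have htow : IsScalarTower k K E := IsScalarTower.of_algebraMap_eq fun x => rfl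
  have hπa : ∀ Q : MvPolynomial (Fin M) k, aeval (fun l => π (φ l)) Q = π (aeval φ Q) := by
    intro Q
    exact (MvPolynomial.comp_aeval_apply φ (π.restrictScalars k) Q).symm
  have hπC : ∀ c : K, π (C c) = algebraMap K E c := fun c => π.commutes c
  obtain ⟨ν, e', b, Γ, h1, h2, h3, ⟨J0, h4⟩, h5, h6, h7, h8⟩ :=
    geoF val emb1 emb2 ram fine finord derx deru span dl loc G e hG hsm F δ hF hnc (π (X c)) ht
      hfin (fun l => π (φ l)) (fun i => by rw [hπa]; exact (hπ _).2 (hX i))
      (fun Q m hQ hQI => by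
        rw [hπa]
        exact fun h => hgen Q m hQ hQI ((hπ _).1 h))
      (fun i => by
        obtain ⟨j, hj⟩ := hFne i
        exact ⟨j, by rw [hπa]; exact fun h => hj ((hπ _).1 h)⟩) l0 l1
      (fun h => hl1 ((hπ _).1 h)) (fun c h => hnon c ((hπ _).1 (by
        rw [map_sub, map_mul, hπC, h, sub_self])))
  choose x y hy hxy using fun J => hfrac (Γ J)
  set Q : MvPolynomial (Fin 2) K := ∏ J, y J with hQ
  set Γ' : (Fin (n' + 2) → Fin M) → MvPolynomial (Fin 2) K := fun J =>
    x J * ∏ J' ∈ Finset.univ.erase J, y J' with hΓ'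
  have hπQ : π Q ≠ 0 := by
    rw [hQ, map_prod]
    exact Finset.prod_ne_zero_iff.2 fun J _ => hy J
  have hπΓ : ∀ J, π (Γ' J) = π Q * Γ J := by
    intro J
    rw [hΓ', hQ]
    simp only
    rw [← Finset.mul_prod_erase Finset.univ y (Finset.mem_univ J), map_mul, map_mul, hxy J]
    field_simp [hy J]
  refine ⟨c, ν, e', b, Q, Γ', h1, h2, h3, hc, fun h => hπQ ((hπ _).2 h), ⟨J0, fun h => ?_⟩,
    ?_, ?_, ?_, ?_⟩
  · have h9 := (hπ _).2 h
    rw [hπΓ] at h9
    exact (mul_ne_zero hπQ h4) h9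
  · intro J i j hij
    rw [← hπ, map_add, hπΓ, hπΓ, ← mul_add, h5 J i j hij, mul_zero]
  · intro i J
    rw [← hπ, map_sum]
    have h9 := h6 i J
    have h10 : ∀ l, π (aeval φ (pderiv l (G i)) * Γ' (Function.update J 0 l)) =
        π Q * (aeval (fun l => π (φ l)) (pderiv l (G i)) * Γ (Function.update J 0 l)) := by
      intro l
      rw [map_mul, hπΓ, hπa]
      ring
    rw [Finset.sum_congr rfl fun l _ => h10 l, ← Finset.mul_sum, h9, mul_zero]
  · intro J l
    refine Rel.of_dom hπ ?_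
    have h9 := (h7 J l).smul (π Q)
    have e1 : (fun x : Fin M × (Fin q → Fin w) × Fin 2 => π (Q * φ x.1 ^ (n' + 2) *
        (∏ i, aeval φ (F i (x.2.1 i))) * X c ^ ((x.2.2 : ℕ) * (ν - 1)))) = fun x =>
        π Q * (π (φ x.1) ^ (n' + 2) * (∏ i, aeval (fun l => π (φ l)) (F i (x.2.1 i))) *
          π (X c) ^ ((x.2.2 : ℕ) * (ν - 1))) := by
      funext x
      simp only [map_mul, map_pow, map_prod, hπa]
      ring
    have e2 : π (Γ' J * (∏ a, (X c - C (b a))) * φ l ^ (∑ i, δ i)) =
        π Q * (Γ J * (∏ a, (π (X c) - algebraMap K E (b a))) * π (φ l) ^ (∑ i, δ i)) := by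
      simp only [map_mul, map_pow, map_prod, map_sub, hπC, hπΓ]
      ring
    rw [e1, e2]
    exact h9
  · intro J
    refine Rel.of_dom hπ ?_
    have h9 := (h8 J).smul (π Q ^ e')
    have e1 : (fun x : Fin M × Fin 2 => π (Q ^ e' * φ x.1 ^ (e' * (n' + 2)) *
        X c ^ ((x.2 : ℕ) * ((e' - 1) * (ν + 1) - 2 * e')))) = fun x =>
        π Q ^ e' * (π (φ x.1) ^ (e' * (n' + 2)) *
          π (X c) ^ ((x.2 : ℕ) * ((e' - 1) * (ν + 1) - 2 * e'))) := by
      funext x
      simp only [map_mul, map_pow]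
      ring
    have e2 : π (Γ' J ^ e' * (∏ a, (X c - C (b a))) ^ (e' - 1)) =
        π Q ^ e' * (Γ J ^ e' * (∏ a, (π (X c) - algebraMap K E (b a))) ^ (e' - 1)) := by
      simp only [map_mul, map_pow, map_prod, map_sub, hπC, hπΓ]
      ring
    rw [e1, e2]
    exact h9

end Pool.Agent.H432.AC
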