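import Mathlib
import Pool.Agent.H432.AC.Stm

set_option autoImplicit false
set_option linter.unusedVariables false

namespace Pool.Agent.H432.AC.PDVD

open MvPolynomial Filter Pool.Agent.N750

/-- evaluation of the coefficients at `t` -/
noncomputable abbrev ev (α K : Type) [Field K] (t : α) :
    MvPolynomial (Fin 2) (α → K) →+* MvPolynomial (Fin 2) K :=
  MvPolynomial.map (Pi.evalRingHom (fun _ : α => K) t)

theorem map_eq_iff {α : Type} {𝓕 : Ultrafilter α} {K : Type} [Field K]
    (A B : MvPolynomial (Fin 2) (α → K)) :
    MvPolynomial.map (mk 𝓕) A = MvPolynomial.map (mk 𝓕) B ↔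
      ∀ᶠ t in (𝓕 : Filter α), ev α K t A = ev α K t B := by
  classical
  constructor
  · intro h
    have h1 : ∀ m ∈ A.support ∪ B.support, ∀ᶠ t in (𝓕 : Filter α),
        coeff m A t = coeff m B t := by
      intro m _
      have h2 := congrArg (coeff m) h
      rw [coeff_map, coeff_map] at h2
      exact mk_eq.1 h2
    have h3 := (Filter.eventually_all_finset (A.support ∪ B.support)).2 h1
    filter_upwards [h3] with t ht
    apply MvPolynomial.ext
    intro m
    rw [coeff_map, coeff_map]
    by_cases hm : m ∈ A.support ∪ B.support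
    · exact ht m hm
    · rw [Finset.mem_union, not_or, MvPolynomial.notMem_support_iff,
        MvPolynomial.notMem_support_iff] at hm
      rw [hm.1, hm.2]
  · intro h
    apply MvPolynomial.ext
    intro m
    rw [coeff_map, coeff_map]
    rw [mk_eq]
    filter_upwards [h] with t ht
    have h2 := congrArg (coeff m) ht
    rw [coeff_map, coeff_map] at h2
    exact h2

end Pool.Agent.H432.AC.PDVD

namespace Pool.Agent.H432.AC

open MvPolynomial Filter Pool.Agent.N750

theorem dvd : S_DVD := by
  classical
  intro α 𝓕 K _ P Q
  constructor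
  · rintro ⟨R', hR⟩
    obtain ⟨R, hR2⟩ := MvPolynomial.map_surjective (mk 𝓕) (fun x => mk_surj x) R'
    have h1 : MvPolynomial.map (mk 𝓕) Q = MvPolynomial.map (mk 𝓕) (P * R) := by
      rw [hR, map_mul, hR2]
    have h2 := (PDVD.map_eq_iff Q (P * R)).1 h1
    filter_upwards [h2] with t ht
    exact ⟨PDVD.ev α K t R, by rw [← map_mul]; exact ht⟩
  · intro h
    have key : ∀ t : α, ∃ r : MvPolynomial (Fin 2) K,
        (PDVD.ev α K t P ∣ PDVD.ev α K t Q → PDVD.ev α K t Q = PDVD.ev α K t P * r) ∧
          r.totalDegree ≤ Q.totalDegree := by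
      intro t
      by_cases hd : PDVD.ev α K t P ∣ PDVD.ev α K t Q
      · by_cases hq : PDVD.ev α K t Q = 0
        · exact ⟨0, fun _ => by rw [mul_zero]; exact hq, by simp⟩
        · obtain ⟨r, hr⟩ := hd
          refine ⟨r, fun _ => hr, ?_⟩
          have hP0 : PDVD.ev α K t P ≠ 0 := fun h0 => hq (by rw [hr, h0, zero_mul])
          have hr0 : r ≠ 0 := fun h0 => hq (by rw [hr, h0, mul_zero])
          have h1 : (PDVD.ev α K t Q).totalDegree =
              (PDVD.ev α K t P).totalDegree + r.totalDegree := by
            rw [hr]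
            exact totalDegree_mul_of_isDomain hP0 hr0
          have h2 : (PDVD.ev α K t Q).totalDegree ≤ Q.totalDegree :=
            Finset.sup_mono (MvPolynomial.support_map_subset _ _)
          omega
      · exact ⟨0, fun h => absurd h hd, by simp⟩
    choose r hr1 hr2 using key
    let S : Finset (Fin 2 →₀ ℕ) :=
      (Finset.univ.pi (fun _ : Fin 2 => Finset.range (Q.totalDegree + 1))).attach.image
        (fun f => Finsupp.equivFunOnFinite.symm (fun i => f.1 i (Finset.mem_univ i)))
    have hS : ∀ t : α, ∀ m ∈ (r t).support, m ∈ S := by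
      intro t m hm
      rw [Finset.mem_image]
      refine ⟨⟨fun i _ => m i, ?_⟩, Finset.mem_attach _ _, ?_⟩
      · rw [Finset.mem_pi]
        intro i _
        rw [Finset.mem_range]
        have h1 := MvPolynomial.le_totalDegree hm
        have h2 : m i ≤ m.sum fun _ e => e := by
          rw [Finsupp.sum_fintype _ _ (fun _ => rfl)]
          exact Finset.single_le_sum (f := fun i => m i) (fun j _ => Nat.zero_le _)
            (Finset.mem_univ i)
        have h3 := hr2 t
        omega
      · ext i
        rfl
    let R : MvPolynomial (Fin 2) (α → K) := ∑ m ∈ S, monomial m (fun t => coeff m (r t))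
    have hR : ∀ t : α, PDVD.ev α K t R = r t := by
      intro t
      apply MvPolynomial.ext
      intro m
      have h1 : PDVD.ev α K t R = ∑ m ∈ S, monomial m (coeff m (r t)) := by
        show MvPolynomial.map _ (∑ m ∈ S, monomial m (fun t => coeff m (r t))) = _
        rw [map_sum]
        refine Finset.sum_congr rfl fun m _ => ?_
        rw [map_monomial]
        rfl
      rw [h1, coeff_sum]
      simp only [coeff_monomial]
      rw [Finset.sum_ite_eq' S m (fun x => coeff x (r t))]
      by_cases hm : m ∈ S
      · rw [if_pos hm]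
      · rw [if_neg hm]
        symm
        rw [← MvPolynomial.notMem_support_iff]
        exact fun h => hm (hS t m h)
    have h2 : MvPolynomial.map (mk 𝓕) Q = MvPolynomial.map (mk 𝓕) (P * R) := by
      rw [PDVD.map_eq_iff]
      filter_upwards [h] with t ht
      rw [map_mul, hR t]
      exact hr1 t ht
    exact ⟨MvPolynomial.map (mk 𝓕) R, by rw [h2, map_mul]⟩

end Pool.Agent.H432.AC
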