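import Mathlib
import Pool.Agent.H432.AC.Geo2
import Pool.Agent.H432.AC.P_DVD
import Pool.Agent.H432.RC.Geo

/-!
The exceptional set for the curves of bounded degree.
-/

set_option autoImplicit false
set_option linter.unusedVariables false
set_option linter.unusedSectionVars false

namespace Pool.Agent.H432.AC

open MvPolynomial Filter Pool.Agent.N750 Pool.Agent.H432.RC

section gen

/-- coefficientwise homomorphisms and values of polynomials -/
theorem map_aev {R S σ ι : Type} [CommRing R] [CommRing S] (h : R →+* S)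
    (g : ι → MvPolynomial σ R) (A : MvPolynomial ι R) :
    MvPolynomial.map h (aeval g A) =
      aeval (fun i => MvPolynomial.map h (g i)) (MvPolynomial.map h A) := by
  induction A using MvPolynomial.induction_on with
  | C a =>
    rw [map_C, aeval_C, aeval_C, MvPolynomial.algebraMap_eq, MvPolynomial.algebraMap_eq, map_C]
  | add p q hp hq => rw [map_add, map_add, map_add, map_add, hp, hq]
  | mul_X p i hp => rw [map_mul, map_mul, map_mul, map_mul, hp, aeval_X, map_X, aeval_X]

theorem map_aevk {k R S σ ι : Type} [CommRing k] [CommRing R] [CommRing S] [Algebra k R]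
    [Algebra k S] (h : R →ₐ[k] S) (g : ι → MvPolynomial σ R) (A : MvPolynomial ι k) :
    MvPolynomial.map (h : R →+* S) (aeval g A) =
      aeval (fun i => MvPolynomial.map (h : R →+* S) (g i)) A := by
  induction A using MvPolynomial.induction_on with
  | C a =>
    rw [aeval_C, aeval_C, MvPolynomial.algebraMap_apply, MvPolynomial.algebraMap_apply, map_C]
    congr 1
    exact h.commutes a
  | add p q hp hq => rw [map_add, map_add, map_add, hp, hq]
  | mul_X p i hp => rw [map_mul, map_mul, map_mul, hp, aeval_X, aeval_X]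

end gen

section ultra

variable {α : Type} {𝓕 : Ultrafilter α} {K : Type} [Field K]

/-- the monomials of bounded degree -/
noncomputable def mon2 (N : ℕ) : Finset (Fin 2 →₀ ℕ) :=
  (Finset.univ.pi (fun _ : Fin 2 => Finset.range (N + 1))).attach.image
    (fun f => Finsupp.equivFunOnFinite.symm (fun i => f.1 i (Finset.mem_univ i)))

theorem mem_mon2 {N : ℕ} {m : Fin 2 →₀ ℕ} (h : ∀ i, m i ≤ N) : m ∈ mon2 N := by
  unfold mon2
  rw [Finset.mem_image]
  refine ⟨⟨fun i _ => m i, ?_⟩, Finset.mem_attach _ _, ?_⟩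
  · rw [Finset.mem_pi]
    intro i _
    rw [Finset.mem_range]
    exact Nat.lt_succ_of_le (h i)
  · ext i
    rfl

/-- a family of polynomials as a polynomial over the ring of functions -/
noncomputable def upm (N : ℕ) (p : α → MvPolynomial (Fin 2) K) : MvPolynomial (Fin 2) (α → K) :=
  ∑ m ∈ mon2 N, monomial m (fun t => coeff m (p t))

theorem upm_ev {N : ℕ} {p : α → MvPolynomial (Fin 2) K} {t : α} (h : (p t).totalDegree ≤ N) :
    MvPolynomial.map (Pi.evalRingHom (fun _ : α => K) t) (upm N p) = p t := by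
  classical
  have h1 : MvPolynomial.map (Pi.evalRingHom (fun _ : α => K) t) (upm N p) =
      ∑ m ∈ mon2 N, monomial m (coeff m (p t)) := by
    unfold upm
    rw [map_sum]
    refine Finset.sum_congr rfl fun m _ => ?_
    rw [map_monomial]
    rfl
  apply MvPolynomial.ext
  intro m
  rw [h1, coeff_sum]
  simp only [coeff_monomial]
  rw [Finset.sum_ite_eq' (mon2 N) m (fun x => coeff x (p t))]
  by_cases hm : m ∈ mon2 N
  · rw [if_pos hm]
  · rw [if_neg hm]
    symm
    rw [← MvPolynomial.notMem_support_iff]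
    intro hms
    apply hm
    refine mem_mon2 fun i => ?_
    have h2 := MvPolynomial.le_totalDegree hms
    have h3 : m i ≤ m.sum fun _ e => e := by
      rw [Finsupp.sum_fintype _ _ (fun _ => rfl)]
      exact Finset.single_le_sum (f := fun i => m i) (fun j _ => Nat.zero_le _)
        (Finset.mem_univ i)
    omega

/-- homogeneous lifts -/
theorem hom_lift {ι : Type} {d : ℕ} {a : MvPolynomial ι (Gm 𝓕 K)} (ha : a.IsHomogeneous d) :
    ∃ A : MvPolynomial ι (α → K), A.IsHomogeneous d ∧ MvPolynomial.map (mk 𝓕) A = a := by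
  classical
  obtain ⟨A0, hA0⟩ := MvPolynomial.map_surjective (mk 𝓕) (fun x => mk_surj x) a
  refine ⟨homogeneousComponent d A0, homogeneousComponent_isHomogeneous d A0, ?_⟩
  ext m
  rw [coeff_map, coeff_homogeneousComponent, ← hA0, coeff_map]
  split_ifs with h
  · rfl
  · rw [map_zero]
    by_contra hne
    have h1 : coeff m a ≠ 0 := by
      rw [← hA0, coeff_map]
      exact fun h2 => hne h2.symm
    have h2 := ha h1
    rw [Finsupp.weight_apply, Finsupp.sum] at h2
    apply h
    rw [← h2]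
    simp [Finsupp.degree]

/-- Łoś's theorem for the integral relations -/
theorem rel_los (dvd : S_DVD) {ι : Type} (P : MvPolynomial (Fin 2) (α → K))
    (g : ι → MvPolynomial (Fin 2) (α → K)) (f : MvPolynomial (Fin 2) (α → K))
    (h : Rel (MvPolynomial.map (mk 𝓕) P) (fun i => MvPolynomial.map (mk 𝓕) (g i))
      (MvPolynomial.map (mk 𝓕) f)) :
    ∀ᶠ t in (𝓕 : Filter α), Rel (MvPolynomial.map (Pi.evalRingHom (fun _ : α => K) t) P)
      (fun i => MvPolynomial.map (Pi.evalRingHom (fun _ : α => K) t) (g i))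
      (MvPolynomial.map (Pi.evalRingHom (fun _ : α => K) t) f) := by
  obtain ⟨m, a, ha, hd⟩ := h
  choose A hA1 hA2 using fun i => hom_lift (ha i)
  have h1 : MvPolynomial.map (mk 𝓕) P ∣
      MvPolynomial.map (mk 𝓕) (f ^ m + ∑ i : Fin m, aeval g (A i) * f ^ (i : ℕ)) := by
    rw [map_add, map_pow, map_sum]
    have e1 : ∀ i : Fin m, MvPolynomial.map (mk 𝓕) (aeval g (A i) * f ^ (i : ℕ)) =
        aeval (fun i => MvPolynomial.map (mk 𝓕) (g i)) (a i) *
          (MvPolynomial.map (mk 𝓕) f) ^ (i : ℕ) := by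
      intro i
      rw [map_mul, map_pow, map_aev, hA2]
    rw [Finset.sum_congr rfl fun i _ => e1 i]
    exact hd
  filter_upwards [(dvd α 𝓕 K _ _).1 h1] with t ht
  refine ⟨m, fun i => MvPolynomial.map (Pi.evalRingHom (fun _ : α => K) t) (A i),
    fun i => (hA1 i).map _, ?_⟩
  rw [map_add, map_pow, map_sum] at ht
  have e1 : ∀ i : Fin m, MvPolynomial.map (Pi.evalRingHom (fun _ : α => K) t)
      (aeval g (A i) * f ^ (i : ℕ)) =
        aeval (fun i => MvPolynomial.map (Pi.evalRingHom (fun _ : α => K) t) (g i))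
          (MvPolynomial.map (Pi.evalRingHom (fun _ : α => K) t) (A i)) *
          (MvPolynomial.map (Pi.evalRingHom (fun _ : α => K) t) f) ^ (i : ℕ) := by
    intro i
    rw [map_mul, map_pow, map_aev]
  rw [Finset.sum_congr rfl fun i _ => e1 i] at ht
  exact ht

/-- Łoś's theorem for the certificate -/
theorem cert_los (dvd : S_DVD) {k : Type} [Field k] [Algebra k K] [Algebra k (Gm 𝓕 K)]
    (hk : ∀ c : k, algebraMap k (Gm 𝓕 K) c = mk 𝓕 (algebraMap k (α → K) c))
    {M g q w : ℕ} {n' : ℕ}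
    (G : Fin g → MvPolynomial (Fin M) k) (F : Fin q → Fin w → MvPolynomial (Fin M) k)
    (δ : Fin q → ℕ) (P : MvPolynomial (Fin 2) (α → K)) (φ : Fin M → MvPolynomial (Fin 2) (α → K))
    (h : Cert n' G F δ (MvPolynomial.map (mk 𝓕) P) (fun l => MvPolynomial.map (mk 𝓕) (φ l))) :
    ∀ᶠ t in (𝓕 : Filter α), Cert n' G F δ
      (MvPolynomial.map (Pi.evalRingHom (fun _ : α => K) t) P)
      (fun l => MvPolynomial.map (Pi.evalRingHom (fun _ : α => K) t) (φ l)) := by
  classical
  let mkA : (α → K) →ₐ[k] Gm 𝓕 K := { mk 𝓕 with commutes' := fun c => (hk c).symm }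
  let evA : ∀ s : α, (α → K) →ₐ[k] K := fun s =>
    { Pi.evalRingHom (fun _ : α => K) s with commutes' := fun c => rfl }
  have hmk : ∀ A : MvPolynomial (Fin M) k, aeval (fun l => MvPolynomial.map (mk 𝓕) (φ l)) A =
      MvPolynomial.map (mk 𝓕) (aeval φ A) := fun A => (map_aevk mkA φ A).symm
  have hev : ∀ (s : α) (A : MvPolynomial (Fin M) k),
      aeval (fun l => MvPolynomial.map (Pi.evalRingHom (fun _ : α => K) s) (φ l)) A =
      MvPolynomial.map (Pi.evalRingHom (fun _ : α => K) s) (aeval φ A) :=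
    fun s A => (map_aevk (evA s) φ A).symm
  obtain ⟨c, ν, e, b, Q, Γ, h1, h2, h3, h4, h5, ⟨J0, h6⟩, h7, h8, h9, h10⟩ := h
  choose b' hb' using fun a => mk_surj (b a)
  obtain ⟨Q', hQ'⟩ := MvPolynomial.map_surjective (mk 𝓕) (fun x => mk_surj x) Q
  choose Γ' hΓ' using fun J => MvPolynomial.map_surjective (mk 𝓕) (fun x => mk_surj x) (Γ J)
  -- the conditions
  have a3 : ∀ᶠ t in (𝓕 : Filter α), ∀ x : Fin ν × Fin ν, x.1 ≠ x.2 → b' x.1 t ≠ b' x.2 t := by
    rw [Filter.eventually_all]
    rintro ⟨i, j⟩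
    by_cases hij : i = j
    · exact Eventually.of_forall fun t h => absurd hij h
    · have h11 : b i ≠ b j := fun h => hij (h3 h)
      rw [← hb', ← hb'] at h11
      have h12 : ∀ᶠ t in (𝓕 : Filter α), b' i t ≠ b' j t := by
        rw [Ultrafilter.eventually_not (p := fun t => b' i t = b' j t)]
        exact fun h => h11 (mk_eq.2 h)
      filter_upwards [h12] with t ht _
      exact ht
  have a4 : ∀ᶠ t in (𝓕 : Filter α), 0 < degreeOf (c + 1)
      (MvPolynomial.map (Pi.evalRingHom (fun _ : α => K) t) P) := by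
    obtain ⟨m, hm, hmc⟩ : ∃ m ∈ (MvPolynomial.map (mk 𝓕) P).support, 0 < m (c + 1) := by
      by_contra hcon
      push Not at hcon
      have h11 : degreeOf (c + 1) (MvPolynomial.map (mk 𝓕) P) ≤ 0 :=
        degreeOf_le_iff.2 fun m hm => hcon m hm
      omega
    rw [mem_support_iff, coeff_map] at hm
    filter_upwards [mk_ne_zero.1 hm] with t ht
    have h11 : m ∈ (MvPolynomial.map (Pi.evalRingHom (fun _ : α => K) t) P).support := by
      rw [mem_support_iff, coeff_map]
      exact ht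
    exact lt_of_lt_of_le hmc (monomial_le_degreeOf (c + 1) h11)
  have a5 : ∀ᶠ t in (𝓕 : Filter α), ¬ MvPolynomial.map (Pi.evalRingHom (fun _ : α => K) t) P ∣
      MvPolynomial.map (Pi.evalRingHom (fun _ : α => K) t) Q' := by
    rw [Ultrafilter.eventually_not (p := fun t => MvPolynomial.map (Pi.evalRingHom
      (fun _ : α => K) t) P ∣ MvPolynomial.map (Pi.evalRingHom (fun _ : α => K) t) Q')]
    exact fun h => h5 (by rw [← hQ']; exact (dvd α 𝓕 K _ _).2 h)
  have a6 : ∀ᶠ t in (𝓕 : Filter α), ¬ MvPolynomial.map (Pi.evalRingHom (fun _ : α => K) t) P ∣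
      MvPolynomial.map (Pi.evalRingHom (fun _ : α => K) t) (Γ' J0) := by
    rw [Ultrafilter.eventually_not (p := fun t => MvPolynomial.map (Pi.evalRingHom
      (fun _ : α => K) t) P ∣ MvPolynomial.map (Pi.evalRingHom (fun _ : α => K) t) (Γ' J0))]
    exact fun h => h6 (by rw [← hΓ']; exact (dvd α 𝓕 K _ _).2 h)
  have a7 : ∀ᶠ t in (𝓕 : Filter α), ∀ x : (Fin (n' + 2) → Fin M) × Fin (n' + 2) × Fin (n' + 2),
      x.2.1 ≠ x.2.2 → MvPolynomial.map (Pi.evalRingHom (fun _ : α => K) t) P ∣
      MvPolynomial.map (Pi.evalRingHom (fun _ : α => K) t)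
        (Γ' (x.1 ∘ Equiv.swap x.2.1 x.2.2) + Γ' x.1) := by
    rw [Filter.eventually_all]
    rintro ⟨J, i, j⟩
    by_cases hij : i = j
    · exact Eventually.of_forall fun s h => absurd hij h
    · have h11 := h7 J i j hij
      rw [← hΓ', ← hΓ', ← map_add] at h11
      filter_upwards [(dvd α 𝓕 K _ _).1 h11] with t ht _
      exact ht
  have a8 : ∀ᶠ t in (𝓕 : Filter α), ∀ x : Fin g × (Fin (n' + 2) → Fin M),
      MvPolynomial.map (Pi.evalRingHom (fun _ : α => K) t) P ∣
      MvPolynomial.map (Pi.evalRingHom (fun _ : α => K) t)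
        (∑ l, aeval φ (pderiv l (G x.1)) * Γ' (Function.update x.2 0 l)) := by
    rw [Filter.eventually_all]
    rintro ⟨i, J⟩
    refine (dvd α 𝓕 K _ _).1 ?_
    rw [map_sum]
    have e1 : ∀ l, MvPolynomial.map (mk 𝓕) (aeval φ (pderiv l (G i)) *
        Γ' (Function.update J 0 l)) = aeval (fun l => MvPolynomial.map (mk 𝓕) (φ l))
          (pderiv l (G i)) * Γ (Function.update J 0 l) := by
      intro l
      rw [map_mul, hmk, hΓ']
    rw [Finset.sum_congr rfl fun l _ => e1 l]
    exact h8 i J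
  have a9 : ∀ᶠ t in (𝓕 : Filter α), ∀ x : (Fin (n' + 2) → Fin M) × Fin M,
      Rel (MvPolynomial.map (Pi.evalRingHom (fun _ : α => K) t) P)
        (fun y : Fin M × (Fin q → Fin w) × Fin 2 =>
          MvPolynomial.map (Pi.evalRingHom (fun _ : α => K) t) (Q' * φ y.1 ^ (n' + 2) *
            (∏ i, aeval φ (F i (y.2.1 i))) * X c ^ ((y.2.2 : ℕ) * (ν - 1))))
        (MvPolynomial.map (Pi.evalRingHom (fun _ : α => K) t)
          (Γ' x.1 * (∏ a, (X c - C (b' a))) * φ x.2 ^ (∑ i, δ i))) := by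
    rw [Filter.eventually_all]
    rintro ⟨J, l⟩
    refine rel_los dvd _ _ _ ?_
    have e1 : (fun y : Fin M × (Fin q → Fin w) × Fin 2 =>
          MvPolynomial.map (mk 𝓕) (Q' * φ y.1 ^ (n' + 2) *
            (∏ i, aeval φ (F i (y.2.1 i))) * X c ^ ((y.2.2 : ℕ) * (ν - 1)))) = fun y =>
        Q * (MvPolynomial.map (mk 𝓕) (φ y.1)) ^ (n' + 2) *
          (∏ i, aeval (fun l => MvPolynomial.map (mk 𝓕) (φ l)) (F i (y.2.1 i))) *
            X c ^ ((y.2.2 : ℕ) * (ν - 1)) := by
      funext y
      simp only [map_mul, map_pow, map_prod, map_X, hmk, hQ']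
    have e2 : MvPolynomial.map (mk 𝓕) (Γ' J * (∏ a, (X c - C (b' a))) * φ l ^ (∑ i, δ i)) =
        Γ J * (∏ a, (X c - C (b a))) * (MvPolynomial.map (mk 𝓕) (φ l)) ^ (∑ i, δ i) := by
      simp only [map_mul, map_pow, map_prod, map_X, map_sub, map_C, hΓ', hb']
    rw [e1, e2]
    exact h9 J l
  have a10 : ∀ᶠ t in (𝓕 : Filter α), ∀ J : Fin (n' + 2) → Fin M,
      Rel (MvPolynomial.map (Pi.evalRingHom (fun _ : α => K) t) P)
        (fun y : Fin M × Fin 2 =>
          MvPolynomial.map (Pi.evalRingHom (fun _ : α => K) t) (Q' ^ e * φ y.1 ^ (e * (n' + 2)) *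
            X c ^ ((y.2 : ℕ) * ((e - 1) * (ν + 1) - 2 * e))))
        (MvPolynomial.map (Pi.evalRingHom (fun _ : α => K) t)
          (Γ' J ^ e * (∏ a, (X c - C (b' a))) ^ (e - 1))) := by
    rw [Filter.eventually_all]
    intro J
    refine rel_los dvd _ _ _ ?_
    have e1 : (fun y : Fin M × Fin 2 =>
          MvPolynomial.map (mk 𝓕) (Q' ^ e * φ y.1 ^ (e * (n' + 2)) *
            X c ^ ((y.2 : ℕ) * ((e - 1) * (ν + 1) - 2 * e)))) = fun y =>
        Q ^ e * (MvPolynomial.map (mk 𝓕) (φ y.1)) ^ (e * (n' + 2)) *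
            X c ^ ((y.2 : ℕ) * ((e - 1) * (ν + 1) - 2 * e)) := by
      funext y
      simp only [map_mul, map_pow, map_X, hQ']
    have e2 : MvPolynomial.map (mk 𝓕) (Γ' J ^ e * (∏ a, (X c - C (b' a))) ^ (e - 1)) =
        Γ J ^ e * (∏ a, (X c - C (b a))) ^ (e - 1) := by
      simp only [map_mul, map_pow, map_prod, map_X, map_sub, map_C, hΓ', hb']
    rw [e1, e2]
    exact h10 J
  filter_upwards [a3, a4, a5, a6, a7, a8, a9, a10] with t t3 t4 t5 t6 t7 t8 t9 t10
  refine ⟨c, ν, e, fun a => b' a t, MvPolynomial.map (Pi.evalRingHom (fun _ : α => K) t) Q',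
    fun J => MvPolynomial.map (Pi.evalRingHom (fun _ : α => K) t) (Γ' J), h1, h2, ?_, t4, t5,
    ⟨J0, t6⟩, ?_, ?_, ?_, ?_⟩
  · intro i j hij
    by_contra hne
    exact t3 (i, j) hne hij
  · intro J i j hij
    rw [← map_add]
    exact t7 (J, i, j) hij
  · intro i J
    have h11 := t8 (i, J)
    rw [map_sum] at h11
    have e1 : ∀ l, MvPolynomial.map (Pi.evalRingHom (fun _ : α => K) t)
        (aeval φ (pderiv l (G i)) * Γ' (Function.update J 0 l)) =
        aeval (fun l => MvPolynomial.map (Pi.evalRingHom (fun _ : α => K) t) (φ l))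
          (pderiv l (G i)) *
          MvPolynomial.map (Pi.evalRingHom (fun _ : α => K) t) (Γ' (Function.update J 0 l)) := by
      intro l
      rw [map_mul, hev]
    rw [Finset.sum_congr rfl fun l _ => e1 l] at h11
    exact h11
  · intro J l
    have h11 := t9 (J, l)
    have e1 : (fun y : Fin M × (Fin q → Fin w) × Fin 2 =>
          MvPolynomial.map (Pi.evalRingHom (fun _ : α => K) t) (Q' * φ y.1 ^ (n' + 2) *
            (∏ i, aeval φ (F i (y.2.1 i))) * X c ^ ((y.2.2 : ℕ) * (ν - 1)))) = fun y =>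
        MvPolynomial.map (Pi.evalRingHom (fun _ : α => K) t) Q' *
          (MvPolynomial.map (Pi.evalRingHom (fun _ : α => K) t) (φ y.1)) ^ (n' + 2) *
          (∏ i, aeval (fun l => MvPolynomial.map (Pi.evalRingHom (fun _ : α => K) t) (φ l))
            (F i (y.2.1 i))) * X c ^ ((y.2.2 : ℕ) * (ν - 1)) := by
      funext y
      simp only [map_mul, map_pow, map_prod, map_X, hev]
    have e2 : MvPolynomial.map (Pi.evalRingHom (fun _ : α => K) t)
        (Γ' J * (∏ a, (X c - C (b' a))) * φ l ^ (∑ i, δ i)) =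
        MvPolynomial.map (Pi.evalRingHom (fun _ : α => K) t) (Γ' J) *
          (∏ a, (X c - C (b' a t))) *
          (MvPolynomial.map (Pi.evalRingHom (fun _ : α => K) t) (φ l)) ^ (∑ i, δ i) := by
      simp only [map_mul, map_pow, map_prod, map_X, map_sub, map_C]
      rfl
    simp only at h11
    rw [e1, e2] at h11
    exact h11
  · intro J
    have h11 := t10 J
    have e1 : (fun y : Fin M × Fin 2 =>
          MvPolynomial.map (Pi.evalRingHom (fun _ : α => K) t) (Q' ^ e * φ y.1 ^ (e * (n' + 2)) *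
            X c ^ ((y.2 : ℕ) * ((e - 1) * (ν + 1) - 2 * e)))) = fun y =>
        MvPolynomial.map (Pi.evalRingHom (fun _ : α => K) t) Q' ^ e *
          (MvPolynomial.map (Pi.evalRingHom (fun _ : α => K) t) (φ y.1)) ^ (e * (n' + 2)) *
            X c ^ ((y.2 : ℕ) * ((e - 1) * (ν + 1) - 2 * e)) := by
      funext y
      simp only [map_mul, map_pow, map_X]
    have e2 : MvPolynomial.map (Pi.evalRingHom (fun _ : α => K) t)
        (Γ' J ^ e * (∏ a, (X c - C (b' a))) ^ (e - 1)) =
        MvPolynomial.map (Pi.evalRingHom (fun _ : α => K) t) (Γ' J) ^ e *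
          (∏ a, (X c - C (b' a t))) ^ (e - 1) := by
      simp only [map_mul, map_pow, map_prod, map_X, map_sub, map_C]
      rfl
    rw [e1, e2] at h11
    exact h11

end ultra

end Pool.Agent.H432.AC
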