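import Mathlib
import Pool.Agent.H432.AC.Geo3

/-!
The exceptional set for the curves of bounded degree.
-/

set_option autoImplicit false
set_option linter.unusedVariables false
set_option linter.unusedSectionVars false

namespace Pool.Agent.H432.AC

open MvPolynomial Filter Pool.Agent.N750 Pool.Agent.H432.RC

theorem dvd_prod_aux {k K ι : Type} [Field k] [Field K] [Algebra k K] {M : ℕ} (s : Finset ι)
    (f : ι → MvPolynomial (Fin M) k) (φ : Fin M → MvPolynomial (Fin 2) K)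
    (P : MvPolynomial (Fin 2) K) (i : ι) (hi : i ∈ s) (h : P ∣ aeval φ (f i)) :
    P ∣ aeval φ (∏ i ∈ s, f i) := by
  have h1 : f i ∣ ∏ i ∈ s, f i := Finset.dvd_prod_of_mem f hi
  exact h.trans (map_dvd (aeval φ) h1)

theorem lift_sub {α : Type} {𝓕 : Ultrafilter α} {K : Type} [Field K]
    (A B : MvPolynomial (Fin 2) (α → K)) (c : α → K) :
    MvPolynomial.map (mk 𝓕) A - C (mk 𝓕 c) * MvPolynomial.map (mk 𝓕) B =
      MvPolynomial.map (mk 𝓕) (A - C c * B) := by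
  rw [map_sub, map_mul, map_C]

theorem ev_sub {α : Type} {K : Type} [Field K]
    (A B : MvPolynomial (Fin 2) (α → K)) (c : α → K) (s : α) :
    MvPolynomial.map (Pi.evalRingHom (fun _ : α => K) s) (A - C c * B) =
      MvPolynomial.map (Pi.evalRingHom (fun _ : α => K) s) A -
        C (c s) * MvPolynomial.map (Pi.evalRingHom (fun _ : α => K) s) B := by
  rw [map_sub, map_mul, map_C]
  rfl

theorem cert_gm (val : S_VAL) (emb1 : S_EMB1) (emb2 : S_EMB2) (ram : S_RAM) (fine : S_FINE)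
    (finord : S_FINORD) (derx : S_DERX) (deru : S_DERU) (span : S_SPAN) (dl : S_DL) (loc : S_LOC)
    (trd : S_TRD) {k K : Type} [Field k] [Field K]
    [CharZero k] {M g q w n' : ℕ}
    (G : Fin g → MvPolynomial (Fin M) k) (e : Fin g → ℕ)
    (hG : ∀ i, (G i).IsHomogeneous (e i)) (hsm : Sm (n' + 1) G)
    (F : Fin q → Fin w → MvPolynomial (Fin M) k) (δ : Fin q → ℕ)
    (hF : ∀ i j, (F i j).IsHomogeneous (δ i)) (hnc : NCD G F)
    {α : Type} (𝓕 : Ultrafilter α) [Algebra k (Gm 𝓕 K)] [CharZero (Gm 𝓕 K)]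
    [IsAlgClosed (Gm 𝓕 K)]
    (P : MvPolynomial (Fin 2) (Gm 𝓕 K)) (hP : Irreducible P)
    (φ : Fin M → MvPolynomial (Fin 2) (Gm 𝓕 K))
    (hX : ∀ i, P ∣ aeval φ (G i))
    (hgen : ∀ (Q : MvPolynomial (Fin M) k) (m : ℕ), Q.IsHomogeneous m →
      Q ∉ Ideal.span (Set.range G) → ¬ P ∣ aeval φ Q)
    (hFne : ∀ i, ∃ j, ¬ P ∣ aeval φ (F i j)) (l0 l1 : Fin M)
    (hl1 : ¬ P ∣ φ l1) (hnon : ∀ c : (Gm 𝓕 K), ¬ P ∣ φ l0 - C c * φ l1) : Cert n' G F δ P φ := by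
  exact certK val emb1 emb2 ram fine finord derx deru span dl loc trd G e hG hsm F δ hF hnc P hP φ
    hX hgen hFne l0 l1 hl1 hnon

/-- the ultraproduct argument -/
theorem los_main (val : S_VAL) (emb1 : S_EMB1) (emb2 : S_EMB2) (ram : S_RAM) (fine : S_FINE)
    (finord : S_FINORD) (derx : S_DERX) (deru : S_DERU) (span : S_SPAN) (dl : S_DL) (loc : S_LOC)
    (trd : S_TRD) (acl : S_ACL) (dvd : S_DVD) (irr : S_IRR) {k K : Type} [Field k] [Field K]
    [CharZero k] [CharZero K] [IsAlgClosed K] [Algebra k K] {M g q w n' : ℕ}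
    (G : Fin g → MvPolynomial (Fin M) k) (e : Fin g → ℕ)
    (hG : ∀ i, (G i).IsHomogeneous (e i)) (hsm : Sm (n' + 1) G)
    (F : Fin q → Fin w → MvPolynomial (Fin M) k) (δ : Fin q → ℕ)
    (hF : ∀ i j, (F i j).IsHomogeneous (δ i)) (hnc : NCD G F) (N : ℕ)
    {α : Type} (𝓕 : Ultrafilter α) [Algebra k (Gm 𝓕 K)] [IsScalarTower k K (Gm 𝓕 K)]
    (P : α → MvPolynomial (Fin 2) K) (φ : α → Fin M → MvPolynomial (Fin 2) K)
    (h1 : ∀ s, Irreducible (P s)) (h2 : ∀ s, (P s).totalDegree ≤ N)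
    (h3 : ∀ s l, (φ s l).totalDegree ≤ N) (l0 l1 : Fin M)
    (hll : ∀ᶠ s in (𝓕 : Filter α), ¬ P s ∣ φ s l1 ∧ ∀ c : K, ¬ P s ∣ φ s l0 - C c * φ s l1)
    (h5 : ∀ s i, P s ∣ aeval (φ s) (G i))
    (h6 : ∀ (Q : MvPolynomial (Fin M) k) (m : ℕ), Q.IsHomogeneous m →
      Q ∉ Ideal.span (Set.range G) → ∀ᶠ s in (𝓕 : Filter α), ¬ P s ∣ aeval (φ s) Q)
    (h7 : ∀ i, ∃ j, ∀ᶠ s in (𝓕 : Filter α), ¬ P s ∣ aeval (φ s) (F i j)) :
    ∀ᶠ s in (𝓕 : Filter α), Cert n' G F δ (P s) (φ s) := by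
  classical
  have hk : ∀ c : k, algebraMap k (Gm 𝓕 K) c = mk 𝓕 (algebraMap k (α → K) c) := fun c => by
    rw [IsScalarTower.algebraMap_apply k K (Gm 𝓕 K)]
    rfl
  have hchar : CharZero (Gm 𝓕 K) :=
    charZero_of_injective_algebraMap (algebraMap K (Gm 𝓕 K)).injective
  have hacl : IsAlgClosed (Gm 𝓕 K) := acl α 𝓕 K
  obtain ⟨Pu, hPev⟩ : ∃ Pu : MvPolynomial (Fin 2) (α → K),
      ∀ s, MvPolynomial.map (Pi.evalRingHom (fun _ : α => K) s) Pu = P s :=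
    ⟨upm N P, fun s => upm_ev (h2 s)⟩
  obtain ⟨φu, hφev⟩ : ∃ φu : Fin M → MvPolynomial (Fin 2) (α → K),
      ∀ s l, MvPolynomial.map (Pi.evalRingHom (fun _ : α => K) s) (φu l) = φ s l :=
    ⟨fun l => upm N (fun s => φ s l), fun s l => upm_ev (h3 s l)⟩
  have hmk : ∀ A : MvPolynomial (Fin M) k, aeval (fun l => MvPolynomial.map (mk 𝓕) (φu l)) A =
      MvPolynomial.map (mk 𝓕) (aeval φu A) := fun A =>
    (map_aevk ({ mk 𝓕 with commutes' := fun c => (hk c).symm } : (α → K) →ₐ[k] Gm 𝓕 K) φu A).symm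
  have hev : ∀ (s : α) (A : MvPolynomial (Fin M) k), aeval (φ s) A =
      MvPolynomial.map (Pi.evalRingHom (fun _ : α => K) s) (aeval φu A) := by
    intro s A
    have e1 := (map_aevk ({ Pi.evalRingHom (fun _ : α => K) s with commutes' := fun c => rfl } :
      (α → K) →ₐ[k] K) φu A).symm
    have e2 : (fun l => MvPolynomial.map (({ Pi.evalRingHom (fun _ : α => K) s with
        commutes' := fun c => rfl } : (α → K) →ₐ[k] K) : (α → K) →+* K) (φu l)) = φ s := by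
      funext l
      exact hφev s l
    rw [e2] at e1
    exact e1
  have hP' : Irreducible (MvPolynomial.map (mk 𝓕) Pu) := by
    refine irr α 𝓕 K Pu (Eventually.of_forall fun s => ?_)
    rw [hPev]
    exact h1 s
  have hdvd : ∀ A : MvPolynomial (Fin 2) (α → K), MvPolynomial.map (mk 𝓕) Pu ∣
      MvPolynomial.map (mk 𝓕) A ↔ ∀ᶠ s in (𝓕 : Filter α), P s ∣
      MvPolynomial.map (Pi.evalRingHom (fun _ : α => K) s) A := by
    intro A
    rw [dvd α 𝓕 K Pu A]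
    simp only [hPev]
  have b1 : ∀ i, MvPolynomial.map (mk 𝓕) Pu ∣
      aeval (fun l => MvPolynomial.map (mk 𝓕) (φu l)) (G i) := by
    intro i
    rw [hmk, hdvd]
    refine Eventually.of_forall fun s => ?_
    rw [← hev]
    exact h5 s i
  have b2 : ∀ (Q : MvPolynomial (Fin M) k) (m : ℕ), Q.IsHomogeneous m →
      Q ∉ Ideal.span (Set.range G) → ¬ MvPolynomial.map (mk 𝓕) Pu ∣
        aeval (fun l => MvPolynomial.map (mk 𝓕) (φu l)) Q := by
    intro Q m hQ hQI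
    rw [hmk, hdvd]
    intro hzero
    obtain ⟨s, hs1, hs2⟩ := (hzero.and (h6 Q m hQ hQI)).exists
    rw [← hev] at hs1
    exact hs2 hs1
  have b3 : ∀ i, ∃ j, ¬ MvPolynomial.map (mk 𝓕) Pu ∣
      aeval (fun l => MvPolynomial.map (mk 𝓕) (φu l)) (F i j) := by
    intro i
    obtain ⟨j, hj⟩ := h7 i
    refine ⟨j, ?_⟩
    rw [hmk, hdvd]
    intro hzero
    obtain ⟨s, hs1, hs2⟩ := (hzero.and hj).exists
    rw [← hev] at hs1
    exact hs2 hs1
  have b4 : ¬ MvPolynomial.map (mk 𝓕) Pu ∣ MvPolynomial.map (mk 𝓕) (φu l1) := by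
    rw [hdvd]
    intro hzero
    obtain ⟨s, hs1, hs2⟩ := (hzero.and hll).exists
    rw [hφev] at hs1
    exact hs2.1 hs1
  have b5 : ∀ c : Gm 𝓕 K, ¬ MvPolynomial.map (mk 𝓕) Pu ∣ MvPolynomial.map (mk 𝓕) (φu l0) -
      C c * MvPolynomial.map (mk 𝓕) (φu l1) := by
    intro c hc
    obtain ⟨c', hc'⟩ := mk_surj c
    rw [← hc'] at hc
    have hc2 := lift_sub (𝓕 := 𝓕) (φu l0) (φu l1) c'
    rw [hc2] at hc
    have hzero := (hdvd _).1 hc
    obtain ⟨s, hs1, hs2⟩ := (hzero.and hll).exists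
    rw [ev_sub, hφev, hφev] at hs1
    exact hs2.2 (c' s) hs1
  have hcert : Cert n' G F δ (MvPolynomial.map (mk 𝓕) Pu)
      (fun l => MvPolynomial.map (mk 𝓕) (φu l)) := by
    clear hdvd hmk hev hφev hPev h1 h2 h3 h5 h6 h7 hll
    generalize hPP : MvPolynomial.map (mk 𝓕) Pu = P' at hP' b1 b2 b3 b4 b5 ⊢
    obtain ⟨φ', hφ'⟩ : ∃ φ' : Fin M → MvPolynomial (Fin 2) (Gm 𝓕 K),
      ∀ l, MvPolynomial.map (mk 𝓕) (φu l) = φ' l := ⟨_, fun l => rfl⟩
    have hφφ : (fun l => MvPolynomial.map (mk 𝓕) (φu l)) = φ' := funext hφ'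
    rw [hφφ] at b1 b2 b3 ⊢
    rw [hφ'] at b4
    rw [hφ', hφ'] at b5
    exact cert_gm (k := k) (K := K) val emb1 emb2 ram fine finord derx deru span dl loc trd G e hG
      hsm F δ hF hnc 𝓕 P' hP' φ' b1 b2 b3 l0 l1 b4 b5
  filter_upwards [cert_los dvd hk G F δ Pu φu hcert] with s hs
  rw [hPev] at hs
  have e2 : (fun l => MvPolynomial.map (Pi.evalRingHom (fun _ : α => K) s) (φu l)) = φ s := by
    funext l
    exact hφev s l
  rw [e2] at hs
  exact hs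

end Pool.Agent.H432.AC
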