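import Mathlib
import Pool.Agent.H432.AC.Geo4

/-!
The exceptional set for the curves of bounded degree.
-/

set_option autoImplicit false
set_option linter.unusedVariables false
set_option linter.unusedSectionVars false

namespace Pool.Agent.H432.AC

open MvPolynomial Filter Pool.Agent.N750 Pool.Agent.H432.RC

/-- **the exceptional set for the curves of bounded degree** -/
theorem geoU (val : S_VAL) (emb1 : S_EMB1) (emb2 : S_EMB2) (ram : S_RAM) (fine : S_FINE)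
    (finord : S_FINORD) (derx : S_DERX) (deru : S_DERU) (span : S_SPAN) (dl : S_DL) (loc : S_LOC)
    (trd : S_TRD) (acl : S_ACL) (dvd : S_DVD) (irr : S_IRR) {k K : Type} [Field k] [Field K]
    [CharZero k] [CharZero K] [IsAlgClosed K] [Algebra k K] {M g q w n' : ℕ}
    (G : Fin g → MvPolynomial (Fin M) k) (e : Fin g → ℕ)
    (hG : ∀ i, (G i).IsHomogeneous (e i)) (hI : (Ideal.span (Set.range G)).IsPrime)
    (hsm : Sm (n' + 1) G) (F : Fin q → Fin w → MvPolynomial (Fin M) k) (δ : Fin q → ℕ)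
    (hF : ∀ i j, (F i j).IsHomogeneous (δ i)) (hnc : NCD G F) (N : ℕ) :
    ∃ (mΦ : ℕ) (Φ : MvPolynomial (Fin M) k), Φ.IsHomogeneous mΦ ∧
      Φ ∉ Ideal.span (Set.range G) ∧ ∀ (P : MvPolynomial (Fin 2) K)
      (φ : Fin M → MvPolynomial (Fin 2) K), Irreducible P → P.totalDegree ≤ N →
      (∀ l, (φ l).totalDegree ≤ N) →
      (∃ l0 l1, ¬ P ∣ φ l1 ∧ ∀ c : K, ¬ P ∣ φ l0 - C c * φ l1) →
      (∀ i, P ∣ aeval φ (G i)) → ¬ P ∣ aeval φ Φ → (∀ i, ∃ j, ¬ P ∣ aeval φ (F i j)) →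
      Cert n' G F δ P φ := by
  classical
  by_contra hcon
  push Not at hcon
  let PP : Type := {P : MvPolynomial (Fin M) k // (∃ m, P.IsHomogeneous m) ∧
    P ∉ Ideal.span (Set.range G)}
  let α : Type := Finset PP
  have hprod : ∀ s : α, (∃ m, (∏ P ∈ s, P.1).IsHomogeneous m) ∧
      (∏ P ∈ s, P.1) ∉ Ideal.span (Set.range G) := by
    intro s
    constructor
    · choose m hm using fun P : PP => P.2.1
      exact ⟨_, MvPolynomial.IsHomogeneous.prod s (fun P => P.1) (fun P => m P) fun P _ => hm P⟩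
    · intro h
      rw [hI.prod_mem_iff] at h
      obtain ⟨P, -, hP⟩ := h
      exact P.2.2 hP
  have hviol : ∀ s : α, ∃ (P : MvPolynomial (Fin 2) K) (φ : Fin M → MvPolynomial (Fin 2) K),
      Irreducible P ∧ P.totalDegree ≤ N ∧ (∀ l, (φ l).totalDegree ≤ N) ∧
      (∃ l0 l1, ¬ P ∣ φ l1 ∧ ∀ c : K, ¬ P ∣ φ l0 - C c * φ l1) ∧
      (∀ i, P ∣ aeval φ (G i)) ∧ ¬ P ∣ aeval φ (∏ P ∈ s, P.1) ∧
      (∀ i, ∃ j, ¬ P ∣ aeval φ (F i j)) ∧ ¬ Cert n' G F δ P φ := by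
    intro s
    obtain ⟨⟨mm, hmm⟩, hΦ⟩ := hprod s
    obtain ⟨P, φ, h1, h2, h3, h4, h5, h6, h7, h8⟩ := hcon mm _ hmm hΦ
    exact ⟨P, φ, h1, h2, h3, h4, h5, h6, h7, h8⟩
  choose P φ h1 h2 h3 h4 h5 h6 h7 h8 using hviol
  obtain ⟨𝓕, h𝓕⟩ : ∃ 𝓕 : Ultrafilter α, (𝓕 : Filter α) ≤ atTop :=
    ⟨Ultrafilter.of atTop, Ultrafilter.of_le atTop⟩
  obtain ⟨⟨l0, l1⟩, hll⟩ : ∃ x : Fin M × Fin M, ∀ᶠ s in (𝓕 : Filter α),
      ¬ P s ∣ φ s x.2 ∧ ∀ c : K, ¬ P s ∣ φ s x.1 - C c * φ s x.2 := by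
    choose l0 l1 hl using h4
    obtain ⟨x, hx⟩ := exists_val (𝓕 := 𝓕) (fun s => (l0 s, l1 s))
    refine ⟨x, ?_⟩
    filter_upwards [hx] with s hs
    have := hl s
    rw [← hs]
    exact this
  let _ : Algebra k (Gm 𝓕 K) := ((algebraMap K (Gm 𝓕 K)).comp (algebraMap k K)).toAlgebra
  have htow : IsScalarTower k K (Gm 𝓕 K) := IsScalarTower.of_algebraMap_eq fun x => rfl
  choose jj hjj using h7
  obtain ⟨j0, hj0⟩ := exists_val (𝓕 := 𝓕) jj
  obtain ⟨s, hs⟩ := (los_main val emb1 emb2 ram fine finord derx deru span dl loc trd acl dvd irr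
    G e hG hsm F δ hF hnc N 𝓕 P φ h1 h2 h3 l0 l1 hll h5 (by
      intro Q m hQ hQI
      have e2 : ∀ᶠ s in (𝓕 : Filter α), ({⟨Q, ⟨m, hQ⟩, hQI⟩} : Finset PP) ≤ s :=
        h𝓕 (eventually_ge_atTop _)
      filter_upwards [e2] with s hs2 hs1
      have e3 : (⟨Q, ⟨m, hQ⟩, hQI⟩ : PP) ∈ s := hs2 (Finset.mem_singleton_self _)
      exact h6 s (dvd_prod_aux s (fun P : PP => P.1) (φ s) (P s) ⟨Q, ⟨m, hQ⟩, hQI⟩ e3 hs1)) (by
      intro i
      refine ⟨j0 i, ?_⟩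
      filter_upwards [hj0] with s hs2
      rw [← hs2]
      exact hjj s i)).exists
  exact h8 s hs

end Pool.Agent.H432.AC
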