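import Mathlib
import Pool.Agent.H432.AC.Stm

/-!
# Project AC (helper432), task ACL: ultrapowers of algebraically closed fields (by helper671)
-/

set_option autoImplicit false

namespace Pool.Agent.H432.AC

open Filter Pool.Agent.N750

/-- **ACL** -/
theorem acl : S_ACL := by
  intro α 𝓕 K _ _
  refine IsAlgClosed.of_exists_root (Gm 𝓕 K) fun p hp hirr => ?_
  have hn : p.natDegree ≠ 0 := (Polynomial.natDegree_pos_iff_degree_pos.2
    (Polynomial.degree_pos_of_irreducible hirr)).ne'
  set n := p.natDegree with hnd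
  choose a ha using fun i : ℕ => mk_surj (𝓕 := 𝓕) (p.coeff i)
  have hroot : ∀ t : α, ∃ r : K, r ^ n + ∑ i : Fin n, a i t * r ^ (i : ℕ) = 0 := by
    intro t
    have hdeg : (∑ i : Fin n, Polynomial.C (a i t) * Polynomial.X ^ (i : ℕ) :
        Polynomial K).degree < n := Polynomial.degree_sum_fin_lt fun i : Fin n => a i t
    have hq : (Polynomial.X ^ n + ∑ i : Fin n, Polynomial.C (a i t) * Polynomial.X ^ (i : ℕ) :
        Polynomial K).degree ≠ 0 := by
      rw [Polynomial.degree_add_eq_left_of_degree_lt (by rw [Polynomial.degree_X_pow]; exact hdeg),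
        Polynomial.degree_X_pow]
      exact_mod_cast hn
    obtain ⟨r, hr⟩ := IsAlgClosed.exists_root _ hq
    refine ⟨r, ?_⟩
    rw [Polynomial.IsRoot.def, Polynomial.eval_add, Polynomial.eval_pow, Polynomial.eval_X,
      Polynomial.eval_finsetSum] at hr
    simpa only [Polynomial.eval_mul, Polynomial.eval_C, Polynomial.eval_pow,
      Polynomial.eval_X] using hr
  choose r hr using hroot
  refine ⟨mk 𝓕 r, ?_⟩
  have hlead : p.coeff n = 1 := hp
  rw [Polynomial.eval_eq_sum_range, Finset.sum_range_succ, ← hnd, hlead, one_mul,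
    Finset.sum_range, add_comm]
  have h1 : mk 𝓕 r ^ n + ∑ i : Fin n, p.coeff (i : ℕ) * mk 𝓕 r ^ (i : ℕ) =
      mk 𝓕 (r ^ n + ∑ i : Fin n, a i * r ^ (i : ℕ)) := by
    rw [map_add, map_pow, map_sum]
    congr 1
    refine Finset.sum_congr rfl fun i _ => ?_
    rw [map_mul, map_pow, ha]
  rw [h1, mk_eq_zero]
  refine Filter.Eventually.of_forall fun t => ?_
  rw [Pi.add_apply, Pi.pow_apply, Finset.sum_apply]
  exact hr t

end Pool.Agent.H432.AC
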