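import Mathlib
import Pool.Agent.H432.AC.Stm

/-!
# Project AC, DERU (helper287): uniqueness of derivations on algebraic extensions
-/

set_option autoImplicit false
set_option linter.all false

namespace Pool.Agent.H432.AC

open Polynomial

theorem deru : S_DERU := by
  intro K F L _ _ _ _ _ t hf ι Δ hadd hmul hK ht x
  have h0 : Δ 0 = 0 := by
    have h := hadd 0 0
    rw [add_zero] at h
    linear_combination -h
  have h1 : Δ 1 = 0 := by
    have h := hK 1
    rwa [map_one] at h
  -- the kernel
  let E0 : IntermediateField K F :=
    { carrier := {y | Δ y = 0}
      mul_mem' := by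
        intro a b ha hb
        show Δ (a * b) = 0
        rw [hmul, show Δ a = 0 from ha, show Δ b = 0 from hb, mul_zero, mul_zero, add_zero]
      add_mem' := by
        intro a b ha hb
        show Δ (a + b) = 0
        rw [hadd, show Δ a = 0 from ha, show Δ b = 0 from hb, add_zero]
      algebraMap_mem' := hK
      inv_mem' := by
        intro a ha
        show Δ a⁻¹ = 0
        by_cases ha0 : a = 0
        · rw [ha0, inv_zero, h0]
        · have h := hmul a a⁻¹
          rw [mul_inv_cancel₀ ha0, h1, show Δ a = 0 from ha, mul_zero, add_zero] at h
          have hι : ι a ≠ 0 := (map_ne_zero ι).2 ha0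
          exact (mul_eq_zero.1 h.symm).resolve_left hι }
  have hE : IntermediateField.adjoin K {t} ≤ E0 := by
    rw [IntermediateField.adjoin_le_iff]
    rintro _ rfl
    exact ht
  have hE' : ∀ a : IntermediateField.adjoin K {t}, Δ (a : F) = 0 := fun a => hE a.2
  -- the chain rule
  have hchain : ∀ p : (IntermediateField.adjoin K {t})[X],
      Δ (aeval x p) = ι (aeval x (derivative p)) * Δ x := by
    intro p
    induction p using Polynomial.induction_on with
    | C a =>
      rw [aeval_C, derivative_C, map_zero, map_zero, zero_mul]
      exact hE' a
    | add p q hp hq =>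
      rw [map_add, hadd, hp, hq, derivative_add, map_add, map_add, add_mul]
    | monomial n a h =>
      have e : (C a * X ^ (n + 1) : (IntermediateField.adjoin K {t})[X]) = C a * X ^ n * X := by
        rw [pow_succ, mul_assoc]
      have e2 : aeval x (derivative (C a * X ^ n * X : (IntermediateField.adjoin K {t})[X])) =
          aeval x (derivative (C a * X ^ n : (IntermediateField.adjoin K {t})[X])) * x +
            aeval x (C a * X ^ n : (IntermediateField.adjoin K {t})[X]) := by
        rw [derivative_mul, derivative_X, mul_one, map_add, map_mul _ (derivative (C a * X ^ n)) X,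
          aeval_X]
      have e3 : aeval x (C a * X ^ n * X : (IntermediateField.adjoin K {t})[X]) =
          aeval x (C a * X ^ n : (IntermediateField.adjoin K {t})[X]) * x := by
        rw [map_mul _ (C a * X ^ n) X, aeval_X]
      have e4 : ι (aeval x (derivative (C a * X ^ n : (IntermediateField.adjoin K {t})[X])) * x +
          aeval x (C a * X ^ n : (IntermediateField.adjoin K {t})[X])) =
          ι (aeval x (derivative (C a * X ^ n : (IntermediateField.adjoin K {t})[X]))) * ι x +
            ι (aeval x (C a * X ^ n : (IntermediateField.adjoin K {t})[X])) := by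
        rw [ι.map_add, ι.map_mul (aeval x (derivative (C a * X ^ n :
          (IntermediateField.adjoin K {t})[X]))) x]
      rw [e, e2, e3, hmul, h, e4]
      ring
  have hx : IsIntegral (IntermediateField.adjoin K {t}) x :=
    Algebra.IsIntegral.isIntegral x
  have hc : CharZero (IntermediateField.adjoin K {t}) :=
    charZero_of_injective_algebraMap (algebraMap K (IntermediateField.adjoin K {t})).injective
  have hsep : (minpoly (IntermediateField.adjoin K {t}) x).Separable :=
    (minpoly.irreducible hx).separable
  have hne := hsep.aeval_derivative_ne_zero (minpoly.aeval (IntermediateField.adjoin K {t}) x)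
  have h := hchain (minpoly (IntermediateField.adjoin K {t}) x)
  rw [minpoly.aeval, h0] at h
  exact (mul_eq_zero.1 h.symm).resolve_left ((map_ne_zero ι).2 hne)

end Pool.Agent.H432.AC
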