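import Mathlib
import Pool.Agent.H432.AC.Stm

/-!
# Project AC, DERX (helper287): extension of derivations to a function field
-/

set_option autoImplicit false
set_option linter.all false

namespace Pool.Agent.H432.AC

open Polynomial TensorProduct

namespace PDERX

/-- derivations extend to formally etale algebras -/
theorem ext_etale {R A B : Type} [CommRing R] [CommRing A] [CommRing B] [Algebra R A]
    [Algebra A B] [Algebra R B] [IsScalarTower R A B] [Algebra.FormallyEtale A B]
    (δ : Derivation R A B) : ∃ D : Derivation R B B, ∀ a, D (algebraMap A B a) = δ a := by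
  let l : Ω[B⁄R] →ₗ[B] B :=
    (LinearMap.liftBaseChange B δ.liftKaehlerDifferential).comp
      (KaehlerDifferential.tensorKaehlerEquivOfFormallyEtale R A B).symm.toLinearMap
  refine ⟨l.compDer (KaehlerDifferential.D R B), fun a => ?_⟩
  show LinearMap.liftBaseChange B δ.liftKaehlerDifferential
    ((KaehlerDifferential.tensorKaehlerEquivOfFormallyEtale R A B).symm
      (KaehlerDifferential.D R B (algebraMap A B a))) = δ a
  rw [KaehlerDifferential.tensorKaehlerEquivOfFormallyEtale_symm_D_algebraMap,
    LinearMap.liftBaseChange_tmul, Derivation.liftKaehlerDifferential_comp_D, one_smul]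

/-- a function field is formally etale over the polynomial ring -/
theorem etale {K F : Type} [Field K] [Field F] [CharZero K] [Algebra K F] (t : F)
    (ht : Transcendental K t) (hf : FiniteDimensional (IntermediateField.adjoin K {t}) F)
    [Algebra K[X] F] (hA : ∀ p : K[X], algebraMap K[X] F p = aeval t p) :
    Algebra.FormallyEtale K[X] F := by
  let A0 : Algebra K[X] (IntermediateField.adjoin K {t}) :=
    ((aeval (⟨t, IntermediateField.mem_adjoin_simple_self K t⟩ :
      IntermediateField.adjoin K {t}) : K[X] →ₐ[K] (IntermediateField.adjoin K {t})) :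
      K[X] →+* (IntermediateField.adjoin K {t})).toAlgebra
  have hA0 : ∀ p : K[X], ((algebraMap K[X] (IntermediateField.adjoin K {t}) p :
      IntermediateField.adjoin K {t}) : F) = aeval t p := by
    intro p
    show ((aeval (⟨t, IntermediateField.mem_adjoin_simple_self K t⟩ :
      IntermediateField.adjoin K {t}) p : IntermediateField.adjoin K {t}) : F) = aeval t p
    have h := Polynomial.aeval_algebraMap_apply F (⟨t, IntermediateField.mem_adjoin_simple_self K t⟩ :
      IntermediateField.adjoin K {t}) p
    exact h.symm
  have htow : IsScalarTower K[X] (IntermediateField.adjoin K {t}) F :=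
    IsScalarTower.of_algebraMap_eq fun p => by
      rw [hA p]
      exact (hA0 p).symm
  have hinj : Function.Injective (algebraMap K[X] (IntermediateField.adjoin K {t})) := by
    intro p q hpq
    have h1 : aeval t p = aeval t q := by
      rw [← hA0, ← hA0, hpq]
    exact (transcendental_iff_injective.1 ht) h1
  have hfs : FaithfulSMul K[X] (IntermediateField.adjoin K {t}) :=
    (faithfulSMul_iff_algebraMap_injective _ _).2 hinj
  have hfr : IsFractionRing K[X] (IntermediateField.adjoin K {t}) := by
    refine IsFractionRing.of_field K[X] (IntermediateField.adjoin K {t}) fun z => ?_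
    obtain ⟨r, s, h⟩ := (IntermediateField.mem_adjoin_simple_iff K (z : F)).1 z.2
    refine ⟨r, s, ?_⟩
    apply Subtype.ext
    rw [h]
    show aeval t r / aeval t s = ((algebraMap K[X] (IntermediateField.adjoin K {t}) r :
      IntermediateField.adjoin K {t}) : F) / ((algebraMap K[X] (IntermediateField.adjoin K {t}) s :
      IntermediateField.adjoin K {t}) : F)
    rw [hA0, hA0]
  have e1 : Algebra.FormallyEtale K[X] (IntermediateField.adjoin K {t}) :=
    Algebra.FormallyEtale.of_isLocalization (nonZeroDivisors K[X])
  have hc : CharZero (IntermediateField.adjoin K {t}) :=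
    charZero_of_injective_algebraMap (algebraMap K (IntermediateField.adjoin K {t})).injective
  have hsep : Algebra.IsSeparable (IntermediateField.adjoin K {t}) F := inferInstance
  have e2 : Algebra.FormallyEtale (IntermediateField.adjoin K {t}) F :=
    Algebra.FormallyEtale.of_isSeparable _ _
  exact Algebra.FormallyEtale.comp K[X] (IntermediateField.adjoin K {t}) F

end PDERX

open PDERX

theorem derx : S_DERX := by
  intro k K F _ _ _ _ _ _ _ _ t ht hf
  have hcK : CharZero K := charZero_of_injective_algebraMap (algebraMap k K).injective
  let A0 : Algebra K[X] F := ((aeval t : K[X] →ₐ[K] F) : K[X] →+* F).toAlgebra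
  have hA : ∀ p : K[X], algebraMap K[X] F p = aeval t p := fun p => rfl
  have hsm : ∀ (p : K[X]) (x : F), p • x = aeval t p * x := fun p x => rfl
  have tw1 : IsScalarTower K K[X] F := IsScalarTower.of_algebraMap_eq fun c => by
    rw [hA]
    simp
  have tw2 : IsScalarTower k K[X] F := IsScalarTower.of_algebraMap_eq fun c => by
    rw [hA, IsScalarTower.algebraMap_apply k K K[X], IsScalarTower.algebraMap_apply k K F]
    simp
  have het : Algebra.FormallyEtale K[X] F := etale t ht hf hA
  constructor
  · intro d
    let δ₀ : K[X] →ₗ[k] F := Polynomial.lsum fun i =>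
      (LinearMap.mulLeft k (t ^ i)).comp ((Algebra.linearMap K F).restrictScalars k ∘ₗ d.toLinearMap)
    have hδ₀ : ∀ (i : ℕ) (a : K), δ₀ (monomial i a) = t ^ i * algebraMap K F (d a) := by
      intro i a
      show (monomial i a).sum _ = _
      rw [sum_monomial_index]
      · rfl
      · simp
    have hleib : ∀ p q : K[X], δ₀ (p * q) = p • δ₀ q + q • δ₀ p := by
      intro p q
      induction p using Polynomial.induction_on' with
      | add p₁ p₂ h₁ h₂ =>
        rw [add_mul, map_add, h₁, h₂, map_add, smul_add, add_smul]
        abel
      | monomial i a =>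
        induction q using Polynomial.induction_on' with
        | add q₁ q₂ h₁ h₂ =>
          rw [mul_add, map_add, h₁, h₂, map_add, smul_add, add_smul]
          abel
        | monomial j b =>
          rw [monomial_mul_monomial, hδ₀, hδ₀, hδ₀, hsm, hsm, aeval_monomial, aeval_monomial,
            Derivation.leibniz, map_add, smul_eq_mul, smul_eq_mul, map_mul, map_mul]
          ring
    let δ : Derivation k K[X] F := Derivation.mk' δ₀ hleib
    obtain ⟨D, hD⟩ := ext_etale (R := k) (A := K[X]) (B := F) δ
    refine ⟨D, fun c => ?_, ?_⟩
    · have h1 := hD (monomial 0 c)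
      rw [hA, aeval_monomial, pow_zero, mul_one] at h1
      rw [h1]
      show δ₀ (monomial 0 c) = _
      rw [hδ₀, pow_zero, one_mul]
    · have h1 := hD (monomial 1 1)
      rw [hA, aeval_monomial, pow_one, map_one, one_mul] at h1
      rw [h1]
      show δ₀ (monomial 1 1) = _
      rw [hδ₀, Derivation.map_one_eq_zero, map_zero, mul_zero]
  · obtain ⟨D, hD⟩ := ext_etale (R := K) (A := K[X]) (B := F)
      ((Algebra.linearMap K[X] F).compDer Polynomial.derivative')
    refine ⟨D, ?_⟩
    have h1 := hD X
    rw [hA, aeval_X] at h1
    rw [h1]
    show algebraMap K[X] F (derivative X) = 1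
    rw [derivative_X, map_one]

end Pool.Agent.H432.AC
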