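import Mathlib
import Pool.Agent.H432.AC.Stm

/-! Task DL of project AC: derivations of the field of Laurent series. -/

set_option autoImplicit false

namespace Pool.Agent.H432.AC

namespace PDL

open HahnSeries

variable {K : Type} [Field K]

/-- apply the additive maps `δ n` to the coefficients -/
noncomputable def cw (δ : ℤ → K →+ K) (f : LaurentSeries K) : LaurentSeries K where
  coeff n := δ n (f.coeff n)
  isPWO_support' := f.isPWO_support.mono fun n hn h => hn (by
    change δ n (f.coeff n) = 0
    rw [show f.coeff n = 0 from h, map_zero])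

theorem cw_coeff (δ : ℤ → K →+ K) (f : LaurentSeries K) (n : ℤ) :
    (cw δ f).coeff n = δ n (f.coeff n) := rfl

theorem cw_supp (δ : ℤ → K →+ K) (f : LaurentSeries K) : (cw δ f).support ⊆ f.support := by
  intro n hn h
  apply hn
  change δ n (f.coeff n) = 0
  rw [show f.coeff n = 0 from h, map_zero]

theorem cw_mul (δ : ℤ → K →+ K)
    (hδ : ∀ i j a b, δ (i + j) (a * b) = a * δ j b + b * δ i a) (f g : LaurentSeries K) :
    cw δ (f * g) = f * cw δ g + g * cw δ f := by
  ext n
  rw [coeff_add, cw_coeff, coeff_mul, coeff_mul_right' g.isPWO_support (cw_supp δ g),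
    mul_comm g (cw δ f), coeff_mul_left' f.isPWO_support (cw_supp δ f), map_sum,
    ← Finset.sum_add_distrib]
  refine Finset.sum_congr rfl fun ij hij => ?_
  have h1 : ij.1 + ij.2 = n := (Finset.mem_antidiagonal.1 hij).2.2
  rw [cw_coeff, cw_coeff, ← h1, hδ]
  ring

theorem smul_coeff' {k K : Type} [Field k] [Field K] [Algebra k K] (c : k) (f : LaurentSeries K)
    (n : ℤ) : (@HSMul.hSMul k (LaurentSeries K) (LaurentSeries K)
      (@instHSMul k (LaurentSeries K) (Algebra.toSMul)) c f).coeff n =
      algebraMap k K c * f.coeff n := by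
  rw [Algebra.smul_def, HahnSeries.algebraMap_apply', PowerSeries.algebraMap_apply,
    HahnSeries.ofPowerSeries_C, HahnSeries.C_apply, HahnSeries.coeff_single_zero_mul]

end PDL

open PDL HahnSeries

theorem dl : S_DL := by
  intro k K _ _ _
  refine ⟨?_, ?_⟩
  · let δ : ℤ → K →+ K := fun n => AddMonoidHom.mulLeft (n : K)
    have hδ' : ∀ n a, δ n a = (n : K) * a := fun n a => rfl
    have hδ : ∀ i j a b, δ (i + j) (a * b) = a * δ j b + b * δ i a := by
      intro i j a b
      rw [hδ' (i + j), hδ' j, hδ' i]
      push_cast
      ring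
    have hadd : ∀ f g, cw δ (f + g) = cw δ f + cw δ g := by
      intro f g
      ext n
      rw [coeff_add, cw_coeff, cw_coeff, cw_coeff, coeff_add, map_add]
    have hleib : ∀ f g, single (-1 : ℤ) (1 : K) * cw δ (f * g) =
        f * (single (-1 : ℤ) (1 : K) * cw δ g) + g * (single (-1 : ℤ) (1 : K) * cw δ f) := by
      intro f g
      rw [cw_mul δ hδ]
      ring
    have hone : single (-1 : ℤ) (1 : K) * cw δ 1 = 0 := by
      have h1 := hleib 1 1
      rw [one_mul, one_mul] at h1
      exact left_eq_add.1 h1
    refine ⟨{ toFun := fun f => single (-1 : ℤ) (1 : K) * cw δ f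
              map_add' := ?_
              map_smul' := ?_
              map_one_eq_zero' := ?_
              leibniz' := ?_ }, ?_⟩
    · intro f g
      rw [← mul_add, hadd]
    · intro c f
      ext n
      rw [RingHom.id_apply, coeff_smul, coeff_single_mul, coeff_single_mul, one_mul, one_mul, cw_coeff,
        cw_coeff]
      refine (congrArg (δ _) (smul_coeff' c f _)).trans ?_
      rw [hδ', hδ', Algebra.algebraMap_self_apply, smul_eq_mul]
      ring
    · exact hone
    · exact hleib
    · intro f n
      change (single (-1 : ℤ) (1 : K) * cw δ f).coeff n = _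
      rw [coeff_single_mul, one_mul, cw_coeff, sub_neg_eq_add, hδ']
      push_cast
      rfl
  · intro d
    let δ : ℤ → K →+ K := fun _ => (d : K →ₗ[k] K).toAddMonoidHom
    have hδ' : ∀ n a, δ n a = d a := fun n a => rfl
    have hδ : ∀ i j a b, δ (i + j) (a * b) = a * δ j b + b * δ i a := by
      intro i j a b
      rw [hδ' (i + j), hδ' j, hδ' i, Derivation.leibniz, smul_eq_mul, smul_eq_mul]
    have hadd : ∀ f g, cw δ (f + g) = cw δ f + cw δ g := by
      intro f g
      ext n
      rw [coeff_add, cw_coeff, cw_coeff, cw_coeff, coeff_add, map_add]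
    have hone : cw δ 1 = 0 := by
      have h1 := cw_mul δ hδ 1 1
      rw [one_mul, one_mul] at h1
      exact left_eq_add.1 h1
    refine ⟨{ toFun := fun f => cw δ f
              map_add' := hadd
              map_smul' := ?_
              map_one_eq_zero' := hone
              leibniz' := ?_ }, ?_⟩
    · intro c f
      ext n
      rw [RingHom.id_apply, coeff_smul, cw_coeff, cw_coeff]
      refine (congrArg (δ n) (smul_coeff' c f n)).trans ?_
      rw [← Algebra.smul_def, hδ' n, hδ' n, Derivation.map_smul]
    · exact cw_mul δ hδ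
    · intro f n
      rfl

end Pool.Agent.H432.AC
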