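import Mathlib
import Pool.Agent.H432.AC.Stm

/-!
# Project AC (helper432), EMB1: the nontrivial valuation rings of a function field of one variable
over an algebraically closed field are discrete with residue field the base field (helper230).
-/

set_option autoImplicit false

namespace Pool.Agent.H432.AC.PEMB1

open Polynomial

section

variable {K F : Type} [Field K] [Field F] [Algebra K F]

/-- nontrivial polynomial relations -/
def HasRel (K : Type) {F : Type} [Field K] [Field F] [Algebra K F] (u : F) (N : ℕ) : Prop :=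
  ∀ f : Fin (N + 1) → F, ∃ a : Fin (N + 1) → K[X], (∃ i, a i ≠ 0) ∧
    ∑ i, aeval u (a i) * f i = 0

open scoped IntermediateField.algebraAdjoinAdjoin in
theorem hasRel (u : F) (h : FiniteDimensional (IntermediateField.adjoin K {u}) F) :
    ∃ N, HasRel K u N := by
  refine ⟨Module.finrank (IntermediateField.adjoin K {u}) F, ?_⟩
  intro f
  have h1 : ¬ LinearIndependent (IntermediateField.adjoin K {u}) f := by
    intro hl
    have := hl.fintype_card_le_finrank
    simp at this
  have h2 : ¬ LinearIndependent (Algebra.adjoin K {u}) f := by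
    intro hl
    exact h1 ((LinearIndependent.iff_fractionRing (Algebra.adjoin K {u})
      (IntermediateField.adjoin K {u})).1 hl)
  rw [Fintype.linearIndependent_iff] at h2
  push Not at h2
  obtain ⟨g, hg, i, hi⟩ := h2
  have h3 : ∀ j, ∃ p : K[X], aeval u p = (g j : F) := by
    intro j
    exact (SetLike.ext_iff.1 (Algebra.adjoin_singleton_eq_range_aeval K u) _).1 (g j).2
  choose a ha using h3
  refine ⟨a, ⟨i, ?_⟩, ?_⟩
  · rintro h0
    apply hi
    apply Subtype.ext
    rw [← ha i, h0]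
    simp
  · rw [← hg]
    refine Finset.sum_congr rfl (fun j _ => ?_)
    rw [ha j]
    rfl

theorem dep {Γ : Type} [LinearOrderedCommGroupWithZero Γ] (v : Valuation F Γ) {u : F} {n : ℕ}
    (a : Fin n → K[X]) (f : Fin n → F) (hf : ∀ i, f i ≠ 0) (ha : ∀ i, a i ≠ 0 → aeval u (a i) ≠ 0)
    (h0 : ∃ i, a i ≠ 0) (hs : ∑ i, aeval u (a i) * f i = 0) :
    ∃ i j, i ≠ j ∧ a i ≠ 0 ∧ a j ≠ 0 ∧ v (aeval u (a i)) * v (f i) = v (aeval u (a j)) * v (f j) := by
  classical
  obtain ⟨i0, hi0⟩ := h0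
  obtain ⟨i, -, hi⟩ := Finset.exists_max_image Finset.univ (fun i => v (aeval u (a i) * f i))
    ⟨i0, Finset.mem_univ _⟩
  have hpos : v (aeval u (a i) * f i) ≠ 0 := by
    intro h
    have := hi i0 (Finset.mem_univ _)
    rw [h, le_zero_iff, Valuation.zero_iff] at this
    exact mul_ne_zero (ha i0 hi0) (hf i0) this
  have hai : a i ≠ 0 := by
    rintro h
    apply hpos
    rw [h]
    simp
  by_contra hcon
  push Not at hcon
  have h1 : v (∑ j ∈ Finset.univ.erase i, aeval u (a j) * f j) < v (aeval u (a i) * f i) := by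
    refine v.map_sum_lt hpos ?_
    intro j hj
    have hji : j ≠ i := Finset.ne_of_mem_erase hj
    by_cases haj : a j = 0
    · rw [haj]
      simp only [map_zero, zero_mul]
      exact zero_lt_iff.2 hpos
    · refine lt_of_le_of_ne (hi j (Finset.mem_univ _)) ?_
      rw [map_mul, map_mul]
      exact hcon j i hji haj hai
  have h2 : ∑ j ∈ Finset.univ.erase i, aeval u (a j) * f j = -(aeval u (a i) * f i) := by
    rw [← Finset.add_sum_erase _ _ (Finset.mem_univ i)] at hs
    linear_combination hs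
  rw [h2, Valuation.map_neg] at h1
  exact lt_irrefl _ h1

variable {Γ : Type} [LinearOrderedCommGroupWithZero Γ] (v : Valuation F Γ)

theorem vc (hK : ∀ c : K, v (algebraMap K F c) ≤ 1) {c : K} (hc : c ≠ 0) :
    v (algebraMap K F c) = 1 := by
  refine le_antisymm (hK c) ?_
  have h1 := hK c⁻¹
  have h2 : v (algebraMap K F c) * v (algebraMap K F c⁻¹) = 1 := by
    rw [← map_mul, ← map_mul, mul_inv_cancel₀ hc, map_one, map_one]
  calc (1 : Γ) = v (algebraMap K F c) * v (algebraMap K F c⁻¹) := h2.symm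
    _ ≤ v (algebraMap K F c) * 1 := by gcongr
    _ = _ := mul_one _

theorem vpoly_le (hK : ∀ c : K, v (algebraMap K F c) ≤ 1) {u : F} (hu : v u ≤ 1) (p : K[X]) :
    v (aeval u p) ≤ 1 := by
  rw [aeval_eq_sum_range]
  refine v.map_sum_le (fun i _ => ?_)
  rw [Algebra.smul_def, map_mul, map_pow]
  exact mul_le_one' (hK _) (pow_le_one' hu _)

theorem vpoly_one (hK : ∀ c : K, v (algebraMap K F c) ≤ 1) {u : F} (hu : v u < 1) {p : K[X]}
    (hp : p.coeff 0 ≠ 0) : v (aeval u p) = 1 := by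
  have e : aeval u p = u * aeval u p.divX + algebraMap K F (p.coeff 0) := by
    conv_lhs => rw [← divX_mul_X_add p]
    simp only [map_add, map_mul, aeval_X, aeval_C]
    ring
  rw [e]
  have h1 : v (u * aeval u p.divX) < v (algebraMap K F (p.coeff 0)) := by
    rw [vc v hK hp, map_mul]
    exact mul_lt_one_of_lt_of_le hu (vpoly_le v hK hu.le _)
  rw [Valuation.map_add_eq_of_lt_right _ h1, vc v hK hp]

theorem vpoly (hK : ∀ c : K, v (algebraMap K F c) ≤ 1) {u : F} (hu : v u < 1) :
    ∀ (d : ℕ) (p : K[X]), p.natDegree ≤ d → p ≠ 0 → ∃ m : ℕ, v (aeval u p) = v u ^ m := by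
  intro d
  induction d with
  | zero =>
    intro p hd hp
    refine ⟨0, ?_⟩
    rw [pow_zero]
    refine vpoly_one v hK hu ?_
    intro h0
    apply hp
    rw [eq_C_of_natDegree_le_zero hd, h0, C_0]
  | succ d ih =>
    intro p hd hp
    by_cases h0 : p.coeff 0 = 0
    · have e : p = X * p.divX := by
        conv_lhs => rw [← divX_mul_X_add p, h0, C_0, add_zero, mul_comm]
      have hq : p.divX ≠ 0 := by
        intro h
        rw [h, mul_zero] at e
        exact hp e
      obtain ⟨m, hm⟩ := ih p.divX (by rw [natDegree_divX_eq_natDegree_tsub_one]; omega) hq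
      refine ⟨m + 1, ?_⟩
      rw [e, map_mul, aeval_X, map_mul, hm, pow_succ']
    · exact ⟨0, by rw [pow_zero]; exact vpoly_one v hK hu h0⟩

theorem root [IsAlgClosed K] (hK : ∀ c : K, v (algebraMap K F c) ≤ 1) {f : F} (hf : v f ≤ 1) :
    ∀ (d : ℕ) (p : K[X]), p.natDegree ≤ d → p ≠ 0 → v (aeval f p) < 1 →
      ∃ c : K, v (f - algebraMap K F c) < 1 := by
  intro d
  induction d with
  | zero =>
    intro p hd hp h
    exfalso
    have e := eq_C_of_natDegree_le_zero hd
    have hc : p.coeff 0 ≠ 0 := by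
      intro h0
      rw [h0, C_0] at e
      exact hp e
    rw [e, aeval_C, vc v hK hc] at h
    exact lt_irrefl _ h
  | succ d ih =>
    intro p hd hp h
    by_cases hdeg : p.natDegree = 0
    · exact ih p (by omega) hp h
    · obtain ⟨c, hc⟩ := IsAlgClosed.exists_root p (by
        intro hh
        apply hdeg
        exact natDegree_eq_of_degree_eq_some hh)
      obtain ⟨q, hq⟩ := dvd_iff_isRoot.2 hc
      have hq0 : q ≠ 0 := by
        rintro rfl
        rw [mul_zero] at hq
        exact hp hq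
      by_cases hlt : v (f - algebraMap K F c) < 1
      · exact ⟨c, hlt⟩
      · have hge : v (f - algebraMap K F c) = 1 := by
          refine le_antisymm ?_ (not_lt.1 hlt)
          exact (v.map_sub _ _).trans (max_le hf (hK c))
        refine ih q ?_ hq0 ?_
        · rw [hq, natDegree_mul (X_sub_C_ne_zero c) hq0, natDegree_X_sub_C] at hd
          omega
        · rw [hq, map_mul, map_mul, map_sub, aeval_X, aeval_C, hge, one_mul] at h
          exact h

/-- normalised relation -/
theorem nrel {u : F} (hu : u ≠ 0) {n : ℕ} (f : Fin n → F) (i0 : Fin n) :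
    ∀ (d : ℕ) (a : Fin n → K[X]), (a i0).natDegree ≤ d → a i0 ≠ 0 →
      ∑ i, aeval u (a i) * f i = 0 →
      ∃ b : Fin n → K[X], (∃ i, (b i).coeff 0 ≠ 0) ∧ ∑ i, aeval u (b i) * f i = 0 := by
  intro d
  induction d with
  | zero =>
    intro a hd ha hs
    refine ⟨a, ⟨i0, ?_⟩, hs⟩
    intro h0
    apply ha
    rw [eq_C_of_natDegree_le_zero hd, h0, C_0]
  | succ d ih =>
    intro a hd ha hs
    by_cases h : ∃ i, (a i).coeff 0 ≠ 0
    · exact ⟨a, h, hs⟩
    · push Not at h
      have e : ∀ i, a i = X * (a i).divX := by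
        intro i
        conv_lhs => rw [← divX_mul_X_add (a i), h i, C_0, add_zero, mul_comm]
      refine ih (fun i => (a i).divX) ?_ ?_ ?_
      · rw [natDegree_divX_eq_natDegree_tsub_one]
        omega
      · intro h0
        have := e i0
        rw [h0, mul_zero] at this
        exact ha this
      · have : u * ∑ i, aeval u (a i).divX * f i = 0 := by
          rw [← hs, Finset.mul_sum]
          refine Finset.sum_congr rfl (fun i _ => ?_)
          conv_rhs => rw [e i]
          rw [map_mul, aeval_X]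
          ring
        exact (mul_eq_zero.1 this).resolve_left hu

theorem residue [IsAlgClosed K] (hK : ∀ c : K, v (algebraMap K F c) ≤ 1) {u : F} (hu : v u < 1)
    (hu0 : u ≠ 0) {N : ℕ} (hN : HasRel K u N) {f : F} (hf : v f ≤ 1) :
    ∃ c : K, v (f - algebraMap K F c) < 1 := by
  obtain ⟨a, ⟨i0, hi0⟩, hs⟩ := hN (fun i => f ^ (i : ℕ))
  obtain ⟨b, ⟨i1, hi1⟩, hs'⟩ := nrel hu0 _ i0 _ a le_rfl hi0 hs
  let p : K[X] := ∑ i : Fin (N + 1), C ((b i).coeff 0) * X ^ (i : ℕ)
  have hpc : p.coeff (i1 : ℕ) = (b i1).coeff 0 := by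
    simp only [p, finsetSum_coeff, coeff_C_mul_X_pow]
    rw [Finset.sum_eq_single i1]
    · simp
    · intro j _ hj
      rw [if_neg]
      intro hh
      exact hj (Fin.ext hh.symm)
    · simp
  have hp : p ≠ 0 := by
    intro h
    rw [h, coeff_zero] at hpc
    exact hi1 hpc.symm
  refine root v hK hf _ p le_rfl hp ?_
  have e : aeval f p = -(u * ∑ i : Fin (N + 1), aeval u (b i).divX * f ^ (i : ℕ)) := by
    have e1 : aeval f p = ∑ i : Fin (N + 1), algebraMap K F ((b i).coeff 0) * f ^ (i : ℕ) := by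
      simp only [p, map_sum, map_mul, aeval_C, map_pow, aeval_X]
    rw [e1, eq_neg_iff_add_eq_zero, ← hs', Finset.mul_sum, ← Finset.sum_add_distrib]
    refine Finset.sum_congr rfl (fun i _ => ?_)
    conv_rhs => rw [← divX_mul_X_add (b i)]
    simp only [map_add, map_mul, aeval_X, aeval_C]
    ring
  rw [e, Valuation.map_neg, map_mul]
  refine mul_lt_one_of_lt_of_le hu ?_
  refine v.map_sum_le (fun i _ => ?_)
  rw [map_mul, map_pow]
  exact mul_le_one' (vpoly_le v hK hu.le _) (pow_le_one' hf _)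

/-- two of `N + 1` nonzero elements have the same value modulo powers of `v u` -/
theorem coset (hK : ∀ c : K, v (algebraMap K F c) ≤ 1) {u : F} (hu : v u < 1) (hu0 : u ≠ 0)
    {N : ℕ} (hN : HasRel K u N) (f : Fin (N + 1) → F) (hf : ∀ i, f i ≠ 0) :
    ∃ i j, i ≠ j ∧ ∃ m m' : ℕ, v u ^ m * v (f i) = v u ^ m' * v (f j) := by
  obtain ⟨a, ha, hs⟩ := hN f
  obtain ⟨i, j, hij, hi, hj, h⟩ := dep v a f hf (fun i hi h0 => by
    obtain ⟨m, hm⟩ := vpoly v hK hu _ (a i) le_rfl hi
    rw [h0, map_zero] at hm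
    exact pow_ne_zero m ((Valuation.ne_zero_iff _).2 hu0) hm.symm) ha hs
  obtain ⟨m, hm⟩ := vpoly v hK hu _ (a i) le_rfl hi
  obtain ⟨m', hm'⟩ := vpoly v hK hu _ (a j) le_rfl hj
  exact ⟨i, j, hij, m, m', by rw [← hm, ← hm', h]⟩

theorem exists_pi (hK : ∀ c : K, v (algebraMap K F c) ≤ 1) {u : F} (hu : v u < 1) (hu0 : u ≠ 0)
    {N : ℕ} (hN : HasRel K u N) :
    ∃ π : F, π ≠ 0 ∧ v π < 1 ∧ ∀ f : F, v f < 1 → v f ≤ v π := by
  by_contra hcon
  push Not at hcon
  have hstep : ∀ g : {f : F // v u ≤ v f ∧ v f < 1}, ∃ h : {f : F // v u ≤ v f ∧ v f < 1},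
      v g.1 < v h.1 := by
    rintro ⟨g, hg1, hg2⟩
    have hg0 : g ≠ 0 := by
      rintro rfl
      rw [map_zero, le_zero_iff, Valuation.zero_iff] at hg1
      exact hu0 hg1
    obtain ⟨f, hf1, hf2⟩ := hcon g hg0 hg2
    exact ⟨⟨f, hg1.trans hf2.le, hf1⟩, hf2⟩
  choose s hs using hstep
  let g : ℕ → {f : F // v u ≤ v f ∧ v f < 1} := fun n => s^[n] ⟨u, le_rfl, hu⟩
  have hmono : StrictMono (fun n => v (g n).1) := by
    refine strictMono_nat_of_lt_succ (fun n => ?_)
    have : g (n + 1) = s (g n) := Function.iterate_succ_apply' _ _ _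
    rw [this]
    exact hs _
  have hvu : v u ≠ 0 := (Valuation.ne_zero_iff _).2 hu0
  have hg0 : ∀ n, (g n).1 ≠ 0 := by
    intro n h
    have := (g n).2.1
    rw [h, map_zero, le_zero_iff] at this
    exact hvu this
  obtain ⟨i, j, hij, m, m', h⟩ := coset v hK hu hu0 hN (fun i => (g i).1) (fun i => hg0 _)
  have key : ∀ (i j : ℕ) (m m' : ℕ), i ≠ j → m ≤ m' →
      v u ^ m * v (g i).1 = v u ^ m' * v (g j).1 → False := by
    intro i j m m' hij hm h
    obtain ⟨k, rfl⟩ := Nat.exists_eq_add_of_le hm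
    rw [pow_add, mul_assoc] at h
    have h1 := mul_left_cancel₀ (pow_ne_zero m hvu) h
    rcases Nat.eq_zero_or_pos k with rfl | hk
    · rw [pow_zero, one_mul] at h1
      exact hij (hmono.injective h1)
    · have h2 : v u ^ k ≤ v u := by
        calc v u ^ k ≤ v u ^ 1 := pow_le_pow_right_of_le_one' hu.le hk
          _ = v u := pow_one _
      have h3 : v (g i).1 ≤ v u * v (g j).1 := by
        rw [h1]
        gcongr
      have h4 : v u * v (g j).1 < v u * 1 :=
        mul_lt_mul_of_pos_left (g j).2.2 (zero_lt_iff.2 hvu)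
      rw [mul_one] at h4
      exact absurd (g i).2.1 (not_le.2 (h3.trans_lt h4))
  rcases le_total m m' with hm | hm
  · exact key i j m m' (fun hh => hij (Fin.ext hh)) hm h
  · exact key j i m' m (fun hh => hij (Fin.ext hh.symm)) hm h.symm

theorem arch (hK : ∀ c : K, v (algebraMap K F c) ≤ 1) {u : F} (hu : v u < 1) (hu0 : u ≠ 0)
    {N : ℕ} (hN : HasRel K u N) {f : F} (hf : f ≠ 0) :
    ∃ k m m' : ℕ, 0 < k ∧ v u ^ m * v f ^ k = v u ^ m' := by
  have hvf : v f ≠ 0 := (Valuation.ne_zero_iff _).2 hf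
  obtain ⟨i, j, hij, m, m', h⟩ := coset v hK hu hu0 hN (fun i => f ^ (i : ℕ))
    (fun i => pow_ne_zero _ hf)
  simp only [map_pow] at h
  have key : ∀ (i j : ℕ) (m m' : ℕ), j < i →
      v u ^ m * v f ^ i = v u ^ m' * v f ^ j → ∃ k m m' : ℕ, 0 < k ∧ v u ^ m * v f ^ k = v u ^ m' := by
    intro i j m m' hij h
    obtain ⟨k, rfl⟩ := Nat.exists_eq_add_of_lt hij
    refine ⟨k + 1, m, m', Nat.succ_pos _, ?_⟩
    have : v f ^ (j + k + 1) = v f ^ (k + 1) * v f ^ j := by
      rw [← pow_add]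
      congr 1
      omega
    rw [this, ← mul_assoc] at h
    exact mul_right_cancel₀ (pow_ne_zero j hvf) h
  rcases lt_trichotomy (i : ℕ) (j : ℕ) with hlt | heq | hlt
  · exact key j i m' m hlt h.symm
  · exact absurd (Fin.ext heq) hij
  · exact key i j m m' hlt h

theorem pow_pi (hK : ∀ c : K, v (algebraMap K F c) ≤ 1) {u : F} (hu : v u < 1) (hu0 : u ≠ 0)
    {N : ℕ} (hN : HasRel K u N) {π : F} (hπ0 : π ≠ 0) (hπ : v π < 1)
    (hmax : ∀ f : F, v f < 1 → v f ≤ v π) {f : F} (hf0 : f ≠ 0) (hf : v f ≤ 1) :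
    ∃ j : ℕ, v f = v π ^ j := by
  classical
  have hvu : v u ≠ 0 := (Valuation.ne_zero_iff _).2 hu0
  have hvπ : v π ≠ 0 := (Valuation.ne_zero_iff _).2 hπ0
  have hvf : v f ≠ 0 := (Valuation.ne_zero_iff _).2 hf0
  have hM : ∃ M : ℕ, v u ^ M ≤ v f := by
    obtain ⟨k, m, m', hk, h⟩ := arch v hK hu hu0 hN hf0
    refine ⟨m', ?_⟩
    rw [← h]
    calc v u ^ m * v f ^ k ≤ 1 * v f ^ k := by
          gcongr
          exact pow_le_one' hu.le _
      _ = v f ^ k := one_mul _
      _ ≤ v f ^ 1 := pow_le_pow_right_of_le_one' hf hk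
      _ = v f := pow_one _
  have hk : ∃ k : ℕ, v π ^ k ≤ v u := by
    obtain ⟨k, m, m', hk, h⟩ := arch v hK hu hu0 hN hπ0
    refine ⟨k, ?_⟩
    rcases lt_or_ge m m' with hlt | hge
    · obtain ⟨l, rfl⟩ := Nat.exists_eq_add_of_lt hlt
      rw [add_assoc, pow_add] at h
      rw [mul_left_cancel₀ (pow_ne_zero m hvu) h]
      calc v u ^ (l + 1) ≤ v u ^ 1 := pow_le_pow_right_of_le_one' hu.le (by omega)
        _ = v u := pow_one _
    · obtain ⟨l, rfl⟩ := Nat.exists_eq_add_of_le hge
      exfalso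
      rw [pow_add, mul_assoc] at h
      have h1 : v u ^ l * v π ^ k = 1 := by
        have := mul_left_cancel₀ (pow_ne_zero m' hvu) (h.trans (mul_one _).symm)
        exact this
      have h2 : v π ^ k < 1 := pow_lt_one₀ zero_le hπ hk.ne'
      have h3 : v u ^ l * v π ^ k < 1 := by
        calc v u ^ l * v π ^ k ≤ 1 * v π ^ k := by
              gcongr
              exact pow_le_one' hu.le _
          _ = v π ^ k := one_mul _
          _ < 1 := h2
      exact absurd h1 h3.ne
  obtain ⟨M, hM⟩ := hM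
  obtain ⟨k, hk⟩ := hk
  have hJ : ∃ J : ℕ, v π ^ J < v f := by
    refine ⟨k * M + 1, ?_⟩
    have h1 : v π ^ (k * M) ≤ v f := by
      rw [pow_mul]
      exact (pow_le_pow_left' hk M).trans hM
    have h2 : v π ^ (k * M + 1) < v π ^ (k * M) := by
      rw [pow_succ]
      calc v π ^ (k * M) * v π < v π ^ (k * M) * 1 :=
            mul_lt_mul_of_pos_left hπ (zero_lt_iff.2 (pow_ne_zero _ hvπ))
        _ = _ := mul_one _
    exact h2.trans_le h1
  have hspec := Nat.find_spec hJ
  have hmin := fun j => Nat.find_min (m := j) hJ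
  generalize Nat.find hJ = J at hspec hmin
  rcases J with _ | j
  · rw [pow_zero] at hspec
    exact absurd hf (not_le.2 hspec)
  · refine ⟨j, ?_⟩
    have hle : v f ≤ v π ^ j := not_lt.1 (hmin j (Nat.lt_succ_self j))
    refine le_antisymm hle ?_
    by_contra hlt
    rw [not_le] at hlt
    have hpj : v π ^ j ≠ 0 := pow_ne_zero j hvπ
    have h1 : v (f / π ^ j) < 1 := by
      rw [map_div₀, map_pow]
      exact (div_lt_one₀ (zero_lt_iff.2 hpj)).2 hlt
    have h2 := hmax _ h1
    rw [map_div₀, map_pow, div_le_iff₀ (zero_lt_iff.2 hpj)] at h2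
    rw [pow_succ'] at hspec
    exact absurd h2 (not_le.2 hspec)

theorem zpow_pi (hK : ∀ c : K, v (algebraMap K F c) ≤ 1) {u : F} (hu : v u < 1) (hu0 : u ≠ 0)
    {N : ℕ} (hN : HasRel K u N) {π : F} (hπ0 : π ≠ 0) (hπ : v π < 1)
    (hmax : ∀ f : F, v f < 1 → v f ≤ v π) {f : F} (hf0 : f ≠ 0) :
    ∃ n : ℤ, v (f * π ^ n) = 1 := by
  have hvπ : v π ≠ 0 := (Valuation.ne_zero_iff _).2 hπ0
  have hvf : v f ≠ 0 := (Valuation.ne_zero_iff _).2 hf0
  rcases le_total (v f) 1 with h | h
  · obtain ⟨j, hj⟩ := pow_pi v hK hu hu0 hN hπ0 hπ hmax hf0 h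
    refine ⟨-(j : ℤ), ?_⟩
    rw [map_mul, map_zpow₀, hj, zpow_neg, zpow_natCast, mul_inv_cancel₀ (pow_ne_zero j hvπ)]
  · have h1 : v f⁻¹ ≤ 1 := by
      rw [map_inv₀]
      exact inv_le_one_of_one_le₀ h
    obtain ⟨j, hj⟩ := pow_pi v hK hu hu0 hN hπ0 hπ hmax (inv_ne_zero hf0) h1
    refine ⟨(j : ℤ), ?_⟩
    rw [map_inv₀] at hj
    rw [map_mul, map_zpow₀, zpow_natCast, ← hj, mul_inv_cancel₀ hvf]

/-- a valuation which is trivial on `K(t)` is trivial -/
theorem triv {t : F} {N : ℕ} (hN : HasRel K t N)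
    (h1 : ∀ p : K[X], p ≠ 0 → v (aeval t p) = 1) (f : F) : v f ≤ 1 := by
  by_contra hcon
  rw [not_le] at hcon
  have hf0 : f ≠ 0 := by
    rintro rfl
    rw [map_zero] at hcon
    exact absurd hcon (by simp)
  obtain ⟨a, ha, hs⟩ := hN (fun i => f ^ (i : ℕ))
  obtain ⟨i, j, hij, hi, hj, h⟩ := dep v a (fun i => f ^ (i : ℕ)) (fun i => pow_ne_zero _ hf0)
    (fun i hi h0 => by
      have := h1 _ hi
      rw [h0, map_zero] at this
      exact zero_ne_one this) ha hs
  rw [h1 _ hi, h1 _ hj, one_mul, one_mul, map_pow, map_pow] at h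
  exact hij (Fin.ext ((pow_right_strictMono₀ hcon).injective h))

end

end Pool.Agent.H432.AC.PEMB1

namespace Pool.Agent.H432.AC

open Polynomial in
theorem emb1 : S_EMB1 := by
  intro K F _ _ _ _ _ t ht hfin V hV hne
  have hK : ∀ c : K, V.valuation (algebraMap K F c) ≤ 1 :=
    fun c => (V.valuation_le_one_iff _).2 (hV c)
  obtain ⟨N, hN⟩ := PEMB1.hasRel t hfin
  have ht0 : t ≠ 0 := fun h => ht (h ▸ isAlgebraic_zero)
  -- a parameter
  have hu : ∃ u : F, u ≠ 0 ∧ V.valuation u < 1 ∧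
      IntermediateField.adjoin K {u} = IntermediateField.adjoin K {t} := by
    rcases lt_or_ge 1 (V.valuation t) with h | h
    · refine ⟨t⁻¹, inv_ne_zero ht0, ?_, le_antisymm ?_ ?_⟩
      · rw [map_inv₀]
        exact inv_lt_one_of_one_lt₀ h
      · rw [IntermediateField.adjoin_simple_le_iff]
        exact inv_mem (IntermediateField.mem_adjoin_simple_self K t)
      · rw [IntermediateField.adjoin_simple_le_iff]
        have := inv_mem (IntermediateField.mem_adjoin_simple_self K t⁻¹)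
        rwa [inv_inv] at this
    · have hp : ∃ p : K[X], p ≠ 0 ∧ V.valuation (aeval t p) < 1 := by
        by_contra hcon
        push Not at hcon
        apply hne
        rw [eq_top_iff]
        intro f _
        rw [← V.valuation_le_one_iff]
        exact PEMB1.triv V.valuation hN
          (fun p hp => le_antisymm (PEMB1.vpoly_le V.valuation hK h p) (hcon p hp)) f
      obtain ⟨p, hp0, hp⟩ := hp
      obtain ⟨c, hc⟩ := PEMB1.root V.valuation hK h _ p le_rfl hp0 hp
      refine ⟨t - algebraMap K F c, ?_, hc, le_antisymm ?_ ?_⟩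
      · intro h0
        rw [sub_eq_zero] at h0
        exact ht (h0 ▸ isAlgebraic_algebraMap c)
      · rw [IntermediateField.adjoin_simple_le_iff]
        exact sub_mem (IntermediateField.mem_adjoin_simple_self K t)
          (IntermediateField.algebraMap_mem _ c)
      · rw [IntermediateField.adjoin_simple_le_iff]
        have := add_mem (IntermediateField.mem_adjoin_simple_self K (t - algebraMap K F c))
          (IntermediateField.algebraMap_mem (IntermediateField.adjoin K {t - algebraMap K F c}) c)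
        rwa [sub_add_cancel] at this
  obtain ⟨u, hu0, hu1, hadj⟩ := hu
  have hfin' : FiniteDimensional (IntermediateField.adjoin K {u}) F := by
    rw [hadj]
    exact hfin
  obtain ⟨N', hN'⟩ := PEMB1.hasRel u hfin'
  obtain ⟨π, hπ0, hπ1, hmax⟩ := PEMB1.exists_pi V.valuation hK hu1 hu0 hN'
  have hvπ : V.valuation π ≠ 0 := (Valuation.ne_zero_iff _).2 hπ0
  refine ⟨π, hπ0, (V.valuation_le_one_iff _).1 hπ1.le, ?_, ?_, ?_⟩
  · rw [← V.valuation_le_one_iff, map_inv₀, not_le]
    exact (one_lt_inv₀ (zero_lt_iff.2 hvπ)).2 hπ1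
  · intro f hf
    obtain ⟨c, hc⟩ := PEMB1.residue V.valuation hK hu1 hu0 hN' ((V.valuation_le_one_iff _).2 hf)
    refine ⟨c, (f - algebraMap K F c) / π, ?_, ?_⟩
    · rw [← V.valuation_le_one_iff, map_div₀]
      exact (div_le_one₀ (zero_lt_iff.2 hvπ)).2 (hmax _ hc)
    · field_simp
      ring
  · intro f hf0
    obtain ⟨n, hn⟩ := PEMB1.zpow_pi V.valuation hK hu1 hu0 hN' hπ0 hπ1 hmax hf0
    refine ⟨n, (V.valuation_le_one_iff _).1 hn.le, ?_⟩
    rw [← V.valuation_le_one_iff, map_inv₀, hn, inv_one]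

end Pool.Agent.H432.AC
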