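import Mathlib
import Pool.Agent.H432.AC.Stm

/-!
# Project AC (helper432): the Laurent expansion at a discrete valuation (`S_EMB2`)
-/

set_option autoImplicit false

namespace Pool.Agent.H432.AC.PEMB2

lemma coeff_zero_mul' {K : Type} [Field K] (x y : PowerSeries K) :
    PowerSeries.coeff 0 (x * y) = PowerSeries.coeff 0 x * PowerSeries.coeff 0 y := by
  simp

/-- A ring `A` with an element `p` for which every element is a constant plus a multiple of `p`. -/
structure Dat (K A : Type) [Field K] [CommRing A] where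
  /-- the constants -/
  al : K →+* A
  /-- the uniformiser -/
  p : A
  reg : ∀ x y, p * x = p * y → x = y
  nu : ¬ IsUnit p
  split : ∀ f : A, ∃ c : K, ∃ g : A, f = al c + p * g

namespace Dat

variable {K A : Type} [Field K] [CommRing A] (D : Dat K A)

/-- the residue -/
noncomputable def c (f : A) : K := (D.split f).choose

/-- the rest -/
noncomputable def g (f : A) : A := (D.split f).choose_spec.choose

lemma eq (f : A) : f = D.al (D.c f) + D.p * D.g f := (D.split f).choose_spec.choose_spec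

lemma uniq {f : A} {a : K} {x : A} (h : f = D.al a + D.p * x) : D.c f = a ∧ D.g f = x := by
  have h1 := D.eq f
  have hc : D.c f = a := by
    by_contra hne
    apply D.nu
    have h2 : D.al (D.c f - a) = D.p * (x - D.g f) := by
      rw [map_sub]
      linear_combination h - h1
    have h3 : D.al (D.c f - a)⁻¹ * D.al (D.c f - a) = 1 := by
      rw [← map_mul, inv_mul_cancel₀ (sub_ne_zero.mpr hne), map_one]
    refine IsUnit.of_mul_eq_one ((x - D.g f) * D.al (D.c f - a)⁻¹) ?_
    rw [← mul_assoc, ← h2, mul_comm]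
    exact h3
  refine ⟨hc, D.reg _ _ ?_⟩
  rw [hc] at h1
  linear_combination h - h1

lemma add_spec (x y : A) : D.c (x + y) = D.c x + D.c y ∧ D.g (x + y) = D.g x + D.g y := by
  refine D.uniq ?_
  rw [map_add]
  linear_combination D.eq x + D.eq y

lemma mul_spec (x y : A) : D.c (x * y) = D.c x * D.c y ∧
    D.g (x * y) = D.al (D.c x) * D.g y + D.g x * y := by
  refine D.uniq ?_
  rw [map_mul]
  linear_combination y * D.eq x + D.al (D.c x) * D.eq y

lemma al_spec (a : K) : D.c (D.al a) = a ∧ D.g (D.al a) = 0 := D.uniq (by ring)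

lemma p_spec : D.c D.p = 0 ∧ D.g D.p = 1 := D.uniq (by rw [map_zero]; ring)

/-- the expansion -/
noncomputable def P (f : A) : PowerSeries K := PowerSeries.mk fun n => D.c (D.g^[n] f)

lemma P_zero (f : A) : PowerSeries.coeff 0 (D.P f) = D.c f := by
  rw [P, PowerSeries.coeff_mk]
  rfl

lemma P_succ (f : A) (n : ℕ) :
    PowerSeries.coeff (n + 1) (D.P f) = PowerSeries.coeff n (D.P (D.g f)) := by
  rw [P, P, PowerSeries.coeff_mk, PowerSeries.coeff_mk, Function.iterate_succ_apply]

lemma P_eq (f : A) : D.P f = PowerSeries.C (D.c f) + PowerSeries.X * D.P (D.g f) := by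
  ext n
  rw [map_add]
  cases n with
  | zero => rw [P_zero, PowerSeries.coeff_zero_C, PowerSeries.coeff_zero_X_mul, add_zero]
  | succ n =>
    rw [P_succ, PowerSeries.coeff_succ_X_mul, PowerSeries.coeff_C, if_neg (Nat.succ_ne_zero n),
      zero_add]

lemma P_add (x y : A) : D.P (x + y) = D.P x + D.P y := by
  ext n
  rw [map_add]
  induction n generalizing x y with
  | zero => rw [P_zero, P_zero, P_zero, (D.add_spec x y).1]
  | succ n ih => rw [P_succ, P_succ, P_succ, (D.add_spec x y).2, ih]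

lemma g_zero : D.g 0 = 0 ∧ D.c 0 = 0 := by
  have := D.al_spec 0
  rw [map_zero] at this
  exact ⟨this.2, this.1⟩

lemma P_zero' : D.P 0 = 0 := by
  have := D.P_add 0 0
  rw [add_zero] at this
  exact left_eq_add.mp this

lemma P_al (a : K) : D.P (D.al a) = PowerSeries.C a := by
  rw [P_eq, (D.al_spec a).1, (D.al_spec a).2, P_zero', mul_zero, add_zero]

lemma P_one : D.P 1 = 1 := by
  have := D.P_al 1
  rwa [map_one, map_one] at this

lemma P_p : D.P D.p = PowerSeries.X := by
  rw [P_eq, D.p_spec.1, D.p_spec.2, P_one, map_zero, zero_add, mul_one]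

lemma P_mul (x y : A) : D.P (x * y) = D.P x * D.P y := by
  ext n
  induction n generalizing x y with
  | zero =>
    rw [coeff_zero_mul', P_zero, P_zero, P_zero, (D.mul_spec x y).1]
  | succ n ih =>
    rw [P_succ, (D.mul_spec x y).2, P_add, map_add, ih, ih, P_al, D.P_eq x, add_mul, mul_assoc,
      map_add, PowerSeries.coeff_succ_X_mul, PowerSeries.coeff_C_mul, PowerSeries.coeff_C_mul,
      P_succ]

/-- the expansion as a ring homomorphism -/
noncomputable def PH : A →+* PowerSeries K where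
  toFun := D.P
  map_one' := D.P_one
  map_mul' := D.P_mul
  map_zero' := D.P_zero'
  map_add' := D.P_add

end Dat

lemma orderTop_nonneg_iff {K : Type} [Field K] (x : LaurentSeries K) :
    0 ≤ x.orderTop ↔ ∃ q : PowerSeries K, x = HahnSeries.ofPowerSeries ℤ K q := by
  constructor
  · intro h
    refine ⟨PowerSeries.mk fun n => x.coeff n, ?_⟩
    ext n
    rcases lt_or_ge n 0 with hn | hn
    · rw [HahnSeries.coeff_eq_zero_of_lt_orderTop (lt_of_lt_of_le (by exact_mod_cast hn) h)]
      symm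
      rw [HahnSeries.ofPowerSeries_apply]
      refine HahnSeries.embDomain_of_notMem_range ?_
      rintro ⟨m, hm⟩
      simp at hm
      omega
    · obtain ⟨m, rfl⟩ := Int.eq_ofNat_of_zero_le hn
      have := HahnSeries.ofPowerSeries_apply_coeff (Γ := ℤ) (PowerSeries.mk fun n => x.coeff n) m
      rw [PowerSeries.coeff_mk] at this
      exact this.symm
  · rintro ⟨q, rfl⟩
    rw [HahnSeries.le_orderTop_iff_forall]
    intro j hj
    have hj' : j < 0 := by exact_mod_cast hj
    rw [HahnSeries.ofPowerSeries_apply]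
    refine HahnSeries.embDomain_of_notMem_range ?_
    rintro ⟨m, hm⟩
    simp at hm
    omega

end Pool.Agent.H432.AC.PEMB2

namespace Pool.Agent.H432.AC

open PEMB2

/-- **EMB2** -/
theorem emb2 : S_EMB2 := by
  intro K F _ _ _ V π hK hπ0 hπ hπi hsplit hval
  have hreg : ∀ x y : V, (⟨π, hπ⟩ : V) * x = ⟨π, hπ⟩ * y → x = y := by
    intro x y h
    have h1 : π * (x : F) = π * (y : F) := congrArg (fun t : V => (t : F)) h
    exact Subtype.ext (mul_left_cancel₀ hπ0 h1)
  have hinvV : ∀ x : V, IsUnit x → (x : F)⁻¹ ∈ V := by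
    intro x hx
    obtain ⟨y, hy⟩ := hx.exists_right_inv
    have h1 : (x : F) * (y : F) = 1 := by
      have := congrArg (fun t : V => (t : F)) hy
      simpa using this
    rw [← eq_inv_of_mul_eq_one_right h1]
    exact y.2
  have hnu : ¬ IsUnit (⟨π, hπ⟩ : V) := fun h => hπi (hinvV _ h)
  let D : Dat K V :=
    { al := (algebraMap K F).codRestrict V hK
      p := ⟨π, hπ⟩
      reg := hreg
      nu := hnu
      split := by
        rintro ⟨f, hf⟩
        obtain ⟨c, g, hg, h⟩ := hsplit f hf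
        exact ⟨c, ⟨g, hg⟩, Subtype.ext h⟩ }
  have hPu : ∀ x : V, (x : F)⁻¹ ∈ V → x ≠ 0 → D.P x ≠ 0 := by
    intro x hx hx0 h0
    have hx0' : (x : F) ≠ 0 := fun h => hx0 (Subtype.ext h)
    have h1 : x * ⟨(x : F)⁻¹, hx⟩ = 1 := Subtype.ext (mul_inv_cancel₀ hx0')
    have h2 := D.P_mul x ⟨(x : F)⁻¹, hx⟩
    rw [h1, D.P_one, h0, zero_mul] at h2
    exact one_ne_zero h2
  have hinj : Function.Injective ((HahnSeries.ofPowerSeries ℤ K).comp D.PH) := by
    rw [injective_iff_map_eq_zero]
    intro x hx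
    have hx1 : D.P x = 0 := HahnSeries.ofPowerSeries_injective (Γ := ℤ) (R := K)
      (hx.trans (map_zero _).symm)
    by_contra hne
    have hne' : (x : F) ≠ 0 := fun h => hne (Subtype.ext h)
    obtain ⟨n, hn1, hn2⟩ := hval x hne'
    have hpn : π ^ n ≠ 0 := zpow_ne_zero n hπ0
    rcases le_total 0 n with h | h
    · obtain ⟨m, rfl⟩ := Int.eq_ofNat_of_zero_le h
      have h3 : (⟨(x : F) * π ^ (m : ℤ), hn1⟩ : V) = x * (⟨π, hπ⟩ : V) ^ m := by
        apply Subtype.ext
        simp [zpow_natCast]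
      refine hPu ⟨(x : F) * π ^ (m : ℤ), hn1⟩ hn2 (fun h4 => ?_) ?_
      · exact mul_ne_zero hne' hpn (congrArg (fun t : V => (t : F)) h4)
      · rw [h3, D.P_mul, hx1, zero_mul]
    · obtain ⟨m, hm⟩ := Int.eq_ofNat_of_zero_le (neg_nonneg.mpr h)
      have h3 : x = (⟨(x : F) * π ^ n, hn1⟩ : V) * (⟨π, hπ⟩ : V) ^ m := by
        apply Subtype.ext
        have h5 : π ^ n * π ^ m = 1 := by
          rw [← zpow_natCast, ← hm, ← zpow_add₀ hπ0, add_neg_cancel, zpow_zero]
        show (x : F) = ((x : F) * π ^ n) * π ^ m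
        rw [mul_assoc, h5, mul_one]
      have h6 : D.P x = D.P (⟨(x : F) * π ^ n, hn1⟩ : V) * PowerSeries.X ^ m := by
        have h7 : ∀ k : ℕ, D.P ((⟨π, hπ⟩ : V) ^ k) = PowerSeries.X ^ k := by
          intro k
          have := map_pow D.PH (⟨π, hπ⟩ : V) k
          exact this.trans (congrArg (fun t => t ^ k) D.P_p)
        rw [← h7, ← D.P_mul, ← h3]
      rw [hx1] at h6
      refine mul_ne_zero (hPu ⟨(x : F) * π ^ n, hn1⟩ hn2 fun h4 => ?_)
        (pow_ne_zero m PowerSeries.X_ne_zero) h6.symm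
      exact mul_ne_zero hne' hpn (congrArg (fun t : V => (t : F)) h4)
  let ι0 : F →+* LaurentSeries K := IsFractionRing.lift hinj
  have hι : ∀ x : V, ι0 (x : F) = HahnSeries.ofPowerSeries ℤ K (D.P x) := fun x =>
    IsFractionRing.lift_algebraMap hinj x
  have hιK : ∀ a : K, ι0 (algebraMap K F a) = algebraMap K (LaurentSeries K) a := by
    intro a
    have h1 := hι (D.al a)
    rw [D.P_al] at h1
    refine h1.trans ?_
    show _ = HahnSeries.ofPowerSeries ℤ K (algebraMap K (PowerSeries K) a)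
    rw [PowerSeries.algebraMap_apply]
    rfl
  refine ⟨{ toRingHom := ι0, commutes' := hιK }, ?_, ?_⟩
  · have h1 := hι ⟨π, hπ⟩
    have h2 : D.P ⟨π, hπ⟩ = PowerSeries.X := D.P_p
    rw [h2, HahnSeries.ofPowerSeries_X] at h1
    show (ι0 π).orderTop = 1
    rw [h1, HahnSeries.orderTop_single one_ne_zero]
    rfl
  · intro f
    show f ∈ V ↔ 0 ≤ (ι0 f).orderTop
    rw [orderTop_nonneg_iff]
    constructor
    · intro hf
      exact ⟨_, hι ⟨f, hf⟩⟩
    · rintro ⟨q, hq⟩
      by_contra hf
      have hf0 : f ≠ 0 := by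
        rintro rfl
        exact hf V.zero_mem
      have hfi : f⁻¹ ∈ V := (V.mem_or_inv_mem f).resolve_left hf
      have h1 := hι ⟨f⁻¹, hfi⟩
      have h2 : q * D.P ⟨f⁻¹, hfi⟩ = 1 := by
        apply HahnSeries.ofPowerSeries_injective (Γ := ℤ) (R := K)
        rw [map_mul, ← hq, ← h1, map_one, ← map_mul]
        show ι0 (f * f⁻¹) = 1
        rw [mul_inv_cancel₀ hf0, map_one]
      have h3 : D.c ⟨f⁻¹, hfi⟩ ≠ 0 := by
        intro h0
        have h4 := congrArg (PowerSeries.coeff 0) h2
        rw [coeff_zero_mul', D.P_zero, h0, mul_zero] at h4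
        simp at h4
      have h5 := D.eq ⟨f⁻¹, hfi⟩
      have hnunit : ¬ IsUnit (⟨f⁻¹, hfi⟩ : V) := fun h => hf (by
        have := hinvV _ h
        simpa using this)
      have h6 : IsUnit (D.al (D.c ⟨f⁻¹, hfi⟩)) := (isUnit_iff_ne_zero.mpr h3).map D.al
      rw [show D.al (D.c ⟨f⁻¹, hfi⟩) = ⟨f⁻¹, hfi⟩ + (-(D.g ⟨f⁻¹, hfi⟩)) * D.p by
        linear_combination -h5] at h6
      refine IsLocalRing.nonunits_add (mem_nonunits_iff.mpr hnunit)
        (mul_mem_nonunits_right (mem_nonunits_iff.mpr D.nu)) h6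

end Pool.Agent.H432.AC
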