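import Mathlib
import Pool.Agent.H432.AC.Stm

/-! `fine : S_FINE`: only finitely many places are ramified. The proof: let `D` be the derivation with
`D t = 1`, `A` the algebra generated by `t`, `1 / b(t)` and a basis of `F / K(t)`, where `b` is a
denominator such that `A` is stable under `D` and consists of power series at the places with
`b(c) ≠ 0`. By integration every element of `A` is a power series in `t - c`, so its order is a
multiple of `n`. -/

set_option autoImplicit false
set_option linter.unusedVariables false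

namespace Pool.Agent.H432.AC

namespace PFINE

open Polynomial

variable {K F : Type} [Field K] [Field F] [Algebra K F]

/-- common denominators -/
lemma comden {t : F} (ht : Transcendental K t) (X : Finset F)
    (hX : ∀ x ∈ X, x ∈ IntermediateField.adjoin K {t}) :
    ∃ b : K[X], b ≠ 0 ∧ ∀ x ∈ X, ∃ a : K[X], aeval t b * x = aeval t a := by
  classical
  induction X using Finset.induction_on with
  | empty => exact ⟨1, one_ne_zero, by simp⟩
  | insert y s hy ih =>
    obtain ⟨b, hb, H⟩ := ih (fun x hx => hX x (Finset.mem_insert_of_mem hx))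
    have hy := hX y (Finset.mem_insert_self _ _)
    rw [IntermediateField.mem_adjoin_simple_iff] at hy
    obtain ⟨r, q, hrq⟩ := hy
    by_cases hq : q = 0
    · refine ⟨b, hb, fun x hx => ?_⟩
      rw [Finset.mem_insert] at hx
      rcases hx with rfl | hx
      · exact ⟨0, by rw [hrq, hq]; simp⟩
      · exact H x hx
    · refine ⟨b * q, mul_ne_zero hb hq, fun x hx => ?_⟩
      have hq' : aeval t q ≠ 0 := fun h => hq ((transcendental_iff.1 ht) q h)
      rw [Finset.mem_insert] at hx
      rcases hx with rfl | hx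
      · exact ⟨b * r, by rw [hrq, map_mul, map_mul, mul_assoc, mul_div_cancel₀ _ hq']⟩
      · obtain ⟨a, ha⟩ := H x hx
        exact ⟨a * q, by rw [map_mul, map_mul, ← ha]; ring⟩

lemma alg_eq (c : K) : algebraMap K (LaurentSeries K) c = HahnSeries.single 0 c := by
  rw [LaurentSeries.algebraMap_apply, HahnSeries.C_apply]

lemma ot_alg {c : K} (hc : c ≠ 0) : (algebraMap K (LaurentSeries K) c).orderTop = 0 := by
  rw [alg_eq, HahnSeries.orderTop_single hc]; rfl

/-- the ring of power series -/
def R0 (K : Type) [Field K] : Subalgebra K (LaurentSeries K) where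
  carrier := {x | 0 ≤ x.orderTop}
  mul_mem' := fun {x y} hx hy => by
    rw [Set.mem_ofPred_eq] at hx hy ⊢
    rw [HahnSeries.orderTop_mul]; exact add_nonneg hx hy
  add_mem' := fun {x y} hx hy => by
    rw [Set.mem_ofPred_eq] at hx hy ⊢
    exact (le_min hx hy).trans HahnSeries.min_orderTop_le_orderTop_add
  algebraMap_mem' := fun c => by
    rw [Set.mem_ofPred_eq]
    by_cases hc : c = 0
    · rw [hc, map_zero, HahnSeries.orderTop_zero]; exact le_top
    · rw [ot_alg hc]

lemma mem_R0 {x : LaurentSeries K} : x ∈ R0 K ↔ 0 ≤ x.orderTop := by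
  change x ∈ {x : LaurentSeries K | 0 ≤ x.orderTop} ↔ _
  rw [Set.mem_ofPred_eq]

lemma aeval_R0 {x : LaurentSeries K} (hx : 0 ≤ x.orderTop) (P : K[X]) :
    0 ≤ (aeval x P).orderTop := by
  rw [← mem_R0]
  have h1 : Algebra.adjoin K {x} ≤ R0 K := by
    rw [Algebra.adjoin_le_iff]
    intro y hy
    rw [Set.mem_singleton_iff.1 hy]
    exact mem_R0.2 hx
  exact h1 (aeval_mem_adjoin_singleton K x)

lemma le_ot_iff {x : LaurentSeries K} {N : ℤ} :
    (N : WithTop ℤ) ≤ x.orderTop ↔ ∀ i < N, x.coeff i = 0 := by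
  constructor
  · intro h i hi
    exact HahnSeries.coeff_eq_zero_of_lt_orderTop (lt_of_lt_of_le (WithTop.coe_lt_coe.2 hi) h)
  · intro h
    by_contra hn
    rw [not_le] at hn
    obtain ⟨i, hi⟩ := WithTop.ne_top_iff_exists.1 hn.ne_top
    rw [← hi, WithTop.coe_lt_coe] at hn
    exact HahnSeries.coeff_orderTop_ne hi.symm (h i hn)

/-- polynomials have antiderivatives -/
lemma antider [CharZero K] (P : K[X]) : ∃ Q : K[X], derivative Q = P := by
  induction P using Polynomial.induction_on' with
  | add p q hp hq =>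
    obtain ⟨a, ha⟩ := hp
    obtain ⟨b, hb⟩ := hq
    exact ⟨a + b, by rw [derivative_add, ha, hb]⟩
  | monomial k a =>
    refine ⟨monomial (k + 1) (a / (k + 1)), ?_⟩
    have h : ((k : K) + 1) ≠ 0 := by exact_mod_cast Nat.succ_ne_zero k
    rw [derivative_monomial]
    simp only [Nat.add_sub_cancel]
    congr 1
    push_cast
    field_simp

lemma approx [CharZero K] {t : F} {c : K} {n : ℤ} (ι : F →ₐ[K] LaurentSeries K)
    (A : Subalgebra K F) (D : Derivation K F F) (hDA : ∀ f ∈ A, D f ∈ A)
    (hA : ∀ f ∈ A, 0 ≤ (ι f).orderTop)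
    (dS : Derivation K (LaurentSeries K) (LaurentSeries K))
    (hdS : ∀ f n, (dS f).coeff n = (n + 1) * f.coeff (n + 1))
    (hδ : ∀ f, dS (ι f) = dS (ι t) * ι (D f))
    (hτ : (ι (t - algebraMap K F c)).orderTop = (n : WithTop ℤ)) (m : ℕ) :
    ∀ f ∈ A, ∃ P : K[X], ((m * n : ℤ) : WithTop ℤ) ≤
      (ι f - aeval (ι (t - algebraMap K F c)) P).orderTop := by
  induction m with
  | zero => intro f hf; exact ⟨0, by simpa using hA f hf⟩
  | succ m ih =>
    intro f hf
    obtain ⟨P, hP⟩ := ih (D f) (hDA f hf)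
    obtain ⟨Q, hQ⟩ := antider P
    set u := ι (t - algebraMap K F c) with hu
    have hu1 : dS u = dS (ι t) := by
      rw [hu, map_sub, AlgHom.commutes, map_sub, Derivation.map_algebraMap, sub_zero]
    let a0 := (ι f - aeval u Q).coeff 0
    refine ⟨Q + C a0, ?_⟩
    have h1 : dS (ι f - aeval u (Q + C a0)) = dS (ι t) * (ι (D f) - aeval u P) := by
      rw [map_sub, hδ, map_add, aeval_C, map_add, Derivation.map_algebraMap, add_zero,
        Derivation.map_aeval, hQ, hu1, smul_eq_mul]
      ring
    have h2 : ((n - 1 : ℤ) : WithTop ℤ) ≤ (dS (ι t)).orderTop := by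
      rw [← hu1, le_ot_iff]
      intro i hi
      rw [hdS, (le_ot_iff.1 hτ.ge) (i + 1) (by omega), mul_zero]
    have h3 : ((n - 1 + m * n : ℤ) : WithTop ℤ) ≤ (dS (ι f - aeval u (Q + C a0))).orderTop := by
      rw [h1, HahnSeries.orderTop_mul, WithTop.coe_add]
      exact add_le_add h2 hP
    rw [le_ot_iff] at h3 ⊢
    intro i hi
    push_cast at hi
    by_cases hi0 : i = 0
    · rw [hi0, map_add, aeval_C, ← sub_sub, HahnSeries.coeff_sub, alg_eq,
        HahnSeries.coeff_single_same]
      exact sub_self _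
    · have h4 := h3 (i - 1) (by linarith)
      rw [hdS, sub_add_cancel] at h4
      rcases mul_eq_zero.1 h4 with h5 | h5
      · exfalso
        push_cast at h5
        rw [sub_add_cancel] at h5
        exact hi0 (by exact_mod_cast h5)
      · exact h5

lemma ot_aeval0 {u : LaurentSeries K} {n : ℤ} (hn : 0 < n) (hu : u.orderTop = (n : WithTop ℤ))
    (P : K[X]) (hP : P.coeff 0 ≠ 0) : (aeval u P).orderTop = 0 := by
  have h0 : 0 ≤ u.orderTop := by rw [hu]; exact_mod_cast hn.le
  have h1 : 0 < (aeval u (divX P) * u).orderTop := by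
    rw [HahnSeries.orderTop_mul, hu]
    have h2 := aeval_R0 h0 (divX P)
    have h3 : (0 : WithTop ℤ) < (n : WithTop ℤ) := by exact_mod_cast hn
    exact lt_of_lt_of_le h3 (le_add_of_nonneg_left h2)
  have h2 : aeval u P = algebraMap K _ (P.coeff 0) + aeval u (divX P) * u := by
    conv_lhs => rw [← divX_mul_X_add P]
    rw [map_add, map_mul, aeval_X, aeval_C, add_comm]
  rw [h2, HahnSeries.orderTop_add_eq_left (by rw [ot_alg hP]; exact h1), ot_alg hP]

lemma ot_aeval {u : LaurentSeries K} {n : ℤ} (hn : 0 < n) (hu : u.orderTop = (n : WithTop ℤ)) :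
    ∀ (d : ℕ) (P : K[X]), P.natDegree = d → P ≠ 0 →
      ∃ k : ℕ, (aeval u P).orderTop = ((k * n : ℤ) : WithTop ℤ) := by
  intro d
  induction d using Nat.strong_induction_on with
  | _ d ih =>
    intro P hd hP
    by_cases h0 : P.coeff 0 = 0
    · have h1 : P = divX P * X := by
        conv_lhs => rw [← divX_mul_X_add P, h0, C_0, add_zero]
      have h2 : divX P ≠ 0 := fun h => hP (by rw [h1, h, zero_mul])
      have h3 : (divX P).natDegree < d := by
        rw [← hd]
        conv_rhs => rw [h1]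
        rw [natDegree_mul_X h2]
        exact Nat.lt_succ_self _
      obtain ⟨k, hk⟩ := ih _ h3 (divX P) rfl h2
      refine ⟨k + 1, ?_⟩
      rw [h1, map_mul, aeval_X, HahnSeries.orderTop_mul, hk, hu, ← WithTop.coe_add]
      congr 1
      push_cast
      ring
    · exact ⟨0, by rw [ot_aeval0 hn hu P h0]; simp⟩

lemma shift {t : F} {c : K} (ι : F →ₐ[K] LaurentSeries K) (P : K[X]) :
    ι (aeval t P) = aeval (ι (t - algebraMap K F c)) (P.comp (X + C c)) := by
  rw [aeval_comp, map_add, aeval_X, aeval_C, map_sub, AlgHom.commutes, sub_add_cancel,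
    Polynomial.aeval_algHom_apply]

lemma comp_ne {c : K} {P : K[X]} (hP : P ≠ 0) : P.comp (X + C c) ≠ 0 := by
  intro h
  apply hP
  have h1 : (P.comp (X + C c)).comp (X - C c) = P := by
    rw [comp_assoc]; simp
  rw [← h1, h, zero_comp]

/-- an integral element is a power series -/
lemma int_mem {E : IntermediateField K F} (ι : F →ₐ[K] LaurentSeries K) (x : F) (p : E[X])
    (hp : p.Monic) (hx : aeval x p = 0) (hc : ∀ i, 0 ≤ (ι (p.coeff i : F)).orderTop) :
    0 ≤ (ι x).orderTop := by
  by_contra hneg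
  rw [not_le] at hneg
  have hx0 : ι x ≠ 0 := by
    intro h
    rw [h, HahnSeries.orderTop_zero] at hneg
    exact absurd hneg (by simp)
  have hinv : 0 ≤ ((ι x)⁻¹).orderTop := by
    by_contra h
    rw [not_le] at h
    have h1 : (ι x * (ι x)⁻¹).orderTop = 0 := by
      rw [mul_inv_cancel₀ hx0, HahnSeries.orderTop_one]
    rw [HahnSeries.orderTop_mul] at h1
    obtain ⟨a, ha⟩ := WithTop.ne_top_iff_exists.1 hneg.ne_top
    obtain ⟨b, hb⟩ := WithTop.ne_top_iff_exists.1 h.ne_top
    rw [← ha] at hneg h1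
    rw [← hb] at h h1
    have h2 : a < 0 := by exact_mod_cast hneg
    have h3 : b < 0 := by exact_mod_cast h
    have h4 : a + b = 0 := by exact_mod_cast h1
    omega
  have hd : 0 < p.natDegree := by
    rcases Nat.eq_zero_or_pos p.natDegree with h | h
    · rw [hp.natDegree_eq_zero] at h
      rw [h, map_one] at hx
      exact absurd hx one_ne_zero
    · exact h
  have h1 : x ^ p.natDegree + ∑ i ∈ Finset.range p.natDegree, (p.coeff i : F) * x ^ i = 0 := by
    have h2 := hx
    rw [hp.as_sum, map_add, map_sum, map_pow, aeval_X] at h2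
    rw [← h2]
    congr 1
    refine Finset.sum_congr rfl fun i _ => ?_
    rw [map_mul, aeval_C, map_pow, aeval_X]
    rfl
  have h3 := congrArg ι h1
  rw [map_add, map_pow, map_sum, map_zero] at h3
  have h4 : ι x = -∑ i ∈ Finset.range p.natDegree,
      ι (p.coeff i : F) * ((ι x)⁻¹) ^ (p.natDegree - 1 - i) := by
    have h5 : ι x = (ι x) ^ p.natDegree * ((ι x)⁻¹) ^ (p.natDegree - 1) := by
      obtain ⟨d, hd'⟩ : ∃ d, p.natDegree = d + 1 := ⟨p.natDegree - 1, by omega⟩
      rw [hd', Nat.add_sub_cancel, pow_succ, mul_comm (ι x ^ d), mul_assoc, ← mul_pow,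
        mul_inv_cancel₀ hx0, one_pow, mul_one]
    rw [eq_neg_of_add_eq_zero_left h3, neg_mul, Finset.sum_mul] at h5
    refine h5.trans ?_
    congr 1
    refine Finset.sum_congr rfl fun i hi => ?_
    rw [Finset.mem_range] at hi
    rw [map_mul, map_pow, mul_assoc]
    congr 1
    obtain ⟨e, he⟩ : ∃ e, p.natDegree - 1 = i + e := ⟨p.natDegree - 1 - i, by omega⟩
    rw [he, Nat.add_sub_cancel_left, pow_add, ← mul_assoc, ← mul_pow, mul_inv_cancel₀ hx0, one_pow,
      one_mul]
  have h6 : ι x ∈ R0 K := by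
    rw [h4]
    exact neg_mem (sum_mem fun i _ => mul_mem (mem_R0.2 (hc i)) (pow_mem (mem_R0.2 hinv) _))
  exact absurd (mem_R0.1 h6) (not_le.2 hneg)

end PFINE

open PFINE Polynomial in
theorem fine (derx : S_DERX) (deru : S_DERU) (dl : S_DL) : S_FINE := by
  classical
  intro K F _ _ _ _ _ t ht hfd
  obtain ⟨D, hDt⟩ := (derx K K F t ht hfd).2
  obtain ⟨dS, hdS⟩ := (dl K K).1
  let E := IntermediateField.adjoin K {t}
  let e := Module.finBasis E F
  -- the finite set of elements of `E`
  let S1 : Finset E := Finset.univ.image fun ij : Fin _ × Fin _ => e.repr (D (e ij.1)) ij.2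
  let S2 : Finset E := Finset.univ.biUnion fun i => (minpoly E (e i)).coeffs
  let X : Finset F := (S1 ∪ S2).image (fun x : E => (x : F))
  have hXE : ∀ x ∈ X, x ∈ IntermediateField.adjoin K {t} := by
    intro x hx
    obtain ⟨y, _, rfl⟩ := Finset.mem_image.1 hx
    exact y.2
  obtain ⟨b, hb, hbX⟩ := comden ht X hXE
  have hbt : aeval t b ≠ 0 := fun h => hb ((transcendental_iff.1 ht) b h)
  refine ⟨b.roots.toFinset, ?_⟩
  rintro ι ⟨π, hπ⟩ c hc n hn hn0
  have hbc : b.eval c ≠ 0 := by
    intro h
    apply hc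
    rw [Multiset.mem_toFinset, mem_roots hb]
    exact h
  have hιb : (ι (aeval t b)).orderTop = 0 := by
    rw [shift (c := c) ι b]
    apply ot_aeval0 hn0 hn
    rw [coeff_zero_eq_eval_zero, eval_comp]
    simpa using hbc
  have hιt : 0 ≤ (ι t).orderTop := by
    have h1 : ι t = ι (t - algebraMap K F c) + algebraMap K _ c := by
      rw [map_sub, AlgHom.commutes, sub_add_cancel]
    rw [← mem_R0, h1]
    refine add_mem ?_ (Subalgebra.algebraMap_mem _ _)
    rw [mem_R0, hn]
    exact_mod_cast hn0.le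
  have hιbi : (ι (aeval t b)⁻¹).orderTop = 0 := by
    have h1 : (ι (aeval t b) * ι (aeval t b)⁻¹).orderTop = 0 := by
      rw [← map_mul, mul_inv_cancel₀ hbt, map_one, HahnSeries.orderTop_one]
    rw [HahnSeries.orderTop_mul, hιb, zero_add] at h1
    exact h1
  have hιX : ∀ x ∈ X, 0 ≤ (ι x).orderTop := by
    intro x hx
    obtain ⟨a, ha⟩ := hbX x hx
    have h1 : x = (aeval t b)⁻¹ * aeval t a := by
      rw [← ha, inv_mul_cancel_left₀ hbt]
    rw [h1, map_mul, HahnSeries.orderTop_mul, hιbi, zero_add, ← Polynomial.aeval_algHom_apply]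
    exact aeval_R0 hιt a
  -- the algebra
  let A : Subalgebra K F := Algebra.adjoin K ({t, (aeval t b)⁻¹} ∪ Set.range e)
  have htA : t ∈ A := Algebra.subset_adjoin (by simp)
  have hbA : (aeval t b)⁻¹ ∈ A := Algebra.subset_adjoin (by simp)
  have heA : ∀ i, e i ∈ A := fun i => Algebra.subset_adjoin (Or.inr ⟨i, rfl⟩)
  have hpA : ∀ P : K[X], aeval t P ∈ A := by
    intro P
    have h1 : Algebra.adjoin K {t} ≤ A := by
      rw [Algebra.adjoin_le_iff]
      intro y hy
      rw [Set.mem_singleton_iff.1 hy]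
      exact htA
    exact h1 (aeval_mem_adjoin_singleton K t)
  have hXA : ∀ x ∈ X, x ∈ A := by
    intro x hx
    obtain ⟨a, ha⟩ := hbX x hx
    have h1 : x = (aeval t b)⁻¹ * aeval t a := by
      rw [← ha, inv_mul_cancel_left₀ hbt]
    rw [h1]
    exact mul_mem hbA (hpA a)
  have hDA : ∀ f ∈ A, D f ∈ A := by
    intro f hf
    induction hf using Algebra.adjoin_induction with
    | mem x hx =>
      rcases hx with hx | ⟨i, rfl⟩
      · rcases hx with hx | hx
        · rw [hx, hDt]; exact one_mem _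
        · rw [Set.mem_singleton_iff.1 hx, Derivation.leibniz_inv, Derivation.map_aeval, hDt]
          simp only [smul_eq_mul, mul_one]
          exact mul_mem (neg_mem (pow_mem hbA 2)) (hpA _)
      · rw [← e.sum_repr (D (e i))]
        refine sum_mem fun j _ => ?_
        rw [IntermediateField.smul_def, smul_eq_mul]
        refine mul_mem (hXA _ ?_) (heA j)
        refine Finset.mem_image_of_mem _ (Finset.mem_union_left _ ?_)
        exact Finset.mem_image.2 ⟨(i, j), Finset.mem_univ _, rfl⟩
    | algebraMap r => rw [Derivation.map_algebraMap]; exact zero_mem _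
    | add x y _ _ hx hy => rw [map_add]; exact add_mem hx hy
    | mul x y hx' hy' hx hy =>
      rw [Derivation.leibniz, smul_eq_mul, smul_eq_mul]
      exact add_mem (mul_mem hx' hy) (mul_mem hy' hx)
  have hA0 : ∀ f ∈ A, 0 ≤ (ι f).orderTop := by
    have h1 : A ≤ (R0 K).comap ι := by
      apply Algebra.adjoin_le
      intro x hx
      rw [SetLike.mem_coe, Subalgebra.mem_comap, mem_R0]
      rcases hx with hx | ⟨i, rfl⟩
      · rcases hx with hx | hx
        · rw [hx]; exact hιt
        · rw [Set.mem_singleton_iff.1 hx]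
          exact hιbi.ge
      · have hint : IsIntegral E (e i) := Algebra.IsIntegral.isIntegral (R := E) (e i)
        refine int_mem ι (e i) (minpoly E (e i)) (minpoly.monic hint) (minpoly.aeval _ _) ?_
        intro k
        by_cases hk : (minpoly E (e i)).coeff k = 0
        · rw [hk, ZeroMemClass.coe_zero, map_zero, HahnSeries.orderTop_zero]; exact le_top
        · apply hιX
          refine Finset.mem_image_of_mem _ (Finset.mem_union_right _ ?_)
          exact Finset.mem_biUnion.2 ⟨i, Finset.mem_univ _, coeff_mem_coeffs hk⟩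
    exact fun f hf => mem_R0.1 ((Subalgebra.mem_comap _ _ _).1 (h1 hf))
  -- the derivations
  have hδ : ∀ f, dS (ι f) = dS (ι t) * ι (D f) := by
    intro f
    have h1 := deru K F (LaurentSeries K) t hfd (ι : F →+* LaurentSeries K)
      (fun x => dS (ι x) - dS (ι t) * ι (D x)) ?_ ?_ ?_ ?_ f
    · exact sub_eq_zero.1 h1
    · intro x y
      simp only [map_add]; ring
    · intro x y
      simp only [map_mul, Derivation.leibniz, smul_eq_mul, map_add, RingHom.coe_coe]; ring
    · intro c
      simp only [AlgHom.commutes, Derivation.map_algebraMap, map_zero, mul_zero, sub_zero]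
    · simp only [hDt, map_one, mul_one, sub_self]
  -- the orders of the elements of `A`
  have hord : ∀ f ∈ A, f ≠ 0 → ∃ k : ℕ, (ι f).orderTop = ((k * n : ℤ) : WithTop ℤ) := by
    intro f hf hf0
    have hιf : ι f ≠ 0 := (map_ne_zero ι).2 hf0
    obtain ⟨N, hN⟩ := WithTop.ne_top_iff_exists.1 (HahnSeries.orderTop_ne_top.2 hιf)
    obtain ⟨P, hP⟩ := approx ι A D hDA hA0 dS hdS hδ hn (N.toNat + 1) f hf
    have h1 : (ι f).orderTop < (ι f - aeval (ι (t - algebraMap K F c)) P).orderTop := by
      refine lt_of_lt_of_le ?_ hP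
      rw [← hN, WithTop.coe_lt_coe]
      have h2 : N ≤ N.toNat := Int.self_le_toNat N
      push_cast
      nlinarith
    have h3 : (aeval (ι (t - algebraMap K F c)) P).orderTop = (ι f).orderTop := by
      have h4 := HahnSeries.orderTop_sub h1
      rwa [sub_sub_cancel] at h4
    have hP0 : P ≠ 0 := by
      intro h
      rw [h, map_zero, HahnSeries.orderTop_zero] at h3
      exact hιf (HahnSeries.orderTop_eq_top.1 h3.symm)
    obtain ⟨k, hk⟩ := ot_aeval hn0 hn _ P rfl hP0
    exact ⟨k, by rw [← h3, hk]⟩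
  -- the quotients
  let Y : Finset F := Finset.univ.image fun i => ((e.repr π i : E) : F)
  obtain ⟨b', hb', hY⟩ := comden ht Y (by
    intro x hx
    obtain ⟨i, _, rfl⟩ := Finset.mem_image.1 hx
    exact (e.repr π i).2)
  have hb't : aeval t b' ≠ 0 := fun h => hb' ((transcendental_iff.1 ht) b' h)
  have hmem : aeval t b' * π ∈ A := by
    have h1 : aeval t b' * π = ∑ i, (aeval t b' * ((e.repr π i : E) : F)) * e i := by
      conv_lhs => rw [← e.sum_repr π, Finset.mul_sum]
      refine Finset.sum_congr rfl fun i _ => ?_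
      rw [IntermediateField.smul_def, smul_eq_mul, mul_assoc]
    rw [h1]
    refine sum_mem fun i _ => mul_mem ?_ (heA i)
    obtain ⟨a, ha⟩ := hY _ (Finset.mem_image_of_mem _ (Finset.mem_univ i))
    rw [ha]
    exact hpA a
  have hπ0 : π ≠ 0 := by
    intro h
    rw [h, map_zero, HahnSeries.orderTop_zero] at hπ
    exact absurd hπ (by simp)
  obtain ⟨k, hk⟩ := hord _ hmem (mul_ne_zero hb't hπ0)
  obtain ⟨l, hl⟩ := hord _ (hpA b') hb't
  rw [map_mul, HahnSeries.orderTop_mul, hl, hπ] at hk
  have h1 : ((l * n : ℤ) : WithTop ℤ) + ((1 : ℤ) : WithTop ℤ) = ((k * n : ℤ) : WithTop ℤ) := hk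
  rw [← WithTop.coe_add, WithTop.coe_inj] at h1
  have h2 : n ∣ 1 := ⟨k - l, by linarith [h1, mul_comm n ((k : ℤ) - l), sub_mul (k : ℤ) l n]⟩
  exact Int.eq_one_of_dvd_one hn0.le h2

end Pool.Agent.H432.AC
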