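import Mathlib
import Pool.Agent.H432.AC.Stm

set_option autoImplicit false
set_option linter.unusedVariables false

namespace Pool.Agent.H432.AC.PFINORD

open Polynomial

section
variable {K F : Type} [Field K] [Field F] [Algebra K F]

theorem algMap_eq (c : K) : algebraMap K (LaurentSeries K) c = HahnSeries.C c := by
  rw [HahnSeries.algebraMap_apply']
  have : algebraMap K (PowerSeries K) c = PowerSeries.C c := rfl
  rw [this, HahnSeries.ofPowerSeries_C]

theorem ord_const (c : K) : 0 ≤ (algebraMap K (LaurentSeries K) c).orderTop := by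
  rw [algMap_eq]
  by_cases hc : c = 0
  · subst hc
    simp
  · rw [HahnSeries.C_apply, HahnSeries.orderTop_single hc]
    exact le_rfl

theorem ord_const_eq {c : K} (hc : c ≠ 0) : (algebraMap K (LaurentSeries K) c).orderTop = 0 := by
  rw [algMap_eq, HahnSeries.C_apply, HahnSeries.orderTop_single hc]
  rfl

/-- The order as an additive valuation. -/
noncomputable def v (K : Type) [Field K] : AddValuation (LaurentSeries K) (WithTop ℤ) :=
  HahnSeries.addVal ℤ K

theorem v_apply (x : LaurentSeries K) : v K x = x.orderTop := HahnSeries.addVal_apply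

theorem poly_nonneg (ι : F →ₐ[K] LaurentSeries K) (t : F) (c : K)
    (h : 0 < (ι (t - algebraMap K F c)).orderTop) (p : K[X]) : 0 ≤ v K (ι (aeval t p)) := by
  have ht : 0 ≤ v K (ι t) := by
    have e : ι t = ι (t - algebraMap K F c) + algebraMap K (LaurentSeries K) c := by
      rw [map_sub, AlgHom.commutes]; ring
    rw [e]
    refine le_trans ?_ (AddValuation.map_add _ _ _)
    refine le_min ?_ ?_
    · rw [v_apply]; exact h.le
    · rw [v_apply]; exact ord_const c
  rw [Polynomial.aeval_eq_sum_range, map_sum]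
  refine AddValuation.map_le_sum (v K) (fun i _ => ?_)
  rw [Algebra.smul_def, map_mul, AlgHom.commutes, map_pow, AddValuation.map_mul,
    AddValuation.map_pow]
  refine add_nonneg ?_ (nsmul_nonneg ht i)
  rw [v_apply]; exact ord_const _

theorem poly_zero (ι : F →ₐ[K] LaurentSeries K) (t : F) (c : K)
    (h : 0 < (ι (t - algebraMap K F c)).orderTop) (p : K[X]) (hp : p.eval c ≠ 0) :
    v K (ι (aeval t p)) = 0 := by
  obtain ⟨q, hq⟩ : (X - C c) ∣ (p - C (p.eval c)) := Polynomial.X_sub_C_dvd_sub_C_eval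
  have e : p = (X - C c) * q + C (p.eval c) := by rw [← hq]; ring
  have e2 : ι (aeval t p) = ι (t - algebraMap K F c) * ι (aeval t q)
      + algebraMap K (LaurentSeries K) (p.eval c) := by
    conv_lhs => rw [e]
    simp only [map_add, map_mul, map_sub, aeval_X, aeval_C, AlgHom.commutes]
  have h0 : v K (algebraMap K (LaurentSeries K) (p.eval c)) = 0 := by
    rw [v_apply]; exact ord_const_eq hp
  have h1 : 0 < v K (ι (t - algebraMap K F c) * ι (aeval t q)) := by
    rw [AddValuation.map_mul]
    refine lt_of_lt_of_le ?_ (add_le_add le_rfl (poly_nonneg ι t c h q))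
    rw [add_zero, v_apply]; exact h
  rw [e2, AddValuation.map_add_eq_of_lt_right (v K) (by rw [h0]; exact h1), h0]

theorem nonneg_of_rel (ι : F →ₐ[K] LaurentSeries K) (t : F) (c : K)
    (h : 0 < (ι (t - algebraMap K F c)).orderTop) (r : ℕ) (a : ℕ → K[X]) (f : F) (hf : f ≠ 0)
    (hr : (a r).eval c ≠ 0)
    (hs : ∑ i ∈ Finset.range (r + 1), aeval t (a i) * f ^ i = 0) : 0 ≤ v K (ι f) := by
  by_contra hneg
  push Not at hneg
  obtain ⟨n, hn⟩ : ∃ n : ℤ, v K (ι f) = (n : WithTop ℤ) :=
    ⟨(v K (ι f)).untop (ne_top_of_lt hneg), (WithTop.coe_untop _ _).symm⟩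
  rw [hn] at hneg
  have hn0 : n < 0 := by exact_mod_cast hneg
  rw [Finset.sum_range_succ] at hs
  have hs2 := congrArg ι hs
  rw [map_add, map_zero, map_sum] at hs2
  have hlast : v K (ι (aeval t (a r) * f ^ r)) = ((r * n : ℤ) : WithTop ℤ) := by
    rw [map_mul, map_pow, AddValuation.map_mul, AddValuation.map_pow, poly_zero ι t c h _ hr, hn,
      zero_add, ← WithTop.coe_nsmul, nsmul_eq_mul]
  have hrest : ((r * n : ℤ) : WithTop ℤ) <
      v K (∑ i ∈ Finset.range r, ι (aeval t (a i) * f ^ i)) := by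
    refine AddValuation.map_lt_sum (v K) WithTop.coe_ne_top (fun i hi => ?_)
    rw [map_mul, map_pow, AddValuation.map_mul, AddValuation.map_pow, hn]
    refine lt_of_lt_of_le ?_ (add_le_add (poly_nonneg ι t c h (a i)) le_rfl)
    rw [zero_add, ← WithTop.coe_nsmul, nsmul_eq_mul]
    have hi' : (i : ℤ) < r := by exact_mod_cast Finset.mem_range.mp hi
    have : (r : ℤ) * n < i * n := by nlinarith
    exact_mod_cast this
  have hsum : v K (∑ i ∈ Finset.range r, ι (aeval t (a i) * f ^ i)
      + ι (aeval t (a r) * f ^ r)) = ((r * n : ℤ) : WithTop ℤ) := by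
    rw [AddValuation.map_add_eq_of_lt_right (v K) (by rw [hlast]; exact hrest), hlast]
  rw [hs2, AddValuation.map_zero] at hsum
  exact WithTop.coe_ne_top hsum.symm

open scoped IntermediateField.algebraAdjoinAdjoin in
theorem exists_rel (t : F) (hfin : FiniteDimensional (IntermediateField.adjoin K {t}) F)
    (f : F) (hf : f ≠ 0) : ∃ (r : ℕ) (a : ℕ → K[X]), a 0 ≠ 0 ∧ a r ≠ 0 ∧
      ∑ i ∈ Finset.range (r + 1), aeval t (a i) * f ^ i = 0 := by
  have h1 : IsAlgebraic (IntermediateField.adjoin K {t}) f := Algebra.IsAlgebraic.isAlgebraic f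
  have h2 : IsAlgebraic (Algebra.adjoin K {t}) f := by
    exact (IsFractionRing.isAlgebraic_iff (Algebra.adjoin K {t})
      (IntermediateField.adjoin K {t}) F (x := f)).2 h1
  obtain ⟨q, hq0, hq⟩ := h2.exists_nonzero_coeff_and_aeval_eq_zero
    (mem_nonZeroDivisors_of_ne_zero hf)
  have hq' : q ≠ 0 := by
    rintro rfl
    exact hq0 (by simp)
  have hlift : ∀ x : Algebra.adjoin K {t}, ∃ p : K[X], aeval t p = (x : F) := by
    rintro ⟨x, hx⟩
    rw [Algebra.adjoin_singleton_eq_range_aeval] at hx
    exact hx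
  choose L hL using hlift
  refine ⟨q.natDegree, fun i => L (q.coeff i), ?_, ?_, ?_⟩
  · intro h0
    apply hq0
    have := hL (q.coeff 0)
    have h0' : L (q.coeff 0) = 0 := h0
    rw [h0', map_zero] at this
    exact Subtype.ext this.symm
  · intro h0
    apply hq'
    have := hL (q.coeff q.natDegree)
    have h0' : L (q.coeff q.natDegree) = 0 := h0
    rw [h0', map_zero] at this
    rw [← Polynomial.leadingCoeff_eq_zero]
    exact Subtype.ext this.symm
  · rw [Polynomial.aeval_eq_sum_range] at hq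
    rw [← hq]
    refine Finset.sum_congr rfl (fun i _ => ?_)
    rw [hL, Algebra.smul_def]
    rfl

end

end Pool.Agent.H432.AC.PFINORD

namespace Pool.Agent.H432.AC

open Polynomial PFINORD in
theorem finord : S_FINORD := by
  intro K F _ _ _ t ht hfin f hf
  classical
  obtain ⟨r, a, h0, hr, hs⟩ := exists_rel t hfin f hf
  refine ⟨(a 0 * a r).roots.toFinset, ?_⟩
  intro ι c hc hpos
  have hne : (a 0 * a r) ≠ 0 := mul_ne_zero h0 hr
  have hev : (a 0 * a r).eval c ≠ 0 := by
    intro hz
    apply hc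
    rw [Multiset.mem_toFinset, Polynomial.mem_roots hne]
    exact hz
  rw [Polynomial.eval_mul] at hev
  have he0 : (a 0).eval c ≠ 0 := left_ne_zero_of_mul hev
  have her : (a r).eval c ≠ 0 := right_ne_zero_of_mul hev
  have hA : 0 ≤ v K (ι f) := nonneg_of_rel ι t c hpos r a f hf her hs
  have hB : 0 ≤ v K (ι f⁻¹) := by
    refine nonneg_of_rel ι t c hpos r (fun i => a (r - i)) f⁻¹ (inv_ne_zero hf) ?_ ?_
    · simpa using he0
    · have hs' := congrArg (fun x => x * (f⁻¹) ^ r) hs
      simp only [zero_mul] at hs'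
      rw [Finset.sum_mul] at hs'
      rw [← hs', ← Finset.sum_range_reflect]
      refine Finset.sum_congr rfl (fun i hi => ?_)
      have hi' : i ≤ r := Nat.lt_succ_iff.mp (Finset.mem_range.mp hi)
      have e1 : r - (r - i) = i := by omega
      have e2 : r + 1 - 1 - i = r - i := by omega
      simp only [e2, e1]
      have e3 : (f⁻¹) ^ r = (f⁻¹) ^ i * (f⁻¹) ^ (r - i) := by rw [← pow_add]; congr 1; omega
      rw [e3]
      have e4 : f ^ i * (f⁻¹) ^ i = 1 := by rw [← mul_pow, mul_inv_cancel₀ hf, one_pow]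
      calc aeval t (a i) * (f⁻¹) ^ (r - i) = aeval t (a i) * (f ^ i * (f⁻¹) ^ i) * (f⁻¹) ^ (r - i) := by
            rw [e4, mul_one]
        _ = _ := by ring
  have hmul : v K (ι f) + v K (ι f⁻¹) = 0 := by
    rw [← AddValuation.map_mul, ← map_mul, mul_inv_cancel₀ hf, map_one, AddValuation.map_one]
  have hle : v K (ι f) ≤ 0 := by
    rw [← hmul]
    exact le_add_of_nonneg_right hB
  rw [← v_apply]
  exact le_antisymm hle hA

end Pool.Agent.H432.AC
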