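import Mathlib
import Pool.Agent.H432.AC.Stm

/-!
Łoś's theorem for irreducible polynomials in two variables.
-/

set_option autoImplicit false

namespace Pool.Agent.H432.AC

open MvPolynomial Filter Pool.Agent.N750 Pool.Agent.H432.RC NumberField

namespace PIRR

variable {α : Type} {𝓕 : Ultrafilter α} {K : Type} [Field K]

/-- equality of polynomials over the ultrapower -/
lemma map_eq_iff (A B : MvPolynomial (Fin 2) (α → K)) :
    MvPolynomial.map (mk 𝓕) A = MvPolynomial.map (mk 𝓕) B ↔ ∀ᶠ t in (𝓕 : Filter α),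
      MvPolynomial.map (Pi.evalRingHom (fun _ : α => K) t) A =
        MvPolynomial.map (Pi.evalRingHom (fun _ : α => K) t) B := by
  classical
  constructor
  · intro h
    have h1 : ∀ m ∈ A.support ∪ B.support, ∀ᶠ t in (𝓕 : Filter α), coeff m A t = coeff m B t := by
      intro m _
      have h2 := congrArg (coeff m) h
      rw [coeff_map, coeff_map] at h2
      exact mk_eq.1 h2
    have h3 := (Filter.eventually_all_finset (A.support ∪ B.support)).2 h1
    filter_upwards [h3] with t ht
    ext m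
    rw [coeff_map, coeff_map]
    by_cases hm : m ∈ A.support ∪ B.support
    · exact ht m hm
    · rw [Finset.mem_union, not_or, notMem_support_iff, notMem_support_iff] at hm
      rw [hm.1, hm.2]
  · intro h
    ext m
    rw [coeff_map, coeff_map]
    apply mk_eq.2
    filter_upwards [h] with t ht
    have h2 := congrArg (coeff m) ht
    rw [coeff_map, coeff_map] at h2
    exact h2

/-- units over the ultrapower -/
lemma unit_of (A : MvPolynomial (Fin 2) (α → K))
    (h : ∀ᶠ t in (𝓕 : Filter α), IsUnit (MvPolynomial.map (Pi.evalRingHom (fun _ : α => K) t) A)) :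
    IsUnit (MvPolynomial.map (mk 𝓕) A) := by
  have h1 : ∀ᶠ t in (𝓕 : Filter α), coeff 0 A t ≠ 0 ∧
      MvPolynomial.map (Pi.evalRingHom (fun _ : α => K) t) A =
        MvPolynomial.map (Pi.evalRingHom (fun _ : α => K) t) (C (coeff 0 A)) := by
    filter_upwards [h] with t ht
    obtain ⟨c, hc, hc2⟩ := MvPolynomial.isUnit_iff_eq_C_of_isReduced.1 ht
    have h2 : c = coeff 0 A t := by
      have h3 := congrArg (coeff 0) hc2
      rw [coeff_map, coeff_zero_C] at h3
      exact h3.symm
    rw [← h2]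
    refine ⟨hc.ne_zero, ?_⟩
    rw [hc2, map_C]
    congr 1
  have h4 : MvPolynomial.map (mk 𝓕) A = MvPolynomial.map (mk 𝓕) (C (coeff 0 A)) :=
    (map_eq_iff A _).2 (h1.mono fun t ht => ht.2)
  rw [h4, map_C]
  exact (IsUnit.mk0 _ (mk_ne_zero.2 (h1.mono fun t ht => ht.1))).map C

end PIRR

open PIRR in
theorem irr : S_IRR := by
  intro α 𝓕 K _ P hP
  rw [irreducible_iff]
  refine ⟨?_, ?_⟩
  · intro hu
    obtain ⟨Q, hQ⟩ := hu.exists_right_inv
    obtain ⟨Q', rfl⟩ := MvPolynomial.map_surjective (mk 𝓕) (fun x => mk_surj x) Q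
    rw [← map_mul, ← map_one (MvPolynomial.map (mk 𝓕))] at hQ
    have h1 := (map_eq_iff _ _).1 hQ
    obtain ⟨t, h2, h3⟩ := (h1.and hP).exists
    rw [map_mul, map_one] at h2
    exact h3.not_isUnit (IsUnit.of_mul_eq_one _ h2)
  · intro A B hAB
    obtain ⟨A', rfl⟩ := MvPolynomial.map_surjective (mk 𝓕) (fun x => mk_surj x) A
    obtain ⟨B', rfl⟩ := MvPolynomial.map_surjective (mk 𝓕) (fun x => mk_surj x) B
    rw [← map_mul] at hAB
    have h1 := (map_eq_iff _ _).1 hAB
    have h2 : ∀ᶠ t in (𝓕 : Filter α),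
        IsUnit (MvPolynomial.map (Pi.evalRingHom (fun _ : α => K) t) A') ∨
        IsUnit (MvPolynomial.map (Pi.evalRingHom (fun _ : α => K) t) B') := by
      filter_upwards [h1, hP] with t ht1 ht2
      rw [map_mul] at ht1
      exact ht2.isUnit_or_isUnit ht1
    rcases Ultrafilter.eventually_or.1 h2 with h3 | h3
    · exact Or.inl (unit_of A' h3)
    · exact Or.inr (unit_of B' h3)

end Pool.Agent.H432.AC
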