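import Mathlib
import Pool.Agent.H432.AC.Stm

/-!
The order of the minors of `(ψ, dS ψ, D ψ)` at a point of normal crossings.
-/

set_option autoImplicit false
set_option linter.unusedVariables false
set_option linter.unusedSectionVars false

namespace Pool.Agent.H432.AC.PLOC

/-- one step: constant column operations make `e` columns vanish modulo `T` -/
theorem step {E R : Type} [Field E] [CommRing R] (ρ : R →+* E) (C : E →+* R) (T : R)
    (hρC : ∀ c, ρ (C c) = c) (hρ : ∀ p, ρ p = 0 → T ∣ p) {M p : ℕ} (B : Fin M → Fin p → R) :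
    ∃ (U : Matrix (Fin p) (Fin p) E) (ε : Fin p → ℕ) (B' : Fin M → Fin p → R),
      U.det ≠ 0 ∧ (∀ c, ε c ≤ 1) ∧
      ∑ c, ε c + Module.finrank E (Submodule.span E (Set.range fun c : Fin p =>
        fun l => ρ (B l c))) = p ∧
      ∀ l c, ∑ c', B l c' * C (U c' c) = T ^ ε c * B' l c := by
  classical
  let Λ : (Fin p → E) →ₗ[E] (Fin M → E) := LinearMap.pi fun l =>
    ∑ c', (ρ (B l c')) • LinearMap.proj c'
  have hΛ : ∀ w l, Λ w l = ∑ c', ρ (B l c') * w c' := by
    intro w l
    simp only [Λ, LinearMap.pi_apply, LinearMap.sum_apply, LinearMap.smul_apply,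
      LinearMap.proj_apply, smul_eq_mul]
  have hrange : LinearMap.range Λ = Submodule.span E (Set.range fun c : Fin p =>
        fun l => ρ (B l c)) := by
    apply le_antisymm
    · rintro _ ⟨w, rfl⟩
      have h1 : Λ w = ∑ c', w c' • (fun l => ρ (B l c')) := by
        funext l
        rw [hΛ, Finset.sum_apply]
        exact Finset.sum_congr rfl fun c' _ => mul_comm _ _
      rw [h1]
      exact Submodule.sum_mem _ fun c' _ => Submodule.smul_mem _ _
        (Submodule.subset_span ⟨c', rfl⟩)
    · rw [Submodule.span_le]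
      rintro _ ⟨c, rfl⟩
      refine ⟨Pi.single c 1, ?_⟩
      funext l
      rw [hΛ, Finset.sum_eq_single c]
      · simp
      · intro c' _ hc
        rw [Pi.single_eq_of_ne hc, mul_zero]
      · intro h
        exact absurd (Finset.mem_univ _) h
  set K0 := LinearMap.ker Λ with hK0
  obtain ⟨K1, hK1⟩ := K0.exists_isCompl
  let B0 := (Module.finBasis E K0).prod (Module.finBasis E K1)
  let Bs := B0.map (Submodule.prodEquivOfIsCompl K0 K1 hK1)
  have hcard : Fintype.card (Fin (Module.finrank E K0) ⊕ Fin (Module.finrank E K1)) =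
      Fintype.card (Fin p) := by
    rw [← Module.finrank_eq_card_basis Bs, Module.finrank_fin_fun, Fintype.card_fin]
  let e : Fin (Module.finrank E K0) ⊕ Fin (Module.finrank E K1) ≃ Fin p :=
    Fintype.equivOfCardEq hcard
  let B' := Bs.reindex e
  set U : Matrix (Fin p) (Fin p) E := Matrix.of fun x c => B' c x with hU
  have hUdet : U.det ≠ 0 := by
    have h1 : U = (Pi.basisFun E (Fin p)).toMatrix B' := by
      ext x c
      rw [Module.Basis.toMatrix_apply]
      simp [hU]
    rw [h1]
    have h2 := (Pi.basisFun E (Fin p)).isUnit_det B'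
    rw [Module.Basis.det_apply] at h2
    exact h2.ne_zero
  have hB0 : ∀ i, Bs (Sum.inl i) ∈ K0 := by
    intro i
    have h1 : Bs (Sum.inl i) = (Submodule.prodEquivOfIsCompl K0 K1 hK1) (B0 (Sum.inl i)) := rfl
    rw [h1, Submodule.coe_prodEquivOfIsCompl']
    rw [show (B0 (Sum.inl i)).1 = _ from Module.Basis.prod_apply_inl_fst _ _ i,
      show (B0 (Sum.inl i)).2 = 0 from Module.Basis.prod_apply_inl_snd _ _ i]
    rw [Submodule.coe_zero, add_zero]
    exact Subtype.mem _
  have hker : ∀ (i : Fin (Module.finrank E K0)) (x : Fin M),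
      ∑ c, ρ (B x c) * Bs (Sum.inl i) c = 0 := by
    intro i x
    have h1 : Λ (Bs (Sum.inl i)) = 0 := LinearMap.mem_ker.1 (hB0 i)
    have h2 := congrFun h1 x
    rw [hΛ] at h2
    exact h2
  set ε : Fin p → ℕ := fun c => Sum.elim (fun _ => 1) (fun _ => 0) (e.symm c) with hε
  have hdvd : ∀ (x : Fin M) (c : Fin p), ∃ w : R, ∑ c', B x c' * C (U c' c) =
      T ^ ε c * w := by
    intro x c
    obtain ⟨i | i, hi⟩ : ∃ s, e.symm c = s := ⟨_, rfl⟩
    · have h0 : ε c = 1 := by
        rw [hε]
        simp only
        rw [hi, Sum.elim_inl]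
      rw [h0, pow_one]
      have h2 : ρ (∑ c', B x c' * C (U c' c)) = 0 := by
        rw [map_sum]
        have h3 : B' c = Bs (Sum.inl i) := by
          rw [← hi]
          exact Module.Basis.reindex_apply _ _ _
        rw [← hker i x]
        refine Finset.sum_congr rfl fun l _ => ?_
        rw [map_mul, hρC, hU, Matrix.of_apply, h3]
      exact hρ _ h2
    · have h0 : ε c = 0 := by
        rw [hε]
        simp only
        rw [hi, Sum.elim_inr]
      rw [h0, pow_zero]
      exact ⟨_, (one_mul _).symm⟩
  choose W hW using hdvd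
  refine ⟨U, ε, W, hUdet, ?_, ?_, hW⟩
  · intro c
    rw [hε]
    simp only
    rcases e.symm c with i | i
    · exact le_refl 1
    · exact Nat.zero_le 1
  · have h1 : ∑ c, ε c = Module.finrank E K0 := by
      rw [hε]
      rw [Equiv.sum_comp e.symm (fun s => Sum.elim (fun _ => 1) (fun _ => 0) s)]
      rw [Fintype.sum_sum_type]
      simp
    have h2 := LinearMap.finrank_range_add_finrank_ker Λ
    rw [Module.finrank_fin_fun, hrange, ← hK0] at h2
    rw [h1, add_comm]
    exact h2

/-- **divisibility of the minors** -/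
theorem dvn {E R : Type} [Field E] [CommRing R] [IsDomain R] (ρ : R →+* E) (C : E →+* R) (T : R)
    (hT0 : T ≠ 0) (hρC : ∀ c, ρ (C c) = c) (hρ : ∀ p, ρ p = 0 → T ∣ p) (hρT : ρ T = 0)
    {M p q : ℕ} {κ : Type} (Gr : κ → Fin M → R) (Q : Fin q → Fin M → R) (I0 : Finset (Fin q))
    (hdim : ∀ I : Finset (Fin q), I ⊆ I0 → ∀ W : Submodule E (Fin M → E),
      (∀ v ∈ W, (∀ s, ∑ l, ρ (Gr s l) * v l = 0) ∧
        ∀ i ∈ I, ∑ l, ρ (Q i l) * v l = 0) → Module.finrank E W + I.card ≤ p) :
    ∀ (N : ℕ) (m : Fin q → ℕ), (∀ i, m i ≤ N) → (∀ i, m i ≠ 0 → i ∈ I0) →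
      ∀ B : Fin M → Fin p → R, (∀ s c, ∑ l, Gr s l * B l c = 0) →
      (∀ i c, T ^ m i ∣ ∑ l, Q i l * B l c) → ∀ J : Fin p → Fin M,
      T ^ (∑ i, m i) ∣ (Matrix.of fun x c => B (J x) c).det := by
  classical
  intro N
  induction N with
  | zero =>
    intro m hm _ B _ _ J
    have h1 : ∑ i, m i = 0 := Finset.sum_eq_zero fun i _ => Nat.le_zero.1 (hm i)
    rw [h1, pow_zero]
    exact one_dvd _
  | succ N ih =>
    intro m hm hI B hG hR J
    set I : Finset (Fin q) := Finset.univ.filter fun i => m i ≠ 0 with hIdef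
    have hII0 : I ⊆ I0 := fun i hi => hI i (Finset.mem_filter.1 hi).2
    obtain ⟨U, ε, B', hU, hε1, hε, hB'⟩ := step ρ C T hρC hρ B
    have hW := hdim I hII0 (Submodule.span E (Set.range fun c : Fin p =>
        fun l => ρ (B l c))) (by
      intro v hv
      induction hv using Submodule.span_induction with
      | mem v hv =>
        obtain ⟨c, rfl⟩ := hv
        constructor
        · intro s
          have h1 := congrArg ρ (hG s c)
          rw [map_sum, map_zero] at h1
          rw [← h1]
          exact Finset.sum_congr rfl fun l _ => (map_mul ρ _ _).symm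
        · intro i hi
          obtain ⟨w, hw⟩ := hR i c
          have h1 := congrArg ρ hw
          rw [map_sum, map_mul, map_pow, hρT,
            zero_pow (Finset.mem_filter.1 hi).2, zero_mul] at h1
          rw [← h1]
          exact Finset.sum_congr rfl fun l _ => (map_mul ρ _ _).symm
      | zero => simp
      | add v w _ _ hv hw =>
        refine ⟨fun s => ?_, fun i hi => ?_⟩
        · simp only [Pi.add_apply, mul_add, Finset.sum_add_distrib, hv.1 s, hw.1 s, add_zero]
        · simp only [Pi.add_apply, mul_add, Finset.sum_add_distrib, hv.2 i hi, hw.2 i hi,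
            add_zero]
      | smul a v _ hv =>
        refine ⟨fun s => ?_, fun i hi => ?_⟩
        · have h1 : ∀ l, ρ (Gr s l) * (a • v) l = a * (ρ (Gr s l) * v l) := by
            intro l
            rw [Pi.smul_apply, smul_eq_mul]
            ring
          rw [Finset.sum_congr rfl fun l _ => h1 l, ← Finset.mul_sum, hv.1 s, mul_zero]
        · have h1 : ∀ l, ρ (Q i l) * (a • v) l = a * (ρ (Q i l) * v l) := by
            intro l
            rw [Pi.smul_apply, smul_eq_mul]
            ring
          rw [Finset.sum_congr rfl fun l _ => h1 l, ← Finset.mul_sum, hv.2 i hi, mul_zero])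
    have hcard : I.card ≤ ∑ c, ε c := by omega
    -- the new data
    set m' : Fin q → ℕ := fun i => m i - 1 with hm'
    have hsum : ∑ i, m i = ∑ i, m' i + I.card := by
      rw [Finset.card_eq_sum_ones, hIdef, Finset.sum_filter, ← Finset.sum_add_distrib]
      refine Finset.sum_congr rfl fun i _ => ?_
      rw [hm']
      simp only
      split_ifs with h
      · omega
      · push Not at h
        omega
    have hcomb : ∀ (r : Fin M → R) (c : Fin p),
        T ^ ε c * ∑ l, r l * B' l c = ∑ c', C (U c' c) * ∑ l, r l * B l c' := by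
      intro r c
      rw [Finset.mul_sum]
      have h1 : ∀ l, T ^ ε c * (r l * B' l c) = ∑ c', C (U c' c) * (r l * B l c') := by
        intro l
        have h2 := hB' l c
        calc T ^ ε c * (r l * B' l c) = r l * (T ^ ε c * B' l c) := by ring
          _ = r l * ∑ c', B l c' * C (U c' c) := by rw [h2]
          _ = ∑ c', C (U c' c) * (r l * B l c') := by
            rw [Finset.mul_sum]
            exact Finset.sum_congr rfl fun c' _ => by ring
      rw [Finset.sum_congr rfl fun l _ => h1 l, Finset.sum_comm]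
      refine Finset.sum_congr rfl fun c' _ => ?_
      rw [Finset.mul_sum]
    have hG' : ∀ s c, ∑ l, Gr s l * B' l c = 0 := by
      intro s c
      have h1 := hcomb (Gr s) c
      have h2 : ∑ c', C (U c' c) * ∑ l, Gr s l * B l c' = 0 :=
        Finset.sum_eq_zero fun c' _ => by rw [hG, mul_zero]
      rw [h2] at h1
      exact (mul_eq_zero.1 h1).resolve_left (pow_ne_zero _ hT0)
    have hR' : ∀ i c, T ^ m' i ∣ ∑ l, Q i l * B' l c := by
      intro i c
      have h1 := hcomb (Q i) c
      have h2 : T ^ m i ∣ T ^ ε c * ∑ l, Q i l * B' l c := by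
        rw [h1]
        exact Finset.dvd_sum fun c' _ => Dvd.dvd.mul_left (hR i c') _
      by_cases h0 : m i = 0
      · have h3 : m' i = 0 := by
          rw [hm']
          simp only
          omega
        rw [h3, pow_zero]
        exact one_dvd _
      · have h3 : T ^ ε c * T ^ m' i ∣ T ^ m i := by
          rw [← pow_add]
          refine pow_dvd_pow _ ?_
          have := hε1 c
          rw [hm']
          simp only
          omega
        exact (mul_dvd_mul_iff_left (pow_ne_zero _ hT0)).1 (h3.trans h2)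
    have hrec := ih m' (fun i => by have := hm i; rw [hm']; simp only; omega) (fun i hi => by
      refine hI i ?_
      intro h
      apply hi
      rw [hm']
      simp only
      omega) B' hG' hR' J
    -- determinants
    have h1 : (Matrix.of fun x c => B (J x) c) * U.map C = Matrix.of fun x c =>
        T ^ ε c * (Matrix.of fun x c => B' (J x) c) x c := by
      ext1 x c
      rw [Matrix.mul_apply, Matrix.of_apply, Matrix.of_apply, ← hB']
      rfl
    have h2 := congrArg Matrix.det h1
    rw [Matrix.det_mul, Matrix.det_mul_row] at h2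
    have h4 : (U.map C).det = C U.det := by
      have := RingHom.map_det C U
      rw [this]
      rfl
    rw [h4, Finset.prod_pow_eq_pow_sum] at h2
    have h6 : (Matrix.of fun x c => B (J x) c).det =
        (Matrix.of fun x c => B (J x) c).det * C U.det * C (U.det)⁻¹ := by
      rw [mul_assoc, ← map_mul, mul_inv_cancel₀ hU, map_one, mul_one]
    rw [h6, h2, hsum, add_comm, pow_add]
    exact Dvd.dvd.mul_right (mul_dvd_mul (pow_dvd_pow _ hcard) hrec) _

open MvPolynomial Pool.Agent.N750 Pool.Agent.H432.RC in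
/-- the order of the minors, abstract form -/
theorem locR {k E R : Type} [Field k] [Field E] [CommRing R] [IsDomain R] [Algebra k E]
    [Algebra k R] (ρ : R →ₐ[k] E) (C : E →+* R) (T : R) (hT0 : T ≠ 0) (hρC : ∀ c, ρ (C c) = c)
    (hρ : ∀ p, ρ p = 0 → T ∣ p) (hρT : ρ T = 0) {M g q w n' : ℕ}
    (G : Fin g → MvPolynomial (Fin M) k) (e : Fin g → ℕ) (hG : ∀ i, (G i).IsHomogeneous (e i))
    (hsm : Sm (n' + 1) G) (F : Fin q → Fin w → MvPolynomial (Fin M) k) (δ : Fin q → ℕ)
    (hF : ∀ i j, (F i j).IsHomogeneous (δ i)) (hnc : NCD G F) (χ : Fin M → R)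
    (hX : ∀ i, aeval χ (G i) = 0) (hz : ∃ l, ρ (χ l) ≠ 0) (m : Fin q → ℕ)
    (hm : ∀ i j, T ^ m i ∣ aeval χ (F i j)) (dT : Derivation k R R)
    (𝔇 : Fin n' → Derivation k R R) (h𝔇 : ∀ i, T ∣ 𝔇 i T) (J : Fin (n' + 2) → Fin M) :
    T ^ (∑ i, m i - 1) ∣ (Matrix.of fun x c => (Fin.cons (χ (J x)) (Fin.cons (dT (χ (J x)))
      (fun i => 𝔇 i (χ (J x)))) : Fin (n' + 2) → R) c).det := by
  classical
  have hev : ∀ P : MvPolynomial (Fin M) k, ρ (aeval χ P) = aeval (fun l => ρ (χ l)) P :=
    fun P => (MvPolynomial.comp_aeval_apply χ ρ P)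
  set z : Fin M → E := fun l => ρ (χ l) with hzdef
  have hz0 : z ≠ 0 := by
    obtain ⟨l, hl⟩ := hz
    exact fun h => hl (congrFun h l)
  have hXz : ∀ i, aeval z (G i) = 0 := by
    intro i
    rw [← hev, hX, map_zero]
  obtain ⟨Jn, hJn⟩ := hnc E z hz0 hXz
  set I0 : Finset (Fin q) := Finset.univ.filter fun i => ∀ j, aeval z (F i j) = 0 with hI0
  have h𝔇1 : T ∣ (T • dT) T := by
    show T ∣ T • dT T
    rw [smul_eq_mul]
    exact dvd_mul_right _ _
  set B1 : Fin M → Fin (n' + 2) → R := fun l => Fin.cons (χ l)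
    (Fin.cons (T * dT (χ l)) (fun i => 𝔇 i (χ l))) with hB1
  have hcol1 : ∀ (P : MvPolynomial (Fin M) k) (eP : ℕ), P.IsHomogeneous eP → ∀ r : ℕ,
      T ^ r ∣ aeval χ P → ∀ c, T ^ r ∣ ∑ l, aeval χ (pderiv l P) * B1 l c := by
    intro P eP hP r hr c
    refine Fin.cases ?_ (fun c => ?_) c
    · show T ^ r ∣ ∑ l, aeval χ (pderiv l P) * χ l
      rw [euler_ring hP]
      exact Dvd.dvd.mul_left hr _
    · refine Fin.cases ?_ (fun c => ?_) c
      · have h3 := der_aeval (T • dT) χ P
        have h4 := der_pow_dvd (T • dT) T h𝔇1 r _ hr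
        rw [h3] at h4
        exact h4
      · have h3 := der_aeval (𝔇 c) χ P
        have h4 := der_pow_dvd (𝔇 c) T (h𝔇 c) r _ hr
        rw [h3] at h4
        exact h4
  have hcolG : ∀ (i : Fin g) (c : Fin (n' + 2)),
      ∑ l, aeval χ (pderiv l (G i)) * B1 l c = 0 := by
    intro i c
    refine Fin.cases ?_ (fun c => ?_) c
    · show ∑ l, aeval χ (pderiv l (G i)) * χ l = 0
      rw [euler_ring (hG i), hX, mul_zero]
    · refine Fin.cases ?_ (fun c => ?_) c
      · have h3 := der_aeval (T • dT) χ (G i)
        rw [hX, map_zero] at h3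
        exact h3.symm
      · have h3 := der_aeval (𝔇 c) χ (G i)
        rw [hX, map_zero] at h3
        exact h3.symm
  have hTS : ∀ v : Fin M → E, v ∈ TS G z ↔
      ∀ s, ∑ l, ρ (aeval χ (pderiv l (G s))) * v l = 0 := by
    intro v
    rw [mem_TS]
    refine forall_congr' fun s => ?_
    simp only [hev]
  have hmain := dvn (ρ : R →+* E) C T hT0 hρC hρ hρT (p := n' + 2)
    (fun (s : Fin g) l => aeval χ (pderiv l (G s)))
    (fun (i : Fin q) l => aeval χ (pderiv l (F i (Jn i)))) I0 (by
      intro I hI W hW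
      have h1 := rank_nc (n := n' + 1) (TS G z) (hsm E z hz0 hXz)
        (fun i l => ρ (aeval χ (pderiv l (F i (Jn i))))) I0 (by
          intro c hc hc2
          refine hJn c (fun i hi => (Finset.mem_filter.1 (hc i hi)).2) fun v hv => ?_
          rw [← hc2 v hv]
          refine Finset.sum_congr rfl fun i _ => ?_
          congr 1
          exact Finset.sum_congr rfl fun l _ => by rw [hev]) I hI W (by
          intro v hv
          refine ⟨(hTS v).2 (hW v hv).1, (hW v hv).2⟩)
      exact h1) (∑ i, m i) m (fun i => Finset.single_le_sum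
        (f := fun i => m i) (fun _ _ => Nat.zero_le _) (Finset.mem_univ i)) (by
      intro i hi
      rw [hI0, Finset.mem_filter]
      refine ⟨Finset.mem_univ _, fun j => ?_⟩
      obtain ⟨r, hr⟩ := hm i j
      have h1 := congrArg ρ hr
      rw [hev, map_mul, map_pow, hρT, zero_pow hi, zero_mul] at h1
      exact h1) B1 hcolG (fun i c => hcol1 _ _ (hF i (Jn i)) _ (hm i (Jn i)) c) J
  -- comparison of the determinants
  set Om : R := (Matrix.of fun x c => (Fin.cons (χ (J x)) (Fin.cons (dT (χ (J x)))
      (fun i => 𝔇 i (χ (J x)))) : Fin (n' + 2) → R) c).det with hOm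
  have hcomp : (Matrix.of fun x c => B1 (J x) c).det = T * Om := by
    have e2 : (Matrix.of fun x c => B1 (J x) c) = Matrix.of fun x c =>
        (if c = 1 then T else 1) * (Matrix.of fun x c => (Fin.cons (χ (J x))
          (Fin.cons (dT (χ (J x))) (fun i => 𝔇 i (χ (J x)))) : Fin (n' + 2) → R) c) x c := by
      ext1 x c
      refine Fin.cases ?_ (fun c => ?_) c
      · show χ (J x) = (if (0 : Fin (n' + 2)) = 1 then T else 1) * χ (J x)
        rw [if_neg Fin.zero_ne_one, one_mul]
      · refine Fin.cases ?_ (fun c => ?_) c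
        · show T * dT (χ (J x)) =
            (if (Fin.succ 0 : Fin (n' + 2)) = 1 then T else 1) * dT (χ (J x))
          rw [if_pos (by rfl)]
        · show 𝔇 c (χ (J x)) =
            (if (c.succ.succ : Fin (n' + 2)) = 1 then T else 1) * 𝔇 c (χ (J x))
          rw [if_neg, one_mul]
          intro h
          have h1 := congrArg Fin.val h
          simp at h1
    rw [e2, Matrix.det_mul_row, Finset.prod_ite_eq' Finset.univ (1 : Fin (n' + 2))
      (fun _ => T), if_pos (Finset.mem_univ _)]
  rw [hcomp] at hmain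
  rcases Nat.eq_zero_or_pos (∑ i, m i) with h0 | h0
  · rw [h0, Nat.zero_sub, pow_zero]
    exact one_dvd _
  · obtain ⟨r, hr⟩ : ∃ r, ∑ i, m i = r + 1 := ⟨∑ i, m i - 1, by omega⟩
    rw [hr, pow_succ, mul_comm] at hmain
    rw [hr, Nat.add_sub_cancel]
    exact (mul_dvd_mul_iff_left hT0).1 hmain

open MvPolynomial HahnSeries

/-- coefficientwise derivation of power series -/
noncomputable def cwp {k K : Type} [Field k] [Field K] [Algebra k K] (d : Derivation k K K) :
    Derivation k (PowerSeries K) (PowerSeries K) :=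
  Derivation.mk'
    { toFun := fun f => PowerSeries.mk fun n => d (PowerSeries.coeff n f)
      map_add' := fun f g => by
        ext n
        simp only [PowerSeries.coeff_mk, map_add]
      map_smul' := fun c f => by
        ext n
        rw [PowerSeries.coeff_mk, RingHom.id_apply]
        have h1 : ∀ (c : k) (f : PowerSeries K), PowerSeries.coeff n (c • f) =
          c • PowerSeries.coeff n f := fun c f => rfl
        rw [h1, h1, PowerSeries.coeff_mk, Derivation.map_smul] }
    (fun f g => by
      ext n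
      show PowerSeries.coeff n (PowerSeries.mk fun n => d (PowerSeries.coeff n (f * g))) =
        PowerSeries.coeff n (f * (PowerSeries.mk fun n => d (PowerSeries.coeff n g)) +
          g * (PowerSeries.mk fun n => d (PowerSeries.coeff n f)))
      rw [mul_comm g, map_add, PowerSeries.coeff_mk, PowerSeries.coeff_mul, PowerSeries.coeff_mul,
        PowerSeries.coeff_mul, map_sum, ← Finset.sum_add_distrib]
      refine Finset.sum_congr rfl fun x _ => ?_
      rw [Derivation.leibniz, PowerSeries.coeff_mk, PowerSeries.coeff_mk, smul_eq_mul, smul_eq_mul]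
      ring)

theorem coeff_cwp {k K : Type} [Field k] [Field K] [Algebra k K] (d : Derivation k K K)
    (f : PowerSeries K) (n : ℕ) : PowerSeries.coeff n (cwp d f) = d (PowerSeries.coeff n f) := by
  show PowerSeries.coeff n (PowerSeries.mk fun n => d (PowerSeries.coeff n f)) = _
  rw [PowerSeries.coeff_mk]

theorem cwp_X {k K : Type} [Field k] [Field K] [Algebra k K] (d : Derivation k K K) :
    cwp d (PowerSeries.X) = 0 := by
  ext n
  rw [coeff_cwp, PowerSeries.coeff_X, map_zero]
  split_ifs
  · exact d.map_one_eq_zero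
  · exact map_zero d

/-- the constant coefficient -/
noncomputable def cc (k K : Type) [Field k] [Field K] [Algebra k K] : PowerSeries K →ₐ[k] K :=
  { PowerSeries.constantCoeff with
    commutes' := fun r => by
      show PowerSeries.constantCoeff (algebraMap k (PowerSeries K) r) = _
      rw [PowerSeries.algebraMap_apply, PowerSeries.constantCoeff_C] }

theorem cc_apply {k K : Type} [Field k] [Field K] [Algebra k K] (f : PowerSeries K) :
  cc k K f = PowerSeries.constantCoeff f := rfl

/-- the embedding -/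
noncomputable def io (k K : Type) [Field k] [Field K] [Algebra k K] :
    PowerSeries K →ₐ[k] LaurentSeries K :=
  { ofPowerSeries ℤ K with
    commutes' := fun _ => rfl }

theorem io_apply {k K : Type} [Field k] [Field K] [Algebra k K] (f : PowerSeries K) :
  io k K f = ofPowerSeries ℤ K f := rfl

theorem io_coeff {k K : Type} [Field k] [Field K] [Algebra k K] (f : PowerSeries K) (n : ℕ) :
    (io k K f).coeff (n : ℤ) = PowerSeries.coeff n f := ofPowerSeries_apply_coeff f n

theorem io_coeff_neg {k K : Type} [Field k] [Field K] [Algebra k K] (f : PowerSeries K) (n : ℤ)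
    (hn : n < 0) : (io k K f).coeff n = 0 := by
  rw [io_apply, ofPowerSeries_apply, embDomain_of_notMem_range]
  rintro ⟨m, hm⟩
  have h1 : ((m : ℕ) : ℤ) = n := hm
  omega

theorem io_inj {k K : Type} [Field k] [Field K] [Algebra k K] : Function.Injective (io k K) :=
  ofPowerSeries_injective

/-- a series without terms of negative degree -/
theorem exists_io {k K : Type} [Field k] [Field K] [Algebra k K] (f : LaurentSeries K)
    (hf : ∀ n : ℤ, n < 0 → f.coeff n = 0) : ∃ p, io k K p = f := by
  refine ⟨PowerSeries.mk fun n => f.coeff n, ?_⟩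
  ext n
  rcases lt_or_ge n 0 with h | h
  · rw [io_coeff_neg _ _ h, hf n h]
  · obtain ⟨m, rfl⟩ := Int.eq_ofNat_of_zero_le h
    rw [io_coeff, PowerSeries.coeff_mk]

theorem single_mul_coeff {K : Type} [Field K] (a : ℤ) (f : LaurentSeries K) (n : ℤ) :
    ((single a (1 : K) : LaurentSeries K) * f).coeff n = f.coeff (n - a) := by
  have h1 := coeff_single_mul_add (r := (1 : K)) (x := f) (a := n - a) (b := a)
  rw [sub_add_cancel, one_mul] at h1
  exact h1

theorem single_mul_single' {K : Type} [Field K] (a b : ℤ) :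
    (single a (1 : K) : LaurentSeries K) * single b 1 = single (a + b) 1 := by
  rw [single_mul_single, one_mul]

theorem single_pow' {K : Type} [Field K] (a : ℤ) (n : ℕ) :
    (single a (1 : K) : LaurentSeries K) ^ n = single (n * a) 1 := by
  rw [single_pow, one_pow, nsmul_eq_mul]

/-- comparison of the derivations -/
theorem io_cwp {k K : Type} [Field k] [Field K] [Algebra k K] (d : Derivation k K K)
    (D : Derivation k (LaurentSeries K) (LaurentSeries K))
    (hD : ∀ f n, (D f).coeff n = d (f.coeff n)) (f : PowerSeries K) :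
    D (io k K f) = io k K (cwp d f) := by
  ext n
  rw [hD]
  rcases lt_or_ge n 0 with h | h
  · rw [io_coeff_neg _ _ h, io_coeff_neg _ _ h, map_zero]
  · obtain ⟨m, rfl⟩ := Int.eq_ofNat_of_zero_le h
    rw [io_coeff, io_coeff, coeff_cwp]

theorem io_der {k K : Type} [Field k] [Field K] [Algebra k K]
    (dS : Derivation K (LaurentSeries K) (LaurentSeries K))
    (hD : ∀ f n, (dS f).coeff n = (n + 1) * f.coeff (n + 1)) (f : PowerSeries K) :
    dS (io k K f) = io k K (PowerSeries.derivative K f) := by
  ext n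
  rw [hD]
  rcases lt_or_ge n 0 with h | h
  · rw [io_coeff_neg _ _ h]
    rcases lt_or_ge (n + 1) 0 with h1 | h1
    · rw [io_coeff_neg _ _ h1, mul_zero]
    · have h2 : n = -1 := by omega
      subst h2
      simp
  · obtain ⟨m, rfl⟩ := Int.eq_ofNat_of_zero_le h
    rw [io_coeff, PowerSeries.coeff_derivative]
    have h1 : ((m : ℤ) + 1) = ((m + 1 : ℕ) : ℤ) := by push_cast; rfl
    rw [h1, io_coeff, mul_comm]
    push_cast
    rfl


theorem coeff_zero_lt {K : Type} [Field K] {x : LaurentSeries K} {b n : ℤ}
    (h : (b : WithTop ℤ) ≤ x.orderTop) (hn : n < b) : x.coeff n = 0 :=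
  le_orderTop_iff_forall.1 h n (WithTop.coe_lt_coe.2 hn)

end Pool.Agent.H432.AC.PLOC

namespace Pool.Agent.H432.AC

open MvPolynomial HahnSeries Pool.Agent.N750 Pool.Agent.H432.RC PLOC

/-- **LOC** -/
theorem loc : S_LOC := by
  intro k K _ _ _ _ M g q w n' G e hG hsm F δ hF hnc ψ hψ a hle hex m hm dS hdS d D hD J
  classical
  obtain ⟨l0, hl0⟩ := hex
  set σ : LaurentSeries K := single a 1 with hσ
  set τ : LaurentSeries K := single (-a) 1 with hτ
  have h10 : (single (0 : ℤ) (1 : K) : LaurentSeries K) = 1 := single_zero_one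
  have hτσ : τ * σ = 1 := by
    rw [hτ, hσ, single_mul_single', neg_add_cancel, h10]
  have hσ0 : σ ≠ 0 := by
    intro h
    rw [h, mul_zero] at hτσ
    exact zero_ne_one hτσ
  have h1 : ∀ l, ∃ p : PowerSeries K, ψ l = σ * io k K p := by
    intro l
    obtain ⟨p, hp⟩ := exists_io (k := k) (τ * ψ l) (by
      intro n hn
      rw [hτ, single_mul_coeff]
      exact coeff_zero_lt (hle l) (by omega))
    refine ⟨p, ?_⟩
    rw [hp, ← mul_assoc, mul_comm σ, hτσ, one_mul]
  choose χ hχ using h1
  have hψχ : ψ = fun l => σ * io k K (χ l) := funext hχ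
  have haev : ∀ (P : MvPolynomial (Fin M) k) (eP : ℕ), P.IsHomogeneous eP →
      aeval ψ P = σ ^ eP * io k K (aeval χ P) := by
    intro P eP hP
    rw [hψχ, aeval_hom hP]
    congr 1
    exact (MvPolynomial.comp_aeval_apply χ (io k K) P).symm
  have hX : ∀ i, aeval χ (G i) = 0 := by
    intro i
    have h2 := hψ i
    rw [haev _ _ (hG i)] at h2
    have h3 := (mul_eq_zero.1 h2).resolve_left (pow_ne_zero _ hσ0)
    exact io_inj (h3.trans (map_zero _).symm)
  have hz : ∃ l, cc k K (χ l) ≠ 0 := by
    refine ⟨l0, fun h => coeff_orderTop_ne hl0 ?_⟩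
    rw [hχ, hσ, single_mul_coeff, sub_self]
    have h2 := io_coeff (k := k) (χ l0) 0
    rw [cc_apply, ← PowerSeries.coeff_zero_eq_constantCoeff_apply] at h
    rw [h] at h2
    exact h2
  have hm' : ∀ i j, (PowerSeries.X : PowerSeries K) ^ m i ∣ aeval χ (F i j) := by
    intro i j
    rw [PowerSeries.X_pow_dvd_iff]
    intro n hn
    have h2 := hm i j
    rw [haev _ _ (hF i j), hσ, single_pow'] at h2
    have h3 := coeff_zero_lt h2 (n := (δ i : ℤ) * a + n) (by
      have : (n : ℤ) < m i := by exact_mod_cast hn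
      nlinarith)
    rw [single_mul_coeff, add_sub_cancel_left, io_coeff] at h3
    exact h3
  set dT : Derivation k (PowerSeries K) (PowerSeries K) :=
    (PowerSeries.derivative K).restrictScalars k with hdT
  obtain ⟨r, hr⟩ := locR (cc k K) (PowerSeries.C) (PowerSeries.X : PowerSeries K)
    PowerSeries.X_ne_zero (fun c => PowerSeries.constantCoeff_C c)
    (fun p hp => PowerSeries.X_dvd_iff.2 hp) (PowerSeries.constantCoeff_X) G e hG hsm F δ hF hnc χ
    hX hz m hm' dT (fun i => cwp (d i)) (fun i => by rw [cwp_X]; exact dvd_zero _) J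
  -- derivatives of the power of `s`
  have hDσ : ∀ i, D i σ = 0 := by
    intro i
    ext n
    rw [hD, hσ, coeff_single]
    split_ifs
    · rw [HahnSeries.coeff_zero]
      exact (d i).map_one_eq_zero
    · rw [HahnSeries.coeff_zero]
      exact map_zero (d i)
  set A : Matrix (Fin (n' + 2)) (Fin (n' + 2)) (LaurentSeries K) :=
    Matrix.of fun x c => (Fin.cons (ψ (J x)) (Fin.cons (dS (ψ (J x)))
      (fun i => D i (ψ (J x)))) : Fin (n' + 2) → LaurentSeries K) c with hA
  set B : Matrix (Fin (n' + 2)) (Fin (n' + 2)) (PowerSeries K) :=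
    Matrix.of fun x c => (Fin.cons (χ (J x)) (Fin.cons (dT (χ (J x)))
      (fun i => cwp (d i) (χ (J x)))) : Fin (n' + 2) → PowerSeries K) c with hB
  have hAB : A.det = (σ • (io k K).mapMatrix B).det := by
    rw [← Matrix.det_transpose, ← Matrix.det_transpose (σ • (io k K).mapMatrix B)]
    refine Matrix.det_eq_of_forall_row_eq_smul_add_const
      (Fin.cons 0 (Fin.cons (dS σ * τ) (fun _ => 0))) 0 rfl ?_
    intro c x
    rw [Matrix.transpose_apply, Matrix.transpose_apply, Matrix.transpose_apply]
    refine Fin.cases ?_ (fun c => ?_) c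
    · show ψ (J x) = σ * io k K (χ (J x)) + 0 * (σ * io k K (χ (J x)))
      rw [zero_mul, add_zero, hχ]
    · refine Fin.cases ?_ (fun c => ?_) c
      · show dS (ψ (J x)) = σ * io k K (dT (χ (J x))) + (dS σ * τ) * (σ * io k K (χ (J x)))
        have h2 : (dS σ * τ) * (σ * io k K (χ (J x))) = dS σ * (τ * σ) * io k K (χ (J x)) := by
          ring
        rw [h2, hτσ, mul_one, hχ, Derivation.leibniz, io_der dS hdS, smul_eq_mul, smul_eq_mul,
          mul_comm (dS σ)]
        rfl
      · show D c (ψ (J x)) = σ * io k K (cwp (d c) (χ (J x))) + 0 * (σ * io k K (χ (J x)))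
        rw [zero_mul, add_zero, hχ, Derivation.leibniz, hDσ, smul_zero, add_zero,
          io_cwp (d c) (D c) (hD c), smul_eq_mul]
  have hdet : A.det = (single (((n' + 2 : ℕ) : ℤ) * a + ((∑ i, m i - 1 : ℕ) : ℤ)) (1 : K) :
      LaurentSeries K) * io k K r := by
    have h2 : ((io k K).mapMatrix B).det = io k K B.det := by
      have := AlgHom.map_det (io k K) B
      exact this.symm
    rw [hAB, Matrix.det_smul, h2, hr, map_mul, map_pow, Fintype.card_fin, hσ, single_pow']
    have h3 : io k K (PowerSeries.X : PowerSeries K) = single 1 1 := ofPowerSeries_X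
    rw [h3, single_pow', ← mul_assoc, single_mul_single', mul_one]
  rw [hdet, le_orderTop_iff_forall]
  intro n hn
  rw [single_mul_coeff]
  have h2 := WithTop.coe_lt_coe.1 hn
  exact io_coeff_neg _ _ (by omega)

end Pool.Agent.H432.AC
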