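import Mathlib
import Pool.Agent.H432.AC.Stm

/-! Project AC, task RAM: the ramification indices are bounded. -/

set_option autoImplicit false

namespace Pool.Agent.H432.AC

namespace PRAM

open Polynomial

/-- a sum of elements with distinct valuations has the valuation of one of them -/
theorem distinct_sum {F : Type} [Field F] {Γ : Type} [LinearOrder Γ] [AddCommGroup Γ]
    [IsOrderedAddMonoid Γ] (w : AddValuation F (WithTop Γ)) {ι : Type} [DecidableEq ι]
    (x : ι → F) (S : Finset ι) (hS : S.Nonempty)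
    (hd : ∀ i ∈ S, ∀ j ∈ S, i ≠ j → w (x i) ≠ w (x j)) :
    ∃ j ∈ S, w (∑ i ∈ S, x i) = w (x j) := by
  induction hS using Finset.Nonempty.cons_induction with
  | singleton a => exact ⟨a, Finset.mem_singleton_self a, by rw [Finset.sum_singleton]⟩
  | cons a S ha hS ih =>
    obtain ⟨j, hj, hw⟩ := ih fun i hi j hj hij =>
      hd i (Finset.mem_cons_of_mem hi) j (Finset.mem_cons_of_mem hj) hij
    rw [Finset.sum_cons]
    have hne : w (x a) ≠ w (∑ i ∈ S, x i) := by
      rw [hw]
      refine hd a (Finset.mem_cons_self a S) j (Finset.mem_cons_of_mem hj) ?_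
      rintro rfl
      exact ha hj
    rcases lt_or_gt_of_ne hne with h | h
    · exact ⟨a, Finset.mem_cons_self a S, w.map_add_eq_of_lt_left h⟩
    · exact ⟨j, Finset.mem_cons_of_mem hj, (w.map_add_eq_of_lt_right h).trans hw⟩

section

variable {K F : Type} [Field K] [Field F] [Algebra K F]

/-- the valuation of the place -/
noncomputable def vv (ι : F →ₐ[K] LaurentSeries K) : AddValuation F (WithTop ℤ) :=
  (HahnSeries.addVal ℤ K).comap ι.toRingHom

theorem vv_apply (ι : F →ₐ[K] LaurentSeries K) (f : F) : vv ι f = (ι f).orderTop := rfl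

theorem vv_const (ι : F →ₐ[K] LaurentSeries K) {c : K} (hc : c ≠ 0) :
    vv ι (algebraMap K F c) = 0 := by
  rw [vv_apply, ι.commutes]
  have h : algebraMap K (LaurentSeries K) c = HahnSeries.single 0 c :=
    LaurentSeries.algebraMap_apply K c
  rw [h, HahnSeries.orderTop_single hc]
  rfl

theorem vv_ne_top (ι : F →ₐ[K] LaurentSeries K) {f : F} (hf : f ≠ 0) : ∃ m : ℤ, vv ι f = m := by
  have h : vv ι f ≠ ⊤ := by
    rw [Ne, (vv ι).top_iff]
    exact hf
  obtain ⟨m, hm⟩ := WithTop.ne_top_iff_exists.1 h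
  exact ⟨m, hm.symm⟩

theorem vv_pow (ι : F →ₐ[K] LaurentSeries K) {f : F} {m : ℤ} (h : vv ι f = m) (i : ℕ) :
    vv ι (f ^ i) = ((i * m : ℤ) : WithTop ℤ) := by
  rw [(vv ι).map_pow, h]
  have : ((i * m : ℤ) : WithTop ℤ) = ((i • m : ℤ) : WithTop ℤ) := by rw [nsmul_eq_mul]
  rw [this]
  exact (WithTop.coe_nsmul m i).symm

/-- the valuation of a polynomial in `u` -/
theorem vv_aeval (ι : F →ₐ[K] LaurentSeries K) {u : F} {n : ℤ} (hu : vv ι u = n) (hn : n ≠ 0)
    {p : K[X]} (hp : p ≠ 0) : ∃ i : ℕ, vv ι (aeval u p) = ((i * n : ℤ) : WithTop ℤ) := by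
  classical
  have h1 : aeval u p = ∑ i ∈ p.support, algebraMap K F (p.coeff i) * u ^ i := by
    rw [aeval_def, eval₂_eq_sum, Polynomial.sum_def]
  have h2 : ∀ i ∈ p.support, vv ι (algebraMap K F (p.coeff i) * u ^ i) =
      ((i * n : ℤ) : WithTop ℤ) := by
    intro i hi
    rw [(vv ι).map_mul, vv_const ι (mem_support_iff.1 hi), vv_pow ι hu, zero_add]
  obtain ⟨j, hj, h3⟩ := distinct_sum (vv ι) (fun i => algebraMap K F (p.coeff i) * u ^ i)
    p.support (support_nonempty.2 hp) (by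
      intro i hi j hj hij h
      rw [h2 i hi, h2 j hj] at h
      have h4 : (i : ℤ) * n = j * n := WithTop.coe_injective h
      exact hij (by exact_mod_cast mul_right_cancel₀ hn h4))
  refine ⟨j, ?_⟩
  rw [h1, h3, h2 j hj]

/-- the elements of `K(t)` have valuations divisible by `n` -/
theorem vv_adjoin (ι : F →ₐ[K] LaurentSeries K) {t : F} {c : K} {n : ℤ}
    (hu : vv ι (t - algebraMap K F c) = n) (hn : n ≠ 0) {a : F}
    (ha : a ∈ IntermediateField.adjoin K {t}) (ha0 : a ≠ 0) :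
    ∃ m : ℤ, vv ι a = ((n * m : ℤ) : WithTop ℤ) := by
  obtain ⟨r, s, hrs⟩ := (IntermediateField.mem_adjoin_simple_iff K a).1 ha
  have hcomp : ∀ q : K[X], aeval t q = aeval (t - algebraMap K F c) (q.comp (X + C c)) := by
    intro q
    rw [aeval_comp]
    congr 1
    simp
  have hkey : ∀ q : K[X], aeval t q ≠ 0 → ∃ i : ℕ, vv ι (aeval t q) = ((i * n : ℤ) : WithTop ℤ) := by
    intro q hq
    rw [hcomp] at hq ⊢
    refine vv_aeval ι hu hn ?_
    intro h
    rw [h, map_zero] at hq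
    exact hq rfl
  have hs : aeval t s ≠ 0 := by
    intro h
    rw [h, div_zero] at hrs
    exact ha0 hrs
  have hr : aeval t r ≠ 0 := by
    intro h
    rw [h, zero_div] at hrs
    exact ha0 hrs
  obtain ⟨i, hi⟩ := hkey r hr
  obtain ⟨j, hj⟩ := hkey s hs
  have hmul : a * aeval t s = aeval t r := by rw [hrs, div_mul_cancel₀ _ hs]
  obtain ⟨m, hm⟩ := vv_ne_top ι ha0
  refine ⟨i - j, ?_⟩
  have h1 := congrArg (vv ι) hmul
  rw [(vv ι).map_mul, hi, hj, hm, ← WithTop.coe_add] at h1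
  have h2 : m + j * n = i * n := WithTop.coe_injective h1
  rw [hm]
  congr 1
  linarith

end

end PRAM

open PRAM in
theorem ram : S_RAM := by
  classical
  intro K F _ _ _ _ t _ hfin
  refine ⟨Module.finrank (IntermediateField.adjoin K {t}) F, ?_⟩
  rintro ι ⟨π, hπ⟩ c n hn
  by_cases hn0 : n = 0
  · rw [hn0, abs_zero]
    exact Int.natCast_nonneg _
  have hu : vv ι (t - algebraMap K F c) = n := hn
  have hπ1 : vv ι π = ((1 : ℤ) : WithTop ℤ) := hπ
  have hπ0 : π ≠ 0 := by
    rintro rfl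
    rw [vv_apply, map_zero, HahnSeries.orderTop_zero] at hπ1
    exact WithTop.top_ne_coe hπ1
  have hli : LinearIndependent (IntermediateField.adjoin K {t})
      (fun i : Fin n.natAbs => π ^ (i : ℕ)) := by
    rw [Fintype.linearIndependent_iff]
    intro g hg
    by_contra hcon
    push Not at hcon
    obtain ⟨i₀, hi₀⟩ := hcon
    let S : Finset (Fin n.natAbs) := Finset.univ.filter fun i => g i ≠ 0
    have hS : S.Nonempty := ⟨i₀, Finset.mem_filter.2 ⟨Finset.mem_univ _, hi₀⟩⟩
    have hval : ∀ i ∈ S, ∃ m : ℤ, vv ι ((g i : F) * π ^ (i : ℕ)) =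
        ((n * m + (i : ℕ) : ℤ) : WithTop ℤ) := by
      intro i hi
      have hgi : (g i : F) ≠ 0 := by
        have := (Finset.mem_filter.1 hi).2
        exact fun h => this (Subtype.ext h)
      obtain ⟨m, hm⟩ := vv_adjoin ι hu hn0 (g i).2 hgi
      refine ⟨m, ?_⟩
      rw [(vv ι).map_mul, hm, vv_pow ι hπ1, ← WithTop.coe_add, mul_one]
    have hd : ∀ i ∈ S, ∀ j ∈ S, i ≠ j →
        vv ι ((g i : F) * π ^ (i : ℕ)) ≠ vv ι ((g j : F) * π ^ (j : ℕ)) := by
      intro i hi j hj hij h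
      obtain ⟨m, hm⟩ := hval i hi
      obtain ⟨m', hm'⟩ := hval j hj
      rw [hm, hm'] at h
      have h1 : n * m + ((i : ℕ) : ℤ) = n * m' + ((j : ℕ) : ℤ) := WithTop.coe_injective h
      have h2 : n ∣ ((i : ℕ) : ℤ) - ((j : ℕ) : ℤ) := ⟨m' - m, by linarith⟩
      have h3 : |((i : ℕ) : ℤ) - ((j : ℕ) : ℤ)| < |n| := by
        have hi' := i.2
        have hj' := j.2
        rw [Int.abs_eq_natAbs n, abs_lt]
        constructor <;> omega
      have h4 := Int.eq_zero_of_abs_lt_dvd ((abs_dvd n _).2 h2) h3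
      exact hij (Fin.ext (by omega))
    obtain ⟨j, hj, hw⟩ := distinct_sum (vv ι) (fun i => (g i : F) * π ^ (i : ℕ)) S hS hd
    have hsum : ∑ i ∈ S, (g i : F) * π ^ (i : ℕ) = 0 := by
      rw [← hg, Finset.sum_filter]
      refine Finset.sum_congr rfl fun i _ => ?_
      by_cases h : g i = 0
      · rw [if_neg (fun h' => h' h), h, zero_smul]
      · rw [if_pos h]
        rfl
    obtain ⟨m, hm⟩ := hval j hj
    rw [hsum, hm, (vv ι).map_zero] at hw
    exact WithTop.top_ne_coe hw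
  have h := hli.fintype_card_le_finrank
  rw [Fintype.card_fin] at h
  rw [Int.abs_eq_natAbs]
  exact_mod_cast h

end Pool.Agent.H432.AC
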