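import Mathlib
import Pool.Agent.H432.AC.Stm

/-!
# Project AC, task SPAN: derivations along a generic point span the tangent space

The proof uses Kähler differentials: a differential of `F` over `k` which is killed by the derivation
`Dt` over `K` and by all derivations preserving `K` and killing `t` is zero.
-/

set_option autoImplicit false

open MvPolynomial Pool.Agent.N750 Pool.Agent.H432.RC
open scoped KaehlerDifferential

namespace Pool.Agent.H432.AC.PSPAN

open Pool.Agent.H432.AC

section kaehler

variable {k K F : Type} [Field k] [Field K] [Field F] [CharZero k] [Algebra k K]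
  [Algebra K F] [Algebra k F] [IsScalarTower k K F]

omit [CharZero k] [Algebra k K] [IsScalarTower k K F] in
/-- derivations over `k` to any module which vanish on `K` and `t` are zero -/
theorem der_zero (hF : CharZero F) (t : F) (hfin : FiniteDimensional (IntermediateField.adjoin K {t}) F)
    {M : Type} [AddCommGroup M] [Module F M] [Module k M] [IsScalarTower k F M]
    (Δ : Derivation k F M) (h1 : ∀ c : K, Δ (algebraMap K F c) = 0) (h2 : Δ t = 0) (x : F) :
    Δ x = 0 := by
  let E0 := IntermediateField.adjoin K {t}
  have h3 : ∀ x ∈ E0, Δ x = 0 := by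
    intro x hx
    induction hx using IntermediateField.adjoin_induction with
    | mem x hx =>
      rw [Set.mem_singleton_iff] at hx
      rw [hx, h2]
    | algebraMap c => exact h1 c
    | add x y _ _ hx hy => rw [map_add, hx, hy, add_zero]
    | inv x _ hx => rw [Derivation.leibniz_inv, hx, smul_zero]
    | mul x y _ _ hx hy => rw [Derivation.leibniz, hx, hy, smul_zero, smul_zero, add_zero]
  let Δ' : Derivation E0 F M :=
    { toFun := Δ
      map_add' := fun x y => map_add Δ x y
      map_smul' := fun e x => by
        rw [Algebra.smul_def, Derivation.leibniz]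
        have h4 : Δ (algebraMap E0 F e) = 0 := h3 _ e.2
        rw [h4, smul_zero, add_zero]
        rfl
      map_one_eq_zero' := Δ.map_one_eq_zero
      leibniz' := Δ.leibniz }
  have hch : CharZero E0 := charZero_of_injective_algebraMap (algebraMap E0 F).injective |> fun _ =>
    (algebraMap E0 F).charZero_iff (algebraMap E0 F).injective |>.2 hF
  have hsep : Algebra.IsSeparable E0 F := Algebra.IsAlgebraic.isSeparable_of_perfectField
  have hunr : Algebra.FormallyUnramified E0 F := Algebra.FormallyUnramified.of_isSeparable E0 F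
  have hsub : Subsingleton (Ω[F⁄E0]) := Algebra.FormallyUnramified.subsingleton_kaehlerDifferential
  have h5 : Δ' x = 0 := by
    rw [← Derivation.liftKaehlerDifferential_comp_D Δ' x, Subsingleton.elim
      (KaehlerDifferential.D E0 F x) 0, map_zero]
  exact h5

omit [CharZero k] [Algebra k K] [IsScalarTower k K F] in
/-- the differentials of `F` over `k` are generated by `dt` and the differentials of `K` -/
theorem kaehler_span (hF : CharZero F) (t : F)
    (hfin : FiniteDimensional (IntermediateField.adjoin K {t}) F) :
    Submodule.span F (insert (KaehlerDifferential.D k F t)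
      (Set.range fun c : K => KaehlerDifferential.D k F (algebraMap K F c))) = ⊤ := by
  set S : Submodule F (Ω[F⁄k]) := Submodule.span F (insert (KaehlerDifferential.D k F t)
      (Set.range fun c : K => KaehlerDifferential.D k F (algebraMap K F c))) with hS
  let Δ : Derivation k F (Ω[F⁄k] ⧸ S) := S.mkQ.compDer (KaehlerDifferential.D k F)
  have h1 : ∀ x : F, Δ x = 0 := by
    refine der_zero (K := K) hF t hfin Δ (fun c => ?_) ?_
    · show S.mkQ (KaehlerDifferential.D k F (algebraMap K F c)) = 0
      rw [Submodule.mkQ_apply, Submodule.Quotient.mk_eq_zero]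
      exact Submodule.subset_span (Set.mem_insert_of_mem _ ⟨c, rfl⟩)
    · show S.mkQ (KaehlerDifferential.D k F t) = 0
      rw [Submodule.mkQ_apply, Submodule.Quotient.mk_eq_zero]
      exact Submodule.subset_span (Set.mem_insert _ _)
  rw [eq_top_iff, ← KaehlerDifferential.span_range_derivation k F, Submodule.span_le]
  rintro _ ⟨x, rfl⟩
  have h2 : S.mkQ (KaehlerDifferential.D k F x) = 0 := h1 x
  rw [Submodule.mkQ_apply, Submodule.Quotient.mk_eq_zero] at h2
  exact h2

omit [CharZero k] in
/-- a differential killed by `Dt` and by the derivations preserving `K` is zero -/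
theorem omega_zero (hF : CharZero F) (t : F)
    (hfin : FiniteDimensional (IntermediateField.adjoin K {t}) F)
    (Dt : Derivation K F F) (hDt : Dt t = 1)
    (hext : ∀ d : Derivation k K K, ∃ D : Derivation k F F,
      (∀ c : K, D (algebraMap K F c) = algebraMap K F (d c)) ∧ D t = 0)
    (ω : Ω[F⁄k]) (h1 : (Dt.restrictScalars k).liftKaehlerDifferential ω = 0)
    (h2 : ∀ (d : Derivation k K K) (D : Derivation k F F),
      (∀ c : K, D (algebraMap K F c) = algebraMap K F (d c)) → D t = 0 →
      D.liftKaehlerDifferential ω = 0) : ω = 0 := by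
  classical
  let b := Module.Basis.ofVectorSpace K (Ω[K⁄k])
  let m : Ω[K⁄k] →ₗ[K] Ω[F⁄k] := KaehlerDifferential.map k k K F
  have hm : ∀ c : K, m (KaehlerDifferential.D k K c) =
      KaehlerDifferential.D k F (algebraMap K F c) := fun c => KaehlerDifferential.map_D k k K F c
  -- the values of derivations on the image of the differentials of `K`
  have hL : ∀ (d : Derivation k K K) (D : Derivation k F F),
      (∀ c : K, D (algebraMap K F c) = algebraMap K F (d c)) → ∀ η : Ω[K⁄k],
      D.liftKaehlerDifferential (m η) = algebraMap K F (d.liftKaehlerDifferential η) := by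
    intro d D hD η
    have h3 : (D.liftKaehlerDifferential.restrictScalars K).comp m =
        (Algebra.linearMap K F).comp d.liftKaehlerDifferential := by
      refine Derivation.liftKaehlerDifferential_unique _ _ ?_
      ext c
      show D.liftKaehlerDifferential (m (KaehlerDifferential.D k K c)) =
        algebraMap K F (d.liftKaehlerDifferential (KaehlerDifferential.D k K c))
      rw [hm, Derivation.liftKaehlerDifferential_comp_D,
        Derivation.liftKaehlerDifferential_comp_D, hD]
    exact LinearMap.congr_fun h3 η
  -- representation of `ω`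
  have h4 : ω ∈ Submodule.span F (insert (KaehlerDifferential.D k F t)
      (Set.range fun α => m (b α))) := by
    have h5 : Submodule.span F (insert (KaehlerDifferential.D k F t)
        (Set.range fun c : K => KaehlerDifferential.D k F (algebraMap K F c))) ≤
        Submodule.span F (insert (KaehlerDifferential.D k F t)
      (Set.range fun α => m (b α))) := by
      rw [Submodule.span_le]
      rintro _ (rfl | ⟨c, rfl⟩)
      · exact Submodule.subset_span (Set.mem_insert _ _)
      · show KaehlerDifferential.D k F (algebraMap K F c) ∈ _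
        rw [← hm, ← b.linearCombination_repr (KaehlerDifferential.D k K c),
          Finsupp.linearCombination_apply, Finsupp.sum, map_sum]
        refine Submodule.sum_mem _ fun α _ => ?_
        rw [LinearMap.map_smul, ← algebraMap_smul F]
        exact Submodule.smul_mem _ _ (Submodule.subset_span (Set.mem_insert_of_mem _ ⟨α, rfl⟩))
    rw [kaehler_span hF t hfin] at h5
    exact h5 trivial
  obtain ⟨a, η, hη, hω⟩ := Submodule.mem_span_insert.1 h4
  obtain ⟨c, hc⟩ := (Finsupp.mem_span_range_iff_exists_finsupp (R := F)).1 hη
  -- the coefficients vanish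
  have hcα : ∀ α, c α = 0 := by
    intro α
    let d : Derivation k K K := (b.coord α).compDer (KaehlerDifferential.D k K)
    obtain ⟨D, hD1, hD2⟩ := hext d
    have h6 := h2 d D hD1 hD2
    have hd : d.liftKaehlerDifferential = b.coord α := by
      refine Derivation.liftKaehlerDifferential_unique _ _ ?_
      rw [Derivation.liftKaehlerDifferential_comp]
    rw [hω, map_add, LinearMap.map_smul, Derivation.liftKaehlerDifferential_comp_D, hD2, smul_zero,
      zero_add, ← hc, Finsupp.sum, map_sum] at h6
    have h7 : ∀ β ∈ c.support, D.liftKaehlerDifferential (c β • m (b β)) =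
        if β = α then c α else 0 := by
      intro β _
      rw [LinearMap.map_smul, hL d D hD1, hd, Module.Basis.coord_apply, b.repr_self,
        Finsupp.single_apply]
      split_ifs with h
      · rw [h, map_one, smul_eq_mul, mul_one]
      · rw [map_zero, smul_zero]
    rw [Finset.sum_congr rfl h7, Finset.sum_ite_eq' c.support α] at h6
    by_contra hne
    rw [if_pos (Finsupp.mem_support_iff.2 hne)] at h6
    exact hne h6
  have hc0 : c = 0 := Finsupp.ext hcα
  rw [hc0, Finsupp.sum_zero_index] at hc
  rw [← hc, add_zero] at hω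
  rw [hω, LinearMap.map_smul, Derivation.liftKaehlerDifferential_comp_D] at h1
  have h8 : (Dt.restrictScalars k) t = 1 := hDt
  rw [h8, smul_eq_mul, mul_one] at h1
  rw [hω, h1, zero_smul]

end kaehler

/-- genericity of the scaled point -/
theorem scaled_gen {k E1 : Type} [Field k] [Field E1] [Algebra k E1] {M g : ℕ}
    (G : Fin g → MvPolynomial (Fin M) k) (ζ : Fin M → E1)
    (hgen : ∀ (P : MvPolynomial (Fin M) k) (m : ℕ), P.IsHomogeneous m →
      P ∉ Ideal.span (Set.range G) → aeval ζ P ≠ 0)
    (P : MvPolynomial (Fin M) k)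
    (hP : aeval (fun l => algebraMap (Polynomial E1) (FractionRing (Polynomial E1)) Polynomial.X *
      algebraMap E1 (FractionRing (Polynomial E1)) (ζ l)) P = 0) :
    P ∈ Ideal.span (Set.range G) := by
  classical
  -- the homogeneous components
  have hhom : ∀ m, aeval (fun l => (Polynomial.X : Polynomial E1) * Polynomial.C (ζ l))
      (homogeneousComponent m P) =
      Polynomial.C (aeval ζ (homogeneousComponent m P)) * Polynomial.X ^ m := by
    intro m
    have h1 := homogeneousComponent_isHomogeneous m P
    rw [aeval_def, aeval_def, eval₂_eq, eval₂_eq, map_sum, Finset.sum_mul]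
    refine Finset.sum_congr rfl fun s hs => ?_
    simp only [mul_pow]
    rw [Finset.prod_mul_distrib, Finset.prod_pow_eq_pow_sum]
    have hdeg : ∑ i ∈ s.support, s i = m := by
      have h2 := h1 (MvPolynomial.mem_support_iff.1 hs)
      rw [Finsupp.weight_apply, Finsupp.sum] at h2
      simpa using h2
    rw [hdeg, Polynomial.C_mul, map_prod]
    simp only [map_pow]
    rw [Polynomial.algebraMap_apply]
    ring
  have h1 : aeval (fun l => (Polynomial.X : Polynomial E1) * Polynomial.C (ζ l)) P = 0 := by
    apply IsFractionRing.injective (Polynomial E1) (FractionRing (Polynomial E1))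
    rw [map_zero, ← hP]
    have h2 := MvPolynomial.comp_aeval_apply (fun l => (Polynomial.X : Polynomial E1) *
      Polynomial.C (ζ l)) (IsScalarTower.toAlgHom k (Polynomial E1)
        (FractionRing (Polynomial E1))) P
    rw [IsScalarTower.coe_toAlgHom'] at h2
    rw [h2]
    congr 2
    funext l
    rw [map_mul]
    congr 1
  have h2 : ∑ m ∈ Finset.range (P.totalDegree + 1),
      Polynomial.C (aeval ζ (homogeneousComponent m P)) * (Polynomial.X : Polynomial E1) ^ m =
      0 := by
    rw [← h1]
    conv_rhs => rw [← sum_homogeneousComponent P, map_sum]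
    exact Finset.sum_congr rfl fun m _ => (hhom m).symm
  have h3 : ∀ m ∈ Finset.range (P.totalDegree + 1), aeval ζ (homogeneousComponent m P) = 0 := by
    intro m hm
    have h4 := congrArg (fun p => Polynomial.coeff p m) h2
    simp only [Polynomial.finsetSum_coeff, Polynomial.coeff_C_mul_X_pow,
      Polynomial.coeff_zero] at h4
    rw [Finset.sum_ite_eq (Finset.range (P.totalDegree + 1)) m, if_pos hm] at h4
    exact h4
  rw [← sum_homogeneousComponent P]
  refine Ideal.sum_mem _ fun m hm => ?_
  by_contra hnot
  exact hgen _ m (homogeneousComponent_isHomogeneous m P) hnot (h3 m hm)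

/-- comparison of dimensions over two fields -/
theorem dim_le {F F' : Type} [Field F] [Field F'] [Algebra F F'] {M : ℕ}
    (W : Submodule F (Fin M → F)) (T : Submodule F' (Fin M → F'))
    (h : ∀ c : Fin M → F, (∀ w ∈ W, ∑ l, c l * w l = 0) →
      ∀ v ∈ T, ∑ l, algebraMap F F' (c l) * v l = 0) :
    Module.finrank F' T ≤ Module.finrank F W := by
  classical
  set s := Module.finrank F ((Fin M → F) ⧸ W) with hs
  let bb := Module.finBasis F ((Fin M → F) ⧸ W)
  let A : (Fin M → F) →ₗ[F] (Fin s → F) := bb.equivFun.toLinearMap.comp W.mkQ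
  have hA : Function.Surjective A :=
    bb.equivFun.surjective.comp (Submodule.mkQ_surjective W)
  obtain ⟨r, hr⟩ := A.exists_rightInverse_of_surjective (LinearMap.range_eq_top.2 hA)
  set MA := LinearMap.toMatrix' A with hMA
  set MR := LinearMap.toMatrix' r with hMR
  have h1 : MA * MR = 1 := by
    rw [hMA, hMR, ← LinearMap.toMatrix'_comp, hr, LinearMap.toMatrix'_id]
  set MA' : Matrix (Fin s) (Fin M) F' := MA.map (algebraMap F F') with hMA'
  set MR' : Matrix (Fin M) (Fin s) F' := MR.map (algebraMap F F') with hMR'
  have h2 : MA' * MR' = 1 := by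
    rw [hMA', hMR', ← Matrix.map_mul, h1]
    exact Matrix.map_one _ (map_zero _) (map_one _)
  have h3 : Function.Surjective MA'.mulVecLin := by
    intro y
    refine ⟨MR'.mulVec y, ?_⟩
    rw [Matrix.mulVecLin_apply, Matrix.mulVec_mulVec, h2, Matrix.one_mulVec]
  have h4 := LinearMap.finrank_range_add_finrank_ker MA'.mulVecLin
  rw [LinearMap.range_eq_top.2 h3, finrank_top, Module.finrank_fin_fun, Module.finrank_fin_fun]
    at h4
  have h5 : T ≤ LinearMap.ker MA'.mulVecLin := by
    intro v hv
    rw [LinearMap.mem_ker, Matrix.mulVecLin_apply]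
    funext i
    refine h (MA i) (fun w hw => ?_) v hv
    have h6 : A w = 0 := by
      show bb.equivFun (W.mkQ w) = 0
      rw [(Submodule.Quotient.mk_eq_zero W).2 hw |> fun e => (show W.mkQ w = 0 from e), map_zero]
    have h7 : MA.mulVec w = A w := LinearMap.toMatrix'_mulVec A w
    exact (congrFun (h7.trans h6) i)
  have h6 := Submodule.finrank_mono h5
  have h7 := Submodule.finrank_quotient_add_finrank W
  rw [Module.finrank_fin_fun, ← hs] at h7
  omega

end Pool.Agent.H432.AC.PSPAN

namespace Pool.Agent.H432.AC

open PSPAN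

/-- **SPAN** -/
theorem span (derx : S_DERX) : S_SPAN := by
  intro k K F _ _ _ _ _ _ _ _ t ht hfin M g n' G e hG hsm φ hX hgen Dt hDt hind
  classical
  obtain ⟨hext, -⟩ := derx k K F t ht hfin
  have hF : CharZero F := charZero_of_injective_algebraMap (algebraMap k F).injective
  let 𝒟 := {p : Derivation k K K × Derivation k F F //
    (∀ c : K, p.2 (algebraMap K F c) = algebraMap K F (p.1 c)) ∧ p.2 t = 0}
  let uu : 𝒟 → Fin M → F := fun p l => p.1.2 (φ l)
  set x0 : Fin M → F := φ with hx0
  set x1 : Fin M → F := fun l => Dt (φ l) with hx1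
  set W : Submodule F (Fin M → F) := Submodule.span F ({x0, x1} ∪ Set.range uu) with hW
  -- the generic point
  let F' := FractionRing (Polynomial F)
  have hF' : CharZero F' := charZero_of_injective_algebraMap (algebraMap F F').injective
  set μ : F' := algebraMap (Polynomial F) F' Polynomial.X with hμ
  have hμ0 : μ ≠ 0 := by
    rw [hμ]
    intro h0
    exact Polynomial.X_ne_zero (IsFractionRing.injective (Polynomial F) F'
      (h0.trans (map_zero _).symm))
  set ξ : Fin M → F' := fun l => μ * algebraMap F F' (φ l) with hξ
  have hφ0 : φ ≠ 0 := hind.ne_zero 0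
  have hξ0 : ξ ≠ 0 := by
    intro h
    apply hφ0
    funext l
    have h1 := congrFun h l
    have h2 := (mul_eq_zero.1 h1).resolve_left hμ0
    exact (algebraMap F F').injective (h2.trans (map_zero _).symm)
  have hξX : ∀ i, aeval ξ (G i) = 0 := by
    intro i
    have h1 := MvPolynomial.comp_aeval_apply φ (IsScalarTower.toAlgHom k F F') (G i)
    rw [IsScalarTower.coe_toAlgHom', hX i, map_zero] at h1
    rw [hξ, Pool.Agent.H432.RC.aeval_hom (hG i), ← h1, mul_zero]
  have hTdim : Module.finrank F' (TS G ξ) = n' + 2 := hsm F' ξ hξ0 hξX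
  have hgen' : ∀ P : MvPolynomial (Fin M) k, aeval ξ P = 0 → P ∈ Ideal.span (Set.range G) :=
    fun P hP => scaled_gen G φ hgen P hP
  -- the dimension of `W`
  have hdim : n' + 2 ≤ Module.finrank F W := by
    rw [← hTdim]
    refine dim_le W (TS G ξ) fun c hc v hv => ?_
    obtain ⟨D, hD⟩ := exists_derivation ξ v fun P hP => (ideal_TS hξX hv (hgen' P hP)).2
    set ω : Ω[F⁄k] := ∑ l, c l • KaehlerDifferential.D k F (φ l) with hω
    have hlift : ∀ {N : Type} [AddCommGroup N] [Module k N] [Module F N] [IsScalarTower k F N]
        (Δ : Derivation k F N), Δ.liftKaehlerDifferential ω = ∑ l, c l • Δ (φ l) := by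
      intro N _ _ _ _ Δ
      rw [hω, map_sum]
      refine Finset.sum_congr rfl fun l _ => ?_
      rw [LinearMap.map_smul, Derivation.liftKaehlerDifferential_comp_D]
    have hω0 : ω = 0 := by
      refine omega_zero hF t hfin Dt hDt hext ω ?_ ?_
      · rw [hlift]
        exact hc x1 (Submodule.subset_span (Or.inl (Or.inr rfl)))
      · intro d D h1 h2
        rw [hlift]
        exact hc (uu ⟨(d, D), h1, h2⟩) (Submodule.subset_span (Or.inr ⟨_, rfl⟩))
    have h1 := hlift (D.compAlgebraMap F)
    rw [hω0, map_zero] at h1
    have h2 : ∑ l, algebraMap F F' (c l) * D (algebraMap F F' (φ l)) = 0 := by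
      rw [h1]
      refine Finset.sum_congr rfl fun l _ => ?_
      rw [Algebra.smul_def]
      rfl
    have h3 : ∑ l, c l * φ l = 0 := hc x0 (Submodule.subset_span (Or.inl (Or.inl rfl)))
    have h4 : ∀ l, algebraMap F F' (c l) * v l =
        μ * (algebraMap F F' (c l) * D (algebraMap F F' (φ l))) +
          algebraMap F F' (c l * φ l) * D μ := by
      intro l
      rw [← hD l, hξ, Derivation.leibniz, smul_eq_mul, smul_eq_mul, map_mul]
      ring
    rw [Finset.sum_congr rfl fun l _ => h4 l, Finset.sum_add_distrib, ← Finset.mul_sum, h2,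
      ← Finset.sum_mul, ← map_sum, h3, map_zero, mul_zero, zero_mul, add_zero]
  -- a finite subfamily
  have hfg : W.FG := IsNoetherian.noetherian W
  obtain ⟨s, hs1, hs2⟩ := (Submodule.fg_span_iff_fg_span_finset_subset _).1 hfg
  have hfs : ∃ (N : ℕ) (q : Fin N → 𝒟), (s : Set (Fin M → F)) ⊆
      {x0, x1} ∪ Set.range (fun i => uu (q i)) := by
    have h1 : ∀ x ∈ s, x ∈ ({x0, x1} : Set (Fin M → F)) ∨ ∃ p : 𝒟, uu p = x := fun x hx => hs1 hx
    let s' := s.filter fun x => ∃ p : 𝒟, uu p = x
    have h2 : ∀ x : s', ∃ p : 𝒟, uu p = x.1 := fun x => (Finset.mem_filter.1 x.2).2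
    choose pp hpp using h2
    refine ⟨s'.card, fun i => pp (s'.equivFin.symm i), fun x hx => ?_⟩
    rcases h1 x hx with h3 | h3
    · exact Or.inl h3
    · refine Or.inr ⟨s'.equivFin ⟨x, Finset.mem_filter.2 ⟨hx, h3⟩⟩, ?_⟩
      show uu (pp (s'.equivFin.symm (s'.equivFin _))) = x
      rw [Equiv.symm_apply_apply, hpp]
  obtain ⟨N, q, hq⟩ := hfs
  have hW2 : W ≤ Submodule.span F ({x0, x1} ∪ Set.range (fun i => uu (q i))) := by
    rw [hW, hs2]
    exact Submodule.span_mono hq
  obtain ⟨κ, hκ⟩ := ext_pair x0 x1 hind (fun i => uu (q i)) n'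
    (hdim.trans (Submodule.finrank_mono hW2))
  exact ⟨fun i => (q (κ i)).1.1, fun i => (q (κ i)).1.2, fun i => (q (κ i)).2.1,
    fun i => (q (κ i)).2.2, hκ⟩

end Pool.Agent.H432.AC
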