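import Mathlib
import Pool.Agent.H432.AC.Stm

/-!
# VAL: valuative criterion for integral relations of degree one (helper870)
-/

set_option autoImplicit false

namespace Pool.Agent.H432.AC

open MvPolynomial

namespace PVAL

variable {K F ι : Type} [Field K] [Field F] [Algebra K F]

/-- scaling of a homogeneous polynomial -/
theorem scale (g : ι → F) {f : F} (hf : f ≠ 0) {p : MvPolynomial ι K} {i : ℕ}
    (hp : p.IsHomogeneous i) : aeval (fun j => g j / f) p * f ^ i = aeval g p := by
  rw [aeval_def, aeval_def, eval₂_eq, eval₂_eq, Finset.sum_mul]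
  refine Finset.sum_congr rfl fun d hd => ?_
  have h1 : ∑ j ∈ d.support, d j = i := by
    have h2 := hp (mem_support_iff.1 hd)
    rw [← h2, Finsupp.weight_apply, Finsupp.sum]
    simp
  rw [← h1, ← Finset.prod_pow_eq_pow_sum, mul_assoc, ← Finset.prod_mul_distrib]
  congr 1
  refine Finset.prod_congr rfl fun j _ => ?_
  rw [← mul_pow, div_mul_cancel₀ _ hf]

end PVAL

open PVAL in
theorem val : S_VAL := by
  intro K F _ _ _ ι g f hV
  by_cases hf : f = 0
  · refine ⟨1, fun _ => 0, fun i => isHomogeneous_zero _ _ _, ?_⟩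
    simp [hf]
  obtain ⟨h, hh⟩ : ∃ h : ι → F, h = fun j => g j / f := ⟨_, rfl⟩
  -- an equation for `1`
  have key : ∃ p : MvPolynomial ι K, constantCoeff p = 0 ∧ aeval h p = 1 := by
    obtain ⟨A, hA⟩ : ∃ A : Subring F, A = (Algebra.adjoin K (Set.range h)).toSubring := ⟨_, rfl⟩
    have hmem : ∀ x : F, x ∈ A ↔ ∃ q : MvPolynomial ι K, aeval h q = x := by
      intro x
      rw [hA, Subalgebra.mem_toSubring, Algebra.adjoin_range_eq_range_aeval]
      exact AlgHom.mem_range _
    have hg : ∀ j, h j ∈ A := fun j => (hmem _).2 ⟨X j, aeval_X _ _⟩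
    obtain ⟨I, hI⟩ : ∃ I : Ideal A, I = Ideal.span (Set.range fun j => (⟨h j, hg j⟩ : A)) :=
      ⟨_, rfl⟩
    by_cases hIt : I = ⊤
    · have h1 : (1 : A) ∈ Ideal.span (Set.range fun j => (⟨h j, hg j⟩ : A)) := by
        rw [← hI, hIt]
        trivial
      have h2 : ∀ x ∈ Ideal.span (Set.range fun j => (⟨h j, hg j⟩ : A)),
          ∃ p : MvPolynomial ι K, constantCoeff p = 0 ∧ aeval h p = (x : F) := by
        intro x hx
        refine Submodule.span_induction (p := fun (x : A) _ =>
          ∃ p : MvPolynomial ι K, constantCoeff p = 0 ∧ aeval h p = (x : F)) ?_ ?_ ?_ ?_ hx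
        · rintro _ ⟨j, rfl⟩
          exact ⟨X j, constantCoeff_X _ _, aeval_X _ _⟩
        · exact ⟨0, map_zero _, by rw [map_zero]; rfl⟩
        · rintro x y - - ⟨p, hp, hpx⟩ ⟨q, hq, hqy⟩
          exact ⟨p + q, by rw [map_add, hp, hq, add_zero], by rw [map_add, hpx, hqy]; rfl⟩
        · rintro a x - ⟨p, hp, hpx⟩
          obtain ⟨q, hq⟩ := (hmem a).1 a.2
          exact ⟨q * p, by rw [map_mul, hp, mul_zero], by rw [map_mul, hq, hpx]; rfl⟩
      obtain ⟨p, hp, hp1⟩ := h2 1 h1
      exact ⟨p, hp, hp1⟩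
    · exfalso
      obtain ⟨V, hAV, hIV⟩ := Ideal.image_subset_nonunits_valuationSubring I hIt
      obtain ⟨j, a, ha, hfa⟩ := hV V (fun c => hAV ((hmem _).2 ⟨C c, aeval_C _ _⟩))
      have h1 : h j ∈ V.nonunits := by
        refine hIV ⟨⟨h j, hg j⟩, ?_, rfl⟩
        rw [hI]
        exact Ideal.subset_span ⟨j, rfl⟩
      obtain ⟨hv, hm⟩ := ValuationSubring.mem_nonunits_iff_exists_mem_maximalIdeal.1 h1
      have h2 : (⟨a, ha⟩ : V) * ⟨h j, hv⟩ = 1 := by
        apply Subtype.ext
        show a * h j = 1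
        rw [hh]
        show a * (g j / f) = 1
        rw [← mul_div_assoc, ← hfa, div_self hf]
      have h3 : (1 : V) ∈ IsLocalRing.maximalIdeal V := by
        rw [← h2]
        exact Ideal.mul_mem_left _ _ hm
      exact (IsLocalRing.maximalIdeal.isMaximal V).ne_top ((Ideal.eq_top_iff_one _).2 h3)
  obtain ⟨p, hp0, hp1⟩ := key
  refine ⟨p.totalDegree, fun i => -homogeneousComponent (p.totalDegree - i) p, fun i => ?_, ?_⟩
  · exact (homogeneousComponent_isHomogeneous _ _).neg
  · have h1 : f ^ p.totalDegree = ∑ i ∈ Finset.range (p.totalDegree + 1),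
        aeval g (homogeneousComponent i p) * f ^ (p.totalDegree - i) := by
      have h0 : ∑ i ∈ Finset.range (p.totalDegree + 1), aeval h (homogeneousComponent i p) = 1 := by
        rw [← map_sum, sum_homogeneousComponent, hp1]
      conv_lhs => rw [← one_mul (f ^ p.totalDegree), ← h0]
      rw [Finset.sum_mul]
      refine Finset.sum_congr rfl fun i hi => ?_
      rw [← scale g hf (homogeneousComponent_isHomogeneous i p), mul_assoc, ← pow_add, hh,
        Nat.add_sub_of_le (Nat.lt_succ_iff.1 (Finset.mem_range.1 hi))]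
    rw [Finset.sum_range_succ', homogeneousComponent_zero] at h1
    have h2 : coeff 0 p = 0 := hp0
    rw [h2, map_zero, map_zero, zero_mul, add_zero] at h1
    have h3 : ∑ i : Fin p.totalDegree, aeval g (-homogeneousComponent (p.totalDegree - i) p) *
        f ^ (i : ℕ) = -∑ i ∈ Finset.range p.totalDegree,
          aeval g (homogeneousComponent (i + 1) p) * f ^ (p.totalDegree - (i + 1)) := by
      rw [Finset.sum_range fun i =>
        aeval g (homogeneousComponent (i + 1) p) * f ^ (p.totalDegree - (i + 1)),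
        ← Finset.sum_neg_distrib]
      refine Fintype.sum_equiv Fin.revPerm _ _ fun i => ?_
      have h4 : ((Fin.revPerm i : Fin p.totalDegree) : ℕ) + 1 = p.totalDegree - i := by
        rw [Fin.revPerm_apply, Fin.val_rev]
        omega
      have h5 : p.totalDegree - (((Fin.revPerm i : Fin p.totalDegree) : ℕ) + 1) = i := by
        rw [h4]
        omega
      rw [h5, h4, map_neg, neg_mul]
    rw [h3, h1]
    exact add_neg_cancel _

end Pool.Agent.H432.AC
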