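import Mathlib
import Pool.Agent.H432.AC.Ari3
import Pool.Agent.H432.AC.Geo5
import Pool.Agent.H432.AC.P_VAL
import Pool.Agent.H432.AC.P_EMB1
import Pool.Agent.H432.AC.P_EMB2
import Pool.Agent.H432.AC.P_RAM
import Pool.Agent.H432.AC.P_FINE
import Pool.Agent.H432.AC.P_FINORD
import Pool.Agent.H432.AC.P_DERX
import Pool.Agent.H432.AC.P_DERU
import Pool.Agent.H432.AC.P_SPAN
import Pool.Agent.H432.AC.P_DL
import Pool.Agent.H432.AC.P_LOC
import Pool.Agent.H432.AC.P_TRD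
import Pool.Agent.H432.AC.P_ACL
import Pool.Agent.H432.AC.P_IRR

/-!
The truncated inequality on all curves of bounded degree.
-/

set_option autoImplicit false
set_option linter.unusedVariables false
set_option linter.unusedSectionVars false

namespace Pool.Agent.H432.AC

open NumberField IsDedekindDomain Height Module MvPolynomial Pool.Agent.N750 Pool.Agent.H432.RC
open Pool.Agent.H432.TC (DM DM_fin)
open Pool.Agent.W180.OP (Pl av nrm le_nrm nrm_pos exists_nrm nrm_nonneg)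
open Pool.Agent.Q290.NF (wt wt_nonneg)
open Pool.Agent.Results.MP_4d5ce1_nt.ThinSetsSuffice (AllPoints)

section fixed

variable {k : Type} [Field k] [NumberField k] {M g q w n' : ℕ}

/-- the points of a fixed curve lie on the variety -/
theorem onX {L : Type} [Field L] [Algebra k L] {G : Fin g → MvPolynomial (Fin M) k}
    {P : MvPolynomial (Fin 2) L} {φ : Fin M → MvPolynomial (Fin 2) L}
    (hX : ∀ i, P ∣ aeval φ (G i)) {z : Fin 2 → L} (hz : eval z P = 0) (i : Fin g) :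
    aeval (pt φ z) (G i) = 0 := by
  obtain ⟨R, hR⟩ := hX i
  have h1 := congrArg (eval z) hR
  rw [map_mul, hz, zero_mul] at h1
  have h2 := MvPolynomial.comp_aeval_apply φ
    ((MvPolynomial.aeval z : MvPolynomial (Fin 2) L →ₐ[L] L).restrictScalars k) (G i)
  have h3 : eval z (aeval φ (G i)) = aeval (pt φ z) (G i) := h2
  rw [← h3]
  exact h1

/-- the trivial bound -/
theorem lhs_crude {G : Fin g → MvPolynomial (Fin M) k} {e : Fin g → ℕ}
    (hG : ∀ i, (G i).IsHomogeneous (e i)) (hsm : Sm (n' + 1) G)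
    (F : Fin q → Fin w → MvPolynomial (Fin M) k) (δ : Fin q → ℕ) :
    ∃ C4 : ℝ, 0 ≤ C4 ∧ ∀ (L : Type) [Field L] [NumberField L] [Algebra k L] (x : Fin M → L),
      x ≠ 0 → (∀ i, aeval x (G i) = 0) → ∀ A, IsTB (p := n' + 2) G x A →
      LHS F δ x A ≤ (C4 + ∑ i, (δ i : ℝ)) * logHeight x + finrank k L * C4 := by
  obtain ⟨C4, hC4, hcrude⟩ := crude G e hG hsm
  refine ⟨C4, hC4, fun L _ _ _ x hx hxX A hA => ?_⟩
  have e1 := hcrude L x hx hxX A hA
  have e2 : 0 ≤ logHeight x := logHeight_nonneg _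
  unfold LHS
  have e3 : ∑ i, ((δ i : ℝ) * logHeight x - logHeight (fun j => aeval x (F i j))) ≤
      (∑ i, (δ i : ℝ)) * logHeight x := by
    rw [Finset.sum_mul]
    refine Finset.sum_le_sum fun i _ => ?_
    have : 0 ≤ logHeight (fun j => aeval x (F i j)) := logHeight_nonneg _
    linarith
  have e4 : 0 ≤ ((n' : ℝ) + 2) * logHeight x := by positivity
  rw [add_mul]
  linarith

/-- finitely many points -/
theorem lhs_finite {G : Fin g → MvPolynomial (Fin M) k} {e : Fin g → ℕ}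
    (hG : ∀ i, (G i).IsHomogeneous (e i)) (hsm : Sm (n' + 1) G)
    (F : Fin q → Fin w → MvPolynomial (Fin M) k) (δ : Fin q → ℕ) {L : Type} [Field L]
    [NumberField L] [Algebra k L] {P : MvPolynomial (Fin 2) L}
    {φ : Fin M → MvPolynomial (Fin 2) L} (hX : ∀ i, P ∣ aeval φ (G i))
    (S : Finset (HeightOneSpectrum (𝓞 L))) (ε : ℝ) (hε : 0 < ε)
    (h : ∃ (T : Set (Fin 2 → L)) (C0 : ℝ), T.Finite ∧
      ∀ z : Fin 2 → L, z ∉ T → eval z P = 0 → pt φ z ≠ 0 →
      (∀ i, ∃ j, aeval (pt φ z) (F i j) ≠ 0) → ∀ A, IsTB (p := n' + 2) G (pt φ z) A →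
      LHS F δ (pt φ z) A ≤ wt (fun v => v ∉ S ∧ DM F δ (pt φ z) v) +
        ε * logHeight (pt φ z) + C0) :
    ∃ C0 : ℝ, ∀ z : Fin 2 → L, eval z P = 0 → pt φ z ≠ 0 →
      (∀ i, ∃ j, aeval (pt φ z) (F i j) ≠ 0) → ∀ A, IsTB (p := n' + 2) G (pt φ z) A →
      LHS F δ (pt φ z) A ≤ wt (fun v => v ∉ S ∧ DM F δ (pt φ z) v) +
        ε * logHeight (pt φ z) + C0 := by
  classical
  obtain ⟨C4, hC4, hcrude⟩ := lhs_crude hG hsm F δ
  obtain ⟨T, C0, hT, hmain⟩ := h
  have hpos : ∀ z : Fin 2 → L, 0 ≤ (C4 + ∑ i, (δ i : ℝ)) * logHeight (pt φ z) +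
      finrank k L * C4 := by
    intro z
    have h1 : 0 ≤ logHeight (pt φ z) := logHeight_nonneg _
    have h2 : 0 ≤ ∑ i, (δ i : ℝ) := Finset.sum_nonneg fun i _ => Nat.cast_nonneg _
    positivity
  refine ⟨|C0| + ∑ z ∈ hT.toFinset, ((C4 + ∑ i, (δ i : ℝ)) * logHeight (pt φ z) +
      finrank k L * C4), fun z hz hx hxF A hA => ?_⟩
  have h3 : 0 ≤ ε * logHeight (pt φ z) := mul_nonneg hε.le (logHeight_nonneg _)
  have h4 := wt_nonneg (fun v => v ∉ S ∧ DM F δ (pt φ z) v)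
  have h5 := le_abs_self C0
  have h6 := abs_nonneg C0
  have h7 : 0 ≤ ∑ z ∈ hT.toFinset, ((C4 + ∑ i, (δ i : ℝ)) * logHeight (pt φ z) +
      finrank k L * C4) := Finset.sum_nonneg fun z _ => hpos z
  by_cases hzT : z ∈ T
  · have h1 := hcrude L (pt φ z) hx (onX hX hz) A hA
    have h2 : (C4 + ∑ i, (δ i : ℝ)) * logHeight (pt φ z) + finrank k L * C4 ≤
        ∑ z ∈ hT.toFinset, ((C4 + ∑ i, (δ i : ℝ)) * logHeight (pt φ z) +
          finrank k L * C4) :=
      Finset.single_le_sum (f := fun z => (C4 + ∑ i, (δ i : ℝ)) * logHeight (pt φ z) +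
        finrank k L * C4) (fun z _ => hpos z) (hT.mem_toFinset.2 hzT)
    linarith
  · have h1 := hmain z hzT hz hx hxF A hA
    linarith

/-- constant curves -/
theorem lhs_const {G : Fin g → MvPolynomial (Fin M) k} {e : Fin g → ℕ}
    (hG : ∀ i, (G i).IsHomogeneous (e i)) (hsm : Sm (n' + 1) G)
    (F : Fin q → Fin w → MvPolynomial (Fin M) k) (δ : Fin q → ℕ) {L Ω : Type} [Field L]
    [NumberField L] [Algebra k L] [Field Ω] [Algebra L Ω] {P : MvPolynomial (Fin 2) L}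
    {φ : Fin M → MvPolynomial (Fin 2) L} (hX : ∀ i, P ∣ aeval φ (G i))
    (hcst : ∀ l0 l1, ¬ P ∣ φ l1 → ∃ c0 : Ω, MvPolynomial.map (algebraMap L Ω) P ∣
      MvPolynomial.map (algebraMap L Ω) (φ l0) - C c0 * MvPolynomial.map (algebraMap L Ω) (φ l1))
    (S : Finset (HeightOneSpectrum (𝓞 L))) (ε : ℝ) (hε : 0 < ε) :
    ∃ C0 : ℝ, ∀ z : Fin 2 → L, eval z P = 0 → pt φ z ≠ 0 →
      (∀ i, ∃ j, aeval (pt φ z) (F i j) ≠ 0) → ∀ A, IsTB (p := n' + 2) G (pt φ z) A →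
      LHS F δ (pt φ z) A ≤ wt (fun v => v ∉ S ∧ DM F δ (pt φ z) v) +
        ε * logHeight (pt φ z) + C0 := by
  classical
  obtain ⟨C4, hC4, hcrude⟩ := lhs_crude hG hsm F δ
  by_cases hex : ∃ z0 : Fin 2 → L, eval z0 P = 0 ∧ pt φ z0 ≠ 0
  swap
  · exact ⟨0, fun z hz hx => absurd ⟨z, hz, hx⟩ hex⟩
  obtain ⟨z0, hz0, hx0⟩ := hex
  refine ⟨(C4 + ∑ i, (δ i : ℝ)) * logHeight (pt φ z0) + finrank k L * C4,
    fun z hz hx hxF A hA => ?_⟩
  obtain ⟨l1, hl1⟩ := Function.ne_iff.1 hx0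
  have hP1 : ¬ P ∣ φ l1 := by
    rintro ⟨R, hR⟩
    apply hl1
    show eval z0 (φ l1) = 0
    rw [hR, map_mul, hz0, zero_mul]
  choose c0 hc0 using fun l => hcst l l1 hP1
  have hval : ∀ z : Fin 2 → L, eval z P = 0 → ∀ l, algebraMap L Ω (pt φ z l) =
      c0 l * algebraMap L Ω (pt φ z l1) := by
    intro z hz l
    obtain ⟨R, hR⟩ := hc0 l
    have h1 := congrArg (eval (fun i => algebraMap L Ω (z i))) hR
    rw [map_mul, eval_mp, hz, map_zero, zero_mul, map_sub, map_mul, eval_mp, eval_mp, eval_C] at h1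
    exact sub_eq_zero.1 h1
  have hz1 : pt φ z l1 ≠ 0 := by
    intro h0
    apply hx
    funext l
    have h1 := hval z hz l
    rw [h0, map_zero, mul_zero] at h1
    exact (map_eq_zero _).1 h1
  have hz01 : pt φ z0 l1 ≠ 0 := hl1
  set μ := pt φ z l1 / pt φ z0 l1 with hμ
  have hμ0 : μ ≠ 0 := div_ne_zero hz1 hz01
  have hxx : pt φ z = μ • pt φ z0 := by
    funext l
    apply (algebraMap L Ω).injective
    rw [hval z hz l, Pi.smul_apply, smul_eq_mul, map_mul, hval z0 hz0 l, hμ, map_div₀]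
    have h1 : algebraMap L Ω (pt φ z0 l1) ≠ 0 := (map_ne_zero _).2 hz01
    field_simp
  have h1 := hcrude L (pt φ z) hx (onX hX hz) A hA
  have h2 : logHeight (pt φ z) = logHeight (pt φ z0) := by
    rw [hxx]
    exact logHeight_smul_eq_logHeight _ hμ0
  rw [h2] at h1 ⊢
  have h3 : 0 ≤ ε * logHeight (pt φ z0) := mul_nonneg hε.le (logHeight_nonneg _)
  have h4 := wt_nonneg (fun v => v ∉ S ∧ DM F δ (pt φ z) v)
  linarith

end fixed

/-- **the inequality on all curves of bounded degree** -/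
theorem main_ac {k : Type} [Field k] [NumberField k] {M g q w n' : ℕ}
    (G : Fin g → MvPolynomial (Fin M) k) (e : Fin g → ℕ)
    (hG : ∀ i, (G i).IsHomogeneous (e i)) (hI : (Ideal.span (Set.range G)).IsPrime)
    (hsm : Sm (n' + 1) G) (F : Fin q → Fin w → MvPolynomial (Fin M) k) (δ : Fin q → ℕ)
    (hF : ∀ i j, (F i j).IsHomogeneous (δ i)) (hnc : NCD G F) (N : ℕ) :
    ∃ (mΦ : ℕ) (Φ : MvPolynomial (Fin M) k), Φ.IsHomogeneous mΦ ∧
      Φ ∉ Ideal.span (Set.range G) ∧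
    ∀ (L : Type) [Field L] [NumberField L] [Algebra k L],
    (∀ (E : Type) [Field E] [NumberField E] [Algebra L E], AllPoints E) →
    ∀ (P : MvPolynomial (Fin 2) L) (φ : Fin M → MvPolynomial (Fin 2) L),
      Irreducible (MvPolynomial.map (algebraMap L (AlgebraicClosure L)) P) →
      P.totalDegree ≤ N → (∀ l, (φ l).totalDegree ≤ N) → (∀ i, P ∣ aeval φ (G i)) →
      ¬ P ∣ aeval φ Φ → (∀ i, ∃ j, ¬ P ∣ aeval φ (F i j)) →
    ∀ (S : Finset (HeightOneSpectrum (𝓞 L))) (ε : ℝ), 0 < ε →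
    ∃ C0 : ℝ, ∀ z : Fin 2 → L, eval z P = 0 → pt φ z ≠ 0 →
      (∀ i, ∃ j, aeval (pt φ z) (F i j) ≠ 0) → ∀ A, IsTB (p := n' + 2) G (pt φ z) A →
      LHS F δ (pt φ z) A ≤ wt (fun v => v ∉ S ∧ DM F δ (pt φ z) v) +
        ε * logHeight (pt φ z) + C0 := by
  classical
  obtain ⟨mΦ, Φ, h1, h2, h3⟩ := geoU val emb1 emb2 ram (fine derx deru dl) finord derx deru
    (span derx) dl loc trd acl dvd irr (K := AlgebraicClosure k) G e hG hI hsm F δ hF hnc N
  refine ⟨mΦ, Φ, h1, h2, ?_⟩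
  intro L _ _ _ hall P φ hP hPd hφd hX hΦ hFne S ε hε
  let Ω := AlgebraicClosure k
  let _ : Algebra.IsAlgebraic k L := Algebra.IsAlgebraic.of_finite k L
  let ι : L →ₐ[k] Ω := IsAlgClosed.lift
  let _ : Algebra L Ω := ι.toRingHom.toAlgebra
  have htow : IsScalarTower k L Ω := IsScalarTower.of_algebraMap_eq fun x => (ι.commutes x).symm
  have halg : Algebra.IsAlgebraic L Ω := Algebra.IsAlgebraic.tower_top (K := k) L
  have hclos : IsAlgClosure L Ω := ⟨inferInstance, halg⟩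
  let eqv := IsAlgClosure.equiv L (AlgebraicClosure L) Ω
  have hPΩ : Irreducible (MvPolynomial.map (algebraMap L Ω) P) := by
    have h4 : MvPolynomial.map (algebraMap L Ω) P =
        MvPolynomial.mapEquiv (Fin 2) eqv.toRingEquiv
          (MvPolynomial.map (algebraMap L (AlgebraicClosure L)) P) := by
      have h5 : ((eqv.toRingEquiv : AlgebraicClosure L ≃+* Ω) : AlgebraicClosure L →+* Ω).comp
          (algebraMap L (AlgebraicClosure L)) = algebraMap L Ω :=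
        RingHom.ext fun x => eqv.commutes x
      rw [MvPolynomial.mapEquiv_apply, MvPolynomial.map_map, h5]
    rw [h4]
    exact (MulEquiv.irreducible_iff _).2 hP
  have hdeg : ∀ Q : MvPolynomial (Fin 2) L, (MvPolynomial.map (algebraMap L Ω) Q).totalDegree ≤
      Q.totalDegree := fun Q => Finset.sup_mono (MvPolynomial.support_map_subset _ _)
  obtain ⟨r, hr⟩ := PDESC.exists_rt L Ω
  have hnd : ∀ Q : MvPolynomial (Fin 2) L, ¬ P ∣ Q → ¬ MvPolynomial.map (algebraMap L Ω) P ∣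
      MvPolynomial.map (algebraMap L Ω) Q := fun Q hQ h => hQ (PDESC.dvd_desc r hr h)
  by_cases hnon : ∃ l0 l1, ¬ P ∣ φ l1 ∧ ∀ c0 : Ω, ¬ MvPolynomial.map (algebraMap L Ω) P ∣
      MvPolynomial.map (algebraMap L Ω) (φ l0) - C c0 * MvPolynomial.map (algebraMap L Ω) (φ l1)
  swap
  · push Not at hnon
    exact lhs_const (Ω := Ω) hG hsm F δ hX hnon S ε hε
  obtain ⟨l0, l1, hl1, hnon⟩ := hnon
  have hcert : Cert n' G F δ (MvPolynomial.map (algebraMap L Ω) P)
      (fun l => MvPolynomial.map (algebraMap L Ω) (φ l)) := by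
    refine h3 _ _ hPΩ ((hdeg P).trans hPd) (fun l => (hdeg _).trans (hφd l))
      ⟨l0, l1, hnd _ hl1, hnon⟩ ?_ ?_ ?_
    · intro i
      rw [PDESC.map_aeval']
      exact map_dvd _ (hX i)
    · rw [PDESC.map_aeval']
      exact hnd _ hΦ
    · intro i
      obtain ⟨j, hj⟩ := hFne i
      refine ⟨j, ?_⟩
      rw [PDESC.map_aeval']
      exact hnd _ hj
  obtain ⟨E, iE1, iE2, iE3, iE4, iE5, iE6, iE7, hcE⟩ := desc k L Ω M g q w n' G F δ P φ hcert
  exact lhs_finite hG hsm F δ hX S ε hε (ari3 (E := E) (Ω := Ω) locb finz (ht finz) hsm hPΩ hX l0 l1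
    hl1 hnon hcE (hall E) S ε hε)

end Pool.Agent.H432.AC
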