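import Mathlib
import Pool.Agent.H432.AC.Stm

/-!
# TRD: the function field of a plane curve (proof for project AC)
-/

set_option autoImplicit false

namespace Pool.Agent.H432.AC

namespace PTRD

open MvPolynomial

variable {K F : Type} [Field K] [Field F] [Algebra K F]

lemma succ_ne (c : Fin 2) : c + 1 ≠ c := by
  fin_cases c <;> decide

lemma cases2 (c i : Fin 2) : i = c ∨ i = c + 1 := by
  fin_cases c <;> fin_cases i <;> decide

lemma degreeOf_aeval (r : Polynomial K) (c : Fin 2) :
    degreeOf (c + 1) (Polynomial.aeval (X c : MvPolynomial (Fin 2) K) r) = 0 := by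
  rw [Polynomial.aeval_eq_sum_range]
  apply Nat.le_zero.mp
  refine (degreeOf_sum_le _ _ _).trans ?_
  apply Finset.sup_le
  intro i _
  rw [MvPolynomial.smul_eq_C_mul]
  refine (degreeOf_C_mul_le _ _ _).trans ?_
  rw [degreeOf_X_pow_of_ne _ (succ_ne c)]

/-- The polynomial ring in two variables as polynomials in `X (c + 1)` over `K[X c]`. -/
noncomputable def Phi (K : Type) [Field K] (c : Fin 2) :
    MvPolynomial (Fin 2) K →ₐ[K] Polynomial (Polynomial K) :=
  MvPolynomial.aeval (fun i => if i = c then Polynomial.C Polynomial.X else Polynomial.X)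

/-- The inverse of `Phi` (as a ring homomorphism). -/
noncomputable def Psi (K : Type) [Field K] (c : Fin 2) :
    Polynomial (Polynomial K) →+* MvPolynomial (Fin 2) K :=
  Polynomial.eval₂RingHom
    ((Polynomial.aeval (X c : MvPolynomial (Fin 2) K) : Polynomial K →ₐ[K] _) :
      Polynomial K →+* MvPolynomial (Fin 2) K) (X (c + 1))

lemma Psi_Phi (c : Fin 2) (p : MvPolynomial (Fin 2) K) : Psi K c (Phi K c p) = p := by
  induction p using MvPolynomial.induction_on with
  | C a =>
    have h : Phi K c (C a) = Polynomial.C (Polynomial.C a) := by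
      rw [Phi, MvPolynomial.aeval_C]
      rfl
    rw [h]
    simp [Psi]
  | add p q hp hq => rw [map_add, map_add, hp, hq]
  | mul_X p i hp =>
    rw [map_mul, map_mul, hp]
    congr 1
    rcases cases2 c i with h | h
    · subst h
      simp [Phi, Psi]
    · subst h
      simp [Phi, Psi]

lemma Phi_injective (c : Fin 2) : Function.Injective (Phi K c) := by
  intro p q h
  rw [← Psi_Phi c p, h, Psi_Phi]

lemma X_transc (c : Fin 2) (r : Polynomial K)
    (h : Polynomial.aeval (X c : MvPolynomial (Fin 2) K) r = 0) : r = 0 := by
  have h1 : Phi K c (Polynomial.aeval (X c : MvPolynomial (Fin 2) K) r) = Polynomial.C r := by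
    rw [← Polynomial.aeval_algHom_apply]
    have h2 : Phi K c (X c) = Polynomial.C Polynomial.X := by
      rw [Phi, MvPolynomial.aeval_X, if_pos rfl]
    rw [h2]
    have h3 : (Polynomial.aeval (Polynomial.C Polynomial.X : Polynomial (Polynomial K)) :
        Polynomial K →ₐ[K] Polynomial (Polynomial K)) =
        (IsScalarTower.toAlgHom K (Polynomial K) (Polynomial (Polynomial K))) := by
      apply Polynomial.algHom_ext
      simp
    rw [h3]
    rfl
  rw [h, map_zero] at h1
  exact Polynomial.C_eq_zero.mp h1.symm

lemma transc (P : MvPolynomial (Fin 2) K) (c : Fin 2) (hd : 0 < degreeOf (c + 1) P)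
    (π : MvPolynomial (Fin 2) K →ₐ[K] F) (hπ : ∀ x, π x = 0 ↔ P ∣ x) :
    Transcendental K (π (X c)) := by
  rintro ⟨r, hr0, hr⟩
  rw [Polynomial.aeval_algHom_apply] at hr
  obtain ⟨Q, hQ⟩ := (hπ _).mp hr
  have hR : Polynomial.aeval (X c : MvPolynomial (Fin 2) K) r ≠ 0 := fun h => hr0 (X_transc c r h)
  have hP0 : P ≠ 0 := by
    rintro rfl
    simp at hQ
    exact hR hQ
  have hQ0 : Q ≠ 0 := by
    rintro rfl
    rw [mul_zero] at hQ
    exact hR hQ
  have h1 := degreeOf_mul_eq (n := c + 1) hP0 hQ0
  rw [← hQ, degreeOf_aeval] at h1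
  omega

open IntermediateField in
lemma alg (P : MvPolynomial (Fin 2) K) (hP : P ≠ 0) (c : Fin 2)
    (π : MvPolynomial (Fin 2) K →ₐ[K] F) (hP0 : π P = 0)
    (ht : Transcendental K (π (X c))) :
    IsAlgebraic (IntermediateField.adjoin K {π (X c)}) (π (X (c + 1))) := by
  set x : IntermediateField.adjoin K {π (X c)} := AdjoinSimple.gen K (π (X c)) with hx
  have hxc : (x : F) = π (X c) := AdjoinSimple.coe_gen K _
  let f : Polynomial K →+* IntermediateField.adjoin K {π (X c)} :=
    ((Polynomial.aeval x : Polynomial K →ₐ[K] _) : Polynomial K →+* _)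
  have hf : Function.Injective f := by
    rw [injective_iff_map_eq_zero]
    intro r hr
    by_contra hne
    apply ht
    refine ⟨r, hne, ?_⟩
    have h1 : ((Polynomial.aeval x r : IntermediateField.adjoin K {π (X c)}) : F) = 0 := by
      have : Polynomial.aeval x r = 0 := hr
      rw [this]
      rfl
    rw [← hxc]
    rw [← h1]
    exact Polynomial.aeval_algebraMap_apply F x r
  refine ⟨(Phi K c P).map f, ?_, ?_⟩
  · rw [Ne, Polynomial.map_eq_zero_iff hf]
    intro h
    apply hP
    apply Phi_injective c
    rw [h, map_zero]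
  · -- the two homomorphisms agree
    have key : ∀ p : MvPolynomial (Fin 2) K,
        Polynomial.aeval (π (X (c + 1))) ((Phi K c p).map f) = π p := by
      intro p
      induction p using MvPolynomial.induction_on with
      | C a =>
        have h : Phi K c (C a) = Polynomial.C (Polynomial.C a) := by
          rw [Phi, MvPolynomial.aeval_C]
          rfl
        rw [h, Polynomial.map_C, Polynomial.aeval_C]
        have h1 : f (Polynomial.C a) = algebraMap K _ a := by
          change Polynomial.aeval x (Polynomial.C a) = _
          rw [Polynomial.aeval_C]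
        rw [h1]
        rw [← MvPolynomial.algebraMap_eq, AlgHom.commutes]
        rfl
      | add p q hp hq => rw [map_add, Polynomial.map_add, map_add, map_add, hp, hq]
      | mul_X p i hp =>
        rw [map_mul, Polynomial.map_mul, map_mul, map_mul, hp]
        congr 1
        rcases cases2 c i with h | h
        · subst h
          have h2 : Phi K i (X i) = Polynomial.C Polynomial.X := by
            rw [Phi, MvPolynomial.aeval_X, if_pos rfl]
          rw [h2, Polynomial.map_C, Polynomial.aeval_C]
          have h1 : f Polynomial.X = x := by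
            change Polynomial.aeval x Polynomial.X = _
            rw [Polynomial.aeval_X]
          rw [h1]
          exact hxc
        · subst h
          have h2 : Phi K c (X (c + 1)) = Polynomial.X := by
            rw [Phi, MvPolynomial.aeval_X, if_neg (succ_ne c)]
          rw [h2, Polynomial.map_X, Polynomial.aeval_X]
    rw [key, hP0]

open IntermediateField in
lemma top_of (c : Fin 2) (π : MvPolynomial (Fin 2) K →ₐ[K] F)
    (hs : ∀ f : F, ∃ x y, π y ≠ 0 ∧ f = π x / π y) :
    IntermediateField.adjoin (IntermediateField.adjoin K {π (X c)}) {π (X (c + 1))} = ⊤ := by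
  rw [eq_top_iff]
  intro f _
  set L := IntermediateField.adjoin (IntermediateField.adjoin K {π (X c)}) {π (X (c + 1))} with hL
  have hx : π (X c) ∈ L := by
    have h1 : π (X c) ∈ IntermediateField.adjoin K {π (X c)} := mem_adjoin_simple_self K _
    exact L.algebraMap_mem ⟨_, h1⟩
  have hy : π (X (c + 1)) ∈ L := mem_adjoin_simple_self _ _
  have key : ∀ p : MvPolynomial (Fin 2) K, π p ∈ L := by
    intro p
    induction p using MvPolynomial.induction_on with
    | C a =>
      rw [← MvPolynomial.algebraMap_eq, AlgHom.commutes]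
      have h1 : algebraMap K F a ∈ IntermediateField.adjoin K {π (X c)} :=
        (IntermediateField.adjoin K {π (X c)}).algebraMap_mem a
      exact L.algebraMap_mem ⟨_, h1⟩
    | add p q hp hq => rw [map_add]; exact add_mem hp hq
    | mul_X p i hp =>
      rw [map_mul]
      refine mul_mem hp ?_
      rcases cases2 c i with h | h
      · rw [h]; exact hx
      · rw [h]; exact hy
  obtain ⟨a, b, -, rfl⟩ := hs f
  exact div_mem (key a) (key b)

end PTRD

open PTRD in
theorem trd : S_TRD := by
  intro K F _ _ _ P hP c hd π hπ hs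
  have ht := transc P c hd π hπ
  refine ⟨ht, ?_⟩
  have hP0 : π P = 0 := (hπ P).mpr dvd_rfl
  have ha := alg P hP.ne_zero c π hP0 ht
  have hi : IsIntegral (IntermediateField.adjoin K {π (MvPolynomial.X c)})
      (π (MvPolynomial.X (c + 1))) := ha.isIntegral
  have hfin := IntermediateField.adjoin.finiteDimensional hi
  rw [top_of c π hs] at hfin
  exact IntermediateField.topEquiv.toLinearEquiv.finiteDimensional

end Pool.Agent.H432.AC
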